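import Mathlib
import Pool.Agent.Helper47.Spread.Defs

/-!
# PW-AC1: base change of projective spaces along a field extension

Hints.  `p := Proj.map` of the graded ring homomorphism `MvPolynomial.map (algebraMap F F')`
(`Mathlib/AlgebraicGeometry/ProjectiveSpectrum/Functor.lean`).  That the square is cartesian can be
checked over the affine open cover `D₊(x_i)` of `projSpace F n` (its inverse image is `D₊(x_i)`):
there it says that `F' ⊗_F (F[x]_{x_i})₀ → (F'[x]_{x_i})₀` is an isomorphism.  (Surjective: every
element is `f / x_i^m` with `f` a combination of monomials of degree `m`; injective: multiply by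
`x_i^m` and compare coefficients.  Or: `(F[x]_{x_i})₀` is the polynomial ring in the `x_l / x_i`.)
One may also use `isPullback_of_openCover`-type lemmas, or show that the canonical morphism
`projSpace F' n ⟶ pullback (projSpace F n).hom (specMap F F')` is an isomorphism locally on the target.
-/

universe u v w

open CategoryTheory AlgebraicGeometry Limits

namespace Pool.Agent.Helper11.PW

open Pool.Agent.Helper10 Pool.Agent.Helper47.Spread

attribute [local instance] MvPolynomial.gradedAlgebra

open MvPolynomial HomogeneousLocalization TensorProduct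

namespace AC1

section

variable (F F' : Type u) [Field F] [Field F'] [Algebra F F'] (n : ℕ)

/-- The graded ring homomorphism `F[x] → F'[x]`. -/
noncomputable def gmap :
    homogeneousSubmodule (Fin (n + 1)) F →+*ᵍ homogeneousSubmodule (Fin (n + 1)) F' where
  __ := MvPolynomial.map (σ := Fin (n + 1)) (algebraMap F F')
  map_mem := by
    intro i x hx
    rw [mem_homogeneousSubmodule] at hx
    exact (mem_homogeneousSubmodule _ _).mpr (hx.map _)

lemma gmap_apply (x : MvPolynomial (Fin (n + 1)) F) :
    gmap F F' n x = MvPolynomial.map (algebraMap F F') x := rfl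

lemma gmap_X (i : Fin (n + 1)) : gmap F F' n (X i) = X i := by
  rw [gmap_apply, map_X]

lemma X_mem (i : Fin (n + 1)) : (X i : MvPolynomial (Fin (n + 1)) F) ∈
    homogeneousSubmodule (Fin (n + 1)) F 1 :=
  (mem_homogeneousSubmodule _ _).mpr (isHomogeneous_X F i)

lemma irrelevant_le :
    (HomogeneousIdeal.irrelevant (homogeneousSubmodule (Fin (n + 1)) F)).toIdeal ≤
      Ideal.span (Set.range (fun i : Fin (n + 1) => (X i : MvPolynomial (Fin (n + 1)) F))) := by
  rw [HomogeneousIdeal.toIdeal_irrelevant_le]
  intro i hi x hx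
  have hx' : x.IsHomogeneous i := (mem_homogeneousSubmodule _ _).mp hx
  change x ∈ Ideal.span _
  rw [← Set.image_univ, mem_ideal_span_X_image]
  intro m hm
  by_contra hcon
  push Not at hcon
  have hm0 : m = 0 := by
    ext j
    exact hcon j (Set.mem_univ j)
  have h1 := hx' (mem_support_iff.mp hm)
  rw [hm0] at h1
  simp at h1
  omega

lemma map_irrelevant_le :
    HomogeneousIdeal.irrelevant (homogeneousSubmodule (Fin (n + 1)) F') ≤
      (HomogeneousIdeal.irrelevant (homogeneousSubmodule (Fin (n + 1)) F)).map (gmap F F' n) := by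
  change (HomogeneousIdeal.irrelevant (homogeneousSubmodule (Fin (n + 1)) F')).toIdeal ≤ _
  refine (irrelevant_le F' n).trans ?_
  rw [Ideal.span_le]
  rintro _ ⟨i, rfl⟩
  have h1 : (X i : MvPolynomial (Fin (n + 1)) F) ∈
      (HomogeneousIdeal.irrelevant (homogeneousSubmodule (Fin (n + 1)) F)) :=
    HomogeneousIdeal.mem_irrelevant_of_mem _ zero_lt_one (X_mem F n i)
  have h2 := Ideal.mem_map_of_mem (gmap F F' n) h1
  rw [gmap_X] at h2
  exact h2

/-- `F → (F[x]_{x_i})₀` -/
noncomputable def al (i : Fin (n + 1)) :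
    F →+* Away (homogeneousSubmodule (Fin (n + 1)) F) (X i) :=
  (fromZeroRingHom (homogeneousSubmodule (Fin (n + 1)) F) _).comp
    (algebraMap F (homogeneousSubmodule (Fin (n + 1)) F 0))

/-- `F' → (F'[x]_{x_i})₀` -/
noncomputable def be (i : Fin (n + 1)) :
    F' →+* Away (homogeneousSubmodule (Fin (n + 1)) F') (gmap F F' n (X i)) :=
  (fromZeroRingHom (homogeneousSubmodule (Fin (n + 1)) F') _).comp
    (algebraMap F' (homogeneousSubmodule (Fin (n + 1)) F' 0))

/-- `(F[x]_{x_i})₀ → (F'[x]_{x_i})₀` -/
noncomputable def ph (i : Fin (n + 1)) :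
    Away (homogeneousSubmodule (Fin (n + 1)) F) (X i) →+*
      Away (homogeneousSubmodule (Fin (n + 1)) F') (gmap F F' n (X i)) :=
  Away.map (gmap F F' n) (X i)

lemma al_val (i : Fin (n + 1)) (c : F) : (al F n i c).val =
    Localization.mk (C c : MvPolynomial (Fin (n + 1)) F) 1 := rfl

lemma be_val (i : Fin (n + 1)) (c : F') : (be F F' n i c).val =
    Localization.mk (C c : MvPolynomial (Fin (n + 1)) F') 1 := rfl

lemma ph_mk (i : Fin (n + 1)) (m : ℕ) (x : MvPolynomial (Fin (n + 1)) F) (hx) :
    ph F F' n i (Away.mk _ (X_mem F n i) m x hx) =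
      Away.mk _ (GradedRingHom.map_mem _ (X_mem F n i)) m (gmap F F' n x)
        (GradedRingHom.map_mem _ hx) := by
  rw [ph, Away.map_mk]

lemma al_eq (i : Fin (n + 1)) (c : F) : al F n i c =
    Away.mk _ (X_mem F n i) 0 (C c) (by
      rw [zero_smul]
      exact (mem_homogeneousSubmodule _ _).mpr (isHomogeneous_C _ _)) := by
  ext
  rw [al_val, Away.val_mk]
  congr 1

lemma be_eq (i : Fin (n + 1)) (c : F') : be F F' n i c =
    Away.mk _ (GradedRingHom.map_mem (gmap F F' n) (X_mem F n i)) 0 (C c) (by
      rw [zero_smul]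
      exact (mem_homogeneousSubmodule _ _).mpr (isHomogeneous_C _ _)) := by
  ext
  rw [be_val, Away.val_mk]
  congr 1

lemma comm_sq (i : Fin (n + 1)) :
    (ph F F' n i).comp (al F n i) = (be F F' n i).comp (algebraMap F F') := by
  ext c
  rw [RingHom.comp_apply, RingHom.comp_apply, al_eq, ph_mk, be_eq, Away.val_mk, Away.val_mk]
  simp only [gmap_apply, map_C]

/-- the map on the full localizations -/
noncomputable def ps (i : Fin (n + 1)) :
    Localization (Submonoid.powers (X i : MvPolynomial (Fin (n + 1)) F)) →+*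
      Localization (Submonoid.powers (gmap F F' n (X i))) :=
  IsLocalization.map _ (MvPolynomial.map (σ := Fin (n + 1)) (algebraMap F F'))
    (M := Submonoid.powers (X i : MvPolynomial (Fin (n + 1)) F))
    (T := Submonoid.powers (gmap F F' n (X i)))
    (by rintro _ ⟨m, rfl⟩; exact ⟨m, by simp [gmap_apply]⟩)

lemma ps_mk (i : Fin (n + 1)) (m : ℕ) (x : MvPolynomial (Fin (n + 1)) F) :
    ps F F' n i (Localization.mk x ⟨X i ^ m, by use m⟩) =
      Localization.mk (gmap F F' n x) ⟨gmap F F' n (X i) ^ m, by use m⟩ := by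
  rw [ps, Localization.mk_eq_mk', Localization.mk_eq_mk', IsLocalization.map_mk']
  congr 1
  exact Subtype.ext (by simp [gmap_apply])

lemma ps_val (i : Fin (n + 1)) (x : Away (homogeneousSubmodule (Fin (n + 1)) F) (X i)) :
    ps F F' n i x.val = (ph F F' n i x).val := by
  obtain ⟨m, a, ha, rfl⟩ := Away.mk_surjective _ (X_mem F n i) x
  rw [ph_mk, Away.val_mk, Away.val_mk, ps_mk]
  rfl


section

variable (i : Fin (n + 1))

/-- `F[x]_{x_i}` -/
abbrev LP := Localization (Submonoid.powers (X i : MvPolynomial (Fin (n + 1)) F))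

/-- `F'[x]_{x_i}` -/
abbrev LQ := Localization (Submonoid.powers (gmap F F' n (X i)))

/-- the algebra structure -/
@[reducible] noncomputable def algLPLQ : Algebra (LP F n i) (LQ F F' n i) := (ps F F' n i).toAlgebra

attribute [local instance] MvPolynomial.algebraMvPolynomial algLPLQ

instance : IsScalarTower F F' (LQ F F' n i) := inferInstance

lemma tower1 : IsScalarTower (MvPolynomial (Fin (n + 1)) F) (LP F n i) (LQ F F' n i) := by
  refine .of_algebraMap_eq' ?_
  change _ = (ps F F' n i).comp (algebraMap (MvPolynomial (Fin (n + 1)) F) (LP F n i))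
  rw [ps, IsLocalization.map_comp]
  rfl

instance : IsScalarTower F (MvPolynomial (Fin (n + 1)) F) (MvPolynomial (Fin (n + 1)) F') :=
  .of_algebraMap_eq' (by
    ext c : 1
    change algebraMap F (MvPolynomial (Fin (n + 1)) F') c = MvPolynomial.map (algebraMap F F') (C c)
    rw [map_C]
    rfl)

lemma towerPQ : IsScalarTower (MvPolynomial (Fin (n + 1)) F) (MvPolynomial (Fin (n + 1)) F')
    (LQ F F' n i) := inferInstance

lemma tower2 : IsScalarTower F (LP F n i) (LQ F F' n i) := by
  have := tower1 F F' n i
  refine .of_algebraMap_eq' ?_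
  rw [IsScalarTower.algebraMap_eq F (MvPolynomial (Fin (n + 1)) F) (LP F n i), ← RingHom.comp_assoc,
    ← IsScalarTower.algebraMap_eq (MvPolynomial (Fin (n + 1)) F) (LP F n i) (LQ F F' n i)]
  rw [IsScalarTower.algebraMap_eq (MvPolynomial (Fin (n + 1)) F) (MvPolynomial (Fin (n + 1)) F')
    (LQ F F' n i), RingHom.comp_assoc, ← IsScalarTower.algebraMap_eq F]
  exact IsScalarTower.algebraMap_eq F (MvPolynomial (Fin (n + 1)) F') (LQ F F' n i)

lemma isLoc : IsLocalization (Algebra.algebraMapSubmonoid (MvPolynomial (Fin (n + 1)) F')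
    (Submonoid.powers (X i : MvPolynomial (Fin (n + 1)) F))) (LQ F F' n i) := by
  rw [Algebra.algebraMapSubmonoid_powers]
  change IsLocalization (Submonoid.powers (gmap F F' n (X i))) _
  infer_instance

lemma isPushout_loc :
    haveI := tower2 F F' n i
    Algebra.IsPushout F F' (LP F n i) (LQ F F' n i) := by
  have := tower1 F F' n i
  have := tower2 F F' n i
  have := towerPQ F F' n i
  have := isLoc F F' n i
  have h1 : Algebra.IsPushout (MvPolynomial (Fin (n + 1)) F) (MvPolynomial (Fin (n + 1)) F')
      (LP F n i) (LQ F F' n i) :=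
    Algebra.isPushout_of_isLocalization (Submonoid.powers (X i : MvPolynomial (Fin (n + 1)) F)) _ _ _
  have h2 := (Algebra.IsPushout.comp_iff F (MvPolynomial (Fin (n + 1)) F) F'
    (MvPolynomial (Fin (n + 1)) F') (T := LP F n i) (T' := LQ F F' n i)).mpr h1.symm
  exact h2.symm

/-- `(F[x]_{x_i})₀` -/
def AP : Type u := Away (homogeneousSubmodule (Fin (n + 1)) F) (X i)

noncomputable instance : CommRing (AP F n i) :=
  inferInstanceAs (CommRing (Away (homogeneousSubmodule (Fin (n + 1)) F) (X i)))

/-- `(F'[x]_{x_i})₀` -/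
def AQ : Type u := Away (homogeneousSubmodule (Fin (n + 1)) F') (gmap F F' n (X i))

noncomputable instance : CommRing (AQ F F' n i) :=
  inferInstanceAs (CommRing (Away (homogeneousSubmodule (Fin (n + 1)) F') (gmap F F' n (X i))))

/-- `F → (F[x]_{x_i})₀` -/
noncomputable def al' : F →+* AP F n i := al F n i

/-- `F' → (F'[x]_{x_i})₀` -/
noncomputable def be' : F' →+* AQ F F' n i := be F F' n i

/-- `(F[x]_{x_i})₀ → (F'[x]_{x_i})₀` -/
noncomputable def ph' : AP F n i →+* AQ F F' n i := ph F F' n i

/-- algebra structures -/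
@[reducible] noncomputable def algAP : Algebra F (AP F n i) := (al' F n i).toAlgebra

/-- algebra structures -/
@[reducible] noncomputable def algAQ : Algebra F' (AQ F F' n i) := (be' F F' n i).toAlgebra

/-- algebra structures -/
@[reducible] noncomputable def algAPAQ : Algebra (AP F n i) (AQ F F' n i) :=
  (ph' F F' n i).toAlgebra

/-- algebra structures -/
@[reducible] noncomputable def algFAQ : Algebra F (AQ F F' n i) :=
  ((ph' F F' n i).comp (al' F n i)).toAlgebra

attribute [local instance] algAP algAQ algAPAQ algFAQ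

lemma tower3 : IsScalarTower F (AP F n i) (AQ F F' n i) := .of_algebraMap_eq' rfl

lemma tower4 : IsScalarTower F F' (AQ F F' n i) := .of_algebraMap_eq' (comm_sq F F' n i)

attribute [local instance] tower3 tower4 tower2

/-- the comparison map -/
noncomputable def Ph : F' ⊗[F] (AP F n i) →ₐ[F'] AQ F F' n i :=
  Algebra.TensorProduct.lift (Algebra.ofId F' (AQ F F' n i))
    (IsScalarTower.toAlgHom F (AP F n i) (AQ F F' n i)) (fun _ _ => Commute.all _ _)

/-- the comparison map -/
noncomputable def Ph2 : F' ⊗[F] (LP F n i) →ₐ[F'] LQ F F' n i :=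
  Algebra.TensorProduct.lift (Algebra.ofId F' (LQ F F' n i))
    (IsScalarTower.toAlgHom F (LP F n i) (LQ F F' n i)) (fun _ _ => Commute.all _ _)

lemma Ph2_injective : Function.Injective (Ph2 F F' n i) := by
  have := isPushout_loc F F' n i
  have h1 : (Ph2 F F' n i : _ → _) = (Algebra.IsPushout.equiv F F' (LP F n i) (LQ F F' n i)) := by
    funext x
    induction x using TensorProduct.induction_on with
    | zero => simp
    | tmul a b =>
      rw [Algebra.IsPushout.equiv_tmul, Ph2, Algebra.TensorProduct.lift_tmul]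
      rfl
    | add x y hx hy => rw [map_add, map_add, hx, hy]
  rw [h1]
  exact (Algebra.IsPushout.equiv F F' (LP F n i) (LQ F F' n i)).injective

/-- the inclusion -/
noncomputable def valP : AP F n i →ₐ[F] LP F n i where
  toFun := HomogeneousLocalization.val
  map_add' := HomogeneousLocalization.val_add
  map_mul' := HomogeneousLocalization.val_mul
  map_one' := HomogeneousLocalization.val_one
  map_zero' := HomogeneousLocalization.val_zero
  commutes' := by
    intro c
    change (al F n i c).val = _
    rw [al_val, IsScalarTower.algebraMap_eq F (MvPolynomial (Fin (n + 1)) F) (LP F n i),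
      RingHom.comp_apply, ← Localization.mk_one_eq_algebraMap]
    rfl

/-- the inclusion -/
noncomputable def valQ : AQ F F' n i →ₐ[F'] LQ F F' n i where
  toFun := HomogeneousLocalization.val
  map_add' := HomogeneousLocalization.val_add
  map_mul' := HomogeneousLocalization.val_mul
  map_one' := HomogeneousLocalization.val_one
  map_zero' := HomogeneousLocalization.val_zero
  commutes' := by
    intro c
    change (be F F' n i c).val = _
    rw [be_val, IsScalarTower.algebraMap_eq F' (MvPolynomial (Fin (n + 1)) F') (LQ F F' n i),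
      RingHom.comp_apply, ← Localization.mk_one_eq_algebraMap]
    rfl

lemma valP_injective : Function.Injective (valP F n i) :=
  HomogeneousLocalization.val_injective _

lemma Ph_comm (t : F' ⊗[F] (AP F n i)) :
    valQ F F' n i (Ph F F' n i t) = Ph2 F F' n i (LinearMap.lTensor F' (valP F n i).toLinearMap t) := by
  induction t using TensorProduct.induction_on with
  | zero => simp
  | tmul a b =>
    rw [LinearMap.lTensor_tmul, Ph, Ph2, Algebra.TensorProduct.lift_tmul,
      Algebra.TensorProduct.lift_tmul, map_mul]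
    congr 1
    exact (ps_val F F' n i b).symm
  | add x y hx hy => rw [map_add, map_add, map_add, map_add, hx, hy]

lemma Ph_injective : Function.Injective (Ph F F' n i) := by
  have h1 : Function.Injective (LinearMap.lTensor F' (valP F n i).toLinearMap) :=
    Module.Flat.lTensor_preserves_injective_linearMap _ (valP_injective F n i)
  intro x y hxy
  apply h1
  apply Ph2_injective
  rw [← Ph_comm, ← Ph_comm, hxy]

/-- fractions -/
noncomputable def mkAP (m : ℕ) (x : MvPolynomial (Fin (n + 1)) F)
    (hx : x ∈ homogeneousSubmodule (Fin (n + 1)) F (m • 1)) : AP F n i :=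
  Away.mk _ (X_mem F n i) m x hx

lemma Ph_surjective : Function.Surjective (Ph F F' n i) := by
  intro y
  obtain ⟨m, a, ha, rfl⟩ := Away.mk_surjective (homogeneousSubmodule (Fin (n + 1)) F')
    (GradedRingHom.map_mem (gmap F F' n) (X_mem F n i)) y
  have ha' : a.IsHomogeneous (m • 1) := (mem_homogeneousSubmodule _ _).mp ha
  -- each monomial
  have hmon : ∀ d ∈ a.support, (monomial d (1 : F)) ∈
      homogeneousSubmodule (Fin (n + 1)) F (m • 1) := by
    intro d hd
    refine (mem_homogeneousSubmodule _ _).mpr (isHomogeneous_monomial _ ?_)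
    have := ha' (mem_support_iff.mp hd)
    rwa [Finsupp.degree_eq_weight_one]
  classical
  refine ⟨∑ d ∈ a.support.attach, (a.coeff d.1) ⊗ₜ[F]
    (mkAP F n i m (monomial d.1 (1 : F)) (hmon d.1 d.2)), ?_⟩
  have hinj : Function.Injective (valQ F F' n i) := HomogeneousLocalization.val_injective _
  apply hinj
  rw [map_sum, map_sum]
  have hterm : ∀ d ∈ a.support.attach, valQ F F' n i (Ph F F' n i ((a.coeff d.1) ⊗ₜ[F]
      (mkAP F n i m (monomial d.1 (1 : F)) (hmon d.1 d.2)))) =
      Localization.mk (monomial d.1 (a.coeff d.1)) ⟨gmap F F' n (X i) ^ m, by use m⟩ := by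
    intro d _
    rw [Ph, Algebra.TensorProduct.lift_tmul, map_mul]
    have e1 : valQ F F' n i (Algebra.ofId F' (AQ F F' n i) (a.coeff d.1)) =
        Localization.mk (C (a.coeff d.1)) 1 := rfl
    have e2 : valQ F F' n i (IsScalarTower.toAlgHom F (AP F n i) (AQ F F' n i)
        (mkAP F n i m (monomial d.1 (1 : F)) (hmon d.1 d.2))) =
        Localization.mk (gmap F F' n (monomial d.1 (1 : F))) ⟨gmap F F' n (X i) ^ m, by use m⟩ := by
      change (ph F F' n i (Away.mk _ (X_mem F n i) m _ (hmon d.1 d.2))).val = _
      rw [ph_mk, Away.val_mk]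
      rfl
    have e3 : gmap F F' n (monomial d.1 (1 : F)) = monomial d.1 (1 : F') := by
      rw [gmap_apply, map_monomial, map_one]
    rw [e1, e2, Localization.mk_mul, e3, C_mul_monomial, mul_one, one_mul]
  rw [Finset.sum_congr rfl hterm, ← Localization.mk_sum,
    Finset.sum_attach a.support (fun d => monomial d (a.coeff d)), ← as_sum]
  rfl

/-- The affine pushout square. -/
lemma affine_isPushout :
    IsPushout (CommRingCat.ofHom (algebraMap F F')) (CommRingCat.ofHom (al F n i))
      (CommRingCat.ofHom (be F F' n i)) (CommRingCat.ofHom (ph F F' n i)) := by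
  have h : Algebra.IsPushout F F' (AP F n i) (AQ F F' n i) := by
    refine ⟨IsBaseChange.of_equiv (LinearEquiv.ofBijective (Ph F F' n i).toLinearMap
      ⟨Ph_injective F F' n i, Ph_surjective F F' n i⟩) ?_⟩
    intro x
    change Ph F F' n i _ = _
    rw [Ph, Algebra.TensorProduct.lift_tmul, map_one, one_mul]
    rfl
  exact CommRingCat.isPushout_iff_isPushout.mpr h

end

section charts

variable (i : Fin (n + 1))

/-- the chart of `P^n_F` -/
noncomputable def chA : Spec (CommRingCat.of (Away (homogeneousSubmodule (Fin (n + 1)) F) (X i))) ⟶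
    Proj (homogeneousSubmodule (Fin (n + 1)) F) :=
  Proj.awayι (homogeneousSubmodule (Fin (n + 1)) F) (X i) (X_mem F n i) one_pos

instance : IsOpenImmersion (chA F n i) := by unfold chA; infer_instance

/-- the chart of `P^n_{F'}` -/
noncomputable def chB :
    Spec (CommRingCat.of (Away (homogeneousSubmodule (Fin (n + 1)) F') (gmap F F' n (X i)))) ⟶
    Proj (homogeneousSubmodule (Fin (n + 1)) F') :=
  Proj.awayι (homogeneousSubmodule (Fin (n + 1)) F') (gmap F F' n (X i))
    (GradedRingHom.map_mem (gmap F F' n) (X_mem F n i)) one_pos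

instance : IsOpenImmersion (chB F F' n i) := by unfold chB; infer_instance

/-- the morphism `P^n_{F'} ⟶ P^n_F`. -/
noncomputable def pMap : Proj (homogeneousSubmodule (Fin (n + 1)) F') ⟶
    Proj (homogeneousSubmodule (Fin (n + 1)) F) :=
  Proj.map (gmap F F' n) (map_irrelevant_le F F' n)

lemma chB_pMap : chB F F' n i ≫ pMap F F' n =
    Spec.map (CommRingCat.ofHom (ph F F' n i)) ≫ chA F n i :=
  Proj.awayι_comp_map (gmap F F' n) (map_irrelevant_le F F' n) one_pos (X i) (X_mem F n i)

lemma chart_isPullback :
    IsPullback (Spec.map (CommRingCat.ofHom (ph F F' n i))) (chB F F' n i) (chA F n i)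
      (pMap F F' n) := by
  refine IsOpenImmersion.isPullback _ _ _ _ (chB_pMap F F' n i) ?_
  have h1 : (chA F n i).opensRange = Proj.basicOpen _ (X i) := Proj.opensRange_awayι _ _ _ _
  have h2 : (chB F F' n i).opensRange = Proj.basicOpen _ (gmap F F' n (X i)) :=
    Proj.opensRange_awayι _ _ _ _
  rw [h1, h2]
  exact Proj.map_preimage_basicOpen _ _ _

/-- the structure morphism -/
noncomputable def prA : Proj (homogeneousSubmodule (Fin (n + 1)) F) ⟶ Spec (CommRingCat.of F) :=
  Proj.toSpecZero (homogeneousSubmodule (Fin (n + 1)) F) ≫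
    Spec.map (CommRingCat.ofHom (algebraMap F (homogeneousSubmodule (Fin (n + 1)) F 0)))

lemma chA_hom : chA F n i ≫ prA F n = Spec.map (CommRingCat.ofHom (al F n i)) := by
  rw [prA, chA, Proj.awayι_toSpecZero_assoc, ← Spec.map_comp]
  rfl

lemma chB_hom : chB F F' n i ≫ prA F' n =
    Spec.map (CommRingCat.ofHom (be F F' n i)) := by
  rw [prA, chB, Proj.awayι_toSpecZero_assoc, ← Spec.map_comp]
  rfl

lemma big_isPullback : IsPullback (Spec.map (CommRingCat.ofHom (ph F F' n i)))
      (Spec.map (CommRingCat.ofHom (be F F' n i))) (Spec.map (CommRingCat.ofHom (al F n i)))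
      (specMap F F') :=
  isPullback_SpecMap_of_isPushout _ _ _ _ (affine_isPushout F F' n i).flip

end charts

end

end AC1

open AC1 in
/-- **PW-AC1.** -/
theorem projSpace_baseChange (F F' : Type u) [Field F] [Field F'] [Algebra F F'] (n : ℕ) :
    ∃ p : (projSpace F' n).left ⟶ (projSpace F n).left,
      IsPullback p (projSpace F' n).hom (projSpace F n).hom (specMap F F') := by
  refine ⟨pMap F F' n, ?_⟩
  let 𝒰 := (Proj.affineOpenCoverOfIrrelevantLESpan (homogeneousSubmodule (Fin (n + 1)) F)
    (fun i : Fin (n + 1) => (X i : MvPolynomial (Fin (n + 1)) F)) (m := fun _ => 1)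
    (X_mem F n) (fun _ => one_pos) (irrelevant_le F n)).openCover
  refine Scheme.isPullback_of_openCover _ _ _ _ 𝒰 ?_
  intro (i : Fin (n + 1))
  have hsq := chart_isPullback F F' n i
  change IsPullback (pullback.snd (pMap F F' n) (chA F n i))
    (pullback.fst (pMap F F' n) (chA F n i) ≫ prA F' n)
    (chA F n i ≫ prA F n) (specMap F F')
  rw [chA_hom]
  refine IsPullback.of_iso (big_isPullback F F' n i) (hsq.flip.isoPullback) (Iso.refl _)
    (Iso.refl _) (Iso.refl _) ?_ ?_ ?_ ?_
  · simp
  · rw [IsPullback.isoPullback_hom_fst_assoc, chB_hom]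
    simp
  · simp
  · simp

end Pool.Agent.Helper11.PW
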