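import Mathlib
import Pool.Agent.Helper11.PW.St.AC1

/-!
# PW-AC2: base change of smooth projective varieties

Hints.  `M₀' := Over.mk (pullback.snd M₀.toOver.hom (specMap F F'))`, smooth and geometrically
integral by base change (as in `SmProjVar.prod` in `Helper10/SmProj.lean`).  Projectivity: show by
induction on `IsProjectiveOver F X` that for every cartesian square
`IsPullback p X'.hom X.hom (specMap F F')` one has `IsProjectiveOver F' X'`; if `X'` and `X''` are
two base changes of `X` they are isomorphic over `F'` (an isomorphism is a closed immersion, so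
`IsProjectiveOver.closed` applies); `projSpace`: AC1; `prod`: the product of the base changes is the
base change of the product; `closed`: base change of a closed immersion.
-/

universe u v w

open CategoryTheory AlgebraicGeometry Limits

namespace Pool.Agent.Helper11.PW

open Pool.Agent.Helper10 Pool.Agent.Helper47.Spread

/-- Two base changes of the same scheme are isomorphic, so one is projective if the other is. -/
lemma isProjectiveOver_of_isPullback_aux {F F' : Type u} [Field F] [Field F'] [Algebra F F']
    {X : Over (Spec (CommRingCat.of F))} {X' Z' : Over (Spec (CommRingCat.of F'))}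
    (p : X'.left ⟶ X.left) (h : IsPullback p X'.hom X.hom (specMap F F'))
    (q : Z'.left ⟶ X.left) (h' : IsPullback q Z'.hom X.hom (specMap F F'))
    (hZ : IsProjectiveOver F' Z') : IsProjectiveOver F' X' := by
  let e : X'.left ≅ Z'.left := h.isoIsPullback _ _ h'
  have he : e.hom ≫ Z'.hom = X'.hom := h.isoIsPullback_hom_snd _ _ h'
  let i : X' ⟶ Z' := Over.homMk e.hom he
  have hi : IsClosedImmersion i.left := by
    change IsClosedImmersion e.hom
    infer_instance
  exact IsProjectiveOver.closed i hi hZ

/-- **PW-AC2a.** -/
theorem isProjectiveOver_baseChange {F F' : Type u} [Field F] [Field F'] [Algebra F F']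
    {X : Over (Spec (CommRingCat.of F))} {X' : Over (Spec (CommRingCat.of F'))}
    (p : X'.left ⟶ X.left) (h : IsPullback p X'.hom X.hom (specMap F F'))
    (hX : IsProjectiveOver F X) : IsProjectiveOver F' X' := by
  induction hX generalizing X' with
  | projSpace n =>
    obtain ⟨q, hq⟩ := projSpace_baseChange F F' n
    exact isProjectiveOver_of_isPullback_aux p h q hq (IsProjectiveOver.projSpace n)
  | @prod X Y hX hY ihX ihY =>
    let X₁ : Over (Spec (CommRingCat.of F')) := Over.mk (pullback.snd X.hom (specMap F F'))
    let Y₁ : Over (Spec (CommRingCat.of F')) := Over.mk (pullback.snd Y.hom (specMap F F'))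
    let pX : X₁.left ⟶ X.left := pullback.fst X.hom (specMap F F')
    let pY : Y₁.left ⟶ Y.left := pullback.fst Y.hom (specMap F F')
    have sX : IsPullback pX X₁.hom X.hom (specMap F F') :=
      IsPullback.of_hasPullback X.hom (specMap F F')
    have sY : IsPullback pY Y₁.hom Y.hom (specMap F F') :=
      IsPullback.of_hasPullback Y.hom (specMap F F')
    have hX₁ : IsProjectiveOver F' X₁ := ihX pX sX
    have hY₁ : IsProjectiveOver F' Y₁ := ihY pY sY
    have s1 : IsPullback (pullback.fst X₁.hom Y₁.hom) (pullback.snd X₁.hom Y₁.hom)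
        X₁.hom Y₁.hom := IsPullback.of_hasPullback _ _
    have s2 : IsPullback (pullback.fst X.hom Y.hom) (pullback.snd X.hom Y.hom)
        X.hom Y.hom := IsPullback.of_hasPullback _ _
    -- the big square over `Y`
    have big : IsPullback (pullback.snd X₁.hom Y₁.hom ≫ pY) (pullback.fst X₁.hom Y₁.hom)
        Y.hom (X₁.hom ≫ specMap F F') := s1.flip.paste_horiz sY
    have big' : IsPullback (pullback.snd X₁.hom Y₁.hom ≫ pY) (pullback.fst X₁.hom Y₁.hom)
        Y.hom (pX ≫ X.hom) := by
      rw [sX.w]
      exact big
    let q : pullback X₁.hom Y₁.hom ⟶ pullback X.hom Y.hom :=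
      s2.lift (pullback.fst X₁.hom Y₁.hom ≫ pX) (pullback.snd X₁.hom Y₁.hom ≫ pY)
        (by rw [Category.assoc]; exact big'.w.symm)
    have hq1 : q ≫ pullback.fst X.hom Y.hom = pullback.fst X₁.hom Y₁.hom ≫ pX :=
      s2.lift_fst _ _ _
    have hq2 : q ≫ pullback.snd X.hom Y.hom = pullback.snd X₁.hom Y₁.hom ≫ pY :=
      s2.lift_snd _ _ _
    have left : IsPullback q (pullback.fst X₁.hom Y₁.hom) (pullback.fst X.hom Y.hom) pX := by
      refine IsPullback.of_right (h₁₂ := pullback.snd X.hom Y.hom) (v₁₃ := Y.hom)
        (h₂₂ := X.hom) ?_ hq1 s2.flip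
      rw [hq2]
      exact big'
    have tot : IsPullback q (pullback.fst X₁.hom Y₁.hom ≫ X₁.hom)
        (pullback.fst X.hom Y.hom ≫ X.hom) (specMap F F') := left.paste_vert sX
    exact isProjectiveOver_of_isPullback_aux (X := prodOver X Y) (Z' := prodOver X₁ Y₁)
      p h q tot (IsProjectiveOver.prod hX₁ hY₁)
  | @closed X Y i hi hY ih =>
    let Y₁ : Over (Spec (CommRingCat.of F')) := Over.mk (pullback.snd Y.hom (specMap F F'))
    let pY : Y₁.left ⟶ Y.left := pullback.fst Y.hom (specMap F F')
    have sY : IsPullback pY Y₁.hom Y.hom (specMap F F') :=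
      IsPullback.of_hasPullback Y.hom (specMap F F')
    have hY₁ : IsProjectiveOver F' Y₁ := ih pY sY
    let j : X'.left ⟶ Y₁.left := sY.lift (p ≫ i.left) X'.hom
      (by rw [Category.assoc, Over.w i]; exact h.w)
    have hj1 : j ≫ pY = p ≫ i.left := sY.lift_fst _ _ _
    have hj2 : j ≫ Y₁.hom = X'.hom := sY.lift_snd _ _ _
    have sq : IsPullback p j i.left pY := by
      refine IsPullback.of_bot (h₃₁ := specMap F F') (v₂₁ := Y₁.hom) (v₂₂ := Y.hom) ?_
        hj1.symm sY
      rw [hj2, Over.w i]
      exact h
    have hj : IsClosedImmersion j := MorphismProperty.of_isPullback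
      (P := @IsClosedImmersion) sq hi
    exact IsProjectiveOver.closed (Over.homMk j hj2 : X' ⟶ Y₁) hj hY₁

/-- **PW-AC2b.** -/
theorem exists_baseChange {F : Type u} (F' : Type u) [Field F] [Field F'] [Algebra F F']
    (M₀ : SmProjVar F) : ∃ (M₀' : SmProjVar F') (p : M₀'.toOver.left ⟶ M₀.toOver.left),
      IsPullback p M₀'.toOver.hom M₀.toOver.hom (specMap F F') := by
  have s : IsPullback (pullback.fst M₀.toOver.hom (specMap F F'))
      (pullback.snd M₀.toOver.hom (specMap F F')) M₀.toOver.hom (specMap F F') :=
    IsPullback.of_hasPullback _ _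
  refine ⟨{ toOver := Over.mk (pullback.snd M₀.toOver.hom (specMap F F'))
            dim := M₀.dim
            smooth := (smoothOfRelativeDimension_isStableUnderBaseChange M₀.dim).of_isPullback
              s M₀.smooth
            geomIntegral := MorphismProperty.of_isPullback (P := @GeometricallyIntegral)
              s M₀.geomIntegral
            projective := isProjectiveOver_baseChange
              (X' := Over.mk (pullback.snd M₀.toOver.hom (specMap F F')))
              (pullback.fst M₀.toOver.hom (specMap F F')) s M₀.projective },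
    pullback.fst M₀.toOver.hom (specMap F F'), s⟩

end Pool.Agent.Helper11.PW
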