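import Mathlib
import Pool.Agent.Helper11.PW.Pow

/-!
# PW-B1: existence of powers

Hints.  `exists_point`: `P.toOver := Over.mk (𝟙 (Spec k))`, `dim := 0`.  Projectivity: it is a
closed subscheme of `projSpace k 0`; `projSpace k 0 = Proj k[x₀]` has a rational point
`Spec k ⟶ Proj`: on `D₊(x₀)` (`Proj.awayι`) the ring map `(k[x₀]_{x₀})₀ ⟶ k`, `x₀ ↦ 1`.  A section
of a separated morphism is a closed immersion (or: proper and mono,
`IsClosedImmersion.iff_isProper_and_mono` in `ZariskisMainTheorem.lean`).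
`exists_pow`: `Finite.induction_empty_option` with `Pow.relabel`, `exists_point` and
`Pow.prod A (Pow.single X)` relabelled along `Option T ≃ T ⊕ Unit`.
-/

universe u v w

open CategoryTheory AlgebraicGeometry Limits

namespace Pool.Agent.Helper11.PW

open Pool.Agent.Helper10 Pool.Agent.Helper10.SmProjVar

attribute [local instance] MvPolynomial.gradedAlgebra

lemma val_fromZero {A : Type u} [CommRing A] {σ : Type*} [SetLike σ A] [AddSubgroupClass σ A]
    (𝒜 : ℕ → σ) [GradedRing 𝒜] (x : Submonoid A) (a : 𝒜 0) :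
    algebraMap (HomogeneousLocalization 𝒜 x) (Localization x)
      (HomogeneousLocalization.fromZeroRingHom 𝒜 x a) = algebraMap A (Localization x) a := by
  rw [HomogeneousLocalization.algebraMap_apply, HomogeneousLocalization.fromZeroRingHom]
  exact HomogeneousLocalization.val_mk _

lemma exists_section (k : Type u) [Field k] :
    ∃ s : Spec (CommRingCat.of k) ⟶ (projSpace k 0).left,
      s ≫ (projSpace k 0).hom = 𝟙 (Spec (CommRingCat.of k)) := by
  have hf : (MvPolynomial.X 0 : MvPolynomial (Fin (0 + 1)) k) ∈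
    MvPolynomial.homogeneousSubmodule (Fin (0 + 1)) k 1 := MvPolynomial.isHomogeneous_X k 0
  have hev : IsUnit ((MvPolynomial.eval (fun _ => (1 : k)) : MvPolynomial (Fin (0 + 1)) k →+* k)
    (MvPolynomial.X 0)) := by simp
  obtain ⟨ψ, hψ⟩ : ∃ ψ : Localization.Away (MvPolynomial.X 0 : MvPolynomial (Fin (0 + 1)) k) →+* k,
      ∀ a, ψ (algebraMap _ _ a) = MvPolynomial.eval (fun _ => (1 : k)) a :=
    ⟨IsLocalization.Away.lift _ hev, fun a => IsLocalization.Away.lift_eq _ hev a⟩
  obtain ⟨φ, hφ⟩ : ∃ φ : HomogeneousLocalization.Away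
      (MvPolynomial.homogeneousSubmodule (Fin (0 + 1)) k) (MvPolynomial.X 0) →+* k,
      ∀ a, φ a = ψ (algebraMap _ _ a) :=
    ⟨ψ.comp (algebraMap _ _), fun a => rfl⟩
  refine ⟨Spec.map (CommRingCat.ofHom φ) ≫
    Proj.awayι (MvPolynomial.homogeneousSubmodule (Fin (0 + 1)) k) _ hf one_pos, ?_⟩
  change (Spec.map (CommRingCat.ofHom φ) ≫ Proj.awayι _ _ hf one_pos) ≫
    Proj.toSpecZero _ ≫ Spec.map (CommRingCat.ofHom (algebraMap k _)) = 𝟙 _
  rw [Category.assoc, Proj.awayι_toSpecZero_assoc, ← Spec.map_comp, ← Spec.map_comp,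
    ← CommRingCat.ofHom_comp, ← CommRingCat.ofHom_comp]
  have : φ.comp ((HomogeneousLocalization.fromZeroRingHom
      (MvPolynomial.homogeneousSubmodule (Fin (0 + 1)) k) _).comp
      (algebraMap k (MvPolynomial.homogeneousSubmodule (Fin (0 + 1)) k 0))) = RingHom.id k := by
    refine RingHom.ext fun c => ?_
    rw [RingHom.comp_apply, RingHom.comp_apply, hφ, val_fromZero, hψ]
    exact MvPolynomial.eval_C c
  rw [this]
  exact Spec.map_id _

/-- **PW-B1a.** -/
theorem exists_point (k : Type u) [Field k] :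
    ∃ P : SmProjVar k, P.dim = 0 ∧ IsIso P.toOver.hom := by
  obtain ⟨s, hs⟩ := exists_section k
  have h1 : IsClosedImmersion s := by
    have : IsClosedImmersion (s ≫ (projSpace k 0).hom) := by
      rw [hs]; infer_instance
    exact IsClosedImmersion.of_comp s (projSpace k 0).hom
  refine ⟨⟨Over.mk (𝟙 _), 0, ?_, ?_, ?_⟩, rfl, ?_⟩
  · change SmoothOfRelativeDimension 0 (𝟙 _)
    infer_instance
  · change GeometricallyIntegral (𝟙 _)
    refine ⟨fun K _ y Z a b h => ?_⟩
    have : IsIso b := by
      have := h.flip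
      exact this.isIso_fst_of_isIso
    have : Nonempty Z := ⟨(inv b) (Nonempty.some inferInstance)⟩
    exact isIntegral_of_isOpenImmersion b
  · exact IsProjectiveOver.closed (Over.homMk s hs) h1 (IsProjectiveOver.projSpace 0)
  · change IsIso (𝟙 _)
    infer_instance

variable {k : Type u} [Field k]

/-- **PW-B1b.** -/
theorem exists_pow (X : SmProjVar k) (T : Type) [Finite T] : Nonempty (Pow X T) := by
  induction T using Finite.induction_empty_option with
  | of_equiv e h =>
    obtain ⟨A⟩ := h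
    exact ⟨A.relabel e.symm⟩
  | h_empty =>
    obtain ⟨P, -, hP⟩ := exists_point k
    refine ⟨⟨P, fun t => t.elim, ⟨fun Z f => ?_, fun Z h h' _ => ?_⟩⟩⟩
    · exact ⟨Over.homMk (Z.hom ≫ inv P.toOver.hom) (by simp), fun t => t.elim⟩
    · ext1
      rw [← cancel_mono P.toOver.hom, Over.w, Over.w]
  | h_option h =>
    obtain ⟨A⟩ := h
    exact ⟨(A.prod (Pow.single X)).relabel (Equiv.optionEquivSumPUnit _)⟩

/-- A power `X^T`. -/
noncomputable def pw (X : SmProjVar k) (T : Type) [Finite T] : Pow X T :=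
  Classical.choice (exists_pow X T)

end Pool.Agent.Helper11.PW
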