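import Mathlib
import Pool.Agent.Helper47.Chow.Ext
import Pool.Agent.Helper47.Chow.Alg
import Pool.Agent.Helper11.Murre.Dim

/-!
# PW-D0: the degree as a linear functional

Hint: `push_pull_cls` and `tr_cl_cls` in `Helper47/Chow/Ext.lean`; `degZ X z = 0` if
`cls X z = 0` since `one X ≠ 0` (`cl_one`).
-/

universe u v w

open CategoryTheory AlgebraicGeometry

namespace Pool.Agent.Helper11.PW

open Pool.Agent.Helper10 Pool.Agent.Helper10.SmProjVar Pool.Agent.Helper47.Chow

variable {k : Type u} [Field k] {K : Type v} [Field K] [CharZero K]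
  {W : WeilCohomology.{u, v, w} k K}

/-- **PW-D0.** -/
theorem exists_degree (C : ChowTheory W) (X : SmProjVar k) : ∃ deg : CH X →ₗ[ℚ] ℚ,
    (∀ (Y : SmProjVar k) (a : CH X),
      C.push (snd X Y) (C.pull (fst X Y) a) = deg a • one Y) ∧
    (∀ a : CH X, W.tr X (C.cl X a) = ((deg a : ℚ) : K)) ∧
    ∀ i, i ≠ X.dim → ∀ a ∈ CHi X i, deg a = 0 := by
  have htr0 : W.tr X 0 = 0 := by
    have h := (W.trace X).map_smul 0 (0 : W.H X)
    rwa [smul_zero, zero_mul] at h
  have hone : one X ≠ 0 := by
    intro h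
    have h1 : (1 : W.H X) = 0 := by
      rw [← cl_one C X, h, map_zero]
    obtain ⟨x, ⟨_, hx⟩, _⟩ := (W.trace X).bijective 1
    have hx0 : x = 0 := by rw [← one_mul x, h1, zero_mul]
    rw [hx0, htr0] at hx
    exact zero_ne_one hx
  let dq : QCycles X →ₗ[ℚ] ℚ := degZ X
  have hker : ratZero X ≤ LinearMap.ker dq := by
    intro z hz
    rw [LinearMap.mem_ker]
    have h1 : ChowTheory.clsL X z = 0 := (Submodule.Quotient.mk_eq_zero _).2 hz
    have h2 := push_pull_cls C X X z
    rw [h1, map_zero, map_zero] at h2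
    exact (smul_eq_zero.1 h2.symm).resolve_right hone
  let d : CH X →ₗ[ℚ] ℚ := (ratZero X).liftQ dq hker
  have hd : ∀ z : QCycles X, d (cls X z) = degZ X z := fun z => rfl
  have hsurj : ∀ a : CH X, ∃ z : QCycles X, cls X z = a :=
    fun a => Submodule.Quotient.mk_surjective _ a
  refine ⟨d, fun Y a => ?_, fun a => ?_, ?_⟩
  · obtain ⟨z, rfl⟩ := hsurj a
    rw [hd]
    exact push_pull_cls C X Y z
  · obtain ⟨z, rfl⟩ := hsurj a
    rw [hd]
    change trL W X (C.cl X (ChowTheory.clsL X z)) = _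
    rw [ChowTheory.cls_eq_sum, degZ_apply, Finsupp.sum, Finsupp.sum, map_sum, map_sum,
      Rat.cast_sum]
    refine Finset.sum_congr rfl fun x _ => ?_
    rw [cl_smul, map_smul, smul_eq_mul]
    change _ * W.tr X (C.cl X (ptCls X x)) = _
    by_cases h0 : X.pointDim x = 0
    · rw [tr_cl_ptCls C x h0, if_pos h0]
      push_cast
      rfl
    · have hle : X.pointDim x ≤ X.dim := by
        rw [← pointDim_genericPt W X]
        exact Pool.Agent.Helper11.Murre.pointDim_le_generic X x
      rw [if_neg h0, (W.trace X).eq_zero (2 * (X.dim - X.pointDim x)) _ (by omega)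
        (C.cl_mem X (X.dim - X.pointDim x) _
          (ChowTheory.ptCls_mem x (X.dim - X.pointDim x) (by omega)))]
      simp
  · rintro i hi _ ⟨z, hz, rfl⟩
    rw [hd]
    exact degZ_eq_zero hi z hz

/-- The degree of (the zero-dimensional part of) a class. -/
noncomputable def deg (C : ChowTheory W) (X : SmProjVar k) : CH X →ₗ[ℚ] ℚ :=
  Classical.choose (exists_degree C X)

lemma push_pull_deg (C : ChowTheory W) (X Y : SmProjVar k) (a : CH X) :
    C.push (snd X Y) (C.pull (fst X Y) a) = deg C X a • one Y :=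
  (Classical.choose_spec (exists_degree C X)).1 Y a

lemma tr_cl_deg (C : ChowTheory W) (X : SmProjVar k) (a : CH X) :
    W.tr X (C.cl X a) = ((deg C X a : ℚ) : K) :=
  (Classical.choose_spec (exists_degree C X)).2.1 a

lemma deg_eq_zero (C : ChowTheory W) (X : SmProjVar k) {i : ℕ} (hi : i ≠ X.dim) {a : CH X}
    (ha : a ∈ CHi X i) : deg C X a = 0 :=
  (Classical.choose_spec (exists_degree C X)).2.2 i hi a ha

end Pool.Agent.Helper11.PW
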