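import Mathlib
import Pool.Agent.Helper47.Spread.Main
import Pool.Agent.Helper47.One.Local1

/-!
# PW-A: the local step for the zero locus of a generic section, one point version

`Y` is the zero locus of the generic section `∑ a_l s_l` of a vector bundle of rank `R` in
`Q ×_F K`.  These are the statements of `Spread/Local.lean`, `Spread/Main.lean` and
`Spread/E5.lean` with `theta : X × X ⟶ M₀ × M₀` replaced by `π : Y ⟶ Q` (and `2 r` by `R`,
`Desc.sq g` by `g`, `coef S i i'` by `S.f i`).
-/

universe u v w

open CategoryTheory AlgebraicGeometry Limits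

namespace Pool.Agent.Helper11.PW

open Pool.Agent.Helper10 Pool.Agent.Helper10.SmProjVar Pool.Agent.Helper47.Chow
open Pool.Agent.Helper47.Desc Pool.Agent.Helper47.Spread

noncomputable section

variable {F K : Type u} [Field F] [Field K] [Algebra F K] {Q : SmProjVar F} {R : ℕ} {I : Type}
  [Fintype I] {L : Type v} [Field L] [CharZero L] {W : WeilCohomology.{u, v, w} K L}

/-- The sections generate the fibre of the vector bundle at `x`. -/
def GenAt (S : Sections Q R I) (x : Q.toOver.left) : Prop :=
  ∃ (i : S.ι) (J : Fin R → I), x ∈ Q.toOver.left.basicOpen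
    (Matrix.det (Matrix.of fun c c' => S.f i c (J c')))

/-- **PW-A1.** Finite orbits. -/
theorem finite_orbits {S : Sections Q R I} {a : I → K}
    [Normal (IntermediateField.adjoin F (Set.range a)) K] {Y : SmProjVar K}
    {π : Y.toOver.left ⟶ Q.toOver.left} [IsAffineHom π] (hY : IsZeroLocus S a Y π)
    (y : Y.toOver.left) :
    (Set.range fun g : galGroup (F := F) a π => g.1.sch y).Finite := by
  exact Helper47.One.finite_orbits hY y

/-- **PW-A2.** The local step. -/
theorem local_step {S : Sections Q R I} {a : I → K}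
    (ha : AlgebraicIndependent F a) [Normal (IntermediateField.adjoin F (Set.range a)) K]
    {N Y : SmProjVar K} (pN : N.toOver.left ⟶ Q.toOver.left)
    (hN : IsPullback pN N.toOver.hom Q.toOver.hom (specMap F K)) (j : Y.toOver ⟶ N.toOver)
    [IsClosedImmersion j.left] (hY : IsZeroLocus S a Y (j.left ≫ pN)) (hdim : N.dim = Y.dim + R)
    {C : ChowTheory W} (hC : IsEquivariant C) (hS : HasSupport C) (x : Q.toOver.left)
    (hx : GenAt S x) :
    ∃ lev : Y.toOver.left → ℕ, ∀ y : Y.toOver.left, (j.left ≫ pN) y = x →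
      ∃ D : QCycles Y, (∃ i, Y.pointDim y + i = Y.dim ∧ ∃ z ∈ CHi N i, cls Y D = C.ops.pull j z) ∧
        0 < D.coeff y ∧
        (∀ g ∈ galGroup (F := F) a (j.left ≫ pN), 0 ≤ D.coeff (g.sch y)) ∧
        ∀ y' : Y.toOver.left, D.coeff y' ≠ 0 →
          Y.pointDim y' = Y.pointDim y ∧ x ⤳ (j.left ≫ pN) y' ∧
            ((j.left ≫ pN) y' = x → (∃ g ∈ galGroup (F := F) a (j.left ≫ pN), g.sch y = y') ∨
              lev y' < lev y) := by
  exact Helper47.One.local_step ha pN hN j hY hdim hS x hx

end

end Pool.Agent.Helper11.PW
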