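import Mathlib
import Pool.Agent.Helper11.PW.PowSections
import Pool.Agent.Helper11.PW.St.A1

/-!
# PW-B7, B8, B10: the power `X^T` is a zero locus in `M₀^T`

Hints.
* `isZeroLocus_pow`.  `w`: `thetaPow_hom`.  `zero`: over `V` (a chart `y : PowIdx S A₀`) the
  equation number `q`, `e q = (t, c)`, is the restriction of the pull-back along `(A.pr t).left` of
  the equation `c` on `X` (`thetaPow_pr`).  `exists_lift`: for `(p, s)` on `Z` put
  `p_t := p ≫ (A₀.pr t).left`; the equations of `p_t` vanish on `p_t ⁻¹ (U i)` since they vanish on the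
  members `p ⁻¹ V` of an open cover (`V` an affine open of `M₀^T` with `V ≤ pr_s ⁻¹ U (i s)`, `i t = i`;
  `exists_powIdx`; use `TopCat.Sheaf.eq_of_locally_eq` or the `Spread` files, e.g. `C1`, `C5` (the
  lemmas `ap…`)); so there is `h_t : Z ⟶ X`; take `A.lift`.  Uniqueness: `A.semi_unique`, `hX.unique`.
* `exists_aut_eq`: `g'` is determined by `fieldMap g'` (`IsZeroLocus.unique` for `X^T`); the element
  `g` of the group of `X` with the same `fieldMap` exists by `exists_semiAut` (Spread, see
  `Local.lean`); `aut_thetaPow`.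
* `genAt_of_reduced`: take `E = κ(x)` and the points `fromSpecResidueField x ≫ (A₀.pr t).left`.
-/

universe u v w

open CategoryTheory AlgebraicGeometry Limits

namespace Pool.Agent.Helper11.PW

open Pool.Agent.Helper10 Pool.Agent.Helper10.SmProjVar Pool.Agent.Helper47.Chow
open Pool.Agent.Helper47.Desc Pool.Agent.Helper47.Spread

noncomputable section

variable {F K : Type u} [Field F] [Field K] [Algebra F K] {M₀ : SmProjVar F} {X : SmProjVar K}
  {r R : ℕ} {I : Type} [Fintype I] {T N : Type}

/-- The coordinates of the sections at the points `p t`. -/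
def coordT {I : Type} (S : Sections M₀ r I) {P : Scheme.{u}} (p : T → (P ⟶ M₀.toOver.left))
    (i : T → S.ι) (c : T × Fin r) (l : I) : Γ(P, ⨅ t, p t ⁻¹ᵁ S.U (i t)) :=
  res (iInf_le (fun t => p t ⁻¹ᵁ S.U (i t)) c.1) (pb (p c.1) (S.U (i c.1)) (S.f (i c.1) c.2 l))

/-- Any at most `m` distinct points of `M₀` (over any field `E`) impose independent conditions on
the combinations of the sections. -/
def SepPts {I : Type} (S : Sections M₀ r I) (m : ℕ) : Prop :=
  ∀ (T : Type) [Fintype T] [DecidableEq T], Fintype.card T ≤ m → ∀ (E : Type u) [Field E]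
    (x : T → (Spec (CommRingCat.of E) ⟶ M₀.toOver.left)),
    (∀ s t, x s ≫ M₀.toOver.hom = x t ≫ M₀.toOver.hom) → Function.Injective x →
      ∀ z : Spec (CommRingCat.of E), ∃ (i : T → S.ι) (J : T × Fin r → I),
        z ∈ (Spec (CommRingCat.of E)).basicOpen
          (Matrix.det (Matrix.of fun c c' => coordT S x i c (J c')))

/-- A function vanishing locally is zero. -/
lemma eq_zero_of_locally {Z : Scheme.{u}} {W : Z.Opens} (x : Γ(Z, W))
    (h : ∀ z ∈ W, ∃ (V : Z.Opens) (hV : V ≤ W), z ∈ V ∧ res hV x = 0) : x = 0 := by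
  choose V hV hz h0 using h
  refine TopCat.Sheaf.eq_of_locally_eq' Z.sheaf (fun z : W => V z.1 z.2) W
    (fun z => homOfLE (hV z.1 z.2)) (fun z hz' => ?_) x 0 (fun z => ?_)
  · exact TopologicalSpace.Opens.mem_iSup.mpr ⟨⟨z, hz'⟩, hz z hz'⟩
  · refine Eq.trans (h0 z.1 z.2) (map_zero (res (hV z.1 z.2))).symm

/-- **PW-B7.** -/
theorem isZeroLocus_pow [Finite T] {S : Sections M₀ r I} {a : I → K}
    {π : X.toOver.left ⟶ M₀.toOver.left} (hX : IsZeroLocus S a X π) (A : Pow X T)
    (A₀ : Pow M₀ T) (e : Fin R ≃ T × Fin r) :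
    IsZeroLocus (powSections S A₀ e) a A.var (thetaPow A A₀ π hX.w) := by
  refine ⟨thetaPow_hom A A₀ π hX.w, ?_, ?_, ?_⟩
  · intro y q
    have hle : thetaPow A A₀ π hX.w ⁻¹ᵁ y.V ≤ ((A.pr (e q).1).left ≫ π) ⁻¹ᵁ S.U (y.i (e q).1) := by
      rw [← thetaPow_pr A A₀ π hX.w]
      exact fun x hx => y.le (e q).1 hx
    have h1 := C5.eqn_ap (hX.zero (y.i (e q).1) (e q).2) (A.pr (e q).1).left
      (thetaPow A A₀ π hX.w ⁻¹ᵁ y.V) hle
    refine Eq.trans ?_ h1
    refine Finset.sum_congr rfl fun l _ => ?_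
    congr 1
    · exact C5.const_congr (Over.w (A.pr (e q).1)).symm _ _
    · change pb (thetaPow A A₀ π hX.w) y.V (C5.ap (A₀.pr (e q).1).left (S.U (y.i (e q).1)) y.V
        (y.le (e q).1) (S.f (y.i (e q).1) (e q).2 l)) = _
      rw [C5.pb_eq_ap, C5.ap_ap]
      exact C5.ap_congr (thetaPow_pr A A₀ π hX.w _) _ _ _ _
  · intro Z p s hps hz
    have hps' : ∀ t, (p ≫ (A₀.pr t).left) ≫ M₀.toOver.hom = s ≫ specMap F K := by
      intro t
      rw [Category.assoc, Over.w, hps]
    have hzero : ∀ t i q, eqn S a (p ≫ (A₀.pr t).left) s i q = 0 := by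
      intro t i q
      apply eq_zero_of_locally
      intro z hz'
      choose i' hi' using fun t' => S.cover ((A₀.pr t').left (p z))
      classical
      obtain ⟨y, hy, hyV⟩ := exists_powIdx S A₀ (p z) (Function.update i' t i) (fun t' => by
        by_cases h : t' = t
        · subst h
          rw [Function.update_self]
          exact hz'
        · rw [Function.update_of_ne h]
          exact hi' t')
      have hyi : y.i t = i := by
        rw [hy, Function.update_self]
      subst hyi
      have hle : p ⁻¹ᵁ y.V ≤ (p ≫ (A₀.pr t).left) ⁻¹ᵁ S.U (y.i t) := fun x hx => y.le t hx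
      refine ⟨p ⁻¹ᵁ y.V, hle, hyV, ?_⟩
      refine Eq.trans ?_ (hz y (e.symm (t, q)))
      unfold eqn
      rw [map_sum]
      refine Finset.sum_congr rfl fun l _ => ?_
      rw [map_mul, C5.res_const]
      congr 1
      change _ = pb p y.V (powF S A₀ y (e (e.symm (t, q))) l)
      rw [Equiv.apply_symm_apply]
      change _ = pb p y.V (C5.ap (A₀.pr t).left (S.U (y.i t)) y.V
        (y.le t) (S.f (y.i t) q l))
      rw [C5.pb_eq_ap, C5.res_ap, C5.pb_eq_ap, C5.ap_ap]
    choose g hg hg' using fun t => hX.exists_lift Z (p ≫ (A₀.pr t).left) s (hps' t) (hzero t)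
    let L := A.lift (Z := Over.mk s) fun t => Over.homMk (g t) (hg' t)
    have hL : ∀ t, L.left ≫ (A.pr t).left = g t := fun t =>
      congrArg CommaMorphism.left (A.lift_pr (Z := Over.mk s)
        (fun t => Over.homMk (g t) (hg' t)) t)
    have hL' : L.left ≫ A.var.toOver.hom = s := Over.w L
    refine ⟨L.left, ?_, hL'⟩
    apply A₀.semi_unique
    · rw [Category.assoc, thetaPow_hom, ← Category.assoc, hL', hps]
    · intro t
      rw [Category.assoc, thetaPow_pr, ← Category.assoc, hL, hg]
  · intro Z h h' e1 e2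
    apply A.semi_unique _ _ e2
    intro t
    apply hX.unique
    · rw [Category.assoc, Category.assoc, ← thetaPow_pr A A₀ π hX.w, ← Category.assoc, e1,
        Category.assoc]
    · rw [Category.assoc, Category.assoc, Over.w, e2]

end

end Pool.Agent.Helper11.PW
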