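import Mathlib
import Pool.Agent.Helper11.PW.St.B7

/-!
# PW-B7, B8, B10: the power `X^T` is a zero locus in `M₀^T`

Hints.
* `isZeroLocus_pow`.  `w`: `thetaPow_hom`.  `zero`: over `V` (a chart `y : PowIdx S A₀`) the
  equation number `q`, `e q = (t, c)`, is the restriction of the pull-back along `(A.pr t).left` of
  the equation `c` on `X` (`thetaPow_pr`).  `exists_lift`: for `(p, s)` on `Z` put
  `p_t := p ≫ (A₀.pr t).left`; the equations of `p_t` vanish on `p_t ⁻¹ (U i)` since they vanish on the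
  members `p ⁻¹ V` of an open cover (`V` an affine open of `M₀^T` with `V ≤ pr_s ⁻¹ U (i s)`, `i t = i`;
  `exists_powIdx`; use `TopCat.Sheaf.eq_of_locally_eq` or the `Spread` files, e.g. `C1`, `C5` (the
  lemmas `ap…`)); so there is `h_t : Z ⟶ X`; take `A.lift`.  Uniqueness: `A.semi_unique`, `hX.unique`.
* `exists_aut_eq`: `g'` is determined by `fieldMap g'` (`IsZeroLocus.unique` for `X^T`); the element
  `g` of the group of `X` with the same `fieldMap` exists by `exists_semiAut` (Spread, see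
  `Local.lean`); `aut_thetaPow`.
* `genAt_of_reduced`: take `E = κ(x)` and the points `fromSpecResidueField x ≫ (A₀.pr t).left`.
-/

universe u v w

open CategoryTheory AlgebraicGeometry Limits

namespace Pool.Agent.Helper11.PW

open Pool.Agent.Helper10 Pool.Agent.Helper10.SmProjVar Pool.Agent.Helper47.Chow
open Pool.Agent.Helper47.Desc Pool.Agent.Helper47.Spread

noncomputable section

variable {F K : Type u} [Field F] [Field K] [Algebra F K] {M₀ : SmProjVar F} {X : SmProjVar K}
  {r R : ℕ} {I : Type} [Fintype I] {T N : Type}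

lemma b10_pb_comp {Z Z' Z'' : Scheme.{u}} (f : Z ⟶ Z') (g : Z' ⟶ Z'') (U : Z''.Opens)
    (s : Γ(Z'', U)) : pb (f ≫ g) U s = pb f (g ⁻¹ᵁ U) (pb g U s) := by
  unfold pb
  rw [Scheme.Hom.comp_app]
  rfl

/-- **PW-B10.** -/
theorem genAt_of_reduced [Fintype T] {S : Sections M₀ r I} {m : ℕ} (hsep : SepPts S m)
    (hT : Fintype.card T ≤ m) (A₀ : Pow M₀ T) (e : Fin R ≃ T × Fin r)
    (x : A₀.var.toOver.left) (hx : IsReduced A₀ x) : GenAt (powSections S A₀ e) x := by
  classical
  obtain ⟨f, hf⟩ : ∃ f : Spec (CommRingCat.of (A₀.var.toOver.left.residueField x)) ⟶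
      A₀.var.toOver.left, f = A₀.var.toOver.left.fromSpecResidueField x := ⟨_, rfl⟩
  have hz : ∀ z, f z = x := by
    intro z
    rw [hf]
    exact Scheme.fromSpecResidueField_apply _ z
  obtain ⟨z⟩ : Nonempty (Spec (CommRingCat.of (A₀.var.toOver.left.residueField x))) :=
    inferInstance
  obtain ⟨i, J, hJ⟩ := hsep T hT (A₀.var.toOver.left.residueField x)
    (fun t => f ≫ (A₀.pr t).left)
    (fun s t => by rw [Category.assoc, Category.assoc, Over.w, Over.w])
    (by
      rw [hf]
      exact hx) z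
  have hmem : z ∈ ⨅ t, (f ≫ (A₀.pr t).left) ⁻¹ᵁ S.U (i t) := Scheme.basicOpen_le _ _ hJ
  have hi : ∀ t, (A₀.pr t).left x ∈ S.U (i t) := by
    intro t
    have h1 : z ∈ (f ≫ (A₀.pr t).left) ⁻¹ᵁ S.U (i t) :=
      iInf_le (fun t => (f ≫ (A₀.pr t).left) ⁻¹ᵁ S.U (i t)) t hmem
    have h2 : (A₀.pr t).left (f z) ∈ S.U (i t) := h1
    rwa [hz] at h2
  obtain ⟨y, rfl, hy⟩ := exists_powIdx S A₀ x i hi
  refine ⟨y, fun c => J (e c), ?_⟩
  change x ∈ A₀.var.toOver.left.basicOpen
    (Matrix.det (Matrix.of fun c c' => powF S A₀ y (e c) (J (e c'))))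
  have hle : f ⁻¹ᵁ y.V ≤ ⨅ t, (f ≫ (A₀.pr t).left) ⁻¹ᵁ S.U (y.i t) := by
    refine le_iInf fun t => ?_
    exact Scheme.Hom.preimage_mono f (y.le t)
  have key : pb f y.V (Matrix.det (Matrix.of fun c c' => powF S A₀ y (e c) (J (e c')))) =
      res hle (Matrix.det (Matrix.of fun c c' => coordT S (fun t => f ≫ (A₀.pr t).left) y.i c
        (J c'))) := by
    rw [RingHom.map_det, RingHom.map_det]
    have h1 : (pb f y.V).mapMatrix (Matrix.of fun c c' => powF S A₀ y (e c) (J (e c'))) =
        ((res hle).mapMatrix (Matrix.of fun c c' => coordT S (fun t => f ≫ (A₀.pr t).left) y.i c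
        (J c'))).submatrix e e := by
      ext c c'
      change pb f y.V (powF S A₀ y (e c) (J (e c'))) =
        res hle (coordT S (fun t => f ≫ (A₀.pr t).left) y.i (e c) (J (e c')))
      unfold powF coordT
      rw [res_pb, res_comp, b10_pb_comp]
      rfl
    rw [h1, Matrix.det_submatrix_equiv_self]
  have h3 : z ∈ f ⁻¹ᵁ (A₀.var.toOver.left.basicOpen
      (Matrix.det (Matrix.of fun c c' => powF S A₀ y (e c) (J (e c'))))) := by
    rw [Scheme.preimage_basicOpen]
    change z ∈ Scheme.basicOpen _ (pb f y.V _)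
    rw [key]
    unfold res
    rw [Scheme.basicOpen_res]
    refine ⟨?_, hJ⟩
    change f z ∈ y.V
    rw [hz]
    exact hy
  have h4 : f z ∈ A₀.var.toOver.left.basicOpen
      (Matrix.det (Matrix.of fun c c' => powF S A₀ y (e c) (J (e c')))) := h3
  rwa [hz] at h4

end

end Pool.Agent.Helper11.PW
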