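import Mathlib
import Pool.Agent.Helper11.PW.PowSections

/-!
# PW-B9, B11, B12: base change, strata

Hints.
* `isPullback_thetaPow`: universal property: morphisms `Z ⟶ M^T` over `K` are families of morphisms
  `Z ⟶ M`, i.e. of morphisms `Z ⟶ M₀` over `F`, together with `Z ⟶ Spec K`.
* `exists_stratum`: let `x_t : Spec κ(x) ⟶ M₀` be the components of `x`, `s ~ t` iff `x_s = x_t`,
  `T = N / ~` (`Quotient` of a `Setoid`), `x'` the image of the point of `Spec κ(x)` under the
  morphism to `M₀^T` with components `x_t`.  If two components of `x'` over `κ(x')` agree, so do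
  their compositions with `Spec κ(x) ⟶ Spec κ(x') ⟶ M₀^T`
  (the morphism `Spec κ(x) ⟶ M₀^T` factors through `Spec κ(x')`, see
  `Scheme.SpecToEquivOfField`, `Scheme.Hom.residueFieldMap`, `fromSpecResidueField`).
* `exists_point_over`: let `y_s : Spec κ(y) ⟶ X` be the components of `y`.  The morphism
  `Spec κ(y) ⟶ M₀^N` factors through the closed immersion (monomorphism) `M₀^T ⟶ M₀^N` (its image
  point lies in the image: `Spec` of a field is reduced; or use the residue field of the point of
  `M₀^T`, which is the one of its image), hence `y_s ≫ π = y_{s'} ≫ π` if `f s = f s'`, and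
  `y_s = y_{s'}` by `hX.unique`.
-/

universe u v w

open CategoryTheory AlgebraicGeometry Limits

namespace Pool.Agent.Helper11.PW

open Pool.Agent.Helper10 Pool.Agent.Helper10.SmProjVar Pool.Agent.Helper47.Chow
open Pool.Agent.Helper47.Desc Pool.Agent.Helper47.Spread

noncomputable section

variable {F K : Type u} [Field F] [Field K] [Algebra F K] {M₀ : SmProjVar F} {X : SmProjVar K}
  {r R : ℕ} {I : Type} [Fintype I] {T N : Type}

/-- Auxiliary to B11: a morphism from the spectrum of a field factors through the residue field of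
its image point. -/
lemma b11_factor (L : Type u) [Field L] {Y : Scheme.{u}}
    (q : Spec (CommRingCat.of L) ⟶ Y) :
    ∃ c : Spec (CommRingCat.of L) ⟶ Spec (Y.residueField (q (IsLocalRing.closedPoint L))),
      c ≫ Y.fromSpecResidueField (q (IsLocalRing.closedPoint L)) = q :=
  ⟨_, Scheme.descResidueField_stalkClosedPointTo_fromSpecResidueField L Y q⟩

omit [Fintype I] in
/-- **PW-B11.** Every point lies on a unique stratum. -/
theorem exists_stratum [Finite N] (B₀ : Pow M₀ N) (x : B₀.var.toOver.left) :
    ∃ (T : Type) (_ : Finite T) (f : N → T), Function.Surjective f ∧ ∀ A₀ : Pow M₀ T,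
      ∃ x' : A₀.var.toOver.left, (A₀.map B₀ f).left x' = x ∧ IsReduced A₀ x' := by
  let L : Type u := B₀.var.toOver.left.residueField x
  let p : Spec (CommRingCat.of L) ⟶ B₀.var.toOver.left :=
    B₀.var.toOver.left.fromSpecResidueField x
  let S : Setoid N := Setoid.ker fun s => p ≫ (B₀.pr s).left
  have hS : ∀ s s' : N, S s s' ↔ p ≫ (B₀.pr s).left = p ≫ (B₀.pr s').left := fun _ _ => Iff.rfl
  refine ⟨Quotient S, inferInstance, Quotient.mk S, Quotient.mk_surjective, fun A₀ => ?_⟩
  let Z : Over (Spec (CommRingCat.of F)) := Over.mk (p ≫ B₀.var.toOver.hom)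
  let g : Quotient S → (Z ⟶ M₀.toOver) := fun t => Over.homMk (p ≫ (B₀.pr t.out).left) (by
    change (p ≫ (B₀.pr t.out).left) ≫ M₀.toOver.hom = p ≫ B₀.var.toOver.hom
    rw [Category.assoc, Over.w])
  let h : Z ⟶ A₀.var.toOver := A₀.lift g
  let q : Spec (CommRingCat.of L) ⟶ A₀.var.toOver.left := h.left
  have hq : ∀ t, q ≫ (A₀.pr t).left = p ≫ (B₀.pr t.out).left := fun t =>
    congrArg CommaMorphism.left (A₀.lift_pr g t)
  have hqp : q ≫ (A₀.map B₀ (Quotient.mk S)).left = p := by
    apply B₀.semi_unique
    · rw [Category.assoc, Over.w]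
      exact Over.w h
    · intro s
      rw [Category.assoc, ← Over.comp_left, Pow.map_pr, hq]
      exact (hS _ _).1 (Quotient.mk_out (s := S) s)
  refine ⟨q (IsLocalRing.closedPoint L), ?_, ?_⟩
  · rw [← Scheme.Hom.comp_apply, hqp]
    exact Scheme.fromSpecResidueField_apply x _
  · obtain ⟨c, hc⟩ := b11_factor L q
    intro t t' htt
    have h1 : q ≫ (A₀.pr t).left = q ≫ (A₀.pr t').left := by
      have h2 := congrArg (fun m => c ≫ m) htt
      simp only at h2
      rw [← Category.assoc, ← Category.assoc, hc] at h2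
      exact h2
    rw [hq, hq] at h1
    have h3 : S t.out t'.out := (hS _ _).2 h1
    have h4 := Quotient.sound (s := S) h3
    rwa [Quotient.out_eq, Quotient.out_eq] at h4

end

end Pool.Agent.Helper11.PW
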