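import Mathlib
import Pool.Agent.Helper11.PW.PowSections

/-!
# PW-B9, B11, B12: base change, strata

Hints.
* `isPullback_thetaPow`: universal property: morphisms `Z ⟶ M^T` over `K` are families of morphisms
  `Z ⟶ M`, i.e. of morphisms `Z ⟶ M₀` over `F`, together with `Z ⟶ Spec K`.
* `exists_stratum`: let `x_t : Spec κ(x) ⟶ M₀` be the components of `x`, `s ~ t` iff `x_s = x_t`,
  `T = N / ~` (`Quotient` of a `Setoid`), `x'` the image of the point of `Spec κ(x)` under the
  morphism to `M₀^T` with components `x_t`.  If two components of `x'` over `κ(x')` agree, so do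
  their compositions with `Spec κ(x) ⟶ Spec κ(x') ⟶ M₀^T`
  (the morphism `Spec κ(x) ⟶ M₀^T` factors through `Spec κ(x')`, see
  `Scheme.SpecToEquivOfField`, `Scheme.Hom.residueFieldMap`, `fromSpecResidueField`).
* `exists_point_over`: let `y_s : Spec κ(y) ⟶ X` be the components of `y`.  The morphism
  `Spec κ(y) ⟶ M₀^N` factors through the closed immersion (monomorphism) `M₀^T ⟶ M₀^N` (its image
  point lies in the image: `Spec` of a field is reduced; or use the residue field of the point of
  `M₀^T`, which is the one of its image), hence `y_s ≫ π = y_{s'} ≫ π` if `f s = f s'`, and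
  `y_s = y_{s'}` by `hX.unique`.
-/

universe u v w

open CategoryTheory AlgebraicGeometry Limits

namespace Pool.Agent.Helper11.PW

open Pool.Agent.Helper10 Pool.Agent.Helper10.SmProjVar Pool.Agent.Helper47.Chow
open Pool.Agent.Helper47.Desc Pool.Agent.Helper47.Spread

noncomputable section

variable {F K : Type u} [Field F] [Field K] [Algebra F K] {M₀ : SmProjVar F} {X : SmProjVar K}
  {r R : ℕ} {I : Type} [Fintype I] {T N : Type}

/-- Auxiliary to B12: a morphism to `X^N` whose components only depend on their image in `T` factors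
through `X^T`. -/
lemma b12_factor {k : Type u} [Field k] {Y : SmProjVar k} (A : Pow Y T) (B : Pow Y N) (f : N → T)
    (g : T → N) (hg : ∀ t, f (g t) = t) {Z : Scheme.{u}} (a : Z ⟶ B.var.toOver.left)
    (ha : ∀ s t, f s = f t → a ≫ (B.pr s).left = a ≫ (B.pr t).left) :
    ∃ l : Z ⟶ A.var.toOver.left, l ≫ (A.map B f).left = a := by
  let Z' : Over (Spec (CommRingCat.of k)) := Over.mk (a ≫ B.var.toOver.hom)
  let l : Z' ⟶ A.var.toOver := A.lift fun t => Over.homMk (a ≫ (B.pr (g t)).left) (by
    rw [Category.assoc, Over.w]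
    rfl)
  have hl : ∀ t, l.left ≫ (A.pr t).left = a ≫ (B.pr (g t)).left := fun t =>
    congrArg CommaMorphism.left (A.lift_pr (Z := Z') _ t)
  have hl' : l.left ≫ A.var.toOver.hom = a ≫ B.var.toOver.hom := Over.w l
  refine ⟨l.left, B.semi_unique _ _ ?_ fun s => ?_⟩
  · rw [Category.assoc, Over.w, hl']
  · rw [Category.assoc, ← Over.comp_left, Pow.map_pr, hl]
    exact ha _ _ (hg _)

lemma b12_retract {k : Type u} [Field k] {Y Y' : SmProjVar k} {δ : Y.toOver ⟶ Y'.toOver}
    {ρ : Y'.toOver ⟶ Y.toOver} (h : δ ≫ ρ = 𝟙 _) (x : Y.toOver.left) :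
    ρ.left (δ.left x) = x := by
  rw [← Scheme.Hom.comp_apply, ← Over.comp_left, h]
  rfl

/-- **PW-B12.** The points over a stratum. -/
theorem exists_point_over {S : Sections M₀ r I} {a : I → K} {π : X.toOver.left ⟶ M₀.toOver.left}
    (hX : IsZeroLocus S a X π) (A : Pow X T) (B : Pow X N) (A₀ : Pow M₀ T) (B₀ : Pow M₀ N)
    {f : N → T} (hf : Function.Surjective f) (y : B.var.toOver.left)
    (x' : A₀.var.toOver.left)
    (h : thetaPow B B₀ π hX.w y = (A₀.map B₀ f).left x') :
    ∃ y' : A.var.toOver.left, (A.map B f).left y' = y ∧ thetaPow A A₀ π hX.w y' = x' := by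
  choose g hg using hf
  obtain ⟨p, hp, hp'⟩ := Scheme.Pullback.exists_preimage_pullback
    (f := thetaPow B B₀ π hX.w) (g := (A₀.map B₀ f).left) y x' h
  let P := pullback (thetaPow B B₀ π hX.w) (A₀.map B₀ f).left
  let c : P ⟶ B.var.toOver.left := pullback.fst _ _
  let b : P ⟶ A₀.var.toOver.left := pullback.snd _ _
  have hcb : c ≫ thetaPow B B₀ π hX.w = b ≫ (A₀.map B₀ f).left := pullback.condition
  obtain ⟨l, hl⟩ := b12_factor A B f g hg c (by
    intro s t hst
    have e1 : ∀ s, (c ≫ (B.pr s).left) ≫ π = b ≫ (A₀.pr (f s)).left := by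
      intro s
      rw [Category.assoc, ← thetaPow_pr B B₀ π hX.w, ← Category.assoc, hcb, Category.assoc,
        ← Over.comp_left, Pow.map_pr]
    refine hX.unique _ _ _ ?_ ?_
    · rw [e1, e1, hst]
    · rw [Category.assoc, Category.assoc, Over.w, Over.w])
  have hly : (A.map B f).left (l p) = y := by
    rw [← Scheme.Hom.comp_apply, hl]
    exact hp
  refine ⟨l p, hly, ?_⟩
  have h1 : (A₀.map B₀ f).left (thetaPow A A₀ π hX.w (l p)) = (A₀.map B₀ f).left x' := by
    rw [← Scheme.Hom.comp_apply, ← map_thetaPow A A₀ B B₀ π hX.w f, Scheme.Hom.comp_apply, hly, h]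
  have h2 : A₀.map B₀ f ≫ B₀.map A₀ g = 𝟙 _ := by
    rw [Pow.map_comp, show f ∘ g = id from funext hg, Pow.map_id]
  have h3 := congrArg (fun z => (B₀.map A₀ g).left z) h1
  simp only at h3
  rwa [b12_retract h2, b12_retract h2] at h3

end

end Pool.Agent.Helper11.PW
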