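import Mathlib
import Pool.Agent.Helper11.PW.Defs
import Pool.Agent.Helper47.Spread.Main

/-!
# PW-B2: dimension of powers

Hints.  `pointDim_genericPt W X : X.pointDim X.genericPt = X.dim` (`Chow/Corr.lean`).  Two powers
`A B : Pow X T` are isomorphic by `A.map B id`; `Pow.single`, `Pow.prod` (`dim` of `prod` is
`Y.dim + X.dim`), `exists_point`.
-/

universe u v w

open CategoryTheory AlgebraicGeometry Limits

namespace Pool.Agent.Helper11.PW

open Pool.Agent.Helper10 Pool.Agent.Helper10.SmProjVar Pool.Agent.Helper47.Chow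
open Pool.Agent.Helper47.Desc Pool.Agent.Helper47.Spread

variable {k : Type u} [Field k] {K : Type v} [Field K] [CharZero K]

theorem residueFieldMap_surjective_of_closedImmersion {Z Z' : Scheme.{u}} (f : Z ⟶ Z')
    [IsClosedImmersion f] (x : Z) : Function.Surjective (f.residueFieldMap x).hom := by
  intro b
  obtain ⟨c, hc⟩ := Z.residue_surjective x b
  obtain ⟨d, hd⟩ := f.stalkMap_surjective x c
  refine ⟨(Z'.residue (f x)).hom d, ?_⟩
  have h := congrArg (fun e => CommRingCat.Hom.hom e d) (Scheme.residue_residueFieldMap f x)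
  refine Eq.trans h ?_
  change (Z.residue x).hom ((f.stalkMap x).hom d) = b
  rw [← hc, ← hd]

theorem trd_closedImmersion {Y Y' : SmProjVar k} (i : Y'.toOver ⟶ Y.toOver)
    [IsClosedImmersion i.left] (y : Y'.toOver.left) : trd Y (i.left y) = trd Y' y := by
  refine le_antisymm (trd_le_of_hom i y) ?_
  let _ : Algebra k (Y'.toOver.left.residueField y) := (resHom Y' y).hom.toAlgebra
  let _ : Algebra k (Y.toOver.left.residueField (i.left y)) :=
    (resHom Y (i.left y)).hom.toAlgebra
  let f : Y.toOver.left.residueField (i.left y) →ₐ[k] Y'.toOver.left.residueField y :=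
    { (i.left.residueFieldMap y).hom with
      commutes' := fun a => (RingHom.congr_fun
        (congrArg CommRingCat.Hom.hom (resHom_comp i y)) a).symm }
  exact trdeg_le_of_surjective f
    (residueFieldMap_surjective_of_closedImmersion i.left y)

/-- **PW-B2a.** Closed immersions preserve the dimension of points. -/
theorem pointDim_closedImmersion {Y Y' : SmProjVar k} (i : Y'.toOver ⟶ Y.toOver)
    [IsClosedImmersion i.left] (y : Y'.toOver.left) : Y.pointDim (i.left y) = Y'.pointDim y :=
  congrArg Cardinal.toNat (trd_closedImmersion i y)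

/-- **PW-B2b.** -/
theorem dim_eq_of_iso (W : WeilCohomology.{u, v, w} k K) {Y Y' : SmProjVar k}
    (i : Y'.toOver ⟶ Y.toOver) [IsIso i.left] : Y'.dim = Y.dim := by
  have h1 := pointDim_closedImmersion i Y'.genericPt
  have h2 : i.left Y'.genericPt = Y.genericPt := genericPoint_eq_of_isOpenImmersion i.left
  rw [h2, pointDim_genericPt W Y, pointDim_genericPt W Y'] at h1
  exact h1.symm

theorem Pow.dim_eq_dim (W : WeilCohomology.{u, v, w} k K) {X : SmProjVar k} {T : Type}
    (A B : Pow X T) : A.var.dim = B.var.dim := by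
  have h1 : A.map B id ≫ B.map A id = 𝟙 _ := by
    rw [Pow.map_comp]
    exact A.map_id
  have h2 : B.map A id ≫ A.map B id = 𝟙 _ := by
    rw [Pow.map_comp]
    exact B.map_id
  have h3 : IsIso (A.map B id).left := by
    refine ⟨(B.map A id).left, ?_, ?_⟩
    · exact congrArg CommaMorphism.left h1
    · exact congrArg CommaMorphism.left h2
  exact dim_eq_of_iso W (A.map B id)

theorem Pow.dim_empty (W : WeilCohomology.{u, v, w} k K) {X : SmProjVar k} {T : Type} [IsEmpty T]
    (A : Pow X T) : A.var.dim = 0 := by
  obtain ⟨P, hP, hiso⟩ := exists_point k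
  have : IsIso P.toOver.hom := hiso
  let f : P.toOver ⟶ A.var.toOver := A.lift fun t => isEmptyElim t
  let g : A.var.toOver ⟶ P.toOver := Over.homMk (A.var.toOver.hom ≫ inv P.toOver.hom) (by simp)
  have h1 : f ≫ g = 𝟙 _ := by
    ext1
    rw [← cancel_mono P.toOver.hom]
    simp [Over.w]
  have h2 : g ≫ f = 𝟙 _ := A.hom_ext fun t => isEmptyElim t
  have h3 : IsIso f.left := by
    refine ⟨g.left, ?_, ?_⟩
    · exact congrArg CommaMorphism.left h1
    · exact congrArg CommaMorphism.left h2
  rw [← dim_eq_of_iso W f, hP]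

/-- **PW-B2c.** -/
theorem Pow.dim_eq (W : WeilCohomology.{u, v, w} k K) {X : SmProjVar k} {T : Type} [Finite T]
    (A : Pow X T) : A.var.dim = Nat.card T * X.dim := by
  revert A
  refine Finite.induction_empty_option (P := fun T => ∀ A : Pow X T,
    A.var.dim = Nat.card T * X.dim) ?_ ?_ ?_ T
  · intro S T e h A
    have h1 := h (A.relabel e)
    rw [Nat.card_congr e] at h1
    exact h1
  · intro A
    rw [Pow.dim_empty W A]
    simp
  · intro T _ h A
    have : Finite T := inferInstance
    let B : Pow X (Option T) :=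
      ((pw X T).prod (Pow.single X)).relabel (Equiv.optionEquivSumPUnit.{0, 0} T)
    rw [Pow.dim_eq_dim W A B]
    have h1 : B.var.dim = X.dim + (pw X T).var.dim := rfl
    rw [h1, h (pw X T), Finite.card_option]
    ring

end Pool.Agent.Helper11.PW
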