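import Mathlib
import Pool.Agent.Helper11.PW.Defs
import Pool.Agent.Helper47.Chow.Squares

/-!
# PW-B3, B4, B5: cartesian squares, projections, partial diagonals

Hints.  `isPullback_map`: `Chow/Squares.lean` has `isPullback_mk`; a morphism `Z ⟶ X^P` is given by
`P → Hom(Z, X)`: on `i t` take the `t`-th component of the first morphism, on `j a`, `a ∉ range g`,
the component of the second.
`flat_map`: with `C := pw X {t // t ∉ Set.range g}` the morphism is (isomorphic to) the first
projection of `B.var.prod C.var`, a base change of `C.var ⟶ Spec k`.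
`isClosedImmersion_map`: `IsClosedImmersion.iff_isProper_and_mono` (`ZariskisMainTheorem.lean`);
morphisms between `SmProjVar`s are proper; mono: `Pow.semi_unique`.
-/

universe u v w

open CategoryTheory AlgebraicGeometry Limits

namespace Pool.Agent.Helper11.PW

open Pool.Agent.Helper10 Pool.Agent.Helper10.SmProjVar Pool.Agent.Helper47.Chow

variable {k : Type u} [Field k] {X : SmProjVar k} {S T N P : Type}

/-- **PW-B3.** -/
theorem isPullback_map (A : Pow X P) (B : Pow X T) (B' : Pow X N) (D : Pow X S) {f : S → T}
    {g : S → N} {i : T → P} {j : N → P} (h : SqInj f g i j) :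
    IsPullback (A.map B i) (A.map B' j) (B.map D f) (B'.map D g) := by
  classical
  refine isPullback_mk _ _ _ _ ?_ ?_ ?_
  · rw [Pow.map_comp, Pow.map_comp]
    congr 1
    funext s
    exact h.comm s
  · intro Z s t hst
    have hst' : ∀ x, s ≫ B.pr (f x) = t ≫ B'.pr (g x) := by
      intro x
      have := congrArg (fun q => q ≫ D.pr x) hst
      simp only [Category.assoc, Pow.map_pr] at this
      exact this
    let c : P → (Z ⟶ X.toOver) := fun p =>
      if hp : p ∈ Set.range i then s ≫ B.pr hp.choose
      else if hq : p ∈ Set.range j then t ≫ B'.pr hq.choose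
      else (if hc : Nonempty (Z ⟶ X.toOver) then hc.some else by
        exfalso
        rcases h.cover p with h1 | h1
        · exact hp h1
        · exact hq h1)
    have hci : ∀ x, c (i x) = s ≫ B.pr x := by
      intro x
      have hp : i x ∈ Set.range i := ⟨x, rfl⟩
      change (if hp : i x ∈ Set.range i then _ else _) = _
      rw [dif_pos hp, h.inj_i hp.choose_spec]
    have hcj : ∀ y, c (j y) = t ≫ B'.pr y := by
      intro y
      by_cases hp : j y ∈ Set.range i
      · obtain ⟨x, hx⟩ := hp
        have hy : y ∈ Set.range g := by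
          by_contra hy
          exact h.disj x y hy hx
        obtain ⟨w, rfl⟩ := hy
        rw [← h.comm w, hci, hst']
      · have hq : j y ∈ Set.range j := ⟨y, rfl⟩
        have h1 : c (j y) = t ≫ B'.pr hq.choose := by
          change (if hp : j y ∈ Set.range i then _ else _) = _
          rw [dif_neg hp, dif_pos hq]
        have h2 : ∀ z, j z = j y → z ∉ Set.range g := by
          rintro z hz ⟨w, rfl⟩
          exact hp ⟨f w, by rw [h.comm w, hz]⟩
        rw [h1, h.inj_j _ _ (h2 _ hq.choose_spec) (h2 y rfl) hq.choose_spec]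
    refine ⟨A.lift c, ?_, ?_⟩
    · apply B.hom_ext
      intro x
      rw [Category.assoc, Pow.map_pr, Pow.lift_pr, hci]
    · apply B'.hom_ext
      intro y
      rw [Category.assoc, Pow.map_pr, Pow.lift_pr, hcj]
  · intro Z l l' h1 h2
    apply A.hom_ext
    intro p
    rcases h.cover p with ⟨x, rfl⟩ | ⟨y, rfl⟩
    · have := congrArg (fun q => q ≫ B.pr x) h1
      simp only [Category.assoc, Pow.map_pr] at this
      exact this
    · have := congrArg (fun q => q ≫ B'.pr y) h2
      simp only [Category.assoc, Pow.map_pr] at this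
      exact this

private lemma flat_aux (A : Pow X T) (B : Pow X N) (A' : Pow X T) {g : N → T}
    (q : A'.var.toOver ⟶ B.var.toOver) (hq : ∀ s, q ≫ B.pr s = A'.pr (g s)) (hf : Flat q.left) :
    Flat (A.map B g).left := by
  have h1 : A.map B g = A.map A' id ≫ q := by
    apply B.hom_ext
    intro s
    rw [Pow.map_pr, Category.assoc, hq, Pow.map_pr]
    rfl
  have h2 : IsIso (A.map A' id) := ⟨A'.map A id, by rw [Pow.map_comp, Function.comp_id, Pow.map_id],
    by rw [Pow.map_comp, Function.comp_id, Pow.map_id]⟩
  have h3 : IsIso (A.map A' id).left := inferInstanceAs (IsIso ((Over.forget _).map (A.map A' id)))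
  rw [h1, Over.comp_left]
  infer_instance

/-- **PW-B4.** Projections are flat. -/
theorem flat_map [Finite T] (A : Pow X T) (B : Pow X N) {g : N → T} (hg : Function.Injective g) :
    Flat (A.map B g).left := by
  classical
  let C : Pow X {t // t ∉ Set.range g} := pw X _
  let e : T ≃ N ⊕ {t // t ∉ Set.range g} :=
    ((Equiv.Set.sumCompl (Set.range g)).symm.trans
      (Equiv.sumCongr (Equiv.ofInjective g hg).symm (Equiv.refl _)))
  refine flat_aux A B ((B.prod C).relabel e) (fst B.var C.var) (fun s => ?_) (flat_fst _ _)
  have h3 : e (g s) = Sum.inl s := by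
    rw [Equiv.trans_apply]
    have h4 : (Equiv.Set.sumCompl (Set.range g)).symm (g s) = Sum.inl ⟨g s, s, rfl⟩ := by
      rw [Equiv.symm_apply_eq]
      rfl
    rw [h4]
    change Sum.inl ((Equiv.ofInjective g hg).symm ⟨g s, s, rfl⟩) = _
    congr 1
    rw [Equiv.symm_apply_eq]
    rfl
  change fst B.var C.var ≫ B.pr s = (B.prod C).pr (e (g s))
  rw [h3]
  rfl

/-- **PW-B5a.** Partial diagonals are closed immersions. -/
theorem isClosedImmersion_map (A : Pow X T) (B : Pow X N) {f : N → T}
    (hf : Function.Surjective f) : IsClosedImmersion (A.map B f).left := by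
  rw [IsClosedImmersion.iff_isProper_and_mono]
  refine ⟨inferInstance, ⟨fun {Z} g h e => ?_⟩⟩
  have hpr : ∀ s, (A.map B f).left ≫ (B.pr s).left = (A.pr (f s)).left := fun s =>
    congrArg CommaMorphism.left (A.map_pr B f s)
  refine A.semi_unique _ _ ?_ fun t => ?_
  · rw [← Over.w (A.map B f), ← Category.assoc, e, Category.assoc]
  · obtain ⟨s, rfl⟩ := hf t
    rw [← hpr, ← Category.assoc, e, Category.assoc]

/-- **PW-B5b.** -/
theorem isClosedImmersion_mapOver {M : SmProjVar k} (A : Pow X T) (B : Pow M T)
    (j : X.toOver ⟶ M.toOver) [IsClosedImmersion j.left] :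
    IsClosedImmersion (A.mapOver B j).left := by
  rw [IsClosedImmersion.iff_isProper_and_mono]
  refine ⟨inferInstance, ⟨fun {Z} g h e => ?_⟩⟩
  have hpr : ∀ t, (A.mapOver B j).left ≫ (B.pr t).left = (A.pr t).left ≫ j.left := fun t =>
    congrArg CommaMorphism.left (A.mapOver_pr B j t)
  refine A.semi_unique _ _ ?_ fun t => ?_
  · rw [← Over.w (A.mapOver B j), ← Category.assoc, e, Category.assoc]
  · rw [← cancel_mono j.left, Category.assoc, Category.assoc, ← hpr, ← Category.assoc, e,
      Category.assoc]

/-- **PW-B5c.** Isomorphism. -/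
theorem isIso_map (A : Pow X T) (B : Pow X N) {f : N → T} (hf : Function.Bijective f) :
    IsIso (A.map B f) := by
  let e := Equiv.ofBijective f hf
  refine ⟨B.map A e.symm, ?_, ?_⟩
  · rw [Pow.map_comp]
    have : f ∘ e.symm = id := by
      funext x
      exact e.apply_symm_apply x
    rw [this, Pow.map_id]
  · rw [Pow.map_comp]
    have : e.symm ∘ f = id := by
      funext x
      exact e.symm_apply_apply x
    rw [this, Pow.map_id]

end Pool.Agent.Helper11.PW
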