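import Mathlib
import Pool.Agent.Helper11.PW.St.B7

/-!
# PW-B7, B8, B10: the power `X^T` is a zero locus in `M₀^T`

Hints.
* `isZeroLocus_pow`.  `w`: `thetaPow_hom`.  `zero`: over `V` (a chart `y : PowIdx S A₀`) the
  equation number `q`, `e q = (t, c)`, is the restriction of the pull-back along `(A.pr t).left` of
  the equation `c` on `X` (`thetaPow_pr`).  `exists_lift`: for `(p, s)` on `Z` put
  `p_t := p ≫ (A₀.pr t).left`; the equations of `p_t` vanish on `p_t ⁻¹ (U i)` since they vanish on the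
  members `p ⁻¹ V` of an open cover (`V` an affine open of `M₀^T` with `V ≤ pr_s ⁻¹ U (i s)`, `i t = i`;
  `exists_powIdx`; use `TopCat.Sheaf.eq_of_locally_eq` or the `Spread` files, e.g. `C1`, `C5` (the
  lemmas `ap…`)); so there is `h_t : Z ⟶ X`; take `A.lift`.  Uniqueness: `A.semi_unique`, `hX.unique`.
* `exists_aut_eq`: `g'` is determined by `fieldMap g'` (`IsZeroLocus.unique` for `X^T`); the element
  `g` of the group of `X` with the same `fieldMap` exists by `exists_semiAut` (Spread, see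
  `Local.lean`); `aut_thetaPow`.
* `genAt_of_reduced`: take `E = κ(x)` and the points `fromSpecResidueField x ≫ (A₀.pr t).left`.
-/

universe u v w

open CategoryTheory AlgebraicGeometry Limits

namespace Pool.Agent.Helper11.PW

open Pool.Agent.Helper10 Pool.Agent.Helper10.SmProjVar Pool.Agent.Helper47.Chow
open Pool.Agent.Helper47.Desc Pool.Agent.Helper47.Spread

noncomputable section

variable {F K : Type u} [Field F] [Field K] [Algebra F K] {M₀ : SmProjVar F} {X : SmProjVar K}
  {r R : ℕ} {I : Type} [Fintype I] {T N : Type}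

lemma b8_base_specMap {Y : SmProjVar K} (g : SemiAut Y)
    (h2 : ∀ c : F, fieldMap g (algebraMap F K c) = algebraMap F K c) :
    g.base ≫ specMap F K = specMap F K := by
  rw [← specMap_fieldMap g]
  unfold specMap
  rw [← Spec.map_comp, ← CommRingCat.ofHom_comp]
  congr 2
  ext c
  exact h2 c

lemma b8_fieldMap_eq {Y Z : SmProjVar K} (g : SemiAut Y) (h : SemiAut Z)
    (e : g.base = h.base) (x : K) : fieldMap g x = fieldMap h x := by
  unfold fieldMap
  rw [e]

lemma b8_base_eq {Y Z : SmProjVar K} (g : SemiAut Y) (h : SemiAut Z)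
    (e : ∀ x, fieldMap g x = fieldMap h x) : g.base = h.base := by
  rw [← specMap_fieldMap g, ← specMap_fieldMap h, RingHom.ext e]

/-- **PW-B8a.** -/
theorem aut_mem {a : I → K} {π : X.toOver.left ⟶ M₀.toOver.left}
    (w : π ≫ M₀.toOver.hom = X.toOver.hom ≫ specMap F K) (A : Pow X T) (A₀ : Pow M₀ T)
    {g : SemiAut X} (hg : g ∈ galGroup (F := F) a π) :
    A.aut g ∈ galGroup (F := F) a (thetaPow A A₀ π w) := by
  obtain ⟨h1, h2, h3⟩ := hg
  refine ⟨aut_thetaPow A A₀ π w g h1 (b8_base_specMap g h2), fun c => ?_, fun l => ?_⟩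
  · rw [b8_fieldMap_eq (A.aut g) g (A.aut_base g)]
    exact h2 c
  · rw [b8_fieldMap_eq (A.aut g) g (A.aut_base g)]
    exact h3 l

/-- **PW-B8b.** -/
theorem exists_aut_eq [Finite T] {S : Sections M₀ r I} {a : I → K}
    {π : X.toOver.left ⟶ M₀.toOver.left} (hX : IsZeroLocus S a X π) (A : Pow X T)
    (A₀ : Pow M₀ T) {g' : SemiAut A.var}
    (hg' : g' ∈ galGroup (F := F) a (thetaPow A A₀ π hX.w)) :
    ∃ g ∈ galGroup (F := F) a π, A.aut g = g' := by
  obtain ⟨h1, h2, h3⟩ := hg'
  have e1 : (fieldMap g').comp (fieldMap g'⁻¹) = RingHom.id K := by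
    ext x
    have := fieldMap_mul g'⁻¹ g' x
    rw [inv_mul_cancel, fieldMap_one] at this
    exact this.symm
  have e2 : (fieldMap g'⁻¹).comp (fieldMap g') = RingHom.id K := by
    ext x
    have := fieldMap_mul g' g'⁻¹ x
    rw [mul_inv_cancel, fieldMap_one] at this
    exact this.symm
  obtain ⟨g, hg, hgσ⟩ := exists_semiAut hX (RingEquiv.ofRingHom (fieldMap g') (fieldMap g'⁻¹) e1 e2)
    h2 h3
  have hb : g.base = g'.base := b8_base_eq g g' fun x => hgσ x
  refine ⟨g, hg, ?_⟩
  apply A.semiAut_ext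
  · rw [A.aut_base, hb]
  · intro t
    rw [A.aut_pr]
    apply hX.unique
    · rw [Category.assoc, hg.1, Category.assoc, ← thetaPow_pr A A₀ π hX.w t, ← Category.assoc, h1]
    · rw [Category.assoc, SemiAut.sch_hom, ← Category.assoc, Over.w, Category.assoc, Over.w,
        SemiAut.sch_hom, hb]

end

end Pool.Agent.Helper11.PW
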