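import Mathlib
import Pool.Agent.Helper11.PW.PowSections

/-!
# PW-B9, B11, B12: base change, strata

Hints.
* `isPullback_thetaPow`: universal property: morphisms `Z ⟶ M^T` over `K` are families of morphisms
  `Z ⟶ M`, i.e. of morphisms `Z ⟶ M₀` over `F`, together with `Z ⟶ Spec K`.
* `exists_stratum`: let `x_t : Spec κ(x) ⟶ M₀` be the components of `x`, `s ~ t` iff `x_s = x_t`,
  `T = N / ~` (`Quotient` of a `Setoid`), `x'` the image of the point of `Spec κ(x)` under the
  morphism to `M₀^T` with components `x_t`.  If two components of `x'` over `κ(x')` agree, so do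
  their compositions with `Spec κ(x) ⟶ Spec κ(x') ⟶ M₀^T`
  (the morphism `Spec κ(x) ⟶ M₀^T` factors through `Spec κ(x')`, see
  `Scheme.SpecToEquivOfField`, `Scheme.Hom.residueFieldMap`, `fromSpecResidueField`).
* `exists_point_over`: let `y_s : Spec κ(y) ⟶ X` be the components of `y`.  The morphism
  `Spec κ(y) ⟶ M₀^N` factors through the closed immersion (monomorphism) `M₀^T ⟶ M₀^N` (its image
  point lies in the image: `Spec` of a field is reduced; or use the residue field of the point of
  `M₀^T`, which is the one of its image), hence `y_s ≫ π = y_{s'} ≫ π` if `f s = f s'`, and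
  `y_s = y_{s'}` by `hX.unique`.
-/

universe u v w

open CategoryTheory AlgebraicGeometry Limits

namespace Pool.Agent.Helper11.PW

open Pool.Agent.Helper10 Pool.Agent.Helper10.SmProjVar Pool.Agent.Helper47.Chow
open Pool.Agent.Helper47.Desc Pool.Agent.Helper47.Spread

noncomputable section

variable {F K : Type u} [Field F] [Field K] [Algebra F K] {M₀ : SmProjVar F} {X : SmProjVar K}
  {r R : ℕ} {I : Type} [Fintype I] {T N : Type}

omit [Fintype I] in
/-- **PW-B9.** -/
theorem isPullback_thetaPow {M : SmProjVar K} (pM : M.toOver.left ⟶ M₀.toOver.left)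
    (hM : IsPullback pM M.toOver.hom M₀.toOver.hom (specMap F K)) (B : Pow M T)
    (A₀ : Pow M₀ T) :
    IsPullback (thetaPow B A₀ pM hM.w) B.var.toOver.hom A₀.var.toOver.hom (specMap F K) := by
  have key : ∀ s : PullbackCone A₀.var.toOver.hom (specMap F K),
      ∃ l : s.pt ⟶ B.var.toOver.left, l ≫ B.var.toOver.hom = s.snd ∧
        ∀ t, l ≫ (B.pr t).left ≫ pM = s.fst ≫ (A₀.pr t).left := by
    intro s
    let g : ∀ t, s.pt ⟶ M.toOver.left := fun t =>
      hM.lift (s.fst ≫ (A₀.pr t).left) s.snd (by
        rw [Category.assoc, Over.w]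
        exact s.condition)
    have hg : ∀ t, g t ≫ M.toOver.hom = s.snd := fun t => hM.lift_snd _ _ _
    have hg' : ∀ t, g t ≫ pM = s.fst ≫ (A₀.pr t).left := fun t => hM.lift_fst _ _ _
    let l := B.lift (Z := Over.mk s.snd) fun t => Over.homMk (g t) (hg t)
    have hl : ∀ t, l.left ≫ (B.pr t).left = g t := fun t =>
      congrArg CommaMorphism.left (B.lift_pr (Z := Over.mk s.snd) _ t)
    refine ⟨l.left, Over.w l, fun t => ?_⟩
    rw [← Category.assoc, hl, hg']
  choose l hl hl' using key
  refine ⟨⟨thetaPow_hom B A₀ pM hM.w⟩, ⟨PullbackCone.IsLimit.mk _ l ?_ hl ?_⟩⟩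
  · intro s
    refine A₀.semi_unique _ _ ?_ fun t => ?_
    · rw [Category.assoc, thetaPow_hom, ← Category.assoc, hl]
      exact s.condition.symm
    · rw [Category.assoc, thetaPow_pr, hl']
  · intro s m h1 h2
    refine B.semi_unique _ _ (by rw [h2, hl]) fun t => ?_
    apply hM.hom_ext
    · rw [Category.assoc, Category.assoc, hl', ← thetaPow_pr B A₀ pM hM.w, ← Category.assoc, h1]
    · rw [Category.assoc, Category.assoc, Over.w, h2, hl]

end

end Pool.Agent.Helper11.PW
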