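import Mathlib
import Pool.Agent.Helper11.PW.St.B2

/-!
# PW-C1, C2: local steps, transport along partial diagonals, induction

Hints.
* `mem_of_localStep`: `orbit_induction` (`Spread/H2.lean`) and `wellFounded_rel`
  (`Spread/H3.lean`), exactly as at the beginning of `mem_good` in `Spread/Main.lean`
  (`lev x` chosen for every `x`).
* `LocalStep.trans`: `lev y := lev' y'` if `y = i y'` (`i.left` is injective), else `0`; the cycle is
  `Finsupp.mapDomain i.left D'`; `cls (mapDomain …) = push i (cls D')` by `push_ptCls`: the residue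
  degree of a closed immersion at a point is `1` and `pointDim` is preserved
  (`pointDim_closedImmersion`).
-/

universe u v w

open CategoryTheory AlgebraicGeometry Limits

namespace Pool.Agent.Helper11.PW

open Pool.Agent.Helper10 Pool.Agent.Helper10.SmProjVar Pool.Agent.Helper47.Chow
open Pool.Agent.Helper47.Desc Pool.Agent.Helper47.Spread

variable {K : Type u} [Field K] {L : Type v} [Field L] [CharZero L]
  {W : WeilCohomology.{u, v, w} K L}

/-- The local step of the induction over the points of `Y`, for the points of dimension `m` with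
image `x` in `Q`. -/
def LocalStep {Y : SmProjVar K} {G : Type*} [Group G] (ρ : G →* SemiAut Y) {Q : Type*}
    [TopologicalSpace Q] (θ : Y.Pt → Q) (𝒢 : Submodule ℚ (CH Y)) (m : ℕ) (x : Q) : Prop :=
  ∃ lev : Y.Pt → ℕ, ∀ y : Y.Pt, Y.pointDim y = m → θ y = x → ∃ D : QCycles Y, cls Y D ∈ 𝒢 ∧
    0 < D.coeff y ∧ (∀ g, 0 ≤ D.coeff ((ρ g).pt y)) ∧ ∀ y' : Y.Pt, D.coeff y' ≠ 0 →
      Y.pointDim y' = m ∧ x ⤳ θ y' ∧
        (θ y' = x → (∃ g, (ρ g).pt y = y') ∨ lev y' < lev y)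

/-- The map on points. -/
private noncomputable def ptM {Y Y' : SmProjVar K} (i : Y'.toOver ⟶ Y.toOver) (x : Y'.Pt) : Y.Pt := i.left x

private lemma residueDegree_eq_one' {Z Z' : Scheme.{u}} (f : Z ⟶ Z') (x : Z)
    (h : Function.Surjective (f.residueFieldMap x).hom) : f.residueDegree x = 1 := by
  unfold Scheme.Hom.residueDegree
  let _ := (f.residueFieldMap x).hom.toAlgebra
  exact finrank_eq_one_iff_of_nonzero' 1 one_ne_zero |>.mpr fun b => by
    obtain ⟨c, hc⟩ := h b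
    refine ⟨c, ?_⟩
    rw [Algebra.smul_def, mul_one]
    exact hc

private lemma push_cls' (C : ChowTheory W) {Y Y' : SmProjVar K} (i : Y'.toOver ⟶ Y.toOver)
    [IsClosedImmersion i.left] (D : QCycles Y') :
    C.push i (cls Y' D) = cls Y (Finsupp.mapDomain (M := ℚ) (ptM i) D) := by
  classical
  let f1 : (Y'.Pt →₀ ℚ) →ₗ[ℚ] CH Y := (C.push i).comp (ratZero Y').mkQ
  let f2 : (Y'.Pt →₀ ℚ) →ₗ[ℚ] CH Y :=
    (ratZero Y).mkQ.comp (Finsupp.lmapDomain ℚ ℚ (ptM i))
  have h1 : f1 = f2 := by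
    refine Finsupp.lhom_ext' fun x => LinearMap.ext_ring ?_
    have e1 : Finsupp.mapDomain (ptM i) (Finsupp.single x (1 : ℚ)) =
        Finsupp.single (ptM i x) 1 := Finsupp.mapDomain_single
    refine Eq.trans ?_ (congrArg (cls Y) e1).symm
    refine (C.push_ptCls i x).trans ?_
    have e2 : (i.left.residueDegree x : ℚ) = 1 := by
      have := residueDegree_eq_one' i.left x
        (residueFieldMap_surjective_of_closedImmersion i.left x)
      rw [this, Nat.cast_one]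
    have e3 : Y'.pointDim x = Y.pointDim (i.left x) := (pointDim_closedImmersion i x).symm
    rw [if_pos e3, e2, one_smul]
    rfl
  exact LinearMap.congr_fun h1 D

/-- **PW-C1.** -/
theorem LocalStep.trans {C : ChowTheory W} {Y Y' : SmProjVar K} (i : Y'.toOver ⟶ Y.toOver)
    [IsClosedImmersion i.left] {G : Type*} [Group G] {ρ' : G →* SemiAut Y'} {ρ : G →* SemiAut Y}
    (hρ : ∀ g, i.left ≫ (ρ g).sch = (ρ' g).sch ≫ i.left) {Q Q' : Type*} [TopologicalSpace Q]
    [TopologicalSpace Q'] {θ' : Y'.Pt → Q'} {θ : Y.Pt → Q} {δ : Q' → Q} (hδ : Continuous δ)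
    (hδ' : Function.Injective δ) (hθ : ∀ y' : Y'.toOver.left, θ (i.left y') = δ (θ' y')) {x' : Q'}
    (hlift : ∀ y : Y.Pt, θ y = δ x' → ∃ y' : Y'.toOver.left, i.left y' = y)
    {𝒢' : Submodule ℚ (CH Y')} {𝒢 : Submodule ℚ (CH Y)} (h𝒢 : ∀ a ∈ 𝒢', C.push i a ∈ 𝒢)
    {m : ℕ} (h : LocalStep ρ' θ' 𝒢' m x') : LocalStep ρ θ 𝒢 m (δ x') := by
  classical
  obtain ⟨lev', h'⟩ := h
  have hinj : Function.Injective (ptM i) :=
    (Scheme.Hom.isEmbedding i.left).injective
  let lev : Y.Pt → ℕ := fun y => if hy : ∃ y', ptM i y' = y then lev' hy.choose else 0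
  have hlev : ∀ y' : Y'.Pt, lev (ptM i y') = lev' y' := by
    intro y'
    have h1 : ∃ z, ptM i z = ptM i y' := ⟨y', rfl⟩
    have h2 : lev (ptM i y') = lev' h1.choose := dif_pos h1
    rw [h2, hinj h1.choose_spec]
  have hpt : ∀ g (y' : Y'.Pt), (ρ g).pt (ptM i y') = ptM i ((ρ' g).pt y') := by
    intro g y'
    have h1 := congrArg (fun f : Y'.toOver.left ⟶ Y.toOver.left => f y') (hρ g)
    change (i.left ≫ (ρ g).sch) y' = ((ρ' g).sch ≫ i.left) y' at h1
    rw [Scheme.Hom.comp_apply, Scheme.Hom.comp_apply] at h1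
    exact h1
  refine ⟨lev, fun y hy hyx => ?_⟩
  obtain ⟨y₁, rfl⟩ := hlift y hyx
  have hx1 : θ' y₁ = x' := hδ' (by rw [← hθ, hyx])
  have hd1 : Y'.pointDim y₁ = m := by
    rw [← pointDim_closedImmersion i y₁]
    exact hy
  obtain ⟨D, h1, h2, h3, h4⟩ := h' y₁ hd1 hx1
  let D₁ : QCycles Y := Finsupp.mapDomain (M := ℚ) (ptM i) D
  have hco : ∀ y' : Y'.Pt, D₁.coeff (ptM i y') = D.coeff y' := fun y' =>
    Finsupp.mapDomain_apply (M := ℚ) (f := ptM i) hinj D y'
  refine ⟨D₁, ?_, ?_, fun g => ?_, fun y' hy' => ?_⟩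
  · have h5 := h𝒢 _ h1
    rw [push_cls'] at h5
    exact h5
  · have h5 := hco y₁
    change 0 < D₁.coeff (ptM i y₁)
    rw [h5]
    exact h2
  · have h5 := hpt g y₁
    change 0 ≤ D₁.coeff ((ρ g).pt (ptM i y₁))
    rw [h5, hco]
    exact h3 g
  · obtain ⟨y₂, rfl⟩ : ∃ y₂, ptM i y₂ = y' := by
      by_contra hne
      push Not at hne
      refine hy' (Finsupp.mapDomain_of_notMem_range (M := ℚ) (f := ptM i) D y' ?_)
      rintro ⟨x, hx⟩
      exact hne x hx
    rw [hco] at hy'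
    obtain ⟨h5, h6, h7⟩ := h4 y₂ hy'
    have h8 : θ (ptM i y₂) = δ (θ' y₂) := hθ y₂
    refine ⟨(pointDim_closedImmersion i y₂).trans h5, ?_, fun h9 => ?_⟩
    · rw [h8]
      exact h6.map hδ
    · rw [h8] at h9
      rcases h7 (hδ' h9) with ⟨g, hg⟩ | h10
      · refine Or.inl ⟨g, ?_⟩
        rw [← hg]
        exact hpt g y₁
      · refine Or.inr ?_
        change lev (ptM i y₂) < lev (ptM i y₁)
        rw [hlev, hlev]
        exact h10

/-- **PW-C2.** -/
theorem mem_of_localStep {Y : SmProjVar K} {G : Type*} [Group G] (ρ : G →* SemiAut Y)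
    (hfin : ∀ y : Y.Pt, (Set.range fun g => (ρ g).pt y).Finite) {Q : Type*} [TopologicalSpace Q]
    [TopologicalSpace.NoetherianSpace Q] [T0Space Q] (θ : Y.Pt → Q) (𝒢 : Submodule ℚ (CH Y))
    (h𝒢 : ∀ g, ∀ a ∈ 𝒢, (ρ g).chow a ∈ 𝒢) (m : ℕ) (h : ∀ x, LocalStep ρ θ 𝒢 m x)
    (z : QCycles Y) (hz : ∀ y, z.coeff y ≠ 0 → Y.pointDim y = m)
    (hinv : ∀ g, (ρ g).chow (cls Y z) = cls Y z) : cls Y z ∈ 𝒢 := by
  classical
  choose lev hlev using h
  refine orbit_induction ρ hfin 𝒢 h𝒢 m _ (wellFounded_rel θ lev) ?_ z hz hinv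
  intro y hy
  obtain ⟨D, h1, h2, h3, h4⟩ := hlev (θ y) y hy rfl
  refine ⟨D, h1, h2, h3, fun y' hy' => ?_⟩
  obtain ⟨h5, h6, h7⟩ := h4 y' hy'
  refine ⟨h5, ?_⟩
  by_cases h : θ y' = θ y
  · rcases h7 h with h8 | h8
    · exact Or.inl h8
    · exact Or.inr (Or.inr ⟨h, h8⟩)
  · exact Or.inr (Or.inl ⟨h6, h⟩)

end Pool.Agent.Helper11.PW
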