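import Mathlib
import Pool.Agent.Helper11.PW.St.B3
import Pool.Agent.Helper11.FrobWeil

/-!
# PW-D1, D2: base change and degree on powers

Hints.  D1: `C.base_change` with `isPullback_map` and `flat_map`.
D2a: if `N = {s} ∪ Del N s`, the square `X^N ⟶ X` (`B.pr s`), `X^N ⟶ X^{Del N s}` (`forget B s`) is
a product: `B.var ≅ X.prod (del X s).var` and `push_pull_deg`.
-/

universe u v w

open CategoryTheory AlgebraicGeometry Limits

namespace Pool.Agent.Helper11.PW

open Pool.Agent.Helper10 Pool.Agent.Helper10.SmProjVar Pool.Agent.Helper47.Chow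

variable {k : Type u} [Field k] {K : Type v} [Field K] [CharZero K]
  {W : WeilCohomology.{u, v, w} k K} (C : ChowTheory W) {X : SmProjVar k} {S T N P : Type}

/-- **PW-D1.** Base change. -/
theorem pull_push_map [Finite N] (A : Pow X P) (B : Pow X T) (B' : Pow X N) (D : Pow X S)
    {f : S → T} {g : S → N} {i : T → P} {j : N → P} (h : SqInj f g i j) (a : CH B.var) :
    C.pull (B'.map D g) (C.push (B.map D f) a) = C.push (A.map B' j) (C.pull (A.map B i) a) :=
  C.base_change (B.map D f) (B'.map D g) (A.map B i) (A.map B' j) (isPullback_map A B B' D h)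
    (flat_map B' D h.inj_g) a

section Iso

variable {Y Z : SmProjVar k} (θ : Y.toOver ⟶ Z.toOver) (ψ : Z.toOver ⟶ Y.toOver)

private lemma D1_push_eq_pull (h1 : θ ≫ ψ = 𝟙 _) (h2 : ψ ≫ θ = 𝟙 _) (a : CH Z) :
    C.push ψ a = C.pull θ a := by
  have hiso : IsIso ψ := ⟨θ, h2, h1⟩
  have hl : IsIso ψ.left := inferInstanceAs (IsIso ((Over.forget _).map ψ))
  have hp : IsPullback (𝟙 Z.toOver) (𝟙 Z.toOver) ψ ψ := IsPullback.of_vert_isIso ⟨rfl⟩ 
  have hb := C.base_change ψ ψ (𝟙 _) (𝟙 _) hp inferInstance a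
  rw [C.pull_id, C.push_id] at hb
  rw [← C.pull_id Y (C.push ψ a), ← h1, C.pull_comp, hb]

private lemma D1_push_pull (h1 : θ ≫ ψ = 𝟙 _) (h2 : ψ ≫ θ = 𝟙 _) (a : CH Z) :
    C.push θ (C.pull θ a) = a := by
  rw [← D1_push_eq_pull C θ ψ h1 h2, ← C.push_comp, h2, C.push_id]

private lemma D1_map_apply {Y Z : Scheme.{u}} (f : Y ⟶ Z) [QuasiCompact f] (g : Z ⟶ Y)
    (h1 : f ≫ g = 𝟙 _)
    (h2 : g ≫ f = 𝟙 _) (dm : Y → ℕ) (dm' : Z → ℕ) (c : AlgebraicCycle Y ℤ) (z : Z) :
    AlgebraicCycle.map f dm dm' c z = c (g z) * (AlgebraicCycle.mapCoeff f dm dm' (g z) : ℤ) := by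
  unfold AlgebraicCycle.map
  rw [Function.locallyFinsupp.map_apply]
  have e1 : ∀ y : Y, g (f y) = y := fun y => by
    rw [← Scheme.Hom.comp_apply, h1]
    rfl
  have e2 : ∀ y : Z, f (g y) = y := fun y => by
    rw [← Scheme.Hom.comp_apply, h2]
    rfl
  have h3 : (⇑f) ⁻¹' {z} = {g z} := by
    ext y
    constructor
    · intro h
      have h' : f y = z := h
      change y = g z
      rw [← h', e1]
    · intro h
      have h' : y = g z := h
      change f y = z
      rw [h', e2]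
  rw [h3, finsum_mem_singleton]

private lemma D1_pushCycle_coeff (h1 : θ ≫ ψ = 𝟙 _) (h2 : ψ ≫ θ = 𝟙 _) (c : Y.Cyc) (z : Z.Pt) :
    (pushCycle θ c).coeff z = c.coeff (ψ.left z) *
      (AlgebraicCycle.mapCoeff θ.left Y.pointDim Z.pointDim (ψ.left z) : ℤ) :=
  D1_map_apply θ.left ψ.left (congrArg CommaMorphism.left h1) (congrArg CommaMorphism.left h2)
    Y.pointDim Z.pointDim c z

private lemma D1_dim_le (W : WeilCohomology.{u, v, w} k K) (h2 : ψ ≫ θ = 𝟙 _) :
    Z.dim ≤ Y.dim := by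
  by_contra hlt
  obtain ⟨x, ⟨hx, hx1⟩, _⟩ := (W.trace Z).bijective 1
  have h3 : W.pull θ x = 0 := by
    have := (W.pull_hom θ).map_mem _ _ hx
    rw [(W.graded Y).eq_bot (2 * Z.dim) (by omega)] at this
    simpa using this
  have h4 : x = W.pull ψ (W.pull θ x) := by rw [← W.pull_comp, h2, W.pull_id]
  have h5 : W.pull ψ 0 = 0 := by
    have := (W.pull_hom ψ).map_smul 0 0
    simpa using this
  have h6 : W.tr Z 0 = 0 := by
    have := (W.trace Z).map_smul 0 0
    simpa using this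
  rw [h4, h3, h5, h6] at hx1
  exact zero_ne_one hx1

private lemma D1_tr_nat (W : WeilCohomology.{u, v, w} k K) (h1 : θ ≫ ψ = 𝟙 _)
    (h2 : ψ ≫ θ = 𝟙 _) :
    ∃ n : ℕ, ∀ z : W.H Z, W.tr Y (W.pull θ z) = n * W.tr Z z := by
  classical
  have hdim : Y.dim = Z.dim := le_antisymm (D1_dim_le ψ θ W h1) (D1_dim_le θ ψ W h2)
  obtain ⟨c, hc, hc1⟩ := W.cycleClasses.cy_fundamental Y
  obtain ⟨d, hd, hd1⟩ := W.cycleClasses.cy_fundamental Z
  let n : ℕ := AlgebraicCycle.mapCoeff θ.left Y.pointDim Z.pointDim Y.genericPt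
  let c' : Z.Z 0 := ⟨pushCycle θ c.toCyc, WeilCohomology.pushCycle_mem θ 0 0 (by omega) c⟩
  have hi : IsIso θ := ⟨ψ, h1, h2⟩
  have hl : IsIso θ.left := inferInstanceAs (IsIso ((Over.forget _).map θ))
  have e0 : ψ.left (θ.left Y.genericPt) = Y.genericPt := by
    rw [← Scheme.Hom.comp_apply, ← Over.comp_left, h1]
    rfl
  have hg : θ.left Y.genericPt = Z.genericPt := genericPoint_eq_of_isOpenImmersion θ.left
  have e2 : ∀ y : Z.toOver.left, θ.left (ψ.left y) = y := fun y => by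
    rw [← Scheme.Hom.comp_apply, ← Over.comp_left, h2]
    rfl
  have hcoeff : ∀ (X : SmProjVar k) (y : X.Pt),
      Cyc.coeff (X.pointCycle X.genericPt) y = if y = X.genericPt then 1 else 0 := fun X y =>
    Function.locallyFinsuppWithin.single_apply (X := X.toOver.left) (Y := ℤ)
      (x₁ := X.genericPt) (x₂ := y) (y := (1 : ℤ))
  have key : W.cy Z 0 c' = (n : K) • W.cy Z 0 d := by
    refine cy_nat W Z 0 d n c' fun z => ?_
    change (pushCycle θ c.toCyc).coeff z = _
    rw [D1_pushCycle_coeff θ ψ h1 h2, hc, hd]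
    by_cases hz : z = Z.genericPt
    · have hz' : ψ.left z = Y.genericPt := by rw [hz, ← hg, e0]
      have a1 : Cyc.coeff (Y.pointCycle Y.genericPt) (ψ.left z) = 1 :=
        (hcoeff Y (ψ.left z)).trans (if_pos hz')
      rw [a1, hz', (hcoeff Z z).trans (if_pos hz), _root_.mul_one, _root_.one_mul]
    · have hz' : ψ.left z ≠ Y.genericPt := fun h => hz (by rw [← hg, ← h, e2])
      have a1 : Cyc.coeff (Y.pointCycle Y.genericPt) (ψ.left z) = 0 :=
        (hcoeff Y (ψ.left z)).trans (if_neg hz')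
      rw [a1, (hcoeff Z z).trans (if_neg hz), mul_zero, zero_mul]
  refine ⟨n, fun z => ?_⟩
  have := W.cycleClasses.cy_push θ 0 0 c c' rfl z
  rw [key, hc1, hd1, smul_mul_assoc, _root_.one_mul, _root_.one_mul, (W.trace Z).map_smul] at this
  exact this.symm

private lemma D1_tr_pull (h1 : θ ≫ ψ = 𝟙 _) (h2 : ψ ≫ θ = 𝟙 _) (z : W.H Z) :
    W.tr Y (W.pull θ z) = W.tr Z z := by
  obtain ⟨n, hn⟩ := D1_tr_nat θ ψ W h1 h2
  obtain ⟨m, hm⟩ := D1_tr_nat ψ θ W h2 h1
  obtain ⟨x, ⟨hx, hx1⟩, _⟩ := (W.trace Z).bijective 1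
  have h3 := hm (W.pull θ x)
  rw [← W.pull_comp, h2, W.pull_id, hn, hx1, _root_.mul_one] at h3
  have h4 : m * n = 1 := by exact_mod_cast h3.symm
  rw [hn, Nat.eq_one_of_mul_eq_one_left h4, Nat.cast_one, _root_.one_mul]

end Iso

section Split

variable [Finite N] (B : Pow X N) (s : N)

/-- `X^N ⟶ X × X^{N - s}`. -/
private noncomputable def D1θ : B.var.toOver ⟶ (X.prod (del X s).var).toOver :=
  liftT (B.pr s) (forget B s)

open Classical in
/-- `X × X^{N - s} ⟶ X^N`. -/
private noncomputable def D1ψ : (X.prod (del X s).var).toOver ⟶ B.var.toOver :=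
  B.lift fun t => if h : t = s then fst X (del X s).var else
    snd X (del X s).var ≫ (del X s).pr ⟨t, h⟩

private lemma D1ψ_pr : D1ψ B s ≫ B.pr s = fst X (del X s).var := by
  unfold D1ψ
  rw [Pow.lift_pr, dif_pos rfl]

private lemma D1ψ_pr_ne {t : N} (h : t ≠ s) :
    D1ψ B s ≫ B.pr t = snd X (del X s).var ≫ (del X s).pr ⟨t, h⟩ := by
  unfold D1ψ
  rw [Pow.lift_pr, dif_neg h]

private lemma D1θ_fst : D1θ B s ≫ fst X (del X s).var = B.pr s := liftT_fst _ _

private lemma D1θ_snd : D1θ B s ≫ snd X (del X s).var = forget B s := liftT_snd _ _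

private lemma D1_forget_pr (t : Del N s) : forget B s ≫ (del X s).pr t = B.pr t :=
  Pow.map_pr _ _ _ _

private lemma D1θψ : D1θ B s ≫ D1ψ B s = 𝟙 _ := by
  apply B.hom_ext
  intro t
  rw [Category.assoc, Category.id_comp]
  by_cases h : t = s
  · subst h
    rw [D1ψ_pr, D1θ_fst]
  · rw [D1ψ_pr_ne B s h, ← Category.assoc, D1θ_snd, D1_forget_pr]

private lemma D1ψθ : D1ψ B s ≫ D1θ B s = 𝟙 _ := by
  apply prod_ext
  · rw [Category.assoc, D1θ_fst, D1ψ_pr, Category.id_comp]
  · rw [Category.assoc, D1θ_snd, Category.id_comp]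
    apply (del X s).hom_ext
    intro t
    rw [Category.assoc, D1_forget_pr, D1ψ_pr_ne B s t.2]

end Split

/-- **PW-D2a.** -/
theorem push_forget_at [Finite N] (B : Pow X N) (s : N) (c : CH X) :
    C.push (forget B s) (at' C B s c) = deg C X c • one _ := by
  rw [at', ← D1θ_fst B s, ← D1θ_snd B s, C.pull_comp, C.push_comp,
    D1_push_pull C _ _ (D1θψ B s) (D1ψθ B s), push_pull_deg]

/-- **PW-D2b.** -/
theorem push_forget_at_mul [Finite N] (B : Pow X N) (s : N) (c : CH X) (w : CH (del X s).var) :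
    C.push (forget B s) (C.mul _ (at' C B s c) (C.pull (forget B s) w)) = deg C X c • w := by
  rw [C.projection, push_forget_at, map_smul, LinearMap.smul_apply, C.one_mul]

/-- **PW-D2c.** The integral over a product. -/
theorem tr_forget [Finite N] (B : Pow X N) (s : N) (x : W.H X) (y : W.H (del X s).var) :
    W.tr B.var (W.pull (B.pr s) x * W.pull (forget B s) y) = W.tr X x * W.tr _ y := by
  rw [← D1θ_fst B s, ← D1θ_snd B s, W.pull_comp, W.pull_comp, ← (W.pull_hom _).map_mul,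
    D1_tr_pull _ _ (D1θψ B s) (D1ψθ B s), W.tr_prod]

/-- **PW-D2d.** `p_t^*` on the power and on the smaller power. -/
theorem pull_map_at (A : Pow X T) (B : Pow X N) (f : N → T) (s : N) (a : CH X) :
    C.pull (A.map B f) (at' C B s a) = at' C A (f s) a := by
  rw [at', at', ← C.pull_comp, Pow.map_pr]

/-- **PW-D2e.** -/
theorem push_map_at_mul (A : Pow X T) (B : Pow X N) (f : N → T) (s : N) (a : CH X)
    (w : CH A.var) : C.push (A.map B f) (C.mul _ (at' C A (f s) a) w) =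
      C.mul _ (at' C B s a) (C.push (A.map B f) w) := by
  rw [← pull_map_at C A B f s a, C.mul_comm, C.projection, C.mul_comm]

end Pool.Agent.Helper11.PW
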