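import Mathlib
import Pool.Agent.Helper11.PW.St.D1

/-!
# PW-D3: the operators `E_t(u, v)`

`E B t u v w = p_t^* u · q_t^* q_{t *} (p_t^* v · w)` with `q_t = forget B t`.
All statements follow from D1 (`pull_push_map`, `push_forget_at_mul`, `pull_map_at`,
`push_map_at_mul`), the projection formula and `Pow.map_comp`.

Hints.
* `E_comm`: `q_s^* q_{s *} q_t^* q_{t *} = (q_{s t})^* (q_{s t})_*` where `q_{s t}` is the
  projection to `X^{N ∖ {s, t}}`, by the square with corners `N`, `Del N s`, `Del N t`,
  `N ∖ {s, t}`.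
* `E_pull`, `E_push`: the square with corners `N`, `Del N (ι t)`, `N'`, `Del N' t`.
* `E_diag`: both sides are `p_s^* u · p_{s'}^* v · (X^{N} ← X^{Option T})_* 1`, where `N → Option T`
  sends `s` to `none` and the rest to `T` by `f`.
-/

universe u v w

open CategoryTheory AlgebraicGeometry Limits

namespace Pool.Agent.Helper11.PW

open Pool.Agent.Helper10 Pool.Agent.Helper10.SmProjVar Pool.Agent.Helper47.Chow
open Pool.Agent.Helper47.Desc

variable {k : Type u} [Field k] {K : Type v} [Field K] [CharZero K]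
  {W : WeilCohomology.{u, v, w} k K} (C : ChowTheory W) {X : SmProjVar k} {T N N' : Type}
  [Finite N] [Finite N']

private lemma D3_def (B : Pow X N) (t : N) (u v : CH X) (w : CH B.var) :
    E C B t u v w = C.mul B.var (at' C B t u)
      (C.pull (forget B t) (C.push (forget B t) (C.mul B.var (at' C B t v) w))) := rfl

/-- Composition with a factor pulled back from the quotient. -/
private lemma D3_mul_pull (B : Pow X N) (s : N) (u v : CH X) (x : CH B.var)
    (b : CH (del X s).var) :
    E C B s u v (C.mul _ x (C.pull (forget B s) b)) =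
      C.mul _ (E C B s u v x) (C.pull (forget B s) b) := by
  rw [D3_def, D3_def, ← C.mul_assoc, C.projection, C.pull_mul, C.mul_assoc]

/-- The map between the smaller index sets. -/
private def D3ι {ι : N' → N} (hι : Function.Injective ι) (t : N') : Del N' t → Del N (ι t) :=
  fun x => ⟨ι x.1, fun h => x.2 (hι h)⟩

omit [Finite N] [Finite N'] in
private lemma D3_sq1 {ι : N' → N} (hι : Function.Injective ι) (t : N') :
    SqInj (D3ι hι t) (Subtype.val : Del N' t → N') (Subtype.val : Del N (ι t) → N) ι where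
  comm := fun s => rfl
  inj_g := Subtype.val_injective
  inj_i := Subtype.val_injective
  inj_j := fun a b ha hb _ => by
    have ha' : a = t := by
      by_contra h
      exact ha ⟨⟨a, h⟩, rfl⟩
    have hb' : b = t := by
      by_contra h
      exact hb ⟨⟨b, h⟩, rfl⟩
    rw [ha', hb']
  disj := fun x a ha => by
    have ha' : a = t := by
      by_contra h
      exact ha ⟨⟨a, h⟩, rfl⟩
    rw [ha']
    exact x.2
  cover := fun p => by
    by_cases h : p = ι t
    · exact Or.inr ⟨t, h.symm⟩
    · exact Or.inl ⟨⟨p, h⟩, rfl⟩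

omit [Finite N] [Finite N'] in
private lemma D3_sq2 {ι : N' → N} (hι : Function.Injective ι) (t : N') :
    SqInj (Subtype.val : Del N' t → N') (D3ι hι t) ι (Subtype.val : Del N (ι t) → N) where
  comm := fun s => rfl
  inj_g := fun a b h => by
    have h1 : ι a.1 = ι b.1 := congrArg Subtype.val h
    exact Subtype.ext (hι h1)
  inj_i := hι
  inj_j := fun a b _ _ h => Subtype.ext h
  disj := fun x a ha h => by
    have hx : x ≠ t := fun hx => a.2 (by rw [← h, hx])
    exact ha ⟨⟨x, hx⟩, Subtype.ext h⟩
  cover := fun p => by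
    by_cases h : p = ι t
    · exact Or.inl ⟨t, h.symm⟩
    · exact Or.inr ⟨⟨p, h⟩, rfl⟩

private lemma D3_comp (B : Pow X N) (B' : Pow X N') {ι : N' → N} (hι : Function.Injective ι)
    (t : N') :
    forget B (ι t) ≫ (del X (ι t)).map (del X t) (D3ι hι t) = B.map B' ι ≫ forget B' t := by
  unfold forget
  rw [Pow.map_comp, Pow.map_comp]
  rfl

private lemma D3_pull (B : Pow X N) (B' : Pow X N') {ι : N' → N} (hι : Function.Injective ι)
    (t : N') (u v : CH X) (w : CH B'.var) :
    E C B (ι t) u v (C.pull (B.map B' ι) w) = C.pull (B.map B' ι) (E C B' t u v w) := by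
  have hb := pull_push_map C B B' (del X (ι t)) (del X t) (D3_sq2 hι t)
    (C.mul _ (at' C B' t v) w)
  change C.pull ((del X (ι t)).map (del X t) (D3ι hι t)) (C.push (forget B' t) _) =
    C.push (forget B (ι t)) _ at hb
  rw [D3_def, D3_def, ← pull_map_at C B B' ι t v, ← pull_map_at C B B' ι t u, ← C.pull_mul, ← hb,
    ← C.pull_comp, D3_comp B B' hι t, C.pull_comp, ← C.pull_mul]

private lemma D3_push (B : Pow X N) (B' : Pow X N') {ι : N' → N} (hι : Function.Injective ι)
    (t : N') (u v : CH X) (w : CH B.var) :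
    C.push (B.map B' ι) (E C B (ι t) u v w) = E C B' t u v (C.push (B.map B' ι) w) := by
  have hb := pull_push_map C B (del X (ι t)) B' (del X t) (D3_sq1 hι t)
    (C.push (forget B (ι t)) (C.mul _ (at' C B (ι t) v) w))
  change C.pull (forget B' t) (C.push ((del X (ι t)).map (del X t) (D3ι hι t)) _) =
    C.push (B.map B' ι) (C.pull (forget B (ι t)) _) at hb
  rw [D3_def, D3_def, push_map_at_mul C B B' ι t u, ← hb, ← C.push_comp, D3_comp B B' hι t,
    C.push_comp, push_map_at_mul C B B' ι t v]

private lemma D3_at_mul (B : Pow X N) {s t : N} (h : s ≠ t) (u v a : CH X) (w : CH B.var) :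
    E C B s u v (C.mul _ (at' C B t a) w) = C.mul _ (at' C B t a) (E C B s u v w) := by
  have h1 : at' C B t a = C.pull (forget B s) (at' C (del X s) ⟨t, h.symm⟩ a) :=
    (pull_map_at C B (del X s) Subtype.val ⟨t, h.symm⟩ a).symm
  rw [h1, C.mul_comm, D3_mul_pull, C.mul_comm]

omit [Finite N] in
private lemma at_mul_aux (B : Pow X N) (s : N) (a b : CH X) :
    at' C B s (C.mul X a b) = C.mul _ (at' C B s a) (at' C B s b) := C.pull_mul _ _ _

/-- **PW-D3a.** -/
theorem E_at_pull (B : Pow X N) (s : N) (u v a : CH X) (w : CH (del X s).var) :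
    E C B s u v (C.mul _ (at' C B s a) (C.pull (forget B s) w)) =
      deg C X (C.mul X v a) • C.mul _ (at' C B s u) (C.pull (forget B s) w) := by
  rw [D3_def, ← C.mul_assoc, ← at_mul_aux, push_forget_at_mul, map_smul, map_smul]

/-- **PW-D3b.** -/
theorem E_comm (B : Pow X N) {s t : N} (h : s ≠ t) (u v u' v' : CH X) (w : CH B.var) :
    E C B s u v (E C B t u' v' w) = E C B t u' v' (E C B s u v w) := by
  have e1 := D3_pull C B (del X t) (ι := Subtype.val) Subtype.val_injective ⟨s, h⟩ u v
    (C.push (forget B t) (C.mul B.var (at' C B t v') w))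
  have e2 := D3_push C B (del X t) (ι := Subtype.val) Subtype.val_injective ⟨s, h⟩ u v
    (C.mul B.var (at' C B t v') w)
  change E C B s u v (C.pull (forget B t) _) = C.pull (forget B t) _ at e1
  change C.push (forget B t) (E C B s u v _) = _ at e2
  rw [D3_def C B t, D3_at_mul C B h, e1]
  change C.mul _ _ (C.pull _ (E C (del X t) ⟨s, h⟩ u v (C.push (B.map (del X t) Subtype.val) _))) =
    _
  rw [← e2, D3_at_mul C B h, ← D3_def]

/-- **PW-D3c.** -/
theorem E_at_mul (B : Pow X N) {s t : N} (h : s ≠ t) (u v a : CH X) (w : CH B.var) :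
    E C B s u v (C.mul _ (at' C B t a) w) = C.mul _ (at' C B t a) (E C B s u v w) := by
  exact D3_at_mul C B h u v a w

/-- **PW-D3d.** -/
theorem E_pull (B : Pow X N) (B' : Pow X N') {ι : N' → N} (hι : Function.Injective ι) (t : N')
    (u v : CH X) (w : CH B'.var) :
    E C B (ι t) u v (C.pull (B.map B' ι) w) = C.pull (B.map B' ι) (E C B' t u v w) := by
  exact D3_pull C B B' hι t u v w

/-- **PW-D3e.** -/
theorem E_push (B : Pow X N) (B' : Pow X N') {ι : N' → N} (hι : Function.Injective ι) (t : N')
    (u v : CH X) (w : CH B.var) :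
    C.push (B.map B' ι) (E C B (ι t) u v w) = E C B' t u v (C.push (B.map B' ι) w) := by
  exact D3_push C B B' hι t u v w

/-- **PW-D3f.** -/
theorem E_mul_pull (B : Pow X N) (B' : Pow X N') {ι : N' → N} (hι : Function.Injective ι)
    (s : N) (hs : s ∉ Set.range ι) (u v : CH X) (x : CH B.var) (y : CH B'.var) :
    E C B s u v (C.mul _ x (C.pull (B.map B' ι) y)) =
      C.mul _ (E C B s u v x) (C.pull (B.map B' ι) y) := by
  have hne : ∀ x, ι x ≠ s := fun x hx => hs ⟨x, hx⟩
  have h1 : B.map B' ι = forget B s ≫ (del X s).map B' (fun x => ⟨ι x, hne x⟩) := by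
    unfold forget
    rw [Pow.map_comp]
    rfl
  rw [h1, C.pull_comp, D3_mul_pull]

end Pool.Agent.Helper11.PW
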