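import Mathlib
import Pool.Agent.Helper11.PW.St.D3

/-!
# PW-D3: the operators `E_t(u, v)`

`E B t u v w = p_t^* u · q_t^* q_{t *} (p_t^* v · w)` with `q_t = forget B t`.
All statements follow from D1 (`pull_push_map`, `push_forget_at_mul`, `pull_map_at`,
`push_map_at_mul`), the projection formula and `Pow.map_comp`.

Hints.
* `E_comm`: `q_s^* q_{s *} q_t^* q_{t *} = (q_{s t})^* (q_{s t})_*` where `q_{s t}` is the
  projection to `X^{N ∖ {s, t}}`, by the square with corners `N`, `Del N s`, `Del N t`,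
  `N ∖ {s, t}`.
* `E_pull`, `E_push`: the square with corners `N`, `Del N (ι t)`, `N'`, `Del N' t`.
* `E_diag`: both sides are `p_s^* u · p_{s'}^* v · (X^{N} ← X^{Option T})_* 1`, where `N → Option T`
  sends `s` to `none` and the rest to `T` by `f`.
-/

universe u v w

open CategoryTheory AlgebraicGeometry Limits

namespace Pool.Agent.Helper11.PW

open Pool.Agent.Helper10 Pool.Agent.Helper10.SmProjVar Pool.Agent.Helper47.Chow
open Pool.Agent.Helper47.Desc

variable {k : Type u} [Field k] {K : Type v} [Field K] [CharZero K]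
  {W : WeilCohomology.{u, v, w} k K} (C : ChowTheory W) {X : SmProjVar k} {T N N' : Type}
  [Finite N] [Finite N']

section D3gAux

/-- `N → Option T`, `s ↦ none`, the rest by `f`. -/
private noncomputable def D3gj (f : N → T) (s : N) : N → Option T :=
  open Classical in fun r => if r = s then none else some (f r)

omit [Finite N] in
private lemma D3gj_self (f : N → T) (s : N) : D3gj f s s = none := by
  unfold D3gj
  exact if_pos rfl

omit [Finite N] in
private lemma D3gj_ne (f : N → T) {s r : N} (h : r ≠ s) : D3gj f s r = some (f r) := by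
  unfold D3gj
  exact if_neg h

omit [Finite N] in
private lemma D3g_sq (f : N → T) (s : N) :
    SqInj (f ∘ (Subtype.val : Del N s → N)) (Subtype.val : Del N s → N) (some : T → Option T)
      (D3gj f s) where
  comm x := (D3gj_ne f x.2).symm
  inj_g := Subtype.val_injective
  inj_i := Option.some_injective T
  inj_j a b ha hb _ := by
    have h1 : a = s := by
      by_contra h
      exact ha ⟨⟨a, h⟩, rfl⟩
    have h2 : b = s := by
      by_contra h
      exact hb ⟨⟨b, h⟩, rfl⟩
    rw [h1, h2]
  disj t a ha h := by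
    have h1 : a = s := by
      by_contra h
      exact ha ⟨⟨a, h⟩, rfl⟩
    rw [h1, D3gj_self] at h
    exact Option.some_ne_none t h
  cover p := by
    cases p with
    | none => exact Or.inr ⟨s, D3gj_self f s⟩
    | some t => exact Or.inl ⟨t, rfl⟩

private lemma D3g_push_iso {Y Z : SmProjVar k} (θ : Y.toOver ⟶ Z.toOver) (ψ : Z.toOver ⟶ Y.toOver)
    (h1 : θ ≫ ψ = 𝟙 _) (h2 : ψ ≫ θ = 𝟙 _) : C.push θ (one Y) = one Z := by
  have hiso : IsIso θ := ⟨ψ, h1, h2⟩
  have hl : IsIso θ.left := inferInstanceAs (IsIso ((Over.forget _).map θ))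
  have hp : IsPullback (𝟙 Y.toOver) (𝟙 Y.toOver) θ θ := IsPullback.of_vert_isIso ⟨rfl⟩
  have hb := C.base_change θ θ (𝟙 _) (𝟙 _) hp inferInstance (one Y)
  rw [C.pull_id, C.push_id] at hb
  rw [← C.pull_id Z (C.push θ (one Y)), ← h2, C.pull_comp, hb, C.pull_one]

private lemma D3g_E_apply (B : Pow X N) (s : N) (u v : CH X) (w : CH B.var) :
    E C B s u v w = C.mul _ (at' C B s u) (C.pull (forget B s) (C.push (forget B s)
      (C.mul _ (at' C B s v) w))) := rfl

private lemma D3g_diag [Finite T] (A : Pow X T) (B : Pow X N) (A' : Pow X (Option T)) (f : N → T)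
    {s s' : N} (h : s ≠ s') (hf : f s = f s') (u v : CH X) :
    E C B s u v (C.push (A.map B f) (one _)) = C.mul _ (at' C B s u) (C.mul _ (at' C B s' v)
      (C.push (A'.map B (D3gj f s)) (one _))) := by
  have h0 : A.map B f ≫ forget B s = A.map (del X s) (f ∘ Subtype.val) := Pow.map_comp _ _ _ _ _
  have h1 : C.push (forget B s) (C.mul _ (at' C B s v) (C.push (A.map B f) (one _))) =
      C.mul _ (at' C (del X s) ⟨s', h.symm⟩ v)
        (C.push (A.map (del X s) (f ∘ Subtype.val)) (one _)) := by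
    rw [← push_map_at_mul, ← C.push_comp, h0, ← push_map_at_mul]
    change _ = C.push _ (C.mul _ (at' C A (f s') v) _)
    rw [hf]
  have h2 : C.pull (forget B s) (at' C (del X s) ⟨s', h.symm⟩ v) = at' C B s' v :=
    pull_map_at C B (del X s) Subtype.val _ v
  have h3 : C.pull (forget B s) (C.push (A.map (del X s) (f ∘ Subtype.val)) (one _)) =
      C.push (A'.map B (D3gj f s)) (one _) := by
    have := pull_push_map C A' A B (del X s) (D3g_sq f s) (one _)
    rw [C.pull_one] at this
    exact this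
  rw [D3g_E_apply, h1, C.pull_mul, h2, h3]

/-- The involution of `Option T` which exchanges `none` and `some t`. -/
private noncomputable def D3gσ (t : T) : Option T → Option T :=
  open Classical in fun p => if p = none then some t else if p = some t then none else p

private lemma D3gσ_none (t : T) : D3gσ t none = some t := by
  unfold D3gσ
  exact if_pos rfl

private lemma D3gσ_some (t : T) : D3gσ t (some t) = none := by
  unfold D3gσ
  rw [if_neg (Option.some_ne_none t), if_pos rfl]

private lemma D3gσ_other (t : T) {r : T} (h : r ≠ t) : D3gσ t (some r) = some r := by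
  unfold D3gσ
  rw [if_neg (Option.some_ne_none r), if_neg fun h' => h (Option.some_injective T h')]

private lemma D3gσ_comp (t : T) : D3gσ t ∘ D3gσ t = id := by
  funext p
  cases p with
  | none =>
    change D3gσ t (D3gσ t none) = none
    rw [D3gσ_none, D3gσ_some]
  | some r =>
    change D3gσ t (D3gσ t (some r)) = some r
    by_cases h : r = t
    · subst h
      rw [D3gσ_some, D3gσ_none]
    · rw [D3gσ_other t h, D3gσ_other t h]

omit [Finite N] in
private lemma D3gσ_j (f : N → T) {s s' : N} (h : s ≠ s') (hf : f s = f s')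
    (hr : ∀ r, f r = f s → r = s ∨ r = s') : D3gσ (f s) ∘ D3gj f s = D3gj f s' := by
  funext r
  change D3gσ (f s) (D3gj f s r) = D3gj f s' r
  by_cases h1 : r = s
  · subst h1
    rw [D3gj_self, D3gσ_none, D3gj_ne f h]
  · rw [D3gj_ne f h1]
    by_cases h2 : r = s'
    · subst h2
      rw [← hf, D3gσ_some, D3gj_self]
    · rw [D3gj_ne f h2, D3gσ_other]
      intro h3
      rcases hr r h3 with h4 | h4
      · exact h1 h4
      · exact h2 h4

omit [Finite N] in
private lemma D3g_push_j (B : Pow X N) (A' : Pow X (Option T)) (f : N → T)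
    {s s' : N} (h : s ≠ s') (hf : f s = f s') (hr : ∀ r, f r = f s → r = s ∨ r = s') :
    C.push (A'.map B (D3gj f s')) (one _) = C.push (A'.map B (D3gj f s)) (one _) := by
  have h1 : A'.map A' (D3gσ (f s)) ≫ A'.map A' (D3gσ (f s)) = 𝟙 _ := by
    rw [Pow.map_comp, D3gσ_comp, Pow.map_id]
  rw [← D3gσ_j f h hf hr, ← Pow.map_comp A' A' B, C.push_comp, D3g_push_iso C _ _ h1 h1]

end D3gAux

/-- **PW-D3g.** -/
theorem E_diag [Finite T] (A : Pow X T) (B : Pow X N) (f : N → T) {s s' : N} (h : s ≠ s')
    (hf : f s = f s') (hr : ∀ r, f r = f s → r = s ∨ r = s') (u v : CH X) :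
    E C B s u v (C.push (A.map B f) (one _)) = E C B s' v u (C.push (A.map B f) (one _)) := by
  rw [D3g_diag C A B (pw X (Option T)) f h hf u v,
    D3g_diag C A B (pw X (Option T)) f h.symm hf.symm v u,
    D3g_push_j C B (pw X (Option T)) f h hf hr, ← C.mul_assoc, ← C.mul_assoc,
    C.mul_comm _ (at' C B s u)]

/-- **PW-D3h.** -/
theorem E_chow {C : ChowTheory W} (hC : IsEquivariant C) (B : Pow X N) (s : N) (u v : CH X)
    (w : CH B.var) (g : SemiAut X) :
    (B.aut g).chow (E C B s u v w) = E C B s (g.chow u) (g.chow v) ((B.aut g).chow w) := by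
  have hm : ∀ (Y : SmProjVar k) (t : SemiAut Y) (a b : CH Y),
      t.chow (C.mul Y a b) = C.mul Y (t.chow a) (t.chow b) := hC.mul
  have ha : ∀ a : CH X, (B.aut g).chow (at' C B s a) = at' C B s (g.chow a) :=
    hC.pull (B.aut g) g (B.pr s) (B.aut_base g) (B.aut_pr g s).symm
  have hq : ∀ a, (B.aut g).chow (C.pull (forget B s) a) =
      C.pull (forget B s) (((del X s).aut g).chow a) :=
    hC.pull (B.aut g) ((del X s).aut g) (forget B s)
      ((B.aut_base g).trans ((del X s).aut_base g).symm) (B.map_aut (del X s) Subtype.val g)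
  have hp : ∀ a, ((del X s).aut g).chow (C.push (forget B s) a) =
      C.push (forget B s) ((B.aut g).chow a) :=
    hC.push (B.aut g) ((del X s).aut g) (forget B s)
      ((B.aut_base g).trans ((del X s).aut_base g).symm) (B.map_aut (del X s) Subtype.val g)
  rw [D3g_E_apply, D3g_E_apply, hm, ha, hq, hp, hm, ha]

/-- **PW-D3i.** -/
theorem E_hom (B : Pow X N) (s : N) (u v : CH X) (w : CH B.var) (hw : C.cl _ w = 0) :
    C.cl _ (E C B s u v w) = 0 := by
  have h1 : C.cl _ (C.push (forget B s) (C.mul _ (at' C B s v) w)) = 0 := by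
    refine C.cl_eq_zero_of_tr _ fun y => ?_
    rw [C.cl_push, C.cl_mul, hw, mul_zero, zero_mul]
    have h := (W.trace B.var).map_smul 0 (0 : W.H B.var)
    rwa [smul_zero, zero_mul] at h
  have h2 : W.pull (forget B s) 0 = 0 := by
    have h := (W.pull_hom (forget B s)).map_smul 0 0
    rwa [zero_smul, zero_smul] at h
  rw [D3g_E_apply, C.cl_mul, C.cl_pull, h1, h2, mul_zero]

section D3gDim

private lemma D3g_dim_le (W : WeilCohomology.{u, v, w} k K) {Y Z : SmProjVar k}
    (θ : Y.toOver ⟶ Z.toOver) (ψ : Z.toOver ⟶ Y.toOver) (h2 : ψ ≫ θ = 𝟙 _) :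
    Z.dim ≤ Y.dim := by
  by_contra hlt
  obtain ⟨x, ⟨hx, hx1⟩, _⟩ := (W.trace Z).bijective 1
  have h3 : W.pull θ x = 0 := by
    have := (W.pull_hom θ).map_mem _ _ hx
    rw [(W.graded Y).eq_bot (2 * Z.dim) (by omega)] at this
    simpa using this
  have h4 : x = W.pull ψ (W.pull θ x) := by rw [← W.pull_comp, h2, W.pull_id]
  have h5 : W.pull ψ 0 = 0 := by
    have := (W.pull_hom ψ).map_smul 0 0
    simpa using this
  have h6 : W.tr Z 0 = 0 := by
    have := (W.trace Z).map_smul 0 0
    simpa using this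
  rw [h4, h3, h5, h6] at hx1
  exact zero_ne_one hx1

private lemma D3g_dim (W : WeilCohomology.{u, v, w} k K) (B : Pow X N) (s : N) :
    B.var.dim = (del X s).var.dim + X.dim := by
  classical
  let e : N ≃ Del N s ⊕ Unit :=
    (Equiv.optionSubtypeNe s).symm.trans (Equiv.optionEquivSumPUnit _)
  let P : Pow X N := ((del X s).prod (Pow.single X)).relabel e
  have h1 : B.map P id ≫ P.map B id = 𝟙 _ := by
    rw [Pow.map_comp, Function.comp_id, Pow.map_id]
  have h2 : P.map B id ≫ B.map P id = 𝟙 _ := by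
    rw [Pow.map_comp, Function.comp_id, Pow.map_id]
  have h3 : B.var.dim = P.var.dim := le_antisymm (D3g_dim_le W _ _ h1) (D3g_dim_le W _ _ h2)
  rw [h3]
  change X.dim + (del X s).var.dim = _
  exact Nat.add_comm _ _

private lemma D3g_push_zero' {Y Z : SmProjVar k} (f : Y.toOver ⟶ Z.toOver) (i : ℕ)
    (h : i + Z.dim < Y.dim) (z : Y.Pt →₀ ℚ) (hz : ∀ x, z x ≠ 0 → Y.pointDim x + i = Y.dim) :
    C.push f (ChowTheory.clsL Y z) = 0 := by
  rw [ChowTheory.cls_eq_sum, Finsupp.sum, map_sum]
  refine Finset.sum_eq_zero fun x hx => ?_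
  rw [map_smul, C.push_ptCls]
  have hx' := hz x (Finsupp.mem_support_iff.1 hx)
  have hle : Z.pointDim (f.left x) ≤ Z.dim := by
    rw [← pointDim_genericPt W Z]
    exact Pool.Agent.Helper11.Murre.pointDim_le_generic Z _
  rw [if_neg (by omega), zero_smul, smul_zero]

private lemma D3g_push_zero {Y Z : SmProjVar k} (f : Y.toOver ⟶ Z.toOver) (i : ℕ)
    (h : i + Z.dim < Y.dim) (a : CH Y) (ha : a ∈ CHi Y i) : C.push f a = 0 := by
  obtain ⟨z, hz, rfl⟩ := ha
  exact D3g_push_zero' C f i h z hz

end D3gDim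

/-- **PW-D3j.** -/
theorem E_mem (B : Pow X N) (s : N) {u v : CH X} {i j c : ℕ} (hij : i + j = X.dim)
    (hu : u ∈ CHi X i) (hv : v ∈ CHi X j) (w : CH B.var) (hw : w ∈ CHi B.var c) :
    E C B s u v w ∈ CHi B.var c := by
  have hd := D3g_dim W B s
  have h1 : C.mul _ (at' C B s v) w ∈ CHi B.var (j + c) :=
    C.mul_mem _ _ _ _ _ (C.pull_mem _ _ _ hv) hw
  rw [D3g_E_apply]
  by_cases h : j + c + (del X s).var.dim < B.var.dim
  · rw [D3g_push_zero C (forget B s) (j + c) h _ h1, map_zero, map_zero]
    exact Submodule.zero_mem (CHiL B.var c)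
  · obtain ⟨m, hm⟩ : ∃ m, j + c = m + X.dim := ⟨j + c - X.dim, by omega⟩
    have h2 : C.push (forget B s) (C.mul _ (at' C B s v) w) ∈ CHi (del X s).var m :=
      C.push_mem _ (j + c) m (by omega) _ h1
    have h3 := C.mul_mem _ i m _ _ (C.pull_mem (B.pr s) i u hu) (C.pull_mem (forget B s) m _ h2)
    have h4 : i + m = c := by omega
    rw [h4] at h3
    exact h3

end Pool.Agent.Helper11.PW
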