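import Mathlib
import Pool.Agent.Helper11.PW.St.D3g

/-!
# PW-D4: the operators with symbols

All statements follow from `PW-D3` by induction on lists.
-/

universe u v w

open CategoryTheory AlgebraicGeometry Limits

namespace Pool.Agent.Helper11.PW

open Pool.Agent.Helper10 Pool.Agent.Helper10.SmProjVar Pool.Agent.Helper47.Chow
open Pool.Agent.Helper47.Desc

variable {k : Type u} [Field k] {K : Type v} [Field K] [CharZero K]
  {W : WeilCohomology.{u, v, w} k K} (C : ChowTheory W) {X : SmProjVar k} {T N N' : Type}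
  [Finite N] [Finite N']

section Aux

lemma Φ_apply (B : Pow X N) (t : N) (σ : Sym X) (w : CH B.var) :
    Φ C B t σ w = σ.1 • w + (σ.2.map fun p => E C B t p.1 p.2 w).sum := by
  have h : ∀ l : List (CH X × CH X), (l.map fun p => E C B t p.1 p.2).sum w =
      (l.map fun p => E C B t p.1 p.2 w).sum := by
    intro l
    induction l with
    | nil => rfl
    | cons p l ih =>
      rw [List.map_cons, List.sum_cons, LinearMap.add_apply, ih, List.map_cons, List.sum_cons]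
  change σ.1 • w + (σ.2.map fun p => E C B t p.1 p.2).sum w = _
  rw [h]

omit [Finite N'] in
/-- A linear map which intertwines the operators `E` intertwines the operators `Φ`. -/
lemma Φ_intertwine {M : Type*} [AddCommGroup M] [Module ℚ M] (B : Pow X N) (t : N)
    (L : CH B.var →ₗ[ℚ] M) (σ : Sym X) (w : CH B.var) (x : M) (F : CH X × CH X → M)
    (h1 : L w = x) (h2 : ∀ p ∈ σ.2, L (E C B t p.1 p.2 w) = F p) :
    L (Φ C B t σ w) = σ.1 • x + (σ.2.map F).sum := by
  rw [Φ_apply, map_add, map_smul, h1, map_list_sum, List.map_map]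
  congr 2
  exact List.map_congr_left fun p hp => h2 p hp

end Aux

/-- **PW-D4a.** -/
theorem Φ_comm (B : Pow X N) {s t : N} (h : s ≠ t) (σ τ : Sym X) (w : CH B.var) :
    Φ C B s σ (Φ C B t τ w) = Φ C B t τ (Φ C B s σ w) := by
  have h1 : ∀ p : CH X × CH X, E C B s p.1 p.2 (Φ C B t τ w) =
      Φ C B t τ (E C B s p.1 p.2 w) := by
    intro p
    rw [Φ_intertwine C B t (E C B s p.1 p.2) τ w _
      (fun q => E C B t q.1 q.2 (E C B s p.1 p.2 w)) rfl
      (fun q _ => E_comm C B h p.1 p.2 q.1 q.2 w), Φ_apply C B t τ (E C B s p.1 p.2 w)]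
  rw [Φ_intertwine C B s (Φ C B t τ) σ w _ (fun p => Φ C B t τ (E C B s p.1 p.2 w)) rfl
    (fun p _ => rfl), Φ_apply C B s σ]
  congr 2
  exact List.map_congr_left fun p _ => h1 p

/-- **PW-D4b.** -/
theorem Φ_at_mul (B : Pow X N) {s t : N} (h : s ≠ t) (σ : Sym X) (a : CH X) (w : CH B.var) :
    Φ C B s σ (C.mul _ (at' C B t a) w) = C.mul _ (at' C B t a) (Φ C B s σ w) := by
  rw [Φ_intertwine C B s (C.mul _ (at' C B t a)) σ w _
    (fun p => E C B s p.1 p.2 (C.mul _ (at' C B t a) w)) rfl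
    (fun p _ => (E_at_mul C B h p.1 p.2 a w).symm), Φ_apply C B s σ]

/-- **PW-D4c.** -/
theorem Φ_pull (B : Pow X N) (B' : Pow X N') {ι : N' → N} (hι : Function.Injective ι) (t : N')
    (σ : Sym X) (w : CH B'.var) :
    Φ C B (ι t) σ (C.pull (B.map B' ι) w) = C.pull (B.map B' ι) (Φ C B' t σ w) := by
  rw [Φ_intertwine C B' t (C.pull (B.map B' ι)) σ w _
    (fun p => E C B (ι t) p.1 p.2 (C.pull (B.map B' ι) w)) rfl
    (fun p _ => (E_pull C B B' hι t p.1 p.2 w).symm), Φ_apply C B (ι t) σ]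

/-- **PW-D4d.** -/
theorem Φ_push (B : Pow X N) (B' : Pow X N') {ι : N' → N} (hι : Function.Injective ι) (t : N')
    (σ : Sym X) (w : CH B.var) :
    C.push (B.map B' ι) (Φ C B (ι t) σ w) = Φ C B' t σ (C.push (B.map B' ι) w) := by
  rw [Φ_intertwine C B (ι t) (C.push (B.map B' ι)) σ w _
    (fun p => E C B' t p.1 p.2 (C.push (B.map B' ι) w)) rfl
    (fun p _ => E_push C B B' hι t p.1 p.2 w), Φ_apply C B' t σ]

/-- **PW-D4e.** -/
theorem Φ_mul_pull (B : Pow X N) (B' : Pow X N') {ι : N' → N} (hι : Function.Injective ι)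
    (s : N) (hs : s ∉ Set.range ι) (σ : Sym X) (x : CH B.var) (y : CH B'.var) :
    Φ C B s σ (C.mul _ x (C.pull (B.map B' ι) y)) =
      C.mul _ (Φ C B s σ x) (C.pull (B.map B' ι) y) := by
  have h := Φ_intertwine C B s ((C.mul B.var).flip (C.pull (B.map B' ι) y)) σ x _
    (fun p => E C B s p.1 p.2 (C.mul _ x (C.pull (B.map B' ι) y))) rfl
    (fun p _ => (E_mul_pull C B B' hι s hs p.1 p.2 x y).symm)
  rw [LinearMap.flip_apply, LinearMap.flip_apply] at h
  rw [h, Φ_apply C B s σ]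

/-- **PW-D4f.** -/
theorem Φ_diag [Finite T] (A : Pow X T) (B : Pow X N) (f : N → T) {s s' : N} (h : s ≠ s')
    (hf : f s = f s') (hr : ∀ r, f r = f s → r = s ∨ r = s') (σ : Sym X) :
    Φ C B s σ (C.push (A.map B f) (one _)) = Φ C B s' σ.tr (C.push (A.map B f) (one _)) := by
  rw [Φ_apply, Φ_apply]
  change _ = σ.1 • _ + ((σ.2.map fun p => (p.2, p.1)).map
    fun p => E C B s' p.1 p.2 (C.push (A.map B f) (one _))).sum
  rw [List.map_map]
  congr 2
  exact List.map_congr_left fun p _ => E_diag C A B f h hf hr p.1 p.2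

/-- **PW-D4g.** -/
theorem Φ_hom (B : Pow X N) (s : N) (σ : Sym X) (w : CH B.var) (hw : C.cl _ w = 0) :
    C.cl _ (Φ C B s σ w) = 0 := by
  rw [Φ_apply, map_add, cl_smul, hw, smul_zero, zero_add, map_list_sum, List.map_map]
  apply List.sum_eq_zero
  intro x hx
  obtain ⟨p, -, rfl⟩ := List.mem_map.1 hx
  exact E_hom C B s p.1 p.2 w hw

/-- **PW-D4h.** -/
theorem Φ_chow {C : ChowTheory W} (hC : IsEquivariant C) (B : Pow X N) (s : N) (σ : Sym X)
    (g : SemiAut X) (hσ : ∀ p ∈ σ.2, g.chow p.1 = p.1 ∧ g.chow p.2 = p.2) (w : CH B.var) :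
    (B.aut g).chow (Φ C B s σ w) = Φ C B s σ ((B.aut g).chow w) := by
  rw [Φ_intertwine C B s (B.aut g).chow σ w _
    (fun p => E C B s p.1 p.2 ((B.aut g).chow w)) rfl
    (fun p hp => by rw [E_chow hC, (hσ p hp).1, (hσ p hp).2]), Φ_apply C B s σ]

/-- **PW-D4i.** -/
theorem Φ_mem (B : Pow X N) (s : N) {σ : Sym X}
    (hσ : ∀ p ∈ σ.2, ∃ i j, i + j = X.dim ∧ p.1 ∈ CHi X i ∧ p.2 ∈ CHi X j) {c : ℕ}
    (w : CH B.var) (hw : w ∈ CHi B.var c) : Φ C B s σ w ∈ CHi B.var c := by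
  rw [Φ_apply, ← mem_CHiL]
  refine add_mem (Submodule.smul_mem _ _ (mem_CHiL.2 hw)) ?_
  apply list_sum_mem
  intro x hx
  obtain ⟨p, hp, rfl⟩ := List.mem_map.1 hx
  obtain ⟨i, j, hij, h1, h2⟩ := hσ p hp
  exact mem_CHiL.2 (E_mem C B s hij h1 h2 w hw)

/-- **PW-D4j.** The van operators kill the classes which are decomposed in the coordinate `s`. -/
theorem Φ_van_at_pull {𝒜 : ℕ → Submodule ℚ (CH X)} {σ : List (CH X × CH X)}
    (hσ : Complete C 𝒜 σ) (B : Pow X N) (s : N) {i : ℕ} (hi : 2 * i ≤ X.dim) {a : CH X}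
    (ha : a ∈ 𝒜 i) (w : CH (del X s).var) :
    Φ C B s (vanSym σ) (C.mul _ (at' C B s a) (C.pull (forget B s) w)) = 0 := by
  have hsum := hσ.2 i hi a ha
  let L : CH X →ₗ[ℚ] CH B.var :=
    (C.mul B.var).flip (C.pull (forget B s) w) ∘ₗ C.pull (B.pr s)
  have hL : ∀ b : CH X, L b = C.mul _ (at' C B s b) (C.pull (forget B s) w) := fun b => rfl
  rw [Φ_apply]
  change (1 : ℚ) • _ + ((σ.map fun p => (-p.1, p.2)).map fun p => E C B s p.1 p.2 _).sum = 0
  rw [List.map_map, one_smul]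
  have h1 : (σ.map ((fun p : CH X × CH X => E C B s p.1 p.2
      (C.mul _ (at' C B s a) (C.pull (forget B s) w))) ∘ fun p => (-p.1, p.2))) =
      σ.map (fun p => (-L) (deg C X (C.mul X p.2 a) • p.1)) := by
    apply List.map_congr_left
    intro p _
    change E C B s (-p.1) p.2 (C.mul _ (at' C B s a) (C.pull (forget B s) w)) = _
    rw [E_at_pull, ← hL, map_neg, smul_neg, LinearMap.neg_apply, map_smul]
  have h2 : (σ.map (fun p => (-L) (deg C X (C.mul X p.2 a) • p.1))).sum = -L a := by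
    conv_rhs => rw [← hsum]
    rw [← LinearMap.neg_apply, map_list_sum, List.map_map]
    rfl
  rw [h1, h2, hL, add_neg_cancel]

/-- **PW-D4k.** -/
theorem Φs_perm (B : Pow X N) (σ : N → Sym X) {l l' : List N} (h : l.Perm l') (hl : l.Nodup) :
    Φs C B σ l = Φs C B σ l' := by
  induction h with
  | nil => rfl
  | cons x h ih =>
    change Φ C B x (σ x) ∘ₗ Φs C B σ _ = Φ C B x (σ x) ∘ₗ Φs C B σ _
    rw [ih (List.nodup_cons.1 hl).2]
  | swap x y l =>
    have hxy : y ≠ x := by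
      intro h
      exact (List.nodup_cons.1 hl).1 (by rw [h]; exact List.mem_cons_self)
    ext w
    change Φ C B y (σ y) (Φ C B x (σ x) (Φs C B σ l w)) =
      Φ C B x (σ x) (Φ C B y (σ y) (Φs C B σ l w))
    rw [Φ_comm C B hxy]
  | trans h₁ h₂ ih₁ ih₂ =>
    rw [ih₁ hl, ih₂ (h₁.nodup_iff.1 hl)]

/-- **PW-D4l.** -/
theorem Φs_append (B : Pow X N) (σ : N → Sym X) (l l' : List N) (w : CH B.var) :
    Φs C B σ (l ++ l') w = Φs C B σ l (Φs C B σ l' w) := by
  induction l with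
  | nil => rfl
  | cons t l ih =>
    change Φ C B t (σ t) (Φs C B σ (l ++ l') w) = Φ C B t (σ t) (Φs C B σ l (Φs C B σ l' w))
    rw [ih]

/-- **PW-D4m.** -/
theorem Φs_at_mul (B : Pow X N) (σ : N → Sym X) (l : List N) {t : N} (ht : t ∉ l) (a : CH X)
    (w : CH B.var) :
    Φs C B σ l (C.mul _ (at' C B t a) w) = C.mul _ (at' C B t a) (Φs C B σ l w) := by
  induction l with
  | nil => rfl
  | cons s l ih =>
    have h1 : s ≠ t := fun h => ht (by rw [h]; exact List.mem_cons_self)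
    have h2 : t ∉ l := fun h => ht (List.mem_cons_of_mem _ h)
    change Φ C B s (σ s) (Φs C B σ l _) = C.mul _ _ (Φ C B s (σ s) (Φs C B σ l w))
    rw [ih h2, Φ_at_mul C B h1]

/-- **PW-D4n.** -/
theorem Φs_pull (B : Pow X N) (B' : Pow X N') {ι : N' → N} (hι : Function.Injective ι)
    (σ : N → Sym X) (l : List N') (w : CH B'.var) :
    Φs C B σ (l.map ι) (C.pull (B.map B' ι) w) =
      C.pull (B.map B' ι) (Φs C B' (fun t => σ (ι t)) l w) := by
  induction l with
  | nil => rfl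
  | cons t l ih =>
    change Φ C B (ι t) (σ (ι t)) (Φs C B σ (l.map ι) _) =
      C.pull _ (Φ C B' t (σ (ι t)) (Φs C B' (fun t => σ (ι t)) l w))
    rw [ih, Φ_pull C B B' hι]

/-- **PW-D4o.** -/
theorem Φs_push (B : Pow X N) (B' : Pow X N') {ι : N' → N} (hι : Function.Injective ι)
    (σ : N → Sym X) (l : List N') (w : CH B.var) :
    C.push (B.map B' ι) (Φs C B σ (l.map ι) w) =
      Φs C B' (fun t => σ (ι t)) l (C.push (B.map B' ι) w) := by
  induction l with
  | nil => rfl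
  | cons t l ih =>
    change C.push _ (Φ C B (ι t) (σ (ι t)) (Φs C B σ (l.map ι) _)) =
      Φ C B' t (σ (ι t)) (Φs C B' (fun t => σ (ι t)) l _)
    rw [Φ_push C B B' hι, ih]

/-- **PW-D4p.** -/
theorem Φs_mul_pull (B : Pow X N) (B' : Pow X N') {ι : N' → N} (hι : Function.Injective ι)
    (σ : N → Sym X) (l : List N) (hl : ∀ s ∈ l, s ∉ Set.range ι) (x : CH B.var)
    (y : CH B'.var) :
    Φs C B σ l (C.mul _ x (C.pull (B.map B' ι) y)) =
      C.mul _ (Φs C B σ l x) (C.pull (B.map B' ι) y) := by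
  induction l with
  | nil => rfl
  | cons s l ih =>
    change Φ C B s (σ s) (Φs C B σ l _) = C.mul _ (Φ C B s (σ s) (Φs C B σ l x)) _
    rw [ih (fun r hr => hl r (List.mem_cons_of_mem _ hr)),
      Φ_mul_pull C B B' hι s (hl s List.mem_cons_self)]

/-- **PW-D4q.** -/
theorem Φs_hom (B : Pow X N) (σ : N → Sym X) (l : List N) (w : CH B.var) (hw : C.cl _ w = 0) :
    C.cl _ (Φs C B σ l w) = 0 := by
  induction l with
  | nil => exact hw
  | cons s l ih => exact Φ_hom C B s (σ s) _ ih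

/-- **PW-D4r.** -/
theorem Φs_chow {C : ChowTheory W} (hC : IsEquivariant C) (B : Pow X N) (σ : N → Sym X)
    (g : SemiAut X) (hσ : ∀ t, ∀ p ∈ (σ t).2, g.chow p.1 = p.1 ∧ g.chow p.2 = p.2)
    (l : List N) (w : CH B.var) :
    (B.aut g).chow (Φs C B σ l w) = Φs C B σ l ((B.aut g).chow w) := by
  induction l with
  | nil => rfl
  | cons s l ih =>
    change (B.aut g).chow (Φ C B s (σ s) (Φs C B σ l w)) =
      Φ C B s (σ s) (Φs C B σ l ((B.aut g).chow w))
    rw [Φ_chow hC B s (σ s) g (hσ s), ih]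

/-- **PW-D4s.** -/
theorem Φs_mem (B : Pow X N) (σ : N → Sym X)
    (hσ : ∀ t, ∀ p ∈ (σ t).2, ∃ i j, i + j = X.dim ∧ p.1 ∈ CHi X i ∧ p.2 ∈ CHi X j)
    (l : List N) {c : ℕ} (w : CH B.var) (hw : w ∈ CHi B.var c) :
    Φs C B σ l w ∈ CHi B.var c := by
  induction l with
  | nil => exact hw
  | cons s l ih => exact Φ_mem C B s (hσ s) _ ih

end Pool.Agent.Helper11.PW
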