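import Mathlib
import Pool.Agent.Helper11.PW.St.D4
import Pool.Agent.Helper11.PW.St.B2

/-!
# PW-D5: tautological classes

Hints.  `Mon.normal`: induction on `Mon`; for `m = one` take `c = 0`; for `p_{t₀}^* a · m` add `i` to
`c t₀`: if `t = t₀` use that `𝒜` is closed under products, if `t ≠ t₀` pull back
`p_{t₀}^* a · m'` from `X^{Del T t}` (`pull_map_at`).
`taut_push_forget`: for a generator `push (A.map B f) m`: if `f ∘ val : Del N s → T` is surjective
the push-forward is `push (A.map (del X s) (f ∘ val)) m` (`Pow.map_comp`).  Otherwise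
`f ⁻¹ (f s) = {s}`; write `m = p_{t₀}^* a · q_{t₀}^* m'` (`Mon.normal`, `t₀ = f s`);
the map `X^T ⟶ X^{Del N s}` factors through `forget A t₀` and `push_forget_at_mul` gives
`deg a • push m'` (zero unless `i = d`).  The excess drops by `d` in both cases.
-/

universe u v w

open CategoryTheory AlgebraicGeometry Limits

namespace Pool.Agent.Helper11.PW

open Pool.Agent.Helper10 Pool.Agent.Helper10.SmProjVar Pool.Agent.Helper47.Chow
open Pool.Agent.Helper47.Desc

variable {k : Type u} [Field k] {K : Type v} [Field K] [CharZero K]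
  {W : WeilCohomology.{u, v, w} k K} {C : ChowTheory W} {X : SmProjVar k} {T N N' : Type}
  {𝒜 : ℕ → Submodule ℚ (CH X)}

/-- **PW-D5a.** -/
theorem Mon.mem (h𝒜 : IsAmb C 𝒜) {B : Pow X N} {c : ℕ} {m : CH B.var} (hm : Mon C 𝒜 B c m) :
    m ∈ CHi B.var c := by
  induction hm with
  | unit => exact ChowTheory.one_mem_iff (pointDim_genericPt W B.var)
  | mul t a m ha _ ih =>
    exact C.mul_mem _ _ _ _ _ (C.pull_mem _ _ _ (h𝒜.mem _ _ ha)) ih

/-- **PW-D5b.** -/
theorem Mon.zero_eq (h𝒜 : IsAmb C 𝒜) {B : Pow X N} {m : CH B.var} (hm : Mon C 𝒜 B 0 m) :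
    ∃ q : ℚ, m = q • one B.var := by
  have key : ∀ (c : ℕ) (m : CH B.var), Mon C 𝒜 B c m → c = 0 →
      ∃ q : ℚ, m = q • one B.var := by
    intro c m hm
    induction hm with
    | unit => exact fun _ => ⟨1, (one_smul ℚ _).symm⟩
    | @mul i c t a m ha _ ih =>
      intro h0
      obtain ⟨hi, hc⟩ : i = 0 ∧ c = 0 := by omega
      subst hi
      obtain ⟨q, rfl⟩ := h𝒜.zero_eq a ha
      obtain ⟨q', rfl⟩ := ih hc
      refine ⟨q * q', ?_⟩
      have e : at' C B t (q • one X) = q • one B.var := by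
        unfold at'
        rw [(C.pull (B.pr t)).map_smul, C.pull_one]
      rw [e, (C.mul B.var).map_smul, LinearMap.smul_apply,
        ((C.mul B.var) (one B.var)).map_smul, C.one_mul, smul_smul]
  exact key 0 m hm rfl

/-- **PW-D5c.** Monomials pull back to monomials. -/
theorem Mon.pull_map {A : Pow X T} {B : Pow X N} (f : N → T) {c : ℕ} {m : CH B.var}
    (hm : Mon C 𝒜 B c m) : Mon C 𝒜 A c (C.pull (A.map B f) m) := by
  induction hm with
  | unit =>
    rw [C.pull_one]
    exact Mon.unit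
  | mul t a m ha _ ih =>
    rw [C.pull_mul, pull_map_at]
    exact Mon.mul (f t) a _ ha ih

/-- **PW-D5d.** Normal form. -/
theorem Mon.normal (h𝒜 : IsAmb C 𝒜) [Fintype T] {A : Pow X T} {c : ℕ} {m : CH A.var}
    (hm : Mon C 𝒜 A c m) : ∃ i : T → ℕ, ∑ t, i t = c ∧ ∀ t, ∃ a ∈ 𝒜 (i t),
      ∃ (c' : ℕ) (m' : CH (del X t).var), i t + c' = c ∧ Mon C 𝒜 (del X t) c' m' ∧
        m = C.mul _ (at' C A t a) (C.pull (forget A t) m') := by
  classical
  induction hm with
  | unit =>
    refine ⟨fun _ => 0, Finset.sum_const_zero, fun t => ⟨one X, h𝒜.one_mem, 0, one _, rfl,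
      Mon.unit, ?_⟩⟩
    unfold at'
    rw [C.pull_one, C.pull_one, C.one_mul]
  | @mul i₀ c t₀ a₀ m ha₀ _ ih =>
    obtain ⟨i, hi, h⟩ := ih
    refine ⟨fun t => i t + if t = t₀ then i₀ else 0, ?_, fun t => ?_⟩
    · rw [Finset.sum_add_distrib, hi, Finset.sum_ite_eq' Finset.univ t₀ fun _ => i₀,
        if_pos (Finset.mem_univ t₀), add_comm]
    · obtain ⟨a, ha, c', m', hc, hm', rfl⟩ := h t
      by_cases ht : t = t₀
      · subst ht
        beta_reduce
        rw [if_pos rfl]
        refine ⟨C.mul X a a₀, h𝒜.mul _ _ _ ha _ ha₀, c', m', by omega, hm', ?_⟩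
        unfold at'
        rw [C.pull_mul, ← C.mul_assoc, C.mul_comm _ (C.pull (A.pr t) a₀)]
      · beta_reduce
        rw [if_neg ht, add_zero]
        refine ⟨a, ha, i₀ + c', C.mul _ (at' C (del X t) ⟨t₀, fun e => ht e.symm⟩ a₀) m',
          by omega, Mon.mul _ _ _ ha₀ hm', ?_⟩
        have e : C.pull (forget A t) (at' C (del X t) ⟨t₀, fun e => ht e.symm⟩ a₀) =
            at' C A t₀ a₀ := pull_map_at C A (del X t) Subtype.val ⟨t₀, fun e => ht e.symm⟩ a₀
        rw [C.pull_mul, e, ← C.mul_assoc, ← C.mul_assoc, C.mul_comm _ (at' C A t a)]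

/-- **PW-D5e.** -/
theorem taut_of_mon [Finite N] {B : Pow X N} {c : ℕ} {m : CH B.var} (hm : Mon C 𝒜 B c m) :
    m ∈ Taut C 𝒜 B (2 * c - Nat.card N * X.dim) := by
  refine Submodule.subset_span ⟨N, inferInstance, B, id, c, m, Function.surjective_id, hm, ?_, ?_⟩
  · ring
  · rw [Pow.map_id, C.push_id]

end Pool.Agent.Helper11.PW
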