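import Mathlib
import Pool.Agent.Helper11.PW.St.D5

/-!
# PW-D5: tautological classes

Hints.  `Mon.normal`: induction on `Mon`; for `m = one` take `c = 0`; for `p_{t₀}^* a · m` add `i` to
`c t₀`: if `t = t₀` use that `𝒜` is closed under products, if `t ≠ t₀` pull back
`p_{t₀}^* a · m'` from `X^{Del T t}` (`pull_map_at`).
`taut_push_forget`: for a generator `push (A.map B f) m`: if `f ∘ val : Del N s → T` is surjective
the push-forward is `push (A.map (del X s) (f ∘ val)) m` (`Pow.map_comp`).  Otherwise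
`f ⁻¹ (f s) = {s}`; write `m = p_{t₀}^* a · q_{t₀}^* m'` (`Mon.normal`, `t₀ = f s`);
the map `X^T ⟶ X^{Del N s}` factors through `forget A t₀` and `push_forget_at_mul` gives
`deg a • push m'` (zero unless `i = d`).  The excess drops by `d` in both cases.
-/

universe u v w

open CategoryTheory AlgebraicGeometry Limits

namespace Pool.Agent.Helper11.PW

open Pool.Agent.Helper10 Pool.Agent.Helper10.SmProjVar Pool.Agent.Helper47.Chow
open Pool.Agent.Helper47.Desc

variable {k : Type u} [Field k] {K : Type v} [Field K] [CharZero K]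
  {W : WeilCohomology.{u, v, w} k K} {C : ChowTheory W} {X : SmProjVar k} {T N N' : Type}
  {𝒜 : ℕ → Submodule ℚ (CH X)}

/-- The map induced on the index sets with one element left out. -/
def delMap (f : N → T) (s : N) (hs : ∀ r, f r = f s → r = s) (r : Del N s) : Del T (f s) :=
  ⟨f r.1, fun h => r.2 (hs _ h)⟩

lemma delMap_surj {f : N → T} {s : N} (hs : ∀ r, f r = f s → r = s)
    (hf : Function.Surjective f) : Function.Surjective (delMap f s hs) := by
  rintro ⟨t, ht⟩
  obtain ⟨r, rfl⟩ := hf t
  exact ⟨⟨r, fun h => ht (by rw [h])⟩, rfl⟩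

lemma card_del [Finite N] (s : N) : (Nat.card (Del N s) : ℤ) = Nat.card N - 1 := by
  classical
  have := Fintype.ofFinite N
  have h0 : Nat.card N = Nat.card (Del N s) + 1 := by
    have h1 : Fintype.card (Del N s) = Fintype.card N - 1 := by
      rw [Fintype.card_subtype_compl, Fintype.card_subtype_eq]
    have h2 : 0 < Fintype.card N := Fintype.card_pos_iff.mpr ⟨s⟩
    rw [Nat.card_eq_fintype_card, Nat.card_eq_fintype_card, h1]
    omega
  rw [h0]
  push_cast
  ring

lemma taut_gen [Finite N] {B : Pow X N} {T : Type} [Finite T] (A : Pow X T) (f : N → T) (i : ℕ)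
    (m : CH A.var) (hf : Function.Surjective f) (hm : Mon C 𝒜 A i m) {e : ℤ}
    (he : e = 2 * i + Nat.card N * X.dim - 2 * (Nat.card T * X.dim)) :
    C.push (A.map B f) m ∈ Taut C 𝒜 B e :=
  Submodule.subset_span ⟨T, inferInstance, A, f, i, m, hf, hm, he, rfl⟩

lemma taut_map [Finite N] [Finite N'] {B : Pow X N} {B' : Pow X N'} {e e' : ℤ}
    (L : CH B.var →ₗ[ℚ] CH B'.var)
    (hL : ∀ (T : Type) (_ : Finite T) (A : Pow X T) (f : N → T) (i : ℕ) (m : CH A.var),
      Function.Surjective f → Mon C 𝒜 A i m →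
        e = 2 * i + Nat.card N * X.dim - 2 * (Nat.card T * X.dim) →
          L (C.push (A.map B f) m) ∈ Taut C 𝒜 B' e')
    {w : CH B.var} (hw : w ∈ Taut C 𝒜 B e) : L w ∈ Taut C 𝒜 B' e' := by
  have h : Taut C 𝒜 B e ≤ (Taut C 𝒜 B' e').comap L := by
    refine Submodule.span_le.mpr ?_
    rintro _ ⟨T, hT, A, f, i, m, hf, hm, he, rfl⟩
    exact hL T hT A f i m hf hm he
  exact h hw

/-- **PW-D5f.** Push-forward along partial diagonals. -/
theorem taut_push_map [Finite N] [Finite N'] (B : Pow X N) (B' : Pow X N') {f : N' → N}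
    (hf : Function.Surjective f) {e : ℤ} {w : CH B.var} (hw : w ∈ Taut C 𝒜 B e) :
    C.push (B.map B' f) w ∈
      Taut C 𝒜 B' (e + (Nat.card N' - Nat.card N) * X.dim) := by
  refine taut_map (C.push (B.map B' f)) ?_ hw
  intro T hT A g i m hg hm he
  rw [← C.push_comp, Pow.map_comp]
  refine taut_gen A (g ∘ f) i m (hg.comp hf) hm ?_
  rw [he]
  ring

/-- **PW-D5g.** -/
theorem taut_at_mul [Finite N] (B : Pow X N) (t : N) {i : ℕ} {a : CH X} (ha : a ∈ 𝒜 i) {e : ℤ}
    {w : CH B.var} (hw : w ∈ Taut C 𝒜 B e) :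
    C.mul _ (at' C B t a) w ∈ Taut C 𝒜 B (e + 2 * i) := by
  refine taut_map (C.mul B.var (at' C B t a)) ?_ hw
  intro T hT A f c m hf hm he
  rw [← push_map_at_mul]
  refine taut_gen A f (i + c) _ hf (Mon.mul (f t) a m ha hm) ?_
  rw [he]
  push_cast
  ring

lemma forget_map [Finite N] [Finite T] (A : Pow X T) (f : N → T) (s : N)
    (hs : ∀ r, f r = f s → r = s) :
    A.map (del X s) (f ∘ Subtype.val) =
      forget A (f s) ≫ (del X (f s)).map (del X s) (delMap f s hs) := by
  unfold forget
  rw [Pow.map_comp]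
  rfl

/-- **PW-D5h.** -/
theorem taut_push_forget [Finite N] (h𝒜 : IsAmb C 𝒜) (B : Pow X N) (s : N) {e : ℤ}
    {w : CH B.var} (hw : w ∈ Taut C 𝒜 B e) :
    C.push (forget B s) w ∈ Taut C 𝒜 (del X s) (e - X.dim) := by
  refine taut_map (C.push (forget B s)) ?_ hw
  intro T hT A f c m hf hm he
  have h1 : C.push (forget B s) (C.push (A.map B f) m) =
      C.push (A.map (del X s) (f ∘ Subtype.val)) m := by
    rw [← C.push_comp]
    unfold forget
    rw [Pow.map_comp]
  rw [h1]
  by_cases hsurj : Function.Surjective (f ∘ (Subtype.val : Del N s → N))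
  · refine taut_gen A _ c m hsurj hm ?_
    rw [he, card_del s]
    ring
  · have hs : ∀ r, f r = f s → r = s := by
      intro r hr
      by_contra hne
      apply hsurj
      intro t
      obtain ⟨q, rfl⟩ := hf t
      by_cases hq : q = s
      · subst hq
        exact ⟨⟨r, hne⟩, hr⟩
      · exact ⟨⟨q, hq⟩, rfl⟩
    have := Fintype.ofFinite T
    obtain ⟨i, -, hi⟩ := Mon.normal h𝒜 hm
    obtain ⟨a, ha, c', m', hc', hm', hmm⟩ := hi (f s)
    rw [forget_map A f s hs, C.push_comp, hmm, push_forget_at_mul, map_smul]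
    by_cases hid : i (f s) = X.dim
    · refine Submodule.smul_mem _ _ ?_
      refine taut_gen (del X (f s)) _ c' m' (delMap_surj hs hf) hm' ?_
      rw [he, card_del s, card_del (f s), ← hc', hid]
      push_cast
      ring
    · rw [deg_eq_zero C X hid (h𝒜.mem _ _ ha), zero_smul]
      exact Submodule.zero_mem _

/-- **PW-D5i.** A push-forward from a partial diagonal which is decomposed in the coordinate `s`. -/
theorem push_map_singleton [Finite N] [Finite T] (A : Pow X T) (B : Pow X N) (f : N → T) (s : N)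
    (hs : ∀ r, f r = f s → r = s) (a : CH X) (m' : CH (del X (f s)).var) :
    ∃ w : CH (del X s).var,
      C.push (A.map B f) (C.mul _ (at' C A (f s) a) (C.pull (forget A (f s)) m')) =
        C.mul _ (at' C B s a) (C.pull (forget B s) w) := by
  refine ⟨C.push ((del X (f s)).map (del X s) (delMap f s hs)) m', ?_⟩
  rw [push_map_at_mul]
  congr 1
  have hsq : SqInj (delMap f s hs) (Subtype.val : Del N s → N) (Subtype.val : Del T (f s) → T)
      f := by
    refine ⟨fun _ => rfl, Subtype.val_injective, Subtype.val_injective, ?_, ?_, ?_⟩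
    · intro a b ha hb _
      have h1 : a = s := by
        by_contra h
        exact ha ⟨⟨a, h⟩, rfl⟩
      have h2 : b = s := by
        by_contra h
        exact hb ⟨⟨b, h⟩, rfl⟩
      rw [h1, h2]
    · intro t a ha
      have h1 : a = s := by
        by_contra h
        exact ha ⟨⟨a, h⟩, rfl⟩
      rw [h1]
      exact t.2
    · intro p
      by_cases hp : p = f s
      · exact Or.inr ⟨s, hp.symm⟩
      · exact Or.inl ⟨⟨p, hp⟩, rfl⟩
  exact (pull_push_map C A (del X (f s)) B (del X s) hsq m').symm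

end Pool.Agent.Helper11.PW
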