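import Mathlib
import Pool.Agent.Helper11.PW.St.D5f
import Pool.Agent.Helper11.Murre.S4

/-!
# PW-C3: varieties with decomposable diagonal

Hints.
* `push_eq_zero_of_lt`: a cycle of dimension `> dim Y` has image zero: `push_ptCls` and
  `pointDim y ≤ Y.dim`.
* `exists_decomposition`: `z = comp z (Δ M)` (`comp_Δ`), `Δ M = ∑ b_k × a_k`; by (the transpose of)
  `comp_extProd`: `comp z (b × a) = (push (fst) (z · snd^* b)) × a`.
* `mem_span_mon`: induction on `T` (`Finite.induction_empty_option`), the powers being related by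
  isomorphisms `Pow.map` (`Mon.pull_map`); base: `CH^0(Spec k)` is spanned by `one`, `CH^i = 0` for
  `i > 0` (`P.dim = 0`, every class in `CHi P 0` is a multiple of `one`).
* `finite_CHiL`: `z = act (Δ M) z` is a combination of the `a_k`.
* `chow_pull`: as `exists_semiAut_base` in `Spread` (`grep exists_semiAut_base`), for one factor:
  `h` is the automorphism of `M = M₀ ×_F K` given by `g.base`.
-/

universe u v w

open CategoryTheory AlgebraicGeometry Limits

namespace Pool.Agent.Helper11.PW

open Pool.Agent.Helper10 Pool.Agent.Helper10.SmProjVar Pool.Agent.Helper47.Chow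
open Pool.Agent.Helper47.Desc Pool.Agent.Helper47.Spread

variable {K : Type u} [Field K] {L : Type v} [Field L] [CharZero L]
  {W : WeilCohomology.{u, v, w} K L} {C : ChowTheory W} {M X Y : SmProjVar K} {T : Type}

/-- **PW-C3a.** -/
theorem push_eq_zero_of_lt (f : X.toOver ⟶ Y.toOver) {i : ℕ} (h : i + Y.dim < X.dim) {a : CH X}
    (ha : a ∈ CHi X i) : C.push f a = 0 :=
  Pool.Agent.Helper11.Murre.push_eq_zero C f i h a ha

/-- **PW-C3b.** -/
theorem CHi_zero_eq (W : WeilCohomology.{u, v, w} K L) {a : CH X} (ha : a ∈ CHi X 0) :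
    ∃ q : ℚ, a = q • one X :=
  Pool.Agent.Helper11.Murre.exists_smul_one W a ha

private lemma c3_isPullback (X Y Z : SmProjVar K) :
    IsPullback (p12 X Y Z) (p13 X Y Z) (fst X Y) (fst X Z) := by
  refine isPullback_mk _ _ _ _ ?_ ?_ ?_
  · simp [p12, p13]
  · intro T s t h
    refine ⟨liftT (s ≫ fst X Y) (liftT (s ≫ snd X Y) (t ≫ snd X Z)), ?_, ?_⟩
    · apply prod_ext
      · simp [p12]
      · simp [p12]
    · apply prod_ext
      · simp [p13, h]
      · simp [p13]
  · intro T l l' h h'
    apply prod_ext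
    · have := congrArg (· ≫ fst X Y) h
      simpa [p12] using this
    · apply prod_ext
      · have := congrArg (· ≫ snd X Y) h
        simpa [p12] using this
      · have := congrArg (· ≫ snd X Z) h'
        simpa [p13] using this

private lemma c3_comp_extProd (C : ChowTheory W) {X Y Z : SmProjVar K} (γ : CH (X.prod Y))
    (b : CH Y) (a : CH Z) : C.comp γ (extProd C b a) =
      extProd C (C.push (fst X Y) (C.mul _ γ (C.pull (snd X Y) b))) a := by
  rw [C.comp_apply, extProd, extProd, C.base_change (fst X Y) (fst X Z) (p12 X Y Z) (p13 X Y Z)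
    (c3_isPullback X Y Z) inferInstance, ← C.projection, C.pull_mul, C.pull_mul, C.mul_assoc,
    ← C.pull_comp, ← C.pull_comp, ← C.pull_comp, ← C.pull_comp]
  have h1 : p23 X Y Z ≫ fst Y Z = p12 X Y Z ≫ snd X Y := by simp [p12]
  have h2 : p23 X Y Z ≫ snd Y Z = p13 X Y Z ≫ snd X Z := by simp [p13]
  rw [h1, h2]

/-- **PW-C3c.** -/
theorem exists_decomposition (hΔ : C.Δ M ∈ decomposable C M) {i : ℕ} {z : CH (Y.prod M)}
    (hz : z ∈ CHi (Y.prod M) i) :
    z ∈ Submodule.span ℚ {w | ∃ i₁ i₂, i₁ + i₂ = i ∧ ∃ b ∈ CHi Y i₁, ∃ a ∈ CHi M i₂,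
      w = extProd C b a} := by
  rw [decomposable_eq] at hΔ
  have key : ∀ δ ∈ Submodule.span ℚ {z | ∃ i j, i + j = M.dim ∧ ∃ b ∈ CHi M j, ∃ a ∈ CHi M i,
      z = extProd C b a}, C.comp z δ ∈ Submodule.span ℚ {w | ∃ i₁ i₂, i₁ + i₂ = i ∧
        ∃ b ∈ CHi Y i₁, ∃ a ∈ CHi M i₂, w = extProd C b a} := by
    intro δ hδ
    refine Submodule.span_induction (p := fun δ _ => C.comp z δ ∈ Submodule.span ℚ
      {w | ∃ i₁ i₂, i₁ + i₂ = i ∧ ∃ b ∈ CHi Y i₁, ∃ a ∈ CHi M i₂, w = extProd C b a})
      ?_ ?_ ?_ ?_ hδ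
    · rintro _ ⟨i₂, j, hij, b, hb, a, ha, rfl⟩
      rw [c3_comp_extProd]
      have hm : C.mul _ z (C.pull (snd Y M) b) ∈ CHi (Y.prod M) (i + j) :=
        C.mul_mem _ _ _ _ _ hz (C.pull_mem _ _ _ hb)
      have hdim : (Y.prod M).dim = M.dim + Y.dim := rfl
      by_cases hlt : i + j < M.dim
      · rw [push_eq_zero_of_lt (fst Y M) (by rw [hdim]; omega) hm]
        have h0 : extProd C (0 : CH Y) a = 0 := by
          rw [extProd, map_zero, map_zero, LinearMap.zero_apply]
        rw [h0]
        exact Submodule.zero_mem _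
      · refine Submodule.subset_span ⟨i + j - M.dim, i₂, by omega, _,
          C.push_mem (fst Y M) (i + j) (i + j - M.dim) (by rw [hdim]; omega) _ hm, a, ha, rfl⟩
    · rw [C.comp_zero]
      exact Submodule.zero_mem _
    · intro x y _ _ hx hy
      rw [C.comp_add]
      exact Submodule.add_mem _ hx hy
    · intro q x _ hx
      rw [C.comp_smul]
      exact Submodule.smul_mem _ _ hx
  have h := key _ hΔ
  rwa [C.comp_Δ] at h

private lemma c3_dim_le (W : WeilCohomology.{u, v, w} K L) {Y Z : SmProjVar K}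
    (θ : Y.toOver ⟶ Z.toOver) (ψ : Z.toOver ⟶ Y.toOver) (h2 : ψ ≫ θ = 𝟙 _) :
    Z.dim ≤ Y.dim := by
  by_contra hlt
  obtain ⟨x, ⟨hx, hx1⟩, _⟩ := (W.trace Z).bijective 1
  have h3 : W.pull θ x = 0 := by
    have := (W.pull_hom θ).map_mem _ _ hx
    rw [(W.graded Y).eq_bot (2 * Z.dim) (by omega)] at this
    simpa using this
  have h4 : x = W.pull ψ (W.pull θ x) := by rw [← W.pull_comp, h2, W.pull_id]
  have h5 : W.pull ψ 0 = 0 := by
    have := (W.pull_hom ψ).map_smul 0 0
    simpa using this
  have h6 : W.tr Z 0 = 0 := by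
    have := (W.trace Z).map_smul 0 0
    simpa using this
  rw [h4, h3, h5, h6] at hx1
  exact zero_ne_one hx1

private lemma c3_mon_relabel {S T : Type} (B : Pow M T) (e : S ≃ T) {𝒜 : ℕ → Submodule ℚ (CH M)}
    {i : ℕ} {m : CH B.var} (hm : Mon C 𝒜 (B.relabel e) i m) : Mon C 𝒜 B i m := by
  have key : ∀ (i : ℕ) (m : CH (B.relabel e).var), Mon C 𝒜 (B.relabel e) i m →
      Mon C 𝒜 B i (show CH B.var from m) := by
    intro i m hm
    induction hm with
    | unit => exact Mon.unit
    | mul t a m ha _ ih => exact Mon.mul (e t) a _ ha ih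
  exact key i m hm

private lemma c3_empty (B : Pow M PEmpty) {i : ℕ} {z : CH B.var} (hz : z ∈ CHi B.var i) :
    z ∈ Submodule.span ℚ {m | Mon C (fun i => CHiL M i) B i m} := by
  obtain ⟨P, hP0, hP⟩ := exists_point K
  let ψ : B.var.toOver ⟶ P.toOver := Over.homMk (B.var.toOver.hom ≫ inv P.toOver.hom) (by simp)
  let θ : P.toOver ⟶ B.var.toOver := B.lift fun t => t.elim
  have h2 : ψ ≫ θ = 𝟙 _ := B.hom_ext fun t => t.elim
  have hd : B.var.dim ≤ P.dim := c3_dim_le W θ ψ h2
  rcases Nat.eq_zero_or_pos i with rfl | hi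
  · obtain ⟨q, rfl⟩ := CHi_zero_eq W hz
    exact Submodule.smul_mem _ _ (Submodule.subset_span Mon.unit)
  · obtain ⟨y, hy, rfl⟩ := hz
    have h0 : y = 0 := by
      change (y : B.var.Pt →₀ ℚ) = 0
      refine Finsupp.ext fun x => ?_
      by_contra hne
      have := hy x hne
      omega
    rw [h0]
    have : cls B.var 0 = 0 := rfl
    rw [this]
    exact Submodule.zero_mem _

private lemma c3_option {T : Type} [Finite T] (hΔ : C.Δ M ∈ decomposable C M)
    (ih : ∀ (A : Pow M T) {i : ℕ} {z : CH A.var}, z ∈ CHi A.var i →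
      z ∈ Submodule.span ℚ {m | Mon C (fun i => CHiL M i) A i m})
    (B : Pow M (Option T)) {i : ℕ} {z : CH B.var} (hz : z ∈ CHi B.var i) :
    z ∈ Submodule.span ℚ {m | Mon C (fun i => CHiL M i) B i m} := by
  let A : Pow M T := pw M T
  let D : Pow M (T ⊕ Unit) := A.prod (Pow.single M)
  let f : T ⊕ Unit → Option T := Sum.elim some fun _ => none
  let g : Option T → T ⊕ Unit := fun o => o.elim (Sum.inr ()) Sum.inl
  have hfg : f ∘ g = id := by
    funext o
    cases o <;> rfl
  have h1 : C.pull (B.map D f) (C.pull (D.map B g) z) = z := by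
    rw [← C.pull_comp, Pow.map_comp, hfg, Pow.map_id, C.pull_id]
  have hz' : C.pull (D.map B g) z ∈ CHi (A.var.prod M) i := C.pull_mem _ _ _ hz
  have h2 := exists_decomposition hΔ hz'
  have h3 : ∀ w ∈ Submodule.span ℚ {w | ∃ i₁ i₂, i₁ + i₂ = i ∧ ∃ b ∈ CHi A.var i₁,
      ∃ a ∈ CHi M i₂, w = extProd C b a},
      w ∈ Submodule.span ℚ {m | Mon C (fun i => CHiL M i) D i m} := by
    intro w hw
    refine Submodule.span_induction (p := fun w _ =>
      w ∈ Submodule.span ℚ {m | Mon C (fun i => CHiL M i) D i m}) ?_ ?_ ?_ ?_ hw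
    · rintro _ ⟨i₁, i₂, hi, b, hb, a, ha, rfl⟩
      have h4 := ih A hb
      refine Submodule.span_induction (p := fun b _ =>
        extProd C b a ∈ Submodule.span ℚ {m | Mon C (fun i => CHiL M i) D i m}) ?_ ?_ ?_ ?_ h4
      · intro m hm
        have e1 : fst A.var M = D.map A Sum.inl :=
          A.hom_ext fun t => (Pow.map_pr D A Sum.inl t).symm
        have e2 : snd A.var M = D.pr (Sum.inr ()) := (Category.comp_id _).symm
        have e3 : extProd C m a =
            C.mul D.var (at' C D (Sum.inr ()) a) (C.pull (D.map A Sum.inl) m) := by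
          rw [extProd, C.mul_comm, e1, e2]
          rfl
        rw [e3]
        refine Submodule.subset_span ?_
        have h5 : Mon C (fun i => CHiL M i) D (i₂ + i₁)
            (C.mul D.var (at' C D (Sum.inr ()) a) (C.pull (D.map A Sum.inl) m)) :=
          Mon.mul (Sum.inr ()) a _ ha (Mon.pull_map Sum.inl hm)
        rw [show i = i₂ + i₁ by omega]
        exact h5
      · have h0 : extProd C (0 : CH A.var) a = 0 := by
          rw [extProd, map_zero, map_zero, LinearMap.zero_apply]
        rw [h0]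
        exact Submodule.zero_mem _
      · intro x y _ _ hx hy
        have h0 : extProd C (x + y) a = extProd C x a + extProd C y a := by
          rw [extProd, extProd, extProd, map_add, map_add, LinearMap.add_apply]
        rw [h0]
        exact Submodule.add_mem _ hx hy
      · intro q x _ hx
        have h0 : extProd C (q • x) a = q • extProd C x a := by
          rw [extProd, extProd, map_smul, map_smul, LinearMap.smul_apply]
        rw [h0]
        exact Submodule.smul_mem _ _ hx
    · exact Submodule.zero_mem _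
    · intro x y _ _ hx hy
      exact Submodule.add_mem _ hx hy
    · intro q x _ hx
      exact Submodule.smul_mem _ _ hx
  have h6 := h3 _ h2
  rw [← h1]
  refine Submodule.span_induction (p := fun w _ => C.pull (B.map D f) w ∈
    Submodule.span ℚ {m | Mon C (fun i => CHiL M i) B i m}) ?_ ?_ ?_ ?_ h6
  · intro m hm
    exact Submodule.subset_span (Mon.pull_map f hm)
  · rw [map_zero]
    exact Submodule.zero_mem _
  · intro x y _ _ hx hy
    rw [map_add]
    exact Submodule.add_mem _ hx hy
  · intro q x _ hx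
    rw [map_smul]
    exact Submodule.smul_mem _ _ hx

/-- **PW-C3d.** -/
theorem mem_span_mon [Finite T] (hΔ : C.Δ M ∈ decomposable C M) (B : Pow M T) {i : ℕ}
    {z : CH B.var} (hz : z ∈ CHi B.var i) :
    z ∈ Submodule.span ℚ {m | Mon C (fun i => CHiL M i) B i m} := by
  revert B i z
  induction T using Finite.induction_empty_option with
  | of_equiv e h =>
    intro B i z hz
    have h1 := h (B.relabel e) hz
    refine Submodule.span_mono ?_ h1
    intro m hm
    exact c3_mon_relabel B e hm
  | h_empty =>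
    intro B i z hz
    exact c3_empty B hz
  | h_option h =>
    intro B i z hz
    exact c3_option hΔ (fun A {i} {z} hz => h A hz) B hz

/-- **PW-C3e.** -/
theorem finite_CHiL (hΔ : C.Δ M ∈ decomposable C M) (i : ℕ) : Module.Finite ℚ (CHiL M i) := by
  classical
  rw [decomposable_eq] at hΔ
  have key : ∃ s : Finset (CH M), ∀ z, C.act (C.Δ M) z ∈ Submodule.span ℚ (s : Set (CH M)) := by
    refine Submodule.span_induction (p := fun δ _ => ∃ s : Finset (CH M), ∀ z,
      C.act δ z ∈ Submodule.span ℚ (s : Set (CH M))) ?_ ?_ ?_ ?_ hΔ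
    · rintro _ ⟨i₂, j, hij, b, hb, a, ha, rfl⟩
      refine ⟨{a}, fun z => ?_⟩
      rw [act_extProd, push_pull_deg, map_smul, LinearMap.smul_apply, C.one_mul]
      exact Submodule.smul_mem _ _ (Submodule.subset_span (by simp))
    · refine ⟨∅, fun z => ?_⟩
      rw [C.act_zero']
      exact Submodule.zero_mem _
    · rintro x y _ _ ⟨s, hs⟩ ⟨t, ht⟩
      refine ⟨s ∪ t, fun z => ?_⟩
      rw [C.act_add]
      refine Submodule.add_mem _ (Submodule.span_mono ?_ (hs z)) (Submodule.span_mono ?_ (ht z))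
      · intro a ha
        rw [Finset.coe_union]
        exact Or.inl ha
      · intro a ha
        rw [Finset.coe_union]
        exact Or.inr ha
    · rintro q x _ ⟨s, hs⟩
      refine ⟨s, fun z => ?_⟩
      rw [C.act_smul']
      exact Submodule.smul_mem _ _ (hs z)
  obtain ⟨s, hs⟩ := key
  have hle : CHiL M i ≤ Submodule.span ℚ (s : Set (CH M)) := by
    intro z _
    have := hs z
    rwa [C.act_Δ] at this
  have hfd : FiniteDimensional ℚ (Submodule.span ℚ (s : Set (CH M))) :=
    FiniteDimensional.span_finset ℚ s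
  exact Submodule.finiteDimensional_of_le hle

end Pool.Agent.Helper11.PW
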