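import Mathlib
import Pool.Agent.Helper11.PW.St.C3

/-!
# PW-C3: varieties with decomposable diagonal

Hints.
* `push_eq_zero_of_lt`: a cycle of dimension `> dim Y` has image zero: `push_ptCls` and
  `pointDim y ≤ Y.dim`.
* `exists_decomposition`: `z = comp z (Δ M)` (`comp_Δ`), `Δ M = ∑ b_k × a_k`; by (the transpose of)
  `comp_extProd`: `comp z (b × a) = (push (fst) (z · snd^* b)) × a`.
* `mem_span_mon`: induction on `T` (`Finite.induction_empty_option`), the powers being related by
  isomorphisms `Pow.map` (`Mon.pull_map`); base: `CH^0(Spec k)` is spanned by `one`, `CH^i = 0` for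
  `i > 0` (`P.dim = 0`, every class in `CHi P 0` is a multiple of `one`).
* `finite_CHiL`: `z = act (Δ M) z` is a combination of the `a_k`.
* `chow_pull`: as `exists_semiAut_base` in `Spread` (`grep exists_semiAut_base`), for one factor:
  `h` is the automorphism of `M = M₀ ×_F K` given by `g.base`.
-/

universe u v w

open CategoryTheory AlgebraicGeometry Limits

namespace Pool.Agent.Helper11.PW

open Pool.Agent.Helper10 Pool.Agent.Helper10.SmProjVar Pool.Agent.Helper47.Chow
open Pool.Agent.Helper47.Desc Pool.Agent.Helper47.Spread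

variable {K : Type u} [Field K] {L : Type v} [Field L] [CharZero L]
  {W : WeilCohomology.{u, v, w} K L} {C : ChowTheory W} {M X Y : SmProjVar K} {T : Type}

/-- The classes on `X` which are restrictions of classes on `M`. -/
noncomputable def ambL (C : ChowTheory W) (j : X.toOver ⟶ M.toOver) (i : ℕ) :
    Submodule ℚ (CH X) := (CHiL M i).map (C.pull j)

lemma one_mem_CHi (W : WeilCohomology.{u, v, w} K L) (M : SmProjVar K) : one M ∈ CHi M 0 := by
  refine ⟨QCycles.point M.genericPt, fun y hy => ?_, rfl⟩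
  by_cases h : y = M.genericPt
  · rw [h, pointDim_genericPt W M, add_zero]
  · exact absurd (Finsupp.single_eq_of_ne h) hy

/-- **PW-C3f.** -/
theorem isAmb_ambL (j : X.toOver ⟶ M.toOver) : IsAmb C (ambL C j) := by
  constructor
  · rintro i _ ⟨z, hz, rfl⟩
    exact C.pull_mem j i z hz
  · rintro i i' _ ⟨z, hz, rfl⟩ _ ⟨z', hz', rfl⟩
    exact ⟨C.mul M z z', C.mul_mem M i i' z z' hz hz', C.pull_mul j z z'⟩
  · exact ⟨one M, one_mem_CHi W M, C.pull_one j⟩
  · rintro _ ⟨z, hz, rfl⟩
    exact CHi_zero_eq W (C.pull_mem j 0 z hz)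

/-- **PW-C3g.** -/
theorem Mon.pull_mapOver (j : X.toOver ⟶ M.toOver) (A : Pow X T) (B : Pow M T) {i : ℕ}
    {m : CH B.var} (hm : Mon C (fun i => CHiL M i) B i m) :
    Mon C (ambL C j) A i (C.pull (A.mapOver B j) m) := by
  induction hm with
  | unit =>
    rw [C.pull_one]
    exact Mon.unit
  | mul t a m ha _ ih =>
    have h1 : C.pull (A.mapOver B j) (at' C B t a) = at' C A t (C.pull j a) := by
      unfold at'
      rw [← C.pull_comp, ← C.pull_comp, Pow.mapOver_pr]
    rw [C.pull_mul, h1]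
    exact Mon.mul t _ _ ⟨a, ha, rfl⟩ ih

lemma c3f_exists_semiAut {F : Type u} [Field F] [Algebra F K] {M₀ : SmProjVar F}
    (pM : M.toOver.left ⟶ M₀.toOver.left)
    (hM : IsPullback pM M.toOver.hom M₀.toOver.hom (specMap F K))
    (b b' : Spec (CommRingCat.of K) ⟶ Spec (CommRingCat.of K)) (hb : b ≫ b' = 𝟙 _)
    (hb' : b' ≫ b = 𝟙 _) (hs : b ≫ specMap F K = specMap F K)
    (hs' : b' ≫ specMap F K = specMap F K) :
    ∃ h : SemiAut M, h.base = b ∧ h.sch ≫ pM = pM := by
  have key : ∀ c : Spec (CommRingCat.of K) ⟶ Spec (CommRingCat.of K),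
      c ≫ specMap F K = specMap F K →
      pM ≫ M₀.toOver.hom = (M.toOver.hom ≫ c) ≫ specMap F K := by
    intro c hc
    rw [Category.assoc, hc, hM.w]
  let u : M.toOver.left ⟶ M.toOver.left := hM.lift pM (M.toOver.hom ≫ b) (key b hs)
  let u' : M.toOver.left ⟶ M.toOver.left := hM.lift pM (M.toOver.hom ≫ b') (key b' hs')
  have u1 : u ≫ pM = pM := hM.lift_fst _ _ _
  have u2 : u ≫ M.toOver.hom = M.toOver.hom ≫ b := hM.lift_snd _ _ _
  have u1' : u' ≫ pM = pM := hM.lift_fst _ _ _
  have u2' : u' ≫ M.toOver.hom = M.toOver.hom ≫ b' := hM.lift_snd _ _ _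
  have e1 : u ≫ u' = 𝟙 _ := by
    apply hM.hom_ext
    · rw [Category.assoc, u1', u1, Category.id_comp]
    · rw [Category.assoc, u2', ← Category.assoc, u2, Category.assoc, hb, Category.comp_id,
        Category.id_comp]
  have e2 : u' ≫ u = 𝟙 _ := by
    apply hM.hom_ext
    · rw [Category.assoc, u1, u1', Category.id_comp]
    · rw [Category.assoc, u2, ← Category.assoc, u2', Category.assoc, hb', Category.comp_id,
        Category.id_comp]
  refine ⟨{ hom := Arrow.homMk (f := Arrow.mk M.toOver.hom) (g := Arrow.mk M.toOver.hom) u b u2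
            inv := Arrow.homMk (f := Arrow.mk M.toOver.hom) (g := Arrow.mk M.toOver.hom) u' b' u2'
            hom_inv_id := Arrow.hom_ext _ _ e1 hb
            inv_hom_id := Arrow.hom_ext _ _ e2 hb' }, rfl, u1⟩

/-- **PW-C3h.** -/
theorem chow_pull {F : Type u} [Field F] [Algebra F K] {M₀ : SmProjVar F} {I : Type}
    (hC : IsEquivariant C) (pM : M.toOver.left ⟶ M₀.toOver.left)
    (hM : IsPullback pM M.toOver.hom M₀.toOver.hom (specMap F K)) (j : X.toOver ⟶ M.toOver)
    (a : I → K) (htriv : ∀ h : SemiAut M, h.sch ≫ pM = pM → ∀ z : CH M, h.chow z = z)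
    {g : SemiAut X} (hg : g ∈ galGroup (F := F) a (j.left ≫ pM)) {i : ℕ} {b : CH X}
    (hb : b ∈ ambL C j i) : g.chow b = b := by
  obtain ⟨h1, h2, -⟩ := hg
  have hs : g.base ≫ specMap F K = specMap F K := by
    rw [← specMap_fieldMap g]
    unfold specMap
    rw [← Spec.map_comp, ← CommRingCat.ofHom_comp]
    congr 2
    ext c
    exact h2 c
  have hs' : SemiAut.base g⁻¹ ≫ specMap F K = specMap F K := by
    conv_lhs => rw [← hs]
    rw [← Category.assoc, SemiAut.base_inv_base, Category.id_comp]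
  obtain ⟨h, hb1, hp⟩ := c3f_exists_semiAut pM hM g.base (SemiAut.base g⁻¹)
    (SemiAut.base_base_inv g) (SemiAut.base_inv_base g) hs hs'
  have hj : j.left ≫ h.sch = g.sch ≫ j.left := by
    apply hM.hom_ext
    · rw [Category.assoc, hp, Category.assoc, h1]
    · rw [Category.assoc, SemiAut.sch_hom, hb1, Category.assoc, ← Category.assoc, Over.w j,
        SemiAut.sch_hom]
  obtain ⟨z, -, rfl⟩ := hb
  have h3 := hC.pull g h j hb1.symm hj z
  rw [htriv h hp z] at h3
  exact h3

lemma c3f_chow_one (hC : IsEquivariant C) (g : SemiAut X) : g.chow (one X) = one X := by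
  have h1 : g.chow ((g⁻¹ : SemiAut X).chow (one X)) = one X := by
    rw [← chow_mul, mul_inv_cancel, chow_one]
  have h2 := hC.mul X g (one X) ((g⁻¹ : SemiAut X).chow (one X))
  have h3 : C.ops.mul X (one X) ((g⁻¹ : SemiAut X).chow (one X)) =
      (g⁻¹ : SemiAut X).chow (one X) := C.ringLike.one_mul X _
  rw [h3, h1, C.ringLike.mul_comm, C.ringLike.one_mul] at h2
  exact h2.symm

lemma c3f_chow_mon (hC : IsEquivariant C) {𝒜 : ℕ → Submodule ℚ (CH X)} {N : Type}
    (B : Pow X N) {g : SemiAut X} (hg : ∀ i, ∀ a ∈ 𝒜 i, g.chow a = a) {i : ℕ} {m : CH B.var}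
    (hm : Mon C 𝒜 B i m) : (B.aut g).chow m = m := by
  induction hm with
  | unit => exact c3f_chow_one hC _
  | mul t a m ha _ ih =>
    have h1 : (B.aut g).chow (at' C B t a) = at' C B t a := by
      have h2 := hC.pull (B.aut g) g (B.pr t) (B.aut_base g) (B.aut_pr g t).symm a
      rw [hg _ a ha] at h2
      exact h2
    have h3 := hC.mul B.var (B.aut g) (at' C B t a) m
    rw [h1, ih] at h3
    exact h3

/-- **PW-C3i.** Tautological classes are invariant. -/
theorem chow_taut (hC : IsEquivariant C) {𝒜 : ℕ → Submodule ℚ (CH X)} {N : Type}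
    (B : Pow X N) {g : SemiAut X} (hg : ∀ i, ∀ a ∈ 𝒜 i, g.chow a = a) {e : ℤ} {w : CH B.var}
    (hw : w ∈ Taut C 𝒜 B e) : (B.aut g).chow w = w := by
  unfold Taut at hw
  induction hw using Submodule.span_induction with
  | mem w hw =>
    obtain ⟨T, _, A, f, i, m, -, hm, -, rfl⟩ := hw
    have h1 := hC.push (A.aut g) (B.aut g) (A.map B f) ((A.aut_base g).trans (B.aut_base g).symm)
      (A.map_aut B f g) m
    rw [c3f_chow_mon hC A hg hm] at h1
    exact h1
  | zero => rw [map_zero]
  | add x y _ _ hx hy => rw [map_add, hx, hy]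
  | smul q x _ hx => rw [map_smul, hx]

end Pool.Agent.Helper11.PW
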