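import Mathlib
import Pool.Agent.Helper11.PW.St.D4

/-!
# PW-D10: operators and composition of correspondences

`P = A.var = X^T`, `P × P = (A.prod A).var = X^{T ⊔ T}` (definitionally), and the projections `p12`,
`p13`, `p23` from `P × (P × P) = (A.prod (A.prod A)).var` are given by the injective maps
`Sum.map id Sum.inl`, `Sum.map id Sum.inr`, `Sum.inr` of `T ⊔ T` to `T ⊔ (T ⊔ T)`.

Hints.  `comp_Φ_left`: `C.comp β γ = push p13 (pull p12 β · pull p23 γ)`; `Φ_pull` for `p12`,
`Φ_mul_pull` for `p23`, `Φ_push` for `p13`.  `Δ_eq`: `diag P = A.map (A.prod A) (Sum.elim id id)`.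
`Φ_Δ`: `Φ_diag`.
-/

universe u v w

open CategoryTheory AlgebraicGeometry Limits

namespace Pool.Agent.Helper11.PW

open Pool.Agent.Helper10 Pool.Agent.Helper10.SmProjVar Pool.Agent.Helper47.Chow
open Pool.Agent.Helper47.Desc

variable {k : Type u} [Field k] {K : Type v} [Field K] [CharZero K]
  {W : WeilCohomology.{u, v, w} k K} (C : ChowTheory W) {X : SmProjVar k} {T : Type}

/-- **PW-D10a.** -/
theorem p12_eq (A : Pow X T) : p12 A.var A.var A.var =
    (A.prod (A.prod A)).map (A.prod A) (Sum.map id Sum.inl) := by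
  apply (A.prod A).hom_ext
  rintro (t | t)
  · refine Eq.trans ?_ ((A.prod (A.prod A)).map_pr (A.prod A) _ (Sum.inl t)).symm
    change p12 A.var A.var A.var ≫ fst A.var A.var ≫ A.pr t =
      fst A.var (A.var.prod A.var) ≫ A.pr t
    rw [← Category.assoc]
    unfold p12
    rw [lift_fst]
  · refine Eq.trans ?_ ((A.prod (A.prod A)).map_pr (A.prod A) _ (Sum.inr t)).symm
    change p12 A.var A.var A.var ≫ snd A.var A.var ≫ A.pr t =
      snd A.var (A.var.prod A.var) ≫ fst A.var A.var ≫ A.pr t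
    rw [← Category.assoc]
    unfold p12
    rw [lift_snd, Category.assoc]

/-- **PW-D10b.** -/
theorem p13_eq (A : Pow X T) : p13 A.var A.var A.var =
    (A.prod (A.prod A)).map (A.prod A) (Sum.map id Sum.inr) := by
  apply (A.prod A).hom_ext
  rintro (t | t)
  · refine Eq.trans ?_ ((A.prod (A.prod A)).map_pr (A.prod A) _ (Sum.inl t)).symm
    change p13 A.var A.var A.var ≫ fst A.var A.var ≫ A.pr t =
      fst A.var (A.var.prod A.var) ≫ A.pr t
    rw [← Category.assoc]
    unfold p13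
    rw [lift_fst]
  · refine Eq.trans ?_ ((A.prod (A.prod A)).map_pr (A.prod A) _ (Sum.inr t)).symm
    change p13 A.var A.var A.var ≫ snd A.var A.var ≫ A.pr t =
      snd A.var (A.var.prod A.var) ≫ snd A.var A.var ≫ A.pr t
    rw [← Category.assoc]
    unfold p13
    rw [lift_snd, Category.assoc]

/-- **PW-D10c.** -/
theorem p23_eq (A : Pow X T) : p23 A.var A.var A.var =
    (A.prod (A.prod A)).map (A.prod A) Sum.inr := by
  apply (A.prod A).hom_ext
  intro t
  refine Eq.trans ?_ ((A.prod (A.prod A)).map_pr (A.prod A) Sum.inr t).symm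
  rfl

/-- **PW-D10d.** -/
theorem Δ_eq (A : Pow X T) :
    C.Δ A.var = C.push (A.map (A.prod A) (Sum.elim id id)) (one A.var) := by
  have h : diag A.var = A.map (A.prod A) (Sum.elim id id) := by
    apply (A.prod A).hom_ext
    rintro (t | t)
    · refine Eq.trans ?_ (A.map_pr (A.prod A) _ (Sum.inl t)).symm
      change diag A.var ≫ fst A.var A.var ≫ A.pr t = A.pr t
      rw [← Category.assoc]
      unfold Helper47.Chow.diag
      rw [lift_fst, Category.id_comp]
    · refine Eq.trans ?_ (A.map_pr (A.prod A) _ (Sum.inr t)).symm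
      change diag A.var ≫ snd A.var A.var ≫ A.pr t = A.pr t
      rw [← Category.assoc]
      unfold Helper47.Chow.diag
      rw [lift_snd, Category.id_comp]
  rw [← h]
  rfl

/-- **PW-D10e.** -/
theorem sq_aut (A : Pow X T) (g : SemiAut X) :
    (sq (A.aut g) : SemiAut (A.prod A).var) = (A.prod A).aut g := by
  apply (A.prod A).semiAut_ext
  · rw [Pow.aut_base]
    exact A.aut_base g
  · rintro (t | t)
    · rw [Pow.aut_pr, Pow.prod_pr_inl]
      have h1 : (Helper47.Desc.sq (A.aut g)).sch ≫ (fst A.var A.var).left =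
          (fst A.var A.var).left ≫ (A.aut g).sch := (comm_fst (A.aut g) (A.aut g) rfl).symm
      have h2 := A.aut_pr g t
      rw [Over.comp_left]
      calc (Helper47.Desc.sq (A.aut g)).sch ≫ (fst A.var A.var).left ≫ (A.pr t).left
          = ((Helper47.Desc.sq (A.aut g)).sch ≫ (fst A.var A.var).left) ≫ (A.pr t).left :=
            (Category.assoc _ _ _).symm
        _ = ((fst A.var A.var).left ≫ (A.aut g).sch) ≫ (A.pr t).left := by rw [h1]
        _ = (fst A.var A.var).left ≫ (A.aut g).sch ≫ (A.pr t).left := Category.assoc _ _ _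
        _ = (fst A.var A.var).left ≫ (A.pr t).left ≫ g.sch := by rw [h2]
        _ = ((fst A.var A.var).left ≫ (A.pr t).left) ≫ g.sch := (Category.assoc _ _ _).symm
    · rw [Pow.aut_pr, Pow.prod_pr_inr]
      have h1 : (Helper47.Desc.sq (A.aut g)).sch ≫ (snd A.var A.var).left =
          (snd A.var A.var).left ≫ (A.aut g).sch := (comm_snd (A.aut g) (A.aut g) rfl).symm
      have h2 := A.aut_pr g t
      rw [Over.comp_left]
      calc (Helper47.Desc.sq (A.aut g)).sch ≫ (snd A.var A.var).left ≫ (A.pr t).left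
          = ((Helper47.Desc.sq (A.aut g)).sch ≫ (snd A.var A.var).left) ≫ (A.pr t).left :=
            (Category.assoc _ _ _).symm
        _ = ((snd A.var A.var).left ≫ (A.aut g).sch) ≫ (A.pr t).left := by rw [h1]
        _ = (snd A.var A.var).left ≫ (A.aut g).sch ≫ (A.pr t).left := Category.assoc _ _ _
        _ = (snd A.var A.var).left ≫ (A.pr t).left ≫ g.sch := by rw [h2]
        _ = ((snd A.var A.var).left ≫ (A.pr t).left) ≫ g.sch := (Category.assoc _ _ _).symm

lemma inj12 : Function.Injective (Sum.map id Sum.inl : T ⊕ T → T ⊕ (T ⊕ T)) := by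
  rintro (x | x) (y | y) h
  · exact congrArg Sum.inl (Sum.inl_injective h)
  · cases h
  · cases h
  · exact congrArg Sum.inr (Sum.inl_injective (Sum.inr_injective h))

lemma inj13 : Function.Injective (Sum.map id Sum.inr : T ⊕ T → T ⊕ (T ⊕ T)) := by
  rintro (x | x) (y | y) h
  · exact congrArg Sum.inl (Sum.inl_injective h)
  · cases h
  · cases h
  · exact congrArg Sum.inr (Sum.inr_injective (Sum.inr_injective h))

lemma comp_eq' (A : Pow X T) (β γ : CH (A.var.prod A.var)) :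
    C.comp β γ = C.push ((A.prod (A.prod A)).map (A.prod A) (Sum.map id Sum.inr))
      (C.mul _ (C.pull ((A.prod (A.prod A)).map (A.prod A) (Sum.map id Sum.inl)) β)
        (C.pull ((A.prod (A.prod A)).map (A.prod A) Sum.inr) γ)) := by
  rw [← p12_eq, ← p13_eq, ← p23_eq]
  rfl

lemma Φ_Φs_comm {N : Type} [Finite N] (B : Pow X N) (s : N) (τ : Sym X) (σ : N → Sym X)
    (l : List N) (hl : ∀ t ∈ l, s ≠ t) (w : CH B.var) :
    Φ C B s τ (Φs C B σ l w) = Φs C B σ l (Φ C B s τ w) := by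
  induction l with
  | nil => rfl
  | cons t l ih =>
    change Φ C B s τ (Φ C B t (σ t) (Φs C B σ l w)) = Φ C B t (σ t) (Φs C B σ l (Φ C B s τ w))
    rw [Φ_comm C B (hl t List.mem_cons_self), ih fun r hr => hl r (List.mem_cons_of_mem _ hr)]

variable [Finite T]

/-- **PW-D10f.** -/
theorem comp_Φ_left (A : Pow X T) (t : T) (σ : Sym X) (β γ : CH (A.var.prod A.var)) :
    C.comp (Φ C (A.prod A) (Sum.inl t) σ β) γ = Φ C (A.prod A) (Sum.inl t) σ (C.comp β γ) := by
  rw [comp_eq' C A, comp_eq' C A]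
  have e1 := Φ_pull C (A.prod (A.prod A)) (A.prod A) (ι := Sum.map id Sum.inl) inj12
    (Sum.inl t) σ β
  have e2 := Φ_push C (A.prod (A.prod A)) (A.prod A) (ι := Sum.map id Sum.inr) inj13
    (Sum.inl t) σ (C.mul _ (C.pull ((A.prod (A.prod A)).map (A.prod A) (Sum.map id Sum.inl)) β)
      (C.pull ((A.prod (A.prod A)).map (A.prod A) Sum.inr) γ))
  have e3 := Φ_mul_pull C (A.prod (A.prod A)) (A.prod A) (ι := (Sum.inr : T ⊕ T → T ⊕ (T ⊕ T)))
    Sum.inr_injective (Sum.inl t) (by rintro ⟨x, hx⟩; cases hx) σ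
    (C.pull ((A.prod (A.prod A)).map (A.prod A) (Sum.map id Sum.inl)) β) γ
  have i1 : (Sum.map id Sum.inl : T ⊕ T → T ⊕ (T ⊕ T)) (Sum.inl t) = Sum.inl t := rfl
  have i2 : (Sum.map id Sum.inr : T ⊕ T → T ⊕ (T ⊕ T)) (Sum.inl t) = Sum.inl t := rfl
  rw [i1] at e1
  rw [i2] at e2
  rw [← e1, ← e2, e3]

/-- **PW-D10g.** -/
theorem comp_Φ_right (A : Pow X T) (t : T) (σ : Sym X) (β γ : CH (A.var.prod A.var)) :
    C.comp β (Φ C (A.prod A) (Sum.inr t) σ γ) = Φ C (A.prod A) (Sum.inr t) σ (C.comp β γ) := by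
  rw [comp_eq' C A, comp_eq' C A]
  have e1 := Φ_pull C (A.prod (A.prod A)) (A.prod A) (ι := (Sum.inr : T ⊕ T → T ⊕ (T ⊕ T)))
    Sum.inr_injective (Sum.inr t) σ γ
  have e2 := Φ_push C (A.prod (A.prod A)) (A.prod A) (ι := Sum.map id Sum.inr) inj13
    (Sum.inr t) σ (C.mul _ (C.pull ((A.prod (A.prod A)).map (A.prod A) (Sum.map id Sum.inl)) β)
      (C.pull ((A.prod (A.prod A)).map (A.prod A) Sum.inr) γ))
  have e3 := Φ_mul_pull C (A.prod (A.prod A)) (A.prod A)
    (ι := (Sum.map id Sum.inl : T ⊕ T → T ⊕ (T ⊕ T))) inj12 (Sum.inr (Sum.inr t))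
    (by rintro ⟨x | x, hx⟩ <;> cases hx) σ
    (C.pull ((A.prod (A.prod A)).map (A.prod A) Sum.inr) γ) β
  have i2 : (Sum.map id Sum.inr : T ⊕ T → T ⊕ (T ⊕ T)) (Sum.inr t) = Sum.inr (Sum.inr t) := rfl
  rw [i2] at e2
  rw [← e1, ← e2, C.mul_comm, ← e3]
  congr 2
  rw [C.mul_comm]

/-- **PW-D10h.** -/
theorem comp_Φs_left (A : Pow X T) (σ : T ⊕ T → Sym X) (l : List T)
    (β γ : CH (A.var.prod A.var)) :
    C.comp (Φs C (A.prod A) σ (l.map Sum.inl) β) γ =
      Φs C (A.prod A) σ (l.map Sum.inl) (C.comp β γ) := by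
  induction l with
  | nil => rfl
  | cons t l ih =>
    change C.comp (Φ C (A.prod A) (Sum.inl t) (σ (Sum.inl t))
        (Φs C (A.prod A) σ (l.map Sum.inl) β)) γ =
      Φ C (A.prod A) (Sum.inl t) (σ (Sum.inl t))
        (Φs C (A.prod A) σ (l.map Sum.inl) (C.comp β γ))
    rw [comp_Φ_left, ih]

/-- **PW-D10i.** -/
theorem comp_Φs_right (A : Pow X T) (σ : T ⊕ T → Sym X) (l : List T)
    (β γ : CH (A.var.prod A.var)) :
    C.comp β (Φs C (A.prod A) σ (l.map Sum.inr) γ) =
      Φs C (A.prod A) σ (l.map Sum.inr) (C.comp β γ) := by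
  induction l with
  | nil => rfl
  | cons t l ih =>
    change C.comp β (Φ C (A.prod A) (Sum.inr t) (σ (Sum.inr t))
        (Φs C (A.prod A) σ (l.map Sum.inr) γ)) =
      Φ C (A.prod A) (Sum.inr t) (σ (Sum.inr t))
        (Φs C (A.prod A) σ (l.map Sum.inr) (C.comp β γ))
    rw [comp_Φ_right, ih]

/-- **PW-D10j.** The operators on the class of the diagonal. -/
theorem Φs_Δ (A : Pow X T) (σ : T ⊕ T → Sym X) (h : ∀ t, σ (Sum.inl t) = (σ (Sum.inr t)).tr)
    {l : List T} (hl : l.Nodup) :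
    Φs C (A.prod A) σ (l.map Sum.inr) (C.Δ A.var) =
      Φs C (A.prod A) σ (l.map Sum.inl) (C.Δ A.var) := by
  induction l with
  | nil => rfl
  | cons t l ih =>
    have hl' := List.nodup_cons.1 hl
    have e1 : Φ C (A.prod A) (Sum.inr t) (σ (Sum.inr t)) (C.Δ A.var) =
        Φ C (A.prod A) (Sum.inl t) (σ (Sum.inl t)) (C.Δ A.var) := by
      rw [Δ_eq, h t]
      refine Φ_diag C A (A.prod A) (Sum.elim id id) Sum.inr_ne_inl rfl ?_ _
      rintro (r | r) hr
      · exact Or.inr (congrArg Sum.inl hr)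
      · exact Or.inl (congrArg Sum.inr hr)
    change Φ C (A.prod A) (Sum.inr t) (σ (Sum.inr t))
        (Φs C (A.prod A) σ (l.map Sum.inr) (C.Δ A.var)) =
      Φ C (A.prod A) (Sum.inl t) (σ (Sum.inl t)) (Φs C (A.prod A) σ (l.map Sum.inl) (C.Δ A.var))
    rw [ih hl'.2, Φ_Φs_comm C (A.prod A) (Sum.inr t) (σ (Sum.inr t)) σ (l.map Sum.inl)
      (by intro s hs; obtain ⟨x, _, rfl⟩ := List.mem_map.1 hs; exact Sum.inr_ne_inl), e1,
      ← Φ_Φs_comm C (A.prod A) (Sum.inl t) (σ (Sum.inl t)) σ (l.map Sum.inl)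
      (by
        intro s hs
        obtain ⟨x, hx, rfl⟩ := List.mem_map.1 hs
        intro e
        exact hl'.1 (Sum.inl_injective e ▸ hx))]

end Pool.Agent.Helper11.PW
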