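import Mathlib

/-!
# PW-D11: nilpotence of the homologically trivial invariants of a power

Hints.  `pigeonhole_nil`: insert `1 = ∑ e χ` before, between and after the factors of the product of
a list of `card κ` elements of `J`; in each term two of the `card κ + 1` indices coincide and the
part between them lies in `J`.  (One may prove by induction: for a list `l` in `J` of length `m`,
`l.prod` is in the span of the products `x * e χ₁ * … ` with distinct `χ`'s; or first reduce to the
statement that for every function `χ : Fin (m + 1) → κ` the product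
`e (χ 0) * l 0 * e (χ 1) * l 1 * … * e (χ m)` is zero.)
`Φs_sum`: multilinearity: the sum over all colourings of the products of the operators is the product
of the sums, and `Φ none + ∑ Φ (some α) = id`.
`nilInv_pow`: `e χ = Φs (the symbols on inr t) Δ = Φs (the transposed symbols on inl t) Δ`,
`comp (comp (e χ) γ) (e χ) = Φs (inr) (Φs (inl) γ) = 0` by `lemmaM` for the list
`l.map inr ++ l.map inl` with `c (inr t) = 2 j - d`, `c (inl t) = 2 i - d`, `i + j = d`.  `J` is the set
of the homologically trivial invariants, a two-sided ideal of the ring of the invariants, which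
contains the `e χ` (`Φs_chow`, `sq_aut`, `chow_Δ`-type lemma: `Δ` is invariant).
-/

universe u v w

open CategoryTheory AlgebraicGeometry Limits

namespace Pool.Agent.Helper11.PW

private theorem kill_prod {R : Type*} [Ring R] {κ : Type*} [Fintype κ] (S : Subring R) (J : Set R)
    (hJS : J ⊆ S) (hJr : ∀ s ∈ S, ∀ x ∈ J, x * s ∈ J)
    (e : κ → R) (heS : ∀ χ, e χ ∈ S) (he : ∑ χ, e χ = 1) (heJ : ∀ χ, ∀ x ∈ J, e χ * x * e χ = 0)
    (l : List R) : ∀ (A : Finset κ) (z : R), (∀ x ∈ l, x ∈ J) →
      (∀ χ ∈ A, ∀ y ∈ J, z * y * e χ = 0) → Fintype.card κ + 1 ≤ A.card + l.length →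
      z * l.prod = 0 := by
  classical
  induction l with
  | nil =>
    intro A z _ _ h
    have := Finset.card_le_univ A
    simp only [List.length_nil] at h
    omega
  | cons x l ih =>
    intro A z hl hz h
    have hx : x ∈ J := hl x (by simp)
    have hl' : ∀ y ∈ l, y ∈ J := fun y hy => hl y (by simp [hy])
    have h1 : z * (x :: l).prod = ∑ χ, z * x * e χ * l.prod := by
      rw [List.prod_cons, ← Finset.sum_mul, ← Finset.mul_sum, he, mul_one, mul_assoc]
    rw [h1]
    refine Finset.sum_eq_zero fun χ _ => ?_
    by_cases hχ : χ ∈ A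
    · rw [hz χ hχ x hx, zero_mul]
    · refine ih (insert χ A) (z * x * e χ) hl' ?_ ?_
      · intro χ' hχ' y hy
        rcases Finset.mem_insert.mp hχ' with rfl | hA
        · have := heJ χ' y hy
          calc z * x * e χ' * y * e χ' = z * x * (e χ' * y * e χ') := by noncomm_ring
            _ = 0 := by rw [this, mul_zero]
        · have hJ : x * e χ * y ∈ J := hJr y (hJS hy) _ (hJr (e χ) (heS χ) x hx)
          have := hz χ' hA _ hJ
          calc z * x * e χ * y * e χ' = z * (x * e χ * y) * e χ' := by noncomm_ring
            _ = 0 := this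
      · rw [Finset.card_insert_of_notMem hχ]
        simp only [List.length_cons] at h
        omega

/-- **PW-D11a.** -/
theorem pigeonhole_nil {R : Type*} [Ring R] {κ : Type*} [Fintype κ] (S : Subring R) (J : Set R)
    (hJS : J ⊆ S) (hJl : ∀ s ∈ S, ∀ x ∈ J, s * x ∈ J) (hJr : ∀ s ∈ S, ∀ x ∈ J, x * s ∈ J)
    (e : κ → R) (heS : ∀ χ, e χ ∈ S) (he : ∑ χ, e χ = 1) (heJ : ∀ χ, ∀ x ∈ J, e χ * x * e χ = 0)
    (l : List R) (hl : l.length = Fintype.card κ) (hlJ : ∀ x ∈ l, x ∈ J) : l.prod = 0 := by
  classical
  have h1 : l.prod = ∑ χ, e χ * l.prod := by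
    rw [← Finset.sum_mul, he, one_mul]
  rw [h1]
  refine Finset.sum_eq_zero fun χ _ => ?_
  refine kill_prod S J hJS hJr e heS he heJ l {χ} (e χ) hlJ ?_ ?_
  · intro χ' hχ' y hy
    rw [Finset.mem_singleton] at hχ'
    subst hχ'
    exact heJ χ' y hy
  · rw [Finset.card_singleton, hl]
    omega

end Pool.Agent.Helper11.PW
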