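import Mathlib
import Pool.Agent.Helper11.PW.St.D4

/-!
# PW-D11: nilpotence of the homologically trivial invariants of a power

Hints.  `pigeonhole_nil`: insert `1 = ∑ e χ` before, between and after the factors of the product of
a list of `card κ` elements of `J`; in each term two of the `card κ + 1` indices coincide and the
part between them lies in `J`.  (One may prove by induction: for a list `l` in `J` of length `m`,
`l.prod` is in the span of the products `x * e χ₁ * … ` with distinct `χ`'s; or first reduce to the
statement that for every function `χ : Fin (m + 1) → κ` the product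
`e (χ 0) * l 0 * e (χ 1) * l 1 * … * e (χ m)` is zero.)
`Φs_sum`: multilinearity: the sum over all colourings of the products of the operators is the product
of the sums, and `Φ none + ∑ Φ (some α) = id`.
`nilInv_pow`: `e χ = Φs (the symbols on inr t) Δ = Φs (the transposed symbols on inl t) Δ`,
`comp (comp (e χ) γ) (e χ) = Φs (inr) (Φs (inl) γ) = 0` by `lemmaM` for the list
`l.map inr ++ l.map inl` with `c (inr t) = 2 j - d`, `c (inl t) = 2 i - d`, `i + j = d`.  `J` is the set
of the homologically trivial invariants, a two-sided ideal of the ring of the invariants, which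
contains the `e χ` (`Φs_chow`, `sq_aut`, `chow_Δ`-type lemma: `Δ` is invariant).
-/

universe u v w

open CategoryTheory AlgebraicGeometry Limits

namespace Pool.Agent.Helper11.PW

open Pool.Agent.Helper10 Pool.Agent.Helper10.SmProjVar Pool.Agent.Helper47.Chow
open Pool.Agent.Helper47.Desc

variable {k : Type u} [Field k] {K : Type v} [Field K] [CharZero K]
  {W : WeilCohomology.{u, v, w} k K} {C : ChowTheory W} {X : SmProjVar k} {T N : Type}
  {𝒜 : ℕ → Submodule ℚ (CH X)}

/-- The symbol of a colour: `none` is the van part, `some α` the ambient pair number `α`. -/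
noncomputable def colSym (σ : List (CH X × CH X)) : Option (Fin σ.length) → Sym X
  | none => vanSym σ
  | some α => (0, [σ.get α])

/-- Auxiliary: expansion of an ordered product of sums equal to `1`. -/
theorem d11b_sum_piFinset_prod {T O R : Type*} [Fintype T] [DecidableEq T] [Fintype O] [Semiring R]
    (o : O) (F : T → O → R) (hF : ∀ t, ∑ c, F t c = 1) (l : List T) (hl : l.Nodup) :
    ∑ χ ∈ Fintype.piFinset (fun t => if t ∈ l then (Finset.univ : Finset O) else {o}),
      (l.map fun t => F t (χ t)).prod = 1 := by
  induction l with
  | nil =>
    have h1 : (Fintype.piFinset (fun t : T => if t ∈ ([] : List T) then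
        (Finset.univ : Finset O) else {o})) = {fun _ => o} := by
      ext χ
      simp only [Fintype.mem_piFinset, List.not_mem_nil, if_false, Finset.mem_singleton]
      constructor
      · intro h
        funext t
        exact h t
      · intro h t
        rw [h]
    rw [h1]
    simp
  | cons a l ih =>
    rw [List.nodup_cons] at hl
    have ih' := ih hl.2
    have key : ∑ χ ∈ Fintype.piFinset (fun t => if t ∈ a :: l then
        (Finset.univ : Finset O) else {o}), ((a :: l).map fun t => F t (χ t)).prod =
        ∑ p ∈ (Finset.univ : Finset O) ×ˢ Fintype.piFinset (fun t => if t ∈ l then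
          (Finset.univ : Finset O) else {o}), F a p.1 * (l.map fun t => F t (p.2 t)).prod := by
      refine Finset.sum_nbij' (fun χ => (χ a, Function.update χ a o))
        (fun p => Function.update p.2 a p.1) ?_ ?_ ?_ ?_ ?_
      · intro χ hχ
        rw [Fintype.mem_piFinset] at hχ
        rw [Finset.mem_product]
        refine ⟨Finset.mem_univ _, ?_⟩
        rw [Fintype.mem_piFinset]
        intro t
        by_cases hta : t = a
        · subst hta
          simp [hl.1]
        · have h1 := hχ t
          simp only [List.mem_cons, hta, false_or] at h1
          simpa [Function.update_of_ne hta] using h1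
      · intro p hp
        rw [Finset.mem_product, Fintype.mem_piFinset] at hp
        rw [Fintype.mem_piFinset]
        intro t
        by_cases hta : t = a
        · subst hta
          simp
        · have h1 := hp.2 t
          simp only [List.mem_cons, hta, false_or]
          simpa [Function.update_of_ne hta] using h1
      · intro χ _
        simp
      · intro p hp
        rw [Finset.mem_product, Fintype.mem_piFinset] at hp
        have h1 := hp.2 a
        simp only [hl.1, if_false, Finset.mem_singleton] at h1
        ext1
        · simp
        · simp only [Function.update_idem]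
          rw [← h1, Function.update_eq_self]
      · intro χ _
        rw [List.map_cons, List.prod_cons]
        congr 2
        refine List.map_congr_left ?_
        intro t ht
        have hta : t ≠ a := fun h => hl.1 (h ▸ ht)
        simp only [Function.update_of_ne hta]
    rw [key, Finset.sum_product]
    simp only [← Finset.mul_sum, ih', mul_one]
    exact hF a

theorem d11b_at_neg [Finite N] (B : Pow X N) (t : N) (a : CH X) : at' C B t (-a) = -at' C B t a := by
  unfold at'
  rw [map_neg]

theorem d11b_E_neg [Finite N] (B : Pow X N) (t : N) (u v : CH X) : E C B t (-u) v = -E C B t u v := by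
  ext w
  simp only [E, d11b_at_neg, map_neg, LinearMap.comp_apply, LinearMap.neg_apply]

theorem d11b_sum_colSym [Finite N] (B : Pow X N) (σ : List (CH X × CH X)) (t : N) :
    ∑ c : Option (Fin σ.length), (Φ C B t (colSym σ c) : Module.End ℚ (CH B.var)) = 1 := by
  rw [Fintype.sum_option]
  have h1 : (∑ α : Fin σ.length, (Φ C B t (colSym σ (some α)) : Module.End ℚ (CH B.var))) =
      (σ.map fun p => (E C B t p.1 p.2 : Module.End ℚ (CH B.var))).sum := by
    rw [← Fin.sum_univ_fun_getElem]
    refine Finset.sum_congr rfl ?_
    intro α _
    simp [colSym, Φ]
  have h2 : (Φ C B t (colSym σ none) : Module.End ℚ (CH B.var)) =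
      1 - (σ.map fun p => (E C B t p.1 p.2 : Module.End ℚ (CH B.var))).sum := by
    simp only [colSym, vanSym, Φ, one_smul, List.map_map]
    have h3 : (σ.map ((fun p => (E C B t p.1 p.2 : Module.End ℚ (CH B.var))) ∘
        fun p : CH X × CH X => (-p.1, p.2))).sum =
        -(σ.map fun p => (E C B t p.1 p.2 : Module.End ℚ (CH B.var))).sum := by
      clear h1
      induction σ with
      | nil => simp
      | cons p σ ih =>
        rw [List.map_cons, List.sum_cons, List.map_cons, List.sum_cons, ih]
        simp only [Function.comp_apply, d11b_E_neg]
        abel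
    rw [h3, sub_eq_add_neg]
    rfl
  rw [h1, h2]
  simp

/-- **PW-D11b.** -/
theorem Φs_sum [Fintype T] [DecidableEq T] [Finite N] (B : Pow X N) (σ : List (CH X × CH X)) {ι : T → N}
    (hι : Function.Injective ι) {l : List T} (hl : l.Nodup) (w : CH B.var)
    (σ' : (T → Option (Fin σ.length)) → N → Sym X)
    (hσ' : ∀ χ t, σ' χ (ι t) = colSym σ (χ t)) (hl' : ∀ t, t ∈ l) :
    ∑ χ : T → Option (Fin σ.length), Φs C B (σ' χ) (l.map ι) w = w := by
  have h1 : ∀ (χ : T → Option (Fin σ.length)) (l : List T),
      (Φs C B (σ' χ) (l.map ι) : Module.End ℚ (CH B.var)) =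
        (l.map fun t => (Φ C B (ι t) (colSym σ (χ t)) : Module.End ℚ (CH B.var))).prod := by
    intro χ l
    induction l with
    | nil => rfl
    | cons a l ih =>
      rw [List.map_cons, List.map_cons, List.prod_cons, ← ih, ← hσ' χ a]
      rfl
  have h2 := d11b_sum_piFinset_prod (R := Module.End ℚ (CH B.var)) (none : Option (Fin σ.length))
    (fun t c => (Φ C B (ι t) (colSym σ c) : Module.End ℚ (CH B.var)))
    (fun t => d11b_sum_colSym B σ (ι t)) l hl
  have h3 : (Fintype.piFinset (fun t => if t ∈ l then
      (Finset.univ : Finset (Option (Fin σ.length))) else {none})) = Finset.univ := by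
    ext χ
    simp [hl']
  rw [h3] at h2
  have h4 := congrArg (fun f : Module.End ℚ (CH B.var) => f w) h2
  simp only [LinearMap.sum_apply, Module.End.one_apply] at h4
  refine Eq.trans (Finset.sum_congr rfl ?_) h4
  intro χ _
  exact congrArg (fun f : Module.End ℚ (CH B.var) => f w) (h1 χ l)

end Pool.Agent.Helper11.PW
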