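import Mathlib
import Pool.Agent.Helper11.PW.St.D5f

/-!
# PW-D6: tautological classes of excess `≤ 0`

Hints.  `taut_dichotomy`: `Mon.normal` gives `i : T → ℕ`, `∑ i t = c`.  With `m_t = |f ⁻¹ t| ≥ 1`,
`∑ m_t = |N|`, the excess is `e = ∑_t (2 i_t + (m_t - 2) d)`.  If there is `t` with `m_t = 1` and
`2 i_t ≤ d` use `push_map_singleton`.  Otherwise each summand is `≥ 0`, and `= 0` only if
`m_t = 2` and `i_t = 0`; so `c = 0` (`Mon.zero_eq`), and `τ s` is the other point of the fibre.
`push_one_eq_matchCls`: `T ≃ matchIdx τ` compatible with the maps from `N`; `isIso_map`,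
`push` of `one` along an isomorphism is `one` (`push_comp`, `push_id`, `pull_one`, projection).
`taut_van`: `Φs_perm` brings the killed coordinate to the end of the list, `Φ_van_at_pull`.
-/

universe u v w

open CategoryTheory AlgebraicGeometry Limits

namespace Pool.Agent.Helper11.PW

open Pool.Agent.Helper10 Pool.Agent.Helper10.SmProjVar Pool.Agent.Helper47.Chow
open Pool.Agent.Helper47.Desc

variable {k : Type u} [Field k] {K : Type v} [Field K] [CharZero K]
  {W : WeilCohomology.{u, v, w} k K} {C : ChowTheory W} {X : SmProjVar k} {T N : Type}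
  {𝒜 : ℕ → Submodule ℚ (CH X)}

/-- `τ` is a matching of `N`. -/
def IsMatching (τ : N → N) : Prop := (∀ t, τ t ≠ t) ∧ ∀ t, τ (τ t) = t

/-- The pairs of a matching. -/
def matchIdx (τ : N → N) : Type := Set.range fun s => ({s, τ s} : Set N)

instance [Finite N] (τ : N → N) : Finite (matchIdx τ) :=
  (Set.finite_range fun s => ({s, τ s} : Set N)).to_subtype

/-- The pair of `s`. -/
def matchMap (τ : N → N) (s : N) : matchIdx τ := ⟨{s, τ s}, s, rfl⟩

variable (C) in
/-- The class of the diagonal given by a matching. -/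
noncomputable def matchCls [Finite N] (B : Pow X N) (τ : N → N) : CH B.var :=
  C.push ((pw X (matchIdx τ)).map B (matchMap τ)) (one _)

/-- **PW-D6a.** -/
theorem matchMap_eq_iff {τ : N → N} (hτ : IsMatching τ) (r s : N) :
    matchMap τ r = matchMap τ s ↔ r = s ∨ r = τ s := by
  constructor
  · intro h
    have h1 : ({r, τ r} : Set N) = {s, τ s} := congrArg Subtype.val h
    have h2 : r ∈ ({s, τ s} : Set N) := by
      rw [← h1]
      exact Set.mem_insert _ _
    rcases h2 with h2 | h2
    · exact Or.inl h2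
    · exact Or.inr h2
  · rintro (rfl | rfl)
    · rfl
    · apply Subtype.ext
      change ({τ s, τ (τ s)} : Set N) = {s, τ s}
      rw [hτ.2 s]
      exact Set.pair_comm _ _

section Aux

/-- The push-forward of the fundamental class along an isomorphism. -/
theorem push_one_of_inverse {Y Z : SmProjVar k} (φ : Y.toOver ⟶ Z.toOver)
    (ψ : Z.toOver ⟶ Y.toOver) (h1 : φ ≫ ψ = 𝟙 _) (h2 : ψ ≫ φ = 𝟙 _) :
    C.push φ (one Y) = one Z := by
  have hiso : IsIso φ := ⟨ψ, h1, h2⟩
  have hiso' : IsIso φ.left :=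
    ⟨ψ.left, congrArg CommaMorphism.left h1, congrArg CommaMorphism.left h2⟩
  have hflat : Flat φ.left := inferInstance
  have hpb : IsPullback (𝟙 Y.toOver) (𝟙 Y.toOver) φ φ := IsKernelPair.id_of_mono φ
  have h3 := C.base_change φ φ (𝟙 _) (𝟙 _) hpb hflat (one Y)
  rw [C.pull_id, C.push_id] at h3
  rw [← C.pull_id Z (C.push φ (one Y)), ← h2, C.pull_comp, h3, C.pull_one]

end Aux

/-- **PW-D6b.** -/
theorem push_one_eq_matchCls [Finite N] (A : Pow X T) (B : Pow X N) {f : N → T}
    (hf : Function.Surjective f) {τ : N → N} (hτ : IsMatching τ)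
    (h : ∀ r s, f r = f s ↔ r = s ∨ r = τ s) :
    C.push (A.map B f) (one _) = matchCls C B τ := by
  have h1 : ∀ r s, matchMap τ r = matchMap τ s ↔ f r = f s := fun r s =>
    (matchMap_eq_iff hτ r s).trans (h r s).symm
  have hsurj : Function.Surjective (matchMap τ) := by
    rintro ⟨_, s, rfl⟩
    exact ⟨s, rfl⟩
  have hg : ∀ x : matchIdx τ, ∃ t : T, ∀ s, matchMap τ s = x → f s = t := by
    intro x
    obtain ⟨s, rfl⟩ := hsurj x
    exact ⟨f s, fun r hr => (h1 r s).1 hr⟩
  have hg' : ∀ t : T, ∃ x : matchIdx τ, ∀ s, f s = t → matchMap τ s = x := by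
    intro t
    obtain ⟨s, rfl⟩ := hf t
    exact ⟨matchMap τ s, fun r hr => (h1 r s).2 hr⟩
  choose g hg using hg
  choose g' hg' using hg'
  have hgf : g ∘ matchMap τ = f := by
    funext s
    exact (hg _ s rfl).symm
  have hgf' : g' ∘ f = matchMap τ := by
    funext s
    exact (hg' _ s rfl).symm
  have hgg' : g ∘ g' = id := by
    funext t
    obtain ⟨s, rfl⟩ := hf t
    change g ((g' ∘ f) s) = f s
    rw [hgf']
    exact congrFun hgf s
  have hg'g : g' ∘ g = id := by
    funext x
    obtain ⟨s, rfl⟩ := hsurj x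
    change g' ((g ∘ matchMap τ) s) = matchMap τ s
    rw [hgf]
    exact congrFun hgf' s
  have e1 : A.map (pw X (matchIdx τ)) g ≫ (pw X (matchIdx τ)).map A g' = 𝟙 _ := by
    rw [Pow.map_comp, hgg']
    exact A.map_id
  have e2 : (pw X (matchIdx τ)).map A g' ≫ A.map (pw X (matchIdx τ)) g = 𝟙 _ := by
    rw [Pow.map_comp, hg'g]
    exact (pw X (matchIdx τ)).map_id
  have e3 : A.map B f = A.map (pw X (matchIdx τ)) g ≫ (pw X (matchIdx τ)).map B (matchMap τ) := by
    rw [Pow.map_comp, hgf]
  rw [e3, C.push_comp, push_one_of_inverse _ _ e1 e2]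
  rfl

/-- **PW-D6c.** -/
theorem taut_dichotomy (h𝒜 : IsAmb C 𝒜) (hd : 0 < X.dim) [Finite N] [Finite T] (A : Pow X T)
    (B : Pow X N) {f : N → T} (hf : Function.Surjective f) {c : ℕ} {m : CH A.var}
    (hm : Mon C 𝒜 A c m)
    (he : 2 * (c : ℤ) + Nat.card N * X.dim - 2 * (Nat.card T * X.dim) ≤ 0) :
    (∃ (s : N) (i : ℕ) (a : CH X) (w : CH (del X s).var), 2 * i ≤ X.dim ∧ a ∈ 𝒜 i ∧
      C.push (A.map B f) m = C.mul _ (at' C B s a) (C.pull (forget B s) w)) ∨
    ∃ (τ : N → N) (q : ℚ), IsMatching τ ∧ C.push (A.map B f) m = q • matchCls C B τ := by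
  classical
  let _ : Fintype T := Fintype.ofFinite T
  let _ : Fintype N := Fintype.ofFinite N
  obtain ⟨i, hi, hi'⟩ := hm.normal h𝒜
  by_cases h : ∃ s : N, (∀ r, f r = f s → r = s) ∧ 2 * i (f s) ≤ X.dim
  · obtain ⟨s, hs, hs'⟩ := h
    obtain ⟨a, ha, c', m', -, -, rfl⟩ := hi' (f s)
    obtain ⟨w, hw⟩ := push_map_singleton (C := C) A B f s hs a m'
    exact Or.inl ⟨s, i (f s), a, w, hs', ha, hw⟩
  · right
    let mt : T → ℕ := fun t => (Finset.univ.filter fun s => f s = t).card
    have hmt : ∑ t, mt t = Nat.card N := by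
      rw [Nat.card_eq_fintype_card, ← Finset.card_univ]
      exact (Finset.card_eq_sum_card_fiberwise fun s _ => Finset.mem_univ (f s)).symm
    have hpos : ∀ t, 1 ≤ mt t := by
      intro t
      obtain ⟨s, rfl⟩ := hf t
      exact Finset.card_pos.2 ⟨s, by simp⟩
    have hnn : ∀ t, 0 ≤ 2 * (i t : ℤ) + ((mt t : ℤ) - 2) * X.dim ∧
        (2 * (i t : ℤ) + ((mt t : ℤ) - 2) * X.dim = 0 → mt t = 2 ∧ i t = 0) := by
      intro t
      have hd' : (0 : ℤ) < X.dim := by exact_mod_cast hd
      have h1 := hpos t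
      rcases Nat.lt_or_ge 2 (mt t) with h2 | h2
      · have h3 : (3 : ℤ) ≤ mt t := by exact_mod_cast h2
        have h4 : (0 : ℤ) ≤ i t := by positivity
        have h5 : 0 < ((mt t : ℤ) - 2) * X.dim := mul_pos (by linarith) hd'
        refine ⟨by linarith, fun h6 => ?_⟩
        linarith
      · rcases Nat.lt_or_ge 1 (mt t) with h3 | h3
        · have h4 : mt t = 2 := by omega
          rw [h4]
          refine ⟨by push_cast; simp, fun h5 => ⟨rfl, ?_⟩⟩
          have h6 : 2 * (i t : ℤ) = 0 := by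
            push_cast at h5
            simpa using h5
          omega
        · have h4 : mt t = 1 := by omega
          obtain ⟨s, rfl⟩ := hf t
          have h5 : ∀ r, f r = f s → r = s := by
            intro r hr
            obtain ⟨x, hx⟩ := Finset.card_eq_one.1 h4
            have h6 : r ∈ Finset.univ.filter fun s' => f s' = f s := by simp [hr]
            have h7 : s ∈ Finset.univ.filter fun s' => f s' = f s := by simp
            rw [hx, Finset.mem_singleton] at h6 h7
            rw [h6, h7]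
          have h6 : X.dim < 2 * i (f s) := by
            by_contra h7
            exact h ⟨s, h5, not_lt.1 h7⟩
          rw [h4]
          have h7 : (X.dim : ℤ) < 2 * (i (f s) : ℤ) := by exact_mod_cast h6
          have h8 : 2 * (i (f s) : ℤ) + (((1 : ℕ) : ℤ) - 2) * X.dim =
              2 * (i (f s) : ℤ) - X.dim := by push_cast; ring
          rw [h8]
          exact ⟨by linarith, fun h9 => by linarith⟩
    have hsum : ∑ t, (2 * (i t : ℤ) + ((mt t : ℤ) - 2) * X.dim) =
        2 * (c : ℤ) + Nat.card N * X.dim - 2 * (Nat.card T * X.dim) := by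
      rw [Finset.sum_add_distrib, ← Finset.mul_sum, ← Finset.sum_mul, Finset.sum_sub_distrib,
        ← Nat.cast_sum, ← Nat.cast_sum, hi, hmt, Finset.sum_const, Finset.card_univ,
        Nat.card_eq_fintype_card (α := T), nsmul_eq_mul]
      ring
    have hzero : ∀ t, 2 * (i t : ℤ) + ((mt t : ℤ) - 2) * X.dim = 0 := by
      intro t
      have h1 : ∑ t, (2 * (i t : ℤ) + ((mt t : ℤ) - 2) * X.dim) = 0 :=
        le_antisymm (hsum.trans_le he) (Finset.sum_nonneg fun t _ => (hnn t).1)
      exact (Finset.sum_eq_zero_iff_of_nonneg fun t _ => (hnn t).1).1 h1 t (Finset.mem_univ t)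
    have hc : c = 0 := by
      rw [← hi]
      exact Finset.sum_eq_zero fun t _ => ((hnn t).2 (hzero t)).2
    have hτ : ∀ s : N, ∃ s', s' ≠ s ∧ ∀ r, f r = f s ↔ r = s ∨ r = s' := by
      intro s
      obtain ⟨x, y, hxy, he⟩ := Finset.card_eq_two.1 ((hnn (f s)).2 (hzero (f s))).1
      have h1 : ∀ r, f r = f s ↔ r = x ∨ r = y := by
        intro r
        have h2 : r ∈ (Finset.univ.filter fun s' => f s' = f s) ↔ r ∈ ({x, y} : Finset N) := by
          rw [he]
        simpa using h2
      rcases (h1 s).1 rfl with rfl | rfl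
      · exact ⟨y, hxy.symm, h1⟩
      · exact ⟨x, hxy, fun r => (h1 r).trans or_comm⟩
    choose τ hτ1 hτ2 using hτ
    have hmatch : IsMatching τ := by
      refine ⟨hτ1, fun t => ?_⟩
      have h1 : f (τ t) = f t := (hτ2 t (τ t)).2 (Or.inr rfl)
      rcases (hτ2 (τ t) t).1 h1.symm with h2 | h2
      · exact absurd h2.symm (hτ1 t)
      · exact h2.symm
    subst hc
    obtain ⟨q, rfl⟩ := hm.zero_eq h𝒜
    refine ⟨τ, q, hmatch, ?_⟩
    rw [map_smul, push_one_eq_matchCls A B hf hmatch fun r s => hτ2 s r]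

/-- **PW-D6d.** -/
theorem taut_van (h𝒜 : IsAmb C 𝒜) (hd : 0 < X.dim) [Finite N] (B : Pow X N)
    {σ : N → List (CH X × CH X)} (hσ : ∀ t, Complete C 𝒜 (σ t)) {e : ℤ} (he : e ≤ 0)
    {w : CH B.var} (hw : w ∈ Taut C 𝒜 B e) {l : List N} (hl : l.Nodup) (hl' : ∀ t, t ∈ l) :
    ∃ c : (N → N) →₀ ℚ, (∀ τ ∈ c.support, IsMatching τ) ∧
      Φs C B (fun t => vanSym (σ t)) l w =
        Φs C B (fun t => vanSym (σ t)) l (c.sum fun τ q => q • matchCls C B τ) := by
  classical
  refine Submodule.span_induction (p := fun w _ => ∃ c : (N → N) →₀ ℚ,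
    (∀ τ ∈ c.support, IsMatching τ) ∧ Φs C B (fun t => vanSym (σ t)) l w =
      Φs C B (fun t => vanSym (σ t)) l (c.sum fun τ q => q • matchCls C B τ)) ?_ ?_ ?_ ?_ hw
  · rintro _ ⟨T, hT, A, f, i, m, hf, hm, rfl, rfl⟩
    rcases taut_dichotomy h𝒜 hd A B hf hm he with ⟨s, i, a, w, hi, ha, h⟩ | ⟨τ, q, hτ, h⟩
    · refine ⟨0, fun τ hτ => absurd hτ (by simp), ?_⟩
      rw [Finsupp.sum_zero_index, map_zero, h]
      obtain ⟨l₁, l₂, rfl⟩ := List.append_of_mem (hl' s)
      have hp : (l₁ ++ s :: l₂).Perm ((l₁ ++ l₂) ++ [s]) :=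
        List.perm_middle.trans (List.perm_append_singleton s (l₁ ++ l₂)).symm
      rw [Φs_perm C B _ hp hl, Φs_append]
      have h1 : Φs C B (fun t => vanSym (σ t)) [s]
          (C.mul _ (at' C B s a) (C.pull (forget B s) w)) = 0 :=
        Φ_van_at_pull C (hσ s) B s hi ha w
      rw [h1, map_zero]
    · refine ⟨Finsupp.single τ q, fun τ' hτ' => ?_, ?_⟩
      · have h1 := Finsupp.support_single_subset hτ'
        rw [Finset.mem_singleton] at h1
        rw [h1]
        exact hτ
      · have h1 : ((Finsupp.single τ q).sum fun τ q => q • matchCls C B τ) =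
            q • matchCls C B τ := Finsupp.sum_single_index (by exact zero_smul ℚ _)
        rw [h1, h]
  · refine ⟨0, fun τ hτ => absurd hτ (by simp), ?_⟩
    rw [Finsupp.sum_zero_index]
  · rintro x y - - ⟨c, hc, hx⟩ ⟨c', hc', hy⟩
    refine ⟨c + c', fun τ hτ => ?_, ?_⟩
    · rcases Finset.mem_union.1 (Finsupp.support_add hτ) with h | h
      · exact hc τ h
      · exact hc' τ h
    · have h1 : ((c + c').sum fun τ q => q • matchCls C B τ) =
          (c.sum fun τ q => q • matchCls C B τ) + c'.sum fun τ q => q • matchCls C B τ :=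
        Finsupp.sum_add_index' (fun _ => by exact zero_smul ℚ _)
          (fun _ _ _ => by exact add_smul _ _ _)
      rw [h1, map_add, map_add, hx, hy]
  · rintro q x - ⟨c, hc, hx⟩
    refine ⟨q • c, fun τ hτ => hc τ (Finsupp.support_smul hτ), ?_⟩
    have h1 : ((q • c).sum fun τ q => q • matchCls C B τ) =
        q • c.sum fun τ q => q • matchCls C B τ := by
      have h2 : ((q • c).sum fun τ q => q • matchCls C B τ) =
          c.sum fun τ q' => (q * q') • matchCls C B τ :=
        Finsupp.sum_smul_index (fun _ => by exact zero_smul ℚ _)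
      rw [h2, Finsupp.smul_sum]
      exact Finsupp.sum_congr fun τ _ => (smul_smul q (c τ) (matchCls C B τ)).symm
    rw [map_smul, hx, h1, map_smul]

end Pool.Agent.Helper11.PW
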