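import Mathlib
import Pool.Agent.Helper11.PW.St.D6

/-!
# PW-D7: the functionals which detect the matchings

Hints.  `zProd B z l` is the product of the classes `p_t^* z_t`, `t ∈ l`, in `H(X^N)`.
`zprod_perm`: all factors have degree `d` (`W.graded`, `comm`), so a transposition changes the
product by a sign.
`tr_E_mul`: move `s` to the front, `l ~ s :: l'`; the product over `l'` is a pull-back along
`forget B s` (`Pow.map_pr`), classes of cycles are of even degree and commute
(`even_comm` in `Chow/Corr.lean`, every class is a sum of classes in `CHi`), and `tr_forget` gives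
the factor `tr (cl u · z s) = 0`.
`tr_pairs`: for a list `l` of pairs `(t, z)`, `t ∈ T`, in which each `t` occurs exactly twice;
move the two entries of one `t` to the front; `tr_forget` gives the factor `± tr (z z')`; induction
on `|T|` for the non-vanishing (`T = ∅`: `tr 1 ≠ 0` on a variety of dimension `0`).
`exists_ev`: `Z = zProd B z l`; `tr (cl (push g 1) Z) = tr (g^* Z)` (`cl_push`).
-/

universe u v w

open CategoryTheory AlgebraicGeometry Limits

namespace Pool.Agent.Helper11.PW

open Pool.Agent.Helper10 Pool.Agent.Helper10.SmProjVar Pool.Agent.Helper47.Chow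
open Pool.Agent.Helper47.Desc

variable {k : Type u} [Field k] {K : Type v} [Field K] [CharZero K]
  {W : WeilCohomology.{u, v, w} k K} {C : ChowTheory W} {X : SmProjVar k} {T N : Type}
  {𝒜 : ℕ → Submodule ℚ (CH X)}

/-- The product of the classes `p_t^* z` over a list of pairs `(t, z)`. -/
noncomputable def zProd (A : Pow X T) (l : List (T × W.H X)) : W.H A.var :=
  (l.map fun p => W.pull (A.pr p.1) p.2).prod

/-- Classes of cycles commute with all classes. -/
lemma cl_commute (Y : SmProjVar k) (a : CH Y) (x : W.H Y) : C.cl Y a * x = x * C.cl Y a := by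
  obtain ⟨z, rfl⟩ : ∃ z : QCycles Y, cls Y z = a := Submodule.Quotient.mk_surjective _ a
  change C.cl Y (ChowTheory.clsL Y z) * x = x * C.cl Y (ChowTheory.clsL Y z)
  rw [ChowTheory.cls_eq_sum, Finsupp.sum, map_sum, Finset.sum_mul, Finset.mul_sum]
  refine Finset.sum_congr rfl fun y _ => ?_
  have hle : Y.pointDim y ≤ Y.dim := by
    rw [← pointDim_genericPt W Y]
    exact Pool.Agent.Helper11.Murre.pointDim_le_generic Y y
  rw [cl_smul, smul_mul_assoc, mul_smul_comm]
  congr 1
  exact even_comm W Y (Y.dim - Y.pointDim y) _ _ (C.cl_mem _ _ _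
    (ChowTheory.ptCls_mem y (Y.dim - Y.pointDim y) (by omega)))

lemma zProd_nil (A : Pow X T) : zProd A ([] : List (T × W.H X)) = 1 := rfl

lemma zProd_cons (A : Pow X T) (p : T × W.H X) (l : List (T × W.H X)) :
    zProd A (p :: l) = W.pull (A.pr p.1) p.2 * zProd A l := by
  simp only [zProd, List.map_cons, List.prod_cons]

/-- **PW-D7a.** -/
theorem zProd_perm (A : Pow X T) {l l' : List (T × W.H X)} (h : l.Perm l')
    (hl : ∀ p ∈ l, p.2 ∈ W.gr X X.dim) : zProd A l' = zProd A l ∨ zProd A l' = -zProd A l := by
  induction h with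
  | nil => exact Or.inl rfl
  | cons p _ ih =>
    rw [zProd_cons, zProd_cons]
    rcases ih fun q hq => hl q (List.mem_cons_of_mem _ hq) with h1 | h1
    · left
      rw [h1]
    · right
      rw [h1, mul_neg]
  | swap p q l =>
    rw [zProd_cons, zProd_cons, zProd_cons, zProd_cons, ← mul_assoc, ← mul_assoc]
    have hp := (W.pull_hom (A.pr p.1)).map_mem _ _ (hl p (by simp))
    have hq := (W.pull_hom (A.pr q.1)).map_mem _ _ (hl q (by simp))
    rw [(W.graded A.var).comm _ _ _ _ hp hq]
    rcases neg_one_pow_eq_or K (X.dim * X.dim) with h1 | h1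
    · left
      rw [h1, one_smul]
    · right
      rw [h1, neg_smul, one_smul, neg_mul]
  | trans h1 _ ih1 ih2 =>
    have e1 := ih1 hl
    have e2 := ih2 fun p hp => hl p (h1.mem_iff.2 hp)
    rcases e1 with e1 | e1 <;> rcases e2 with e2 | e2
    · left
      rw [e2, e1]
    · right
      rw [e2, e1]
    · right
      rw [e2, e1]
    · left
      rw [e2, e1, neg_neg]

/-- **PW-D7b.** -/
theorem pull_zProd (A : Pow X T) (B : Pow X N) (f : N → T) (l : List (N × W.H X)) :
    W.pull (A.map B f) (zProd B l) = zProd A (l.map fun p => (f p.1, p.2)) := by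
  induction l with
  | nil => exact (W.pull_hom (A.map B f)).map_one
  | cons p l ih =>
    rw [zProd_cons, List.map_cons, zProd_cons, (W.pull_hom (A.map B f)).map_mul, ih,
      ← W.pull_comp, Pow.map_pr]

/-- **PW-D7c.** -/
theorem tr_E_mul [Finite N] (B : Pow X N) (s : N) (u v : CH X) (w : CH B.var) (z : N → W.H X)
    (hz : ∀ t, z t ∈ W.gr X X.dim) (h0 : W.tr X (C.cl X u * z s) = 0) {l : List N}
    (hl : l.Nodup) (hs : s ∈ l) :
    W.tr B.var (C.cl _ (E C B s u v w) * zProd B (l.map fun t => (t, z t))) = 0 := by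
  classical
  have hperm : (s :: l.erase s).Perm l := (List.perm_cons_erase hs).symm
  have hne : ∀ t ∈ l.erase s, t ≠ s := fun t ht => ((hl.mem_erase_iff).1 ht).1
  let L : List (Del N s × W.H X) :=
    ((l.erase s).attachWith (fun t => t ≠ s) hne).map fun t => (t, z t.1)
  have hL : (l.erase s).map (fun t => (t, z t)) = L.map fun p => (p.1.1, p.2) := by
    have h1 : ((l.erase s).attachWith (fun t => t ≠ s) hne).map Subtype.val = l.erase s :=
      List.attachWith_map_subtype_val (l := l.erase s) hne
    conv_lhs => rw [← h1]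
    rw [List.map_map, List.map_map]
    rfl
  obtain ⟨c, hc⟩ : ∃ c : CH (del X s).var, E C B s u v w =
    C.mul _ (at' C B s u) (C.pull (forget B s) c) := ⟨_, rfl⟩
  have key : W.tr B.var (C.cl _ (E C B s u v w) *
      zProd B ((s :: l.erase s).map fun t => (t, z t))) = 0 := by
    rw [List.map_cons, zProd_cons, hL]
    have h2 : zProd B (L.map fun p => (p.1.1, p.2)) = W.pull (forget B s) (zProd (del X s) L) :=
      (pull_zProd B (del X s) Subtype.val L).symm
    rw [h2, hc, C.cl_mul]
    have h3 : C.cl B.var (at' C B s u) = W.pull (B.pr s) (C.cl X u) := C.cl_pull _ _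
    have h4 : C.cl B.var (at' C B s u) * C.cl B.var (C.pull (forget B s) c) *
        (W.pull (B.pr s) (z s) * W.pull (forget B s) (zProd (del X s) L)) =
        W.pull (B.pr s) (C.cl X u * z s) *
          W.pull (forget B s) (C.cl _ c * zProd (del X s) L) := by
      rw [(W.pull_hom (B.pr s)).map_mul, (W.pull_hom (forget B s)).map_mul, h3, mul_assoc,
        ← mul_assoc (C.cl B.var (C.pull (forget B s) c)), cl_commute, C.cl_pull]
      simp only [mul_assoc]
    change W.tr B.var (C.cl B.var (at' C B s u) * C.cl B.var (C.pull (forget B s) c) *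
        (W.pull (B.pr s) (z s) * W.pull (forget B s) (zProd (del X s) L))) = 0
    rw [h4, tr_forget B s, h0, zero_mul]
  have hz' : ∀ p ∈ (s :: l.erase s).map (fun t => (t, z t)), p.2 ∈ W.gr X X.dim := by
    intro p hp
    obtain ⟨t, _, rfl⟩ := List.mem_map.1 hp
    exact hz t
  rcases zProd_perm B (hperm.map fun t => (t, z t)) hz' with h5 | h5
  · rw [h5]
    exact key
  · rw [h5, mul_neg]
    have h6 : ∀ x : W.H B.var, W.tr B.var (-x) = -W.tr B.var x := by
      intro x
      have := (W.trace B.var).map_smul (-1) x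
      rwa [neg_smul, one_smul, neg_mul, one_mul] at this
    rw [h6, key, neg_zero]

end Pool.Agent.Helper11.PW
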