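import Mathlib
import Pool.Agent.Helper11.PW.St.D7

/-!
# PW-D7: the functionals which detect the matchings

Hints.  `zProd B z l` is the product of the classes `p_t^* z_t`, `t ∈ l`, in `H(X^N)`.
`zprod_perm`: all factors have degree `d` (`W.graded`, `comm`), so a transposition changes the
product by a sign.
`tr_E_mul`: move `s` to the front, `l ~ s :: l'`; the product over `l'` is a pull-back along
`forget B s` (`Pow.map_pr`), classes of cycles are of even degree and commute
(`even_comm` in `Chow/Corr.lean`, every class is a sum of classes in `CHi`), and `tr_forget` gives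
the factor `tr (cl u · z s) = 0`.
`tr_pairs`: for a list `l` of pairs `(t, z)`, `t ∈ T`, in which each `t` occurs exactly twice;
move the two entries of one `t` to the front; `tr_forget` gives the factor `± tr (z z')`; induction
on `|T|` for the non-vanishing (`T = ∅`: `tr 1 ≠ 0` on a variety of dimension `0`).
`exists_ev`: `Z = zProd B z l`; `tr (cl (push g 1) Z) = tr (g^* Z)` (`cl_push`).
-/

universe u v w

open CategoryTheory AlgebraicGeometry Limits

namespace Pool.Agent.Helper11.PW

open Pool.Agent.Helper10 Pool.Agent.Helper10.SmProjVar Pool.Agent.Helper47.Chow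
open Pool.Agent.Helper47.Desc

variable {k : Type u} [Field k] {K : Type v} [Field K] [CharZero K]
  {W : WeilCohomology.{u, v, w} k K} {C : ChowTheory W} {X : SmProjVar k} {T N : Type}
  {𝒜 : ℕ → Submodule ℚ (CH X)}

/-- The cycles of a list away from one index come from the power with one factor less. -/
private lemma exists_lift_list {M : Type*} (t : T) (l' : List (T × M)) (hl' : ∀ p ∈ l', p.1 ≠ t) :
    ∃ l'' : List (Del T t × M), l''.map (fun p => (p.1.val, p.2)) = l' := by
  induction l' with
  | nil => exact ⟨[], rfl⟩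
  | cons a l ih =>
    obtain ⟨m, hm⟩ := ih fun p hp => hl' p (List.mem_cons_of_mem _ hp)
    refine ⟨(⟨a.1, hl' a List.mem_cons_self⟩, a.2) :: m, ?_⟩
    rw [List.map_cons, hm]

private lemma tr_neg (Y : SmProjVar k) (x : W.H Y) : W.tr Y (-x) = -W.tr Y x := by
  have h := (W.trace Y).map_smul (-1) x
  rwa [neg_smul, one_smul, neg_one_mul] at h

private lemma tr_zero (Y : SmProjVar k) : W.tr Y (0 : W.H Y) = 0 := by
  have h := (W.trace Y).map_smul 0 0
  rwa [zero_smul, zero_mul] at h

/-- The product with the two entries of one index in front. -/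
private lemma tr_pair_front [Finite T] (A : Pow X T) (t : T) (z z' : W.H X)
    (l'' : List (Del T t × W.H X)) :
    W.tr A.var (zProd A ((t, z) :: (t, z') :: l''.map (fun p => (p.1.val, p.2)))) =
      W.tr X (z * z') * W.tr _ (zProd (del X t) l'') := by
  have h1 : zProd A ((t, z) :: (t, z') :: l''.map (fun p => (p.1.val, p.2))) =
      W.pull (A.pr t) (z * z') * W.pull (forget A t) (zProd (del X t) l'') := by
    rw [zProd_cons, zProd_cons, ← mul_assoc, (W.pull_hom (A.pr t)).map_mul, forget, pull_zProd]
  rw [h1, tr_forget]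

/-- **PW-D7d.** -/
theorem tr_pairs_zero [Finite T] (A : Pow X T) (l : List (T × W.H X))
    (hl : ∀ p ∈ l, p.2 ∈ W.gr X X.dim) (t : T) (z z' : W.H X) (l' : List (T × W.H X))
    (h : l.Perm ((t, z) :: (t, z') :: l')) (hl' : ∀ p ∈ l', p.1 ≠ t)
    (h0 : W.tr X (z * z') = 0) : W.tr A.var (zProd A l) = 0 := by
  obtain ⟨l'', rfl⟩ := exists_lift_list t l' hl'
  have h1 := tr_pair_front A t z z' l''
  rw [h0, zero_mul] at h1
  rcases zProd_perm A h hl with h2 | h2
  · rw [← h2, h1]
  · rw [h2, tr_neg, neg_eq_zero] at h1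
    exact h1

private lemma tr_one_ne_zero (Y : SmProjVar k) (hY : Y.dim = 0) : W.tr Y (1 : W.H Y) ≠ 0 := by
  intro h
  have h1 : (1 : W.H Y) ∈ W.gr Y (2 * Y.dim) := by
    rw [hY]
    exact (W.graded Y).one_mem
  have h2 : (1 : W.H Y) = 0 :=
    ((W.trace Y).bijective 0).unique ⟨h1, h⟩ ⟨Submodule.zero_mem _, tr_zero Y⟩
  obtain ⟨x, ⟨-, hx⟩, -⟩ := (W.trace Y).bijective 1
  have h3 : x = 0 := by rw [← one_mul x, h2, zero_mul]
  rw [h3, tr_zero] at hx
  exact zero_ne_one hx

open Classical in
private lemma tr_pairs_ne_zero_aux (n : ℕ) : ∀ (T : Type) [Finite T] (A : Pow X T)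
    (l : List (T × W.H X)), Nat.card T = n → (∀ p ∈ l, p.2 ∈ W.gr X X.dim) →
    (∀ t, ∃ z z', (l.filter (fun p => p.1 = t)).Perm [(t, z), (t, z')] ∧
      W.tr X (z * z') ≠ 0) → W.tr A.var (zProd A l) ≠ 0 := by
  induction n with
  | zero =>
    intro T _ A l hn hl h
    have hT : IsEmpty T := by
      rcases Nat.card_eq_zero.1 hn with h' | h'
      · exact h'
      · exact absurd ‹Finite T› (not_finite_iff_infinite.2 h')
    have hl0 : l = [] := by
      cases l with
      | nil => rfl
      | cons a l => exact (hT.false a.1).elim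
    subst hl0
    refine tr_one_ne_zero A.var ?_
    rw [Pow.dim_eq W A, hn, zero_mul]
  | succ n ih =>
    intro T _ A l hn hl h
    have hne : Nonempty T := (Nat.card_pos_iff.1 (by rw [hn]; exact Nat.succ_pos n)).1
    obtain ⟨t⟩ := hne
    obtain ⟨z, z', hp, htr⟩ := h t
    have hperm : l.Perm ((t, z) :: (t, z') :: l.filter (fun p => ¬ p.1 = t)) := by
      have h1 := List.filter_append_perm (fun p : T × W.H X => decide (p.1 = t)) l
      have h2 : (l.filter (fun p => !decide (p.1 = t))) = l.filter (fun p => ¬ p.1 = t) := by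
        apply List.filter_congr
        intro x _
        simp
      rw [h2] at h1
      exact h1.symm.trans (hp.append_right _)
    have hl' : ∀ p ∈ l.filter (fun p => ¬ p.1 = t), p.1 ≠ t := by
      intro p hp'
      have := (List.mem_filter.1 hp').2
      simpa using this
    obtain ⟨l'', hl''⟩ := exists_lift_list t _ hl'
    have hcard : Nat.card (Del T t) = n := by
      have h1 : Nat.card {s : T // s ≠ t} + 1 = Nat.card T := by
        have hf : Fintype T := Fintype.ofFinite T
        rw [Nat.card_eq_fintype_card, Nat.card_eq_fintype_card]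
        rw [Fintype.card_subtype_compl, Fintype.card_subtype_eq]
        have : 0 < Fintype.card T := Fintype.card_pos_iff.2 ⟨t⟩
        omega
      have : Nat.card (Del T t) = Nat.card {s : T // s ≠ t} := rfl
      omega
    have hinj : Function.Injective (fun p : Del T t × W.H X => ((p.1.val, p.2) : T × W.H X)) := by
      rintro ⟨⟨a, ha⟩, b⟩ ⟨⟨c, hc⟩, d⟩ he
      simp only [Prod.mk.injEq] at he
      obtain ⟨rfl, rfl⟩ := he
      rfl
    have hgr : ∀ p ∈ l'', p.2 ∈ W.gr X X.dim := by
      intro p hp'
      have h1 : (p.1.val, p.2) ∈ l.filter (fun p => ¬ p.1 = t) := by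
        rw [← hl'']
        exact List.mem_map_of_mem hp'
      exact hl _ (List.mem_filter.1 h1).1
    have hrec : W.tr (del X t).var (zProd (del X t) l'') ≠ 0 := by
      refine ih (Del T t) (del X t) l'' hcard hgr fun s => ?_
      obtain ⟨w, w', hw, hw'⟩ := h s.val
      refine ⟨w, w', ?_, hw'⟩
      have h1 : ((l''.filter (fun p => p.1 = s)).map
          (fun p : Del T t × W.H X => ((p.1.val, p.2) : T × W.H X))) =
          l.filter (fun p => p.1 = s.val) := by
        have h2 : l.filter (fun p => p.1 = s.val) =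
            (l.filter (fun p => ¬ p.1 = t)).filter (fun p => p.1 = s.val) := by
          rw [List.filter_filter]
          apply List.filter_congr
          intro x _
          by_cases hx : x.1 = s.val
          · have hxt : ¬ x.1 = t := by
              rw [hx]
              exact s.property
            simp [hx, s.property]
          · simp [hx]
        rw [h2, ← hl'', List.filter_map]
        congr 1
        apply List.filter_congr
        intro x _
        simp [Subtype.ext_iff]
      have h3 : ((l''.filter (fun p => p.1 = s)).map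
          (fun p : Del T t × W.H X => ((p.1.val, p.2) : T × W.H X))).Perm
          (([(s, w), (s, w')] : List (Del T t × W.H X)).map
          (fun p : Del T t × W.H X => ((p.1.val, p.2) : T × W.H X))) := by
        rw [h1]
        exact hw
      have h4 := Multiset.coe_eq_coe.2 h3
      rw [← Multiset.map_coe, ← Multiset.map_coe] at h4
      have h5 := Multiset.coe_eq_coe.1 (Multiset.map_injective hinj h4)
      refine (List.Perm.of_eq ?_).trans h5
      apply List.filter_congr
      intro x _
      simp
    have h1 := tr_pair_front A t z z' l''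
    rw [hl''] at h1
    have h2 : W.tr X (z * z') * W.tr (del X t).var (zProd (del X t) l'') ≠ 0 :=
      mul_ne_zero htr hrec
    rw [← h1] at h2
    rcases zProd_perm A hperm hl with h3 | h3
    · rwa [← h3]
    · rw [h3, tr_neg, neg_ne_zero] at h2
      exact h2

/-- **PW-D7e.** -/
theorem tr_pairs_ne_zero [Finite T] (A : Pow X T) (l : List (T × W.H X))
    (hl : ∀ p ∈ l, p.2 ∈ W.gr X X.dim)
    (h : ∀ t, ∃ z z' l', l.Perm ((t, z) :: (t, z') :: l') ∧ (∀ p ∈ l', p.1 ≠ t) ∧
      W.tr X (z * z') ≠ 0) : W.tr A.var (zProd A l) ≠ 0 := by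
  classical
  refine tr_pairs_ne_zero_aux _ T A l rfl hl fun t => ?_
  obtain ⟨z, z', l', hp, hl', htr⟩ := h t
  refine ⟨z, z', ?_, htr⟩
  have h1 := hp.filter (fun p => decide (p.1 = t))
  have h2 : l'.filter (fun p => decide (p.1 = t)) = [] := by
    rw [List.filter_eq_nil_iff]
    intro a ha
    simpa using hl' a ha
  rw [List.filter_cons_of_pos (by simp), List.filter_cons_of_pos (by simp), h2] at h1
  exact h1

/-- **PW-D7f.** -/
theorem exists_ev [Finite N] (B : Pow X N) {τ : N → N} (hτ : IsMatching τ) {z : N → W.H X}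
    (hz : Detects C 𝒜 τ z) : ∃ Z : W.H B.var,
      (∀ (s : N) (u v : CH X) (w : CH B.var) (i : ℕ), u ∈ 𝒜 i →
        W.tr B.var (C.cl _ (E C B s u v w) * Z) = 0) ∧
      W.tr B.var (C.cl _ (matchCls C B τ) * Z) ≠ 0 ∧
      ∀ τ' : N → N, IsMatching τ' → τ' ≠ τ →
        W.tr B.var (C.cl _ (matchCls C B τ') * Z) = 0 := by
  classical
  have hf : Fintype N := Fintype.ofFinite N
  have hgr : ∀ t, z t ∈ W.gr X X.dim := fun t => (hz.1 t).1
  have hnd : (Finset.univ : Finset N).toList.Nodup := Finset.nodup_toList _
  have hmem : ∀ s : N, s ∈ (Finset.univ : Finset N).toList := fun s =>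
    Finset.mem_toList.2 (Finset.mem_univ s)
  have key : ∀ τ' : N → N, W.tr B.var (C.cl _ (matchCls C B τ') *
      zProd B ((Finset.univ : Finset N).toList.map fun t => (t, z t))) =
      W.tr _ (zProd (pw X (matchIdx τ'))
        ((Finset.univ : Finset N).toList.map fun t => (matchMap τ' t, z t))) := by
    intro τ'
    rw [matchCls, C.cl_push, cl_one, one_mul, pull_zProd, List.map_map]
    rfl
  have hgr' : ∀ τ' : N → N, ∀ p ∈ ((Finset.univ : Finset N).toList.map
      fun t => (matchMap τ' t, z t)), p.2 ∈ W.gr X X.dim := by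
    intro τ' p hp
    obtain ⟨t, -, rfl⟩ := List.mem_map.1 hp
    exact hgr t
  have hpair : ∀ τ' : N → N, IsMatching τ' → ∀ s : N,
      ((Finset.univ : Finset N).toList.map fun t => (matchMap τ' t, z t)).Perm
        ((matchMap τ' s, z s) :: (matchMap τ' s, z (τ' s)) ::
          ((Finset.univ : Finset N).toList.filter fun t => ¬ (t = s ∨ t = τ' s)).map
            fun t => (matchMap τ' t, z t)) ∧
      ∀ p ∈ (((Finset.univ : Finset N).toList.filter fun t => ¬ (t = s ∨ t = τ' s)).map
            fun t => (matchMap τ' t, z t)), p.1 ≠ matchMap τ' s := by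
    intro τ' hτ' s
    have hperm : ((Finset.univ : Finset N).toList).Perm
        (s :: τ' s :: (Finset.univ : Finset N).toList.filter fun t => ¬ (t = s ∨ t = τ' s)) := by
      refine (List.perm_ext_iff_of_nodup hnd ?_).2 ?_
      · refine List.nodup_cons.2 ⟨?_, List.nodup_cons.2 ⟨?_, hnd.filter _⟩⟩
        · intro hs
          rcases List.mem_cons.1 hs with hs | hs
          · exact hτ'.1 s hs.symm
          · have := (List.mem_filter.1 hs).2
            simp at this
        · intro hs
          have := (List.mem_filter.1 hs).2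
          simp at this
      · intro a
        refine ⟨fun _ => ?_, fun _ => hmem a⟩
        by_cases h1 : a = s
        · exact List.mem_cons.2 (Or.inl h1)
        · by_cases h2 : a = τ' s
          · exact List.mem_cons_of_mem _ (List.mem_cons.2 (Or.inl h2))
          · refine List.mem_cons_of_mem _ (List.mem_cons_of_mem _ (List.mem_filter.2 ⟨hmem a, ?_⟩))
            simp [h1, h2]
    have e : matchMap τ' (τ' s) = matchMap τ' s := (matchMap_eq_iff hτ' _ _).2 (Or.inr rfl)
    refine ⟨?_, ?_⟩
    · have h1 := hperm.map fun t => ((matchMap τ' t, z t) : matchIdx τ' × W.H X)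
      rw [List.map_cons, List.map_cons, e] at h1
      exact h1
    · intro p hp
      obtain ⟨t, ht, rfl⟩ := List.mem_map.1 hp
      intro he
      have h2 := (List.mem_filter.1 ht).2
      have h3 := (matchMap_eq_iff hτ' t s).1 he
      simp at h2
      rcases h3 with h3 | h3
      · exact h2.1 h3
      · exact h2.2 h3
  refine ⟨zProd B ((Finset.univ : Finset N).toList.map fun t => (t, z t)), ?_, ?_, ?_⟩
  · intro s u v w i hu
    exact tr_E_mul B s u v w z hgr ((hz.1 s).2 i u hu) hnd (hmem s)
  · rw [key]
    refine tr_pairs_ne_zero _ _ (hgr' τ) ?_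
    rintro ⟨_, s, rfl⟩
    obtain ⟨h1, h2⟩ := hpair τ hτ s
    exact ⟨_, _, _, h1, h2, hz.2.1 s⟩
  · intro τ' hτ' hne
    rw [key]
    obtain ⟨s, hs⟩ : ∃ s, τ' s ≠ τ s := by
      by_contra hcon
      push Not at hcon
      exact hne (funext hcon)
    obtain ⟨h1, h2⟩ := hpair τ' hτ' s
    exact tr_pairs_zero _ _ (hgr' τ') _ _ _ _ h1 h2 (hz.2.2 s (τ' s) (hτ'.1 s) hs)

end Pool.Agent.Helper11.PW
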