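import Mathlib
import Pool.Agent.Helper11.PW.St.D7d

/-!
# PW-D8, D9: homologically trivial tautological classes are killed

Hints.  `lemmaV`: by `taut_van`, `Φs w = ∑ c τ • Φs (matchCls τ)`; `cl (Φs w) = 0` (`Φs_hom`); apply
the functional of `exists_ev` for each `τ` in the support: it does not see the operators
(`Φs` is the identity plus terms `E …` with first class ambient, by induction on the list), so
`c τ = 0`.
`lemmaM`: induction on the number of `t` with `σ t = (0, [(u, v)])` or on `Nat.card N`.  If all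
`σ t` are of the first kind: `lemmaV`.  Otherwise let `s` be of the second kind, `l ~ l' ++ [s]`;
`Φ C B s (0, [(u, v)]) w = p_s^* u · q_s^* w'` with `w' = push (forget B s) (p_s^* v · w)`, which is
homologically trivial and in `Taut (del X s) (e + 2 i - d)`; `l' = l''.map Subtype.val` with `l''` a
list of `Del N s`; `Φs_at_mul`, `Φs_pull`.
-/

universe u v w

open CategoryTheory AlgebraicGeometry Limits

namespace Pool.Agent.Helper11.PW

open Pool.Agent.Helper10 Pool.Agent.Helper10.SmProjVar Pool.Agent.Helper47.Chow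
open Pool.Agent.Helper47.Desc

variable {k : Type u} [Field k] {K : Type v} [Field K] [CharZero K]
  {W : WeilCohomology.{u, v, w} k K} {C : ChowTheory W} {X : SmProjVar k} {N : Type}
  {𝒜 : ℕ → Submodule ℚ (CH X)}

lemma tr_cl_list_sum [Finite N] (B : Pow X N) (t : N) (Z : W.H B.var)
    (hZ : ∀ (s : N) (u v : CH X) (w : CH B.var) (i : ℕ), u ∈ 𝒜 i →
        W.tr B.var (C.cl _ (E C B s u v w) * Z) = 0)
    (σ : List (CH X × CH X)) (hσ : ∀ p ∈ σ, ∃ i, p.1 ∈ 𝒜 i) (y : CH B.var) :
    W.tr B.var (C.cl _ (((σ.map fun p => (-p.1, p.2)).map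
      fun p => E C B t p.1 p.2).sum y) * Z) = 0 := by
  induction σ with
  | nil =>
    simp only [List.map_nil, List.sum_nil, LinearMap.zero_apply, map_zero, zero_mul]
    exact ChowTheory.tr_zero _
  | cons p σ ih =>
    have h1 := ih fun q hq => hσ q (List.mem_cons_of_mem _ hq)
    obtain ⟨i, hi⟩ := hσ p List.mem_cons_self
    have h2 := hZ t (-p.1) p.2 y i ((𝒜 i).neg_mem hi)
    simp only [List.map_cons, List.sum_cons, LinearMap.add_apply, map_add, add_mul]
    rw [(W.trace B.var).map_add, h2, h1, add_zero]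

lemma tr_cl_Phi_van [Finite N] (B : Pow X N) (t : N) (Z : W.H B.var)
    (hZ : ∀ (s : N) (u v : CH X) (w : CH B.var) (i : ℕ), u ∈ 𝒜 i →
        W.tr B.var (C.cl _ (E C B s u v w) * Z) = 0)
    (σ : List (CH X × CH X)) (hσ : Complete C 𝒜 σ) (y : CH B.var) :
    W.tr B.var (C.cl _ (Φ C B t (vanSym σ) y) * Z) = W.tr B.var (C.cl _ y * Z) := by
  have h1 := tr_cl_list_sum B t Z hZ σ (fun p hp => by
    obtain ⟨i, j, -, h, -⟩ := hσ.1 p hp
    exact ⟨i, h⟩) y
  have h2 : Φ C B t (vanSym σ) y = y + ((σ.map fun p => (-p.1, p.2)).map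
      fun p => E C B t p.1 p.2).sum y := by
    simp only [Φ, vanSym, LinearMap.add_apply, LinearMap.smul_apply, LinearMap.id_apply, one_smul]
  rw [h2, map_add, add_mul, (W.trace B.var).map_add, h1, add_zero]

lemma tr_cl_Phis_van [Finite N] (B : Pow X N) (Z : W.H B.var)
    (hZ : ∀ (s : N) (u v : CH X) (w : CH B.var) (i : ℕ), u ∈ 𝒜 i →
        W.tr B.var (C.cl _ (E C B s u v w) * Z) = 0)
    (σ : N → List (CH X × CH X)) (hσ : ∀ t, Complete C 𝒜 (σ t)) (l : List N) (y : CH B.var) :
    W.tr B.var (C.cl _ (Φs C B (fun t => vanSym (σ t)) l y) * Z) =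
      W.tr B.var (C.cl _ y * Z) := by
  induction l with
  | nil => rfl
  | cons t l ih =>
    have h : Φs C B (fun t => vanSym (σ t)) (t :: l) y =
        Φ C B t (vanSym (σ t)) (Φs C B (fun t => vanSym (σ t)) l y) := rfl
    rw [h, tr_cl_Phi_van B t Z hZ (σ t) (hσ t), ih]

/-- **PW-D8.** -/
theorem lemmaV (h𝒜 : IsAmb C 𝒜) (hd : 0 < X.dim) [Finite N] (B : Pow X N)
    (hF : HasFrames C 𝒜 N) {σ : N → List (CH X × CH X)} (hσ : ∀ t, Complete C 𝒜 (σ t)) {e : ℤ}
    (he : e ≤ 0) {w : CH B.var} (hw : w ∈ Taut C 𝒜 B e) (h0 : C.cl _ w = 0) {l : List N}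
    (hl : l.Nodup) (hl' : ∀ t, t ∈ l) : Φs C B (fun t => vanSym (σ t)) l w = 0 := by
  obtain ⟨c, hc, heq⟩ := taut_van h𝒜 hd B hσ he hw hl hl'
  have hcl := Φs_hom C B (fun t => vanSym (σ t)) l w h0
  rw [heq] at hcl
  have hz : c = 0 := by
    ext τ
    by_contra hne
    have hτs : τ ∈ c.support := Finsupp.mem_support_iff.2 hne
    have hτ := hc τ hτs
    obtain ⟨z, hz⟩ := hF τ hτ.1 hτ.2
    obtain ⟨Z, h1, h2, h3⟩ := exists_ev B hτ hz
    have h4 := tr_cl_Phis_van B Z h1 σ hσ l (c.sum fun τ q => q • matchCls C B τ)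
    rw [hcl, zero_mul, ChowTheory.tr_zero] at h4
    have h5 : W.tr B.var (C.cl _ (c.sum fun τ q => q • matchCls C B τ) * Z) =
        ((c τ : ℚ) : K) * W.tr B.var (C.cl _ (matchCls C B τ) * Z) := by
      have hsum : ∀ (s : Finset (N → N)) (f : (N → N) → W.H B.var),
          W.tr B.var ((∑ i ∈ s, f i) * Z) = ∑ i ∈ s, W.tr B.var (f i * Z) := by
        intro s f
        classical
        induction s using Finset.induction_on with
        | empty => rw [Finset.sum_empty, Finset.sum_empty, zero_mul, ChowTheory.tr_zero]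
        | insert a s ha ih =>
          rw [Finset.sum_insert ha, Finset.sum_insert ha, add_mul, (W.trace B.var).map_add, ih]
      rw [Finsupp.sum, map_sum, hsum, Finset.sum_eq_single τ]
      · rw [Pool.Agent.Helper47.Chow.cl_smul, smul_mul_assoc, (W.trace B.var).map_smul]
      · intro τ' hτ' hn
        rw [Pool.Agent.Helper47.Chow.cl_smul, smul_mul_assoc, (W.trace B.var).map_smul,
          h3 τ' (hc τ' hτ') hn, mul_zero]
      · intro h
        exact absurd hτs h
    rw [h5] at h4
    rcases mul_eq_zero.1 h4.symm with h | h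
    · exact hne (by exact_mod_cast h)
    · exact h2 h
  rw [heq, hz]
  simp

end Pool.Agent.Helper11.PW
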