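import Mathlib
import Pool.Agent.Helper11.PW.St.D8

/-!
# PW-D8, D9: homologically trivial tautological classes are killed

Hints.  `lemmaV`: by `taut_van`, `Φs w = ∑ c τ • Φs (matchCls τ)`; `cl (Φs w) = 0` (`Φs_hom`); apply
the functional of `exists_ev` for each `τ` in the support: it does not see the operators
(`Φs` is the identity plus terms `E …` with first class ambient, by induction on the list), so
`c τ = 0`.
`lemmaM`: induction on the number of `t` with `σ t = (0, [(u, v)])` or on `Nat.card N`.  If all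
`σ t` are of the first kind: `lemmaV`.  Otherwise let `s` be of the second kind, `l ~ l' ++ [s]`;
`Φ C B s (0, [(u, v)]) w = p_s^* u · q_s^* w'` with `w' = push (forget B s) (p_s^* v · w)`, which is
homologically trivial and in `Taut (del X s) (e + 2 i - d)`; `l' = l''.map Subtype.val` with `l''` a
list of `Del N s`; `Φs_at_mul`, `Φs_pull`.
-/

universe u v w

open CategoryTheory AlgebraicGeometry Limits

namespace Pool.Agent.Helper11.PW

open Pool.Agent.Helper10 Pool.Agent.Helper10.SmProjVar Pool.Agent.Helper47.Chow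
open Pool.Agent.Helper47.Desc

variable {k : Type u} [Field k] {K : Type v} [Field K] [CharZero K]
  {W : WeilCohomology.{u, v, w} k K} {C : ChowTheory W} {X : SmProjVar k} {N : Type}
  {𝒜 : ℕ → Submodule ℚ (CH X)}

/-- The push-forward of a homologically trivial class along `forget` is homologically trivial. -/
theorem lemmaM.cl_zero [Finite N] (B : Pow X N) (s : N) (v : CH X) {w : CH B.var}
    (h0 : C.cl _ w = 0) :
    C.cl _ (C.push (forget B s) (C.mul B.var (at' C B s v) w)) = 0 := by
  refine C.cl_eq_zero_of_tr _ fun y => ?_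
  rw [C.cl_push, C.cl_mul, h0, mul_zero, zero_mul, ChowTheory.tr_zero]

/-- The induction on the number of elements. -/
theorem lemmaM.aux (h𝒜 : IsAmb C 𝒜) (hd : 0 < X.dim) {n : ℕ}
    (hF : ∀ (N : Type) [Finite N], Nat.card N ≤ n → HasFrames C 𝒜 N) (m : ℕ) :
    ∀ (N : Type) [Fintype N], Nat.card N ≤ n → Nat.card N = m → ∀ (B : Pow X N) (σ : N → Sym X)
      (c : N → ℤ),
      (∀ t, (c t = 0 ∧ ∃ τ, Complete C 𝒜 τ ∧ σ t = vanSym τ) ∨
        ∃ (u v : CH X) (i : ℕ), v ∈ 𝒜 i ∧ σ t = (0, [(u, v)]) ∧ c t = 2 * i - X.dim) →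
      ∀ {e : ℤ}, e + ∑ t, c t ≤ 0 → ∀ {w : CH B.var}, w ∈ Taut C 𝒜 B e → C.cl _ w = 0 →
        ∀ {l : List N}, l.Nodup → (∀ t, t ∈ l) → Φs C B σ l w = 0 := by
  induction m with
  | zero =>
    intro N _ hN hm B σ c hσ e he w hw h0 l hl hl'
    by_cases hall : ∀ t, c t = 0 ∧ ∃ τ, Complete C 𝒜 τ ∧ σ t = vanSym τ
    · choose hc τ hτ hστ using hall
      have h1 : σ = fun t => vanSym (τ t) := funext hστ
      have h2 : e ≤ 0 := by
        simpa [hc] using he
      rw [h1]
      exact lemmaV h𝒜 hd B (hF N hN) hτ h2 hw h0 hl hl'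
    · push Not at hall
      obtain ⟨s, -⟩ := hall
      have : Nat.card N ≠ 0 := by
        have : Nonempty N := ⟨s⟩
        rw [Nat.card_eq_fintype_card]
        exact Fintype.card_ne_zero
      exact absurd hm this
  | succ m ih =>
    intro N _ hN hm B σ c hσ e he w hw h0 l hl hl'
    classical
    by_cases hall : ∀ t, c t = 0 ∧ ∃ τ, Complete C 𝒜 τ ∧ σ t = vanSym τ
    · choose hc τ hτ hστ using hall
      have h1 : σ = fun t => vanSym (τ t) := funext hστ
      have h2 : e ≤ 0 := by
        simpa [hc] using he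
      rw [h1]
      exact lemmaV h𝒜 hd B (hF N hN) hτ h2 hw h0 hl hl'
    · obtain ⟨s, hs⟩ := not_forall.1 hall
      obtain ⟨u, v, i, hv, hσs, hcs⟩ := (hσ s).resolve_left hs
      obtain ⟨l1, l2, rfl⟩ := List.append_of_mem (hl' s)
      have hnd : (s :: (l1 ++ l2)).Nodup := List.nodup_middle.1 hl
      have hsl : s ∉ l1 ++ l2 := (List.nodup_cons.1 hnd).1
      have hnd' : (l1 ++ l2).Nodup := (List.nodup_cons.1 hnd).2
      have hperm : (l1 ++ s :: l2).Perm ((l1 ++ l2) ++ [s]) :=
        List.perm_middle.trans (List.perm_append_singleton s (l1 ++ l2)).symm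
      have hmem : ∀ t, t ≠ s → t ∈ l1 ++ l2 := by
        intro t ht
        have := hl' t
        rw [List.mem_append, List.mem_cons] at this
        rw [List.mem_append]
        rcases this with h | h | h
        · exact Or.inl h
        · exact absurd h ht
        · exact Or.inr h
      rw [Φs_perm C B σ hperm hl, Φs_append]
      generalize hl0 : l1 ++ l2 = l0 at *
      have hsingle : Φs C B σ [s] w = C.mul B.var (at' C B s u)
          (C.pull (forget B s) (C.push (forget B s) (C.mul B.var (at' C B s v) w))) := by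
        change Φ C B s (σ s) w = _
        rw [hσs]
        simp [Φ, E]
      rw [hsingle, Φs_at_mul C B σ l0 hsl]
      have hne : ∀ t ∈ l0, t ≠ s := fun t ht h => hsl (h ▸ ht)
      obtain ⟨l'', hl''⟩ : ∃ l'' : List (Del N s), l''.map Subtype.val = l0 :=
        ⟨l0.attach.map fun t => ⟨t.1, hne t.1 t.2⟩, by
          rw [List.map_map]
          exact List.attach_map_subtype_val l0⟩
      have hpull := Φs_pull C B (del X s) (ι := (Subtype.val : Del N s → N))
        Subtype.val_injective σ l'' (C.push (forget B s) (C.mul B.var (at' C B s v) w))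
      rw [hl''] at hpull
      change C.mul B.var (at' C B s u) (Φs C B σ l0 (C.pull (B.map (del X s) Subtype.val)
        (C.push (forget B s) (C.mul B.var (at' C B s v) w)))) = 0
      rw [hpull]
      have hcard : Nat.card (Del N s) = m := by
        have h1 : Nat.card (Del N s) = Nat.card N - 1 := by
          rw [Nat.card_eq_fintype_card, Nat.card_eq_fintype_card]
          exact (Fintype.card_subtype_compl fun x => x = s).trans
            (by rw [Fintype.card_subtype_eq])
        rw [h1, hm, Nat.add_sub_cancel]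
      have hmain : Φs C (del X s) (fun t => σ t.val) l''
          (C.push (forget B s) (C.mul B.var (at' C B s v) w)) = 0 := by
        refine ih (Del N s) (by omega) hcard (del X s) (fun t => σ t.val) (fun t => c t.val)
          (fun t => hσ t.val) (e := e + 2 * i - X.dim) ?_ ?_ ?_ ?_ ?_
        · have hsum := Fintype.sum_eq_add_sum_subtype_ne c s
          rw [hsum, hcs] at he
          linarith
        · exact taut_push_forget h𝒜 B s (taut_at_mul B s hv hw)
        · exact lemmaM.cl_zero B s v h0
        · exact List.Nodup.of_map Subtype.val (by rw [hl'']; exact hnd')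
        · intro t
          have h1 : t.val ∈ l''.map Subtype.val := by
            rw [hl'']
            exact hmem t.val t.2
          obtain ⟨t', ht', h2⟩ := List.mem_map.1 h1
          rwa [Subtype.ext h2] at ht'
      rw [hmain, map_zero, map_zero]

/-- **PW-D9.** -/
theorem lemmaM (h𝒜 : IsAmb C 𝒜) (hd : 0 < X.dim) {n : ℕ}
    (hF : ∀ (N : Type) [Finite N], Nat.card N ≤ n → HasFrames C 𝒜 N) [Fintype N]
    (hN : Nat.card N ≤ n) (B : Pow X N) (σ : N → Sym X) (c : N → ℤ)
    (hσ : ∀ t, (c t = 0 ∧ ∃ τ, Complete C 𝒜 τ ∧ σ t = vanSym τ) ∨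
      ∃ (u v : CH X) (i : ℕ), v ∈ 𝒜 i ∧ σ t = (0, [(u, v)]) ∧ c t = 2 * i - X.dim) {e : ℤ}
    (he : e + ∑ t, c t ≤ 0) {w : CH B.var} (hw : w ∈ Taut C 𝒜 B e) (h0 : C.cl _ w = 0)
    {l : List N} (hl : l.Nodup) (hl' : ∀ t, t ∈ l) : Φs C B σ l w = 0 :=
  lemmaM.aux h𝒜 hd hF _ N hN rfl B σ c hσ he hw h0 hl hl'

end Pool.Agent.Helper11.PW
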