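import Mathlib
import Pool.Agent.Helper11.PW.St.D9
import Pool.Agent.Helper11.PW.St.D10
import Pool.Agent.Helper11.PW.St.D11
import Pool.Agent.Helper11.PW.St.D11b
import Pool.Agent.Helper47.Desc.Nil

/-!
# PW-D11: nilpotence of the homologically trivial invariants of a power

Hints.  `pigeonhole_nil`: insert `1 = ∑ e χ` before, between and after the factors of the product of
a list of `card κ` elements of `J`; in each term two of the `card κ + 1` indices coincide and the
part between them lies in `J`.  (One may prove by induction: for a list `l` in `J` of length `m`,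
`l.prod` is in the span of the products `x * e χ₁ * … ` with distinct `χ`'s; or first reduce to the
statement that for every function `χ : Fin (m + 1) → κ` the product
`e (χ 0) * l 0 * e (χ 1) * l 1 * … * e (χ m)` is zero.)
`Φs_sum`: multilinearity: the sum over all colourings of the products of the operators is the product
of the sums, and `Φ none + ∑ Φ (some α) = id`.
`nilInv_pow`: `e χ = Φs (the symbols on inr t) Δ = Φs (the transposed symbols on inl t) Δ`,
`comp (comp (e χ) γ) (e χ) = Φs (inr) (Φs (inl) γ) = 0` by `lemmaM` for the list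
`l.map inr ++ l.map inl` with `c (inr t) = 2 j - d`, `c (inl t) = 2 i - d`, `i + j = d`.  `J` is the set
of the homologically trivial invariants, a two-sided ideal of the ring of the invariants, which
contains the `e χ` (`Φs_chow`, `sq_aut`, `chow_Δ`-type lemma: `Δ` is invariant).
-/

universe u v w

open CategoryTheory AlgebraicGeometry Limits

namespace Pool.Agent.Helper11.PW

open Pool.Agent.Helper10 Pool.Agent.Helper10.SmProjVar Pool.Agent.Helper47.Chow
open Pool.Agent.Helper47.Desc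

variable {k : Type u} [Field k] {K : Type v} [Field K] [CharZero K]
  {W : WeilCohomology.{u, v, w} k K} {C : ChowTheory W} {X : SmProjVar k} {T N : Type}
  {𝒜 : ℕ → Submodule ℚ (CH X)}

section D11cAux

/-- The symbols on the coordinates of `X^T × X^T` given by a colouring of `T`. -/
noncomputable def d11cSym (σ : List (CH X × CH X)) (χ : T → Option (Fin σ.length)) :
    T ⊕ T → Sym X
  | Sum.inl t => (colSym σ (χ t)).tr
  | Sum.inr t => colSym σ (χ t)

lemma d11c_neg_mem {i : ℕ} {a : CH X} (h : a ∈ CHi X i) : -a ∈ CHi X i :=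
  mem_CHiL.1 (neg_mem (mem_CHiL.2 h))

/-- The transposed complete family. -/
lemma d11c_complete {σ : List (CH X × CH X)} (hσ' : Complete C 𝒜 (σ.map Prod.swap)) :
    Complete C 𝒜 (σ.map fun p => (-p.2, -p.1)) := by
  refine ⟨?_, ?_⟩
  · intro p hp
    obtain ⟨q, hq, rfl⟩ := List.mem_map.1 hp
    obtain ⟨i, j, hij, h1, h2⟩ := hσ'.1 q.swap (List.mem_map.2 ⟨q, hq, rfl⟩)
    exact ⟨i, j, hij, neg_mem h1, neg_mem h2⟩
  · intro i hi a ha
    have h := hσ'.2 i hi a ha
    rw [List.map_map] at h ⊢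
    refine Eq.trans ?_ h
    congr 1
    apply List.map_congr_left
    intro p _
    change deg C X (C.mul X (-p.1) a) • (-p.2) = deg C X (C.mul X p.1 a) • p.2
    rw [map_neg, LinearMap.neg_apply, map_neg, neg_smul, smul_neg, neg_neg]

lemma d11c_tr_van (σ : List (CH X × CH X)) :
    (vanSym σ).tr = vanSym (σ.map fun p => (-p.2, -p.1)) := by
  unfold vanSym Sym.tr
  simp only [List.map_map]
  congr 1
  apply List.map_congr_left
  intro p _
  simp

/-- The classes occurring in the symbols. -/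
lemma d11c_mem_sym {σ : List (CH X × CH X)} (hσ : Complete C 𝒜 σ)
    (χ : T → Option (Fin σ.length)) (t : T ⊕ T) (p : CH X × CH X) (hp : p ∈ (d11cSym σ χ t).2) :
    ∃ i j, i + j = X.dim ∧ p.1 ∈ 𝒜 i ∧ p.2 ∈ 𝒜 j := by
  have hcol : ∀ c : Option (Fin σ.length), ∀ p ∈ (colSym σ c).2,
      ∃ i j, i + j = X.dim ∧ p.1 ∈ 𝒜 i ∧ p.2 ∈ 𝒜 j := by
    rintro (_ | α) p hp
    · change p ∈ σ.map (fun p => (-p.1, p.2)) at hp
      obtain ⟨q, hq, rfl⟩ := List.mem_map.1 hp
      obtain ⟨i, j, hij, h1, h2⟩ := hσ.1 q hq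
      exact ⟨i, j, hij, neg_mem h1, h2⟩
    · change p ∈ [σ.get α] at hp
      rw [List.mem_singleton] at hp
      rw [hp]
      exact hσ.1 _ (List.get_mem _ _)
  rcases t with t | t
  · change p ∈ (colSym σ (χ t)).2.map (fun p => (p.2, p.1)) at hp
    obtain ⟨q, hq, rfl⟩ := List.mem_map.1 hp
    obtain ⟨i, j, hij, h1, h2⟩ := hcol _ q hq
    exact ⟨j, i, by omega, h2, h1⟩
  · exact hcol _ p hp

/-- The operators with the symbols of a colouring kill the homologically trivial tautological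
classes. -/
lemma d11c_kill (h𝒜 : IsAmb C 𝒜) (hd : 0 < X.dim) {n : ℕ}
    (hF : ∀ (N : Type) [Finite N], Nat.card N ≤ 2 * n → HasFrames C 𝒜 N)
    {σ : List (CH X × CH X)} (hσ : Complete C 𝒜 σ) (hσ' : Complete C 𝒜 (σ.map Prod.swap))
    [Fintype T] (hT : Nat.card T ≤ n) (B : Pow X (T ⊕ T)) (χ : T → Option (Fin σ.length))
    {w : CH B.var} (hw : w ∈ Taut C 𝒜 B 0) (h0 : C.cl _ w = 0) {l : List (T ⊕ T)} (hl : l.Nodup)
    (hl' : ∀ t, t ∈ l) : Φs C B (d11cSym σ χ) l w = 0 := by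
  have hex : ∀ α : Fin σ.length, ∃ i j, i + j = X.dim ∧ (σ.get α).1 ∈ 𝒜 i ∧
      (σ.get α).2 ∈ 𝒜 j := fun α => hσ.1 _ (List.get_mem _ _)
  choose I J hIJ hI hJ using hex
  let cI : Option (Fin σ.length) → ℤ := fun c => c.elim 0 fun α => 2 * (I α : ℤ) - X.dim
  let cJ : Option (Fin σ.length) → ℤ := fun c => c.elim 0 fun α => 2 * (J α : ℤ) - X.dim
  have hcIJ : ∀ c, cI c + cJ c = 0 := by
    rintro (_ | α)
    · rfl
    · change 2 * (I α : ℤ) - X.dim + (2 * (J α : ℤ) - X.dim) = 0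
      have h1 : (I α : ℤ) + J α = X.dim := by exact_mod_cast hIJ α
      linarith
  refine lemmaM h𝒜 hd hF (N := T ⊕ T) ?_ B (d11cSym σ χ)
    (Sum.elim (fun t => cI (χ t)) fun t => cJ (χ t)) ?_ (e := 0) ?_ hw h0 hl hl'
  · rw [Nat.card_sum]
    omega
  · rintro (t | t)
    · change (cI (χ t) = 0 ∧ ∃ τ, Complete C 𝒜 τ ∧ (colSym σ (χ t)).tr = vanSym τ) ∨
        ∃ (u v : CH X) (i : ℕ), v ∈ 𝒜 i ∧ (colSym σ (χ t)).tr = (0, [(u, v)]) ∧
          cI (χ t) = 2 * i - X.dim
      generalize χ t = c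
      rcases c with _ | α
      · exact Or.inl ⟨rfl, _, d11c_complete hσ', d11c_tr_van σ⟩
      · exact Or.inr ⟨(σ.get α).2, (σ.get α).1, I α, hI α, rfl, rfl⟩
    · change (cJ (χ t) = 0 ∧ ∃ τ, Complete C 𝒜 τ ∧ colSym σ (χ t) = vanSym τ) ∨
        ∃ (u v : CH X) (i : ℕ), v ∈ 𝒜 i ∧ colSym σ (χ t) = (0, [(u, v)]) ∧
          cJ (χ t) = 2 * i - X.dim
      generalize χ t = c
      rcases c with _ | α
      · exact Or.inl ⟨rfl, _, hσ, rfl⟩
      · exact Or.inr ⟨(σ.get α).1, (σ.get α).2, J α, hJ α, rfl, rfl⟩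
  · rw [Fintype.sum_sum_type]
    simp only [Sum.elim_inl, Sum.elim_inr]
    rw [← Finset.sum_add_distrib, Finset.sum_eq_zero fun t _ => hcIJ (χ t)]
    simp

lemma d11c_lift {Y : SmProjVar k} (P : CH (Y.prod Y) → Prop) (hP : ∀ γ, P γ → γ ∈ CHi (Y.prod Y) Y.dim)
    (l : List (CH (Y.prod Y))) (hl : ∀ γ ∈ l, P γ) :
    ∃ l' : List (Corr C Y), l'.map Corr.val = l ∧ ∀ x ∈ l', P x.val := by
  induction l with
  | nil => exact ⟨[], rfl, by simp⟩
  | cons γ l ih =>
    obtain ⟨l', h1, h2⟩ := ih fun x hx => hl x (List.mem_cons_of_mem _ hx)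
    have hγ := hl γ List.mem_cons_self
    refine ⟨⟨γ, hP γ hγ⟩ :: l', ?_, ?_⟩
    · rw [List.map_cons, h1]
      rfl
    · intro x hx
      rcases List.mem_cons.1 hx with rfl | hx
      · exact hγ
      · exact h2 x hx

/-- The ring of the invariant correspondences. -/
noncomputable def d11cInv (hC : IsEquivariant C) (Y : SmProjVar k) (Γ : Subgroup (SemiAut Y)) :
    Subring (Corr C Y) where
  carrier := {x | ∀ g ∈ Γ, corrRho hC Y g x = x}
  mul_mem' := by
    intro a b ha hb g hg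
    rw [map_mul, ha g hg, hb g hg]
  one_mem' := fun g _ => map_one _
  add_mem' := by
    intro a b ha hb g hg
    rw [map_add, ha g hg, hb g hg]
  zero_mem' := fun g _ => map_zero _
  neg_mem' := by
    intro a ha g hg
    rw [map_neg, ha g hg]

end D11cAux

/-- **PW-D11c.** -/
theorem nilInv_pow (hC : IsEquivariant C) (h𝒜 : IsAmb C 𝒜) (hd : 0 < X.dim) {n : ℕ}
    (hF : ∀ (N : Type) [Finite N], Nat.card N ≤ 2 * n → HasFrames C 𝒜 N)
    {σ : List (CH X × CH X)} (hσ : Complete C 𝒜 σ) (hσ' : Complete C 𝒜 (σ.map Prod.swap))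
    [Fintype T] (hT : Nat.card T ≤ n) (A : Pow X T) (G : Subgroup (SemiAut X))
    (hG : ∀ g ∈ G, ∀ i, ∀ a ∈ 𝒜 i, g.chow a = a)
    (hinv : ∀ γ ∈ CHi (A.prod A).var A.var.dim, (∀ g ∈ G, ((A.prod A).aut g).chow γ = γ) →
      γ ∈ Taut C 𝒜 (A.prod A) 0) :
    NilInv C A.var (G.map A.autHom) := by
  classical
  let l : List T := (Finset.univ : Finset T).toList
  have hl : l.Nodup := Finset.nodup_toList _
  have hl' : ∀ t, t ∈ l := fun t => Finset.mem_toList.2 (Finset.mem_univ t)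
  let S : Subring (Corr C A.var) := d11cInv hC A.var (G.map A.autHom)
  have hS : ∀ x : Corr C A.var, x ∈ S ↔ ∀ g ∈ G, ((A.prod A).aut g).chow x.val = x.val := by
    intro x
    constructor
    · intro h g hg
      have h1 := congrArg Corr.val (h (A.aut g) ⟨g, hg, rfl⟩)
      rw [← sq_aut A g]
      exact h1
    · rintro h _ ⟨g, hg, rfl⟩
      apply Corr.ext
      have h1 := h g hg
      rw [← sq_aut A g] at h1
      exact h1
  let e : (T → Option (Fin σ.length)) → Corr C A.var := fun χ =>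
    ⟨Φs C (A.prod A) (d11cSym σ χ) (l.map Sum.inr) (C.Δ A.var), by
      refine mem_CHiL.2 (Φs_mem C (A.prod A) (d11cSym σ χ) ?_ (l.map Sum.inr) (c := A.var.dim)
        (C.Δ A.var) (Δ_mem C A.var))
      intro t p hp
      obtain ⟨i, j, hij, h1, h2⟩ := d11c_mem_sym hσ χ t p hp
      exact ⟨i, j, hij, h𝒜.mem i _ h1, h𝒜.mem j _ h2⟩⟩
  have he1 : ∀ χ, (e χ).val = Φs C (A.prod A) (d11cSym σ χ) (l.map Sum.inr) (C.Δ A.var) :=
    fun χ => rfl
  have he2 : ∀ χ, (e χ).val = Φs C (A.prod A) (d11cSym σ χ) (l.map Sum.inl) (C.Δ A.var) :=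
    fun χ => (he1 χ).trans (Φs_Δ C A (d11cSym σ χ) (fun t => rfl) hl)
  refine ⟨Fintype.card (T → Option (Fin σ.length)), fun L hL hx => ?_⟩
  obtain ⟨L', rfl, hL'⟩ := d11c_lift (C := C) (IsInvHom C A.var (G.map A.autHom))
    (fun γ h => h.1) L hx
  rw [← list_prod_val]
  have key := pigeonhole_nil S {x | x ∈ S ∧ x ∈ homIdeal C A.var} (fun x hx => hx.1)
    (fun s hs x hx => ⟨S.mul_mem hs hx.1, (homIdeal C A.var).mul_mem_left s hx.2⟩)
    (fun s hs x hx => ⟨S.mul_mem hx.1 hs, (homIdeal C A.var).mul_mem_right s hx.2⟩)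
    e ?_ ?_ ?_ L' (by rw [← hL, List.length_map]) ?_
  · rw [key]
    rfl
  · intro χ
    rw [hS]
    intro g hg
    rw [he1]
    have h1 := Φs_chow hC (A.prod A) (d11cSym σ χ) g (fun t p hp => by
      obtain ⟨i, j, hij, h1, h2⟩ := d11c_mem_sym hσ χ t p hp
      exact ⟨hG g hg i _ h1, hG g hg j _ h2⟩) (l.map Sum.inr) (C.Δ A.var)
    have h2 : ((A.prod A).aut g).chow (C.Δ A.var) = C.Δ A.var :=
      (hS 1).1 S.one_mem g hg
    rw [h2] at h1
    exact h1
  · apply Corr.ext
    rw [Corr.sum_val]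
    exact Φs_sum (C := C) (A.prod A) σ (ι := Sum.inr) Sum.inr_injective hl (C.Δ A.var)
      (fun χ => d11cSym σ χ) (fun χ t => rfl) hl'
  · intro χ x hx
    apply Corr.ext
    rw [Corr.mul_val, Corr.mul_val, Corr.zero_val]
    have h1 : C.comp x.val (e χ).val =
        Φs C (A.prod A) (d11cSym σ χ) (l.map Sum.inr) x.val := by
      rw [he1 χ, comp_Φs_right, C.comp_Δ]
    have h2 : C.comp (e χ).val (C.comp x.val (e χ).val) =
        Φs C (A.prod A) (d11cSym σ χ) (l.map Sum.inl ++ l.map Sum.inr) x.val := by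
      rw [Φs_append, h1, he2 χ, comp_Φs_left, C.Δ_comp]
    rw [h2]
    refine d11c_kill h𝒜 hd hF hσ hσ' hT (A.prod A) χ ?_ hx.2 ?_ ?_
    · exact hinv x.val x.2 ((hS x).1 hx.1)
    · refine List.Nodup.append (hl.map Sum.inl_injective) (hl.map Sum.inr_injective) ?_
      intro a ha hb
      obtain ⟨t, -, rfl⟩ := List.mem_map.1 ha
      obtain ⟨s, -, h⟩ := List.mem_map.1 hb
      cases h
    · rintro (t | t)
      · exact List.mem_append_left _ (List.mem_map.2 ⟨t, hl' t, rfl⟩)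
      · exact List.mem_append_right _ (List.mem_map.2 ⟨t, hl' t, rfl⟩)
  · intro x hx
    obtain ⟨h1, h2, h3⟩ := hL' x hx
    refine ⟨?_, h2⟩
    intro g hg
    apply Corr.ext
    exact h3 g hg

end Pool.Agent.Helper11.PW
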