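import Mathlib
import Pool.Agent.Helper11.PW.Defs

/-!
# PW-D12: dual bases, frames

Hints.  `exists_complete`: for `2 i ≤ d` choose a basis `u` of `𝒜 i` and dual elements
`v ∈ 𝒜 (d - i)`, `deg (u_α v_β) = δ`: the map `𝒜 (d - i) → Dual (𝒜 i)` is surjective since the
pairing is non-degenerate on the side of the finite-dimensional space `𝒜 i`.  The list consists of
the pairs `(u, v)` for `2 i ≤ d` and the pairs `(v, u)` for `2 i < d`.  If `2 i = d` the `v` form a
basis of `𝒜 i` as well.
`hasFrames_of`: choose for a matching of `N` with `2 m ≤ 2 n` elements an enumeration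
`(s_i, τ s_i)`, `i < m`, of its pairs.
-/

universe u v w

open CategoryTheory AlgebraicGeometry Limits

namespace Pool.Agent.Helper11.PW

open Pool.Agent.Helper10 Pool.Agent.Helper10.SmProjVar Pool.Agent.Helper47.Chow
open Pool.Agent.Helper47.Desc

variable {k : Type u} [Field k] {K : Type v} [Field K] [CharZero K]
  {W : WeilCohomology.{u, v, w} k K} {C : ChowTheory W} {X : SmProjVar k}
  {𝒜 : ℕ → Submodule ℚ (CH X)}

theorem D12.sum_flatMap {M : Type*} [AddCommMonoid M] {α : Type*} (L : ℕ → List α)
    (f : α → M) (n : ℕ) :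
    (((List.range n).flatMap L).map f).sum = ∑ i ∈ Finset.range n, ((L i).map f).sum := by
  induction n with
  | zero => simp
  | succ n ih =>
    rw [List.range_succ, List.flatMap_append, List.map_append, List.sum_append, ih,
      Finset.sum_range_succ]
    simp

theorem D12.sum_zero {M : Type*} [AddCommMonoid M] {α : Type*} {l : List α} {f : α → M}
    (h : ∀ p ∈ l, f p = 0) : (l.map f).sum = 0 := by
  induction l with
  | nil => simp
  | cons a l ih =>
    rw [List.map_cons, List.sum_cons, h a (List.mem_cons_self), zero_add]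
    exact ih fun p hp => h p (List.mem_cons_of_mem _ hp)

theorem D12.exists_list
    (hfin : ∀ i, 2 * i ≤ X.dim → Module.Finite ℚ (𝒜 i))
    (hc : ∀ i j, i + j = X.dim → 2 * i ≤ X.dim → ∀ a ∈ 𝒜 i,
      (∀ b ∈ 𝒜 j, deg C X (C.mul X a b) = 0) → a = 0) (i : ℕ) (hi : 2 * i ≤ X.dim) :
    ∃ l : List (CH X × CH X), (∀ p ∈ l, p.1 ∈ 𝒜 i ∧ p.2 ∈ 𝒜 (X.dim - i)) ∧
      ∀ a ∈ 𝒜 i, (l.map fun p => deg C X (C.mul X p.2 a) • p.1).sum = a := by
  have := hfin i hi
  let B : 𝒜 i →ₗ[ℚ] 𝒜 (X.dim - i) →ₗ[ℚ] ℚ :=
    LinearMap.mk₂ ℚ (fun a b => deg C X (C.mul X (b : CH X) (a : CH X)))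
      (fun a a' b => by simp) (fun c a b => by simp) (fun a b b' => by simp)
      (fun c a b => by simp)
  have hB : ∀ a b, B a b = deg C X (C.mul X (b : CH X) (a : CH X)) := fun a b => rfl
  have hinj : Function.Injective B := by
    rw [injective_iff_map_eq_zero]
    intro a ha
    have h1 := hc i (X.dim - i) (by omega) hi a a.2 (fun b hb => by
      have h2 := LinearMap.congr_fun ha ⟨b, hb⟩
      rw [hB] at h2
      rw [C.mul_comm]
      exact h2)
    exact Subtype.ext h1
  have hsurj : Function.Surjective B.flip := LinearMap.flip_surjective_iff₁.2 hinj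
  let u := Module.finBasis ℚ (𝒜 i)
  choose v hv using fun α => hsurj (u.coord α)
  refine ⟨List.ofFn (fun α => ((u α : CH X), (v α : CH X))), ?_, ?_⟩
  · intro p hp
    rw [List.mem_ofFn] at hp
    obtain ⟨α, rfl⟩ := hp
    exact ⟨(u α).2, (v α).2⟩
  · intro a ha
    rw [List.map_ofFn, List.sum_ofFn]
    have h1 : ∀ α, deg C X (C.mul X (v α : CH X) a) = u.repr ⟨a, ha⟩ α := by
      intro α
      have h2 := LinearMap.congr_fun (hv α) ⟨a, ha⟩
      rw [LinearMap.flip_apply, hB, Module.Basis.coord_apply] at h2
      exact h2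
    have h3 := congrArg (Subtype.val) (u.sum_repr ⟨a, ha⟩)
    rw [Submodule.coe_sum] at h3
    refine Eq.trans ?_ h3
    refine Finset.sum_congr rfl fun α _ => ?_
    simp only [Function.comp_apply, h1]
    rfl

/-- **PW-D12a.** -/
theorem exists_complete (h𝒜 : IsAmb C 𝒜)
    (hfin : ∀ i, 2 * i ≤ X.dim → Module.Finite ℚ (𝒜 i))
    (hc : ∀ i j, i + j = X.dim → 2 * i ≤ X.dim → ∀ a ∈ 𝒜 i,
      (∀ b ∈ 𝒜 j, deg C X (C.mul X a b) = 0) → a = 0) :
    ∃ σ : List (CH X × CH X), Complete C 𝒜 σ ∧ Complete C 𝒜 (σ.map Prod.swap) := by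
  classical
  have hex := fun i (hi : 2 * i ≤ X.dim) => D12.exists_list (C := C) hfin hc i hi
  choose! L hL1 hL2 using hex
  -- the middle degree
  have hmid : ∀ i, 2 * i = X.dim → ∀ a ∈ 𝒜 i,
      ((L i).map fun p => deg C X (C.mul X p.1 a) • p.2).sum = a := by
    intro i hi a ha
    have hdi : X.dim - i = i := by omega
    have hmem : ((L i).map fun p => deg C X (C.mul X p.1 a) • p.2).sum ∈ 𝒜 i := by
      refine list_sum_mem fun x hx => ?_
      rw [List.mem_map] at hx
      obtain ⟨p, hp, rfl⟩ := hx
      refine Submodule.smul_mem _ _ ?_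
      have := (hL1 i (by omega) p hp).2
      rwa [hdi] at this
    have h0 : a - ((L i).map fun p => deg C X (C.mul X p.1 a) • p.2).sum = 0 := by
      refine hc i i (by omega) (by omega) _ (Submodule.sub_mem _ ha hmem) fun b hb => ?_
      have hlin : ∀ l : List (CH X × CH X),
          deg C X (C.mul X (l.map fun p => deg C X (C.mul X p.1 a) • p.2).sum b) =
          deg C X (C.mul X a (l.map fun p => deg C X (C.mul X p.2 b) • p.1).sum) := by
        intro l
        induction l with
        | nil => simp
        | cons p l ih =>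
          rw [List.map_cons, List.map_cons, List.sum_cons, List.sum_cons, map_add,
            LinearMap.add_apply, map_add, ih, map_add, map_add, map_smul, LinearMap.smul_apply,
            map_smul, map_smul, map_smul, C.mul_comm X a p.1]
          simp only [smul_eq_mul]
          ring
      rw [map_sub, LinearMap.sub_apply, map_sub, hlin, hL2 i (by omega) b hb, sub_self]
    exact (sub_eq_zero.1 h0).symm
  let M : ℕ → List (CH X × CH X) := fun i =>
    (if 2 * i ≤ X.dim then L i else []) ++ (if 2 * i < X.dim then (L i).map Prod.swap else [])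
  have hz : ∀ i j, i + j ≠ X.dim → ∀ a ∈ 𝒜 i, ∀ b ∈ 𝒜 j, deg C X (C.mul X a b) = 0 := by
    intro i j hij a ha b hb
    exact deg_eq_zero C X hij (C.mul_mem X i j a b (h𝒜.mem i a ha) (h𝒜.mem j b hb))
  refine ⟨(List.range (X.dim + 1)).flatMap M, ⟨?_, ?_⟩, ⟨?_, ?_⟩⟩
  · intro p hp
    rw [List.mem_flatMap] at hp
    obtain ⟨i, -, hp⟩ := hp
    rw [List.mem_append] at hp
    rcases hp with hp | hp
    · split_ifs at hp with h
      · exact ⟨i, X.dim - i, by omega, (hL1 i h p hp).1, (hL1 i h p hp).2⟩
      · simp at hp
    · split_ifs at hp with h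
      · rw [List.mem_map] at hp
        obtain ⟨q, hq, rfl⟩ := hp
        exact ⟨X.dim - i, i, by omega, (hL1 i h.le q hq).2, (hL1 i h.le q hq).1⟩
      · simp at hp
  · intro i hi a ha
    rw [D12.sum_flatMap, Finset.sum_eq_single i]
    · rw [List.map_append, List.sum_append, if_pos hi, hL2 i hi a ha]
      split_ifs with h
      · rw [List.map_map, D12.sum_zero, add_zero]
        intro p hp
        have h1 := hL1 i h.le p hp
        simp only [Function.comp_apply, Prod.fst_swap, Prod.snd_swap]
        rw [hz i i (by omega) _ h1.1 _ ha, zero_smul]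
      · simp
    · intro i' _ hne
      rw [List.map_append, List.sum_append]
      have e1 : ((if 2 * i' ≤ X.dim then L i' else []).map
          fun p => deg C X (C.mul X p.2 a) • p.1).sum = 0 := by
        split_ifs with h
        · refine D12.sum_zero fun p hp => ?_
          rw [hz (X.dim - i') i (by omega) _ (hL1 i' h p hp).2 _ ha, zero_smul]
        · simp
      have e2 : ((if 2 * i' < X.dim then (L i').map Prod.swap else []).map
          fun p => deg C X (C.mul X p.2 a) • p.1).sum = 0 := by
        split_ifs with h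
        · rw [List.map_map]
          refine D12.sum_zero fun p hp => ?_
          simp only [Function.comp_apply, Prod.fst_swap, Prod.snd_swap]
          rw [hz i' i (by omega) _ (hL1 i' h.le p hp).1 _ ha, zero_smul]
        · simp
      rw [e1, e2, add_zero]
    · intro h
      exact absurd (Finset.mem_range.2 (by omega)) h
  · intro p hp
    rw [List.mem_map] at hp
    obtain ⟨p, hp, rfl⟩ := hp
    rw [List.mem_flatMap] at hp
    obtain ⟨i, -, hp⟩ := hp
    rw [List.mem_append] at hp
    rcases hp with hp | hp
    · split_ifs at hp with h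
      · exact ⟨X.dim - i, i, by omega, (hL1 i h p hp).2, (hL1 i h p hp).1⟩
      · simp at hp
    · split_ifs at hp with h
      · rw [List.mem_map] at hp
        obtain ⟨q, hq, rfl⟩ := hp
        exact ⟨i, X.dim - i, by omega, (hL1 i h.le q hq).1, (hL1 i h.le q hq).2⟩
      · simp at hp
  · intro i hi a ha
    rw [List.map_map, D12.sum_flatMap, Finset.sum_eq_single i]
    · rw [List.map_append, List.sum_append, if_pos hi]
      split_ifs with h
      · rw [D12.sum_zero, zero_add, List.map_map]
        · have h2 := hL2 i hi a ha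
          refine Eq.trans ?_ h2
          rfl
        · intro p hp
          simp only [Function.comp_apply, Prod.fst_swap, Prod.snd_swap]
          rw [hz i i (by omega) _ (hL1 i hi p hp).1 _ ha, zero_smul]
      · have h2 := hmid i (by omega) a ha
        rw [List.map_nil, List.sum_nil, add_zero]
        refine Eq.trans ?_ h2
        rfl
    · intro i' _ hne
      rw [List.map_append, List.sum_append]
      have e1 : ((if 2 * i' ≤ X.dim then L i' else []).map
          ((fun p => deg C X (C.mul X p.2 a) • p.1) ∘ Prod.swap)).sum = 0 := by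
        split_ifs with h
        · refine D12.sum_zero fun p hp => ?_
          simp only [Function.comp_apply, Prod.fst_swap, Prod.snd_swap]
          rw [hz i' i (by omega) _ (hL1 i' h p hp).1 _ ha, zero_smul]
        · simp
      have e2 : ((if 2 * i' < X.dim then (L i').map Prod.swap else []).map
          ((fun p => deg C X (C.mul X p.2 a) • p.1) ∘ Prod.swap)).sum = 0 := by
        split_ifs with h
        · rw [List.map_map]
          refine D12.sum_zero fun p hp => ?_
          simp only [Function.comp_apply, Prod.fst_swap, Prod.snd_swap]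
          rw [hz (X.dim - i') i (by omega) _ (hL1 i' h.le p hp).2 _ ha, zero_smul]
        · simp
      rw [e1, e2, add_zero]
    · intro h
      exact absurd (Finset.mem_range.2 (by omega)) h

end Pool.Agent.Helper11.PW
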