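import Mathlib
import Pool.Agent.Helper11.PW.Defs

/-!
# PW-D12: dual bases, frames

Hints.  `exists_complete`: for `2 i ≤ d` choose a basis `u` of `𝒜 i` and dual elements
`v ∈ 𝒜 (d - i)`, `deg (u_α v_β) = δ`: the map `𝒜 (d - i) → Dual (𝒜 i)` is surjective since the
pairing is non-degenerate on the side of the finite-dimensional space `𝒜 i`.  The list consists of
the pairs `(u, v)` for `2 i ≤ d` and the pairs `(v, u)` for `2 i < d`.  If `2 i = d` the `v` form a
basis of `𝒜 i` as well.
`hasFrames_of`: choose for a matching of `N` with `2 m ≤ 2 n` elements an enumeration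
`(s_i, τ s_i)`, `i < m`, of its pairs.
-/

universe u v w

open CategoryTheory AlgebraicGeometry Limits

namespace Pool.Agent.Helper11.PW

open Pool.Agent.Helper10 Pool.Agent.Helper10.SmProjVar Pool.Agent.Helper47.Chow
open Pool.Agent.Helper47.Desc

variable {k : Type u} [Field k] {K : Type v} [Field K] [CharZero K]
  {W : WeilCohomology.{u, v, w} k K} {C : ChowTheory W} {X : SmProjVar k}
  {𝒜 : ℕ → Submodule ℚ (CH X)}

/-- **PW-D12b.** -/
theorem hasFrames_of {n : ℕ} (x y : Fin n → W.H X) (hx : ∀ i, Vanishing C 𝒜 (x i))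
    (hy : ∀ i, Vanishing C 𝒜 (y i)) (hxy : ∀ i, W.tr X (x i * y i) ≠ 0)
    (h : ∀ i j, i ≠ j → W.tr X (x i * x j) = 0 ∧ W.tr X (x i * y j) = 0 ∧
      W.tr X (y i * x j) = 0 ∧ W.tr X (y i * y j) = 0)
    (N : Type) [Finite N] (hN : Nat.card N ≤ 2 * n) : HasFrames C 𝒜 N := by
  classical
  intro τ hτ hττ
  have : Fintype N := Fintype.ofFinite N
  obtain ⟨e⟩ := Fintype.truncEquivFin N
  -- representatives of the pairs
  set R : Finset N := Finset.univ.filter fun s => e s < e (τ s) with hR
  have hRmem : ∀ s, s ∈ R ↔ e s < e (τ s) := fun s => by simp [hR]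
  have hne : ∀ s, e s ≠ e (τ s) := fun s h => hτ s (e.injective h).symm
  have hRτ : ∀ s, τ s ∈ R ↔ s ∉ R := by
    intro s
    rw [hRmem, hRmem, hττ, not_lt]
    exact ⟨fun h => h.le, fun h => lt_of_le_of_ne h fun h' => hne s h'.symm⟩
  have hcard : 2 * R.card ≤ Nat.card N := by
    have h1 : (R.image τ).card = R.card :=
      Finset.card_image_of_injective _ fun a b hab => by rw [← hττ a, ← hττ b, hab]
    have h2 : Disjoint R (R.image τ) := by
      rw [Finset.disjoint_left]
      intro a ha hb
      obtain ⟨b, hb', rfl⟩ := Finset.mem_image.mp hb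
      exact (hRτ b).mp ha hb'
    have h3 : (R ∪ R.image τ).card ≤ Fintype.card N := Finset.card_le_univ _
    rw [Finset.card_union_of_disjoint h2, h1, ← Nat.card_eq_fintype_card] at h3
    omega
  have hRn : Fintype.card {s // s ∈ R} ≤ Fintype.card (Fin n) := by
    rw [Fintype.card_coe, Fintype.card_fin]
    omega
  obtain ⟨ι⟩ := Function.Embedding.nonempty_of_card_le hRn
  have hrep : ∀ s, (if s ∈ R then s else τ s) ∈ R := by
    intro s
    by_cases h : s ∈ R
    · rw [if_pos h]; exact h
    · rw [if_neg h]; exact (hRτ s).mpr h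
  let r : N → {s // s ∈ R} := fun s => ⟨if s ∈ R then s else τ s, hrep s⟩
  have hrτ : ∀ s, r (τ s) = r s := by
    intro s
    apply Subtype.ext
    by_cases h : s ∈ R
    · have h' : τ s ∉ R := fun h' => (hRτ s).mp h' h
      simp only [r, if_pos h, if_neg h', hττ]
    · have h' : τ s ∈ R := (hRτ s).mpr h
      simp only [r, if_neg h, if_pos h']
  have hrinj : ∀ s t, r s = r t → t = s ∨ t = τ s := by
    intro s t hst
    have h0 : (if s ∈ R then s else τ s) = (if t ∈ R then t else τ t) := congrArg Subtype.val hst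
    by_cases hs : s ∈ R
    · rw [if_pos hs] at h0
      by_cases ht : t ∈ R
      · rw [if_pos ht] at h0
        exact Or.inl h0.symm
      · rw [if_neg ht] at h0
        right
        rw [h0, hττ]
    · rw [if_neg hs] at h0
      by_cases ht : t ∈ R
      · rw [if_pos ht] at h0
        exact Or.inr h0.symm
      · rw [if_neg ht] at h0
        left
        rw [← hττ s, ← hττ t, h0]
  have hyx : ∀ i, W.tr X (y i * x i) ≠ 0 := by
    intro i h0
    apply hxy i
    rw [(W.graded X).comm _ _ _ _ (hx i).1 (hy i).1, (W.trace X).map_smul, h0, mul_zero]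
  refine ⟨fun s => if s ∈ R then x (ι (r s)) else y (ι (r s)), fun s => ?_, fun s => ?_,
    fun s t hts htτ => ?_⟩
  · by_cases hs : s ∈ R
    · simp only [if_pos hs]; exact hx _
    · simp only [if_neg hs]; exact hy _
  · by_cases hs : s ∈ R
    · have h' : τ s ∉ R := fun h' => (hRτ s).mp h' hs
      simp only [if_pos hs, if_neg h', hrτ s]; exact hxy _
    · have h' : τ s ∈ R := (hRτ s).mpr hs
      simp only [if_neg hs, if_pos h', hrτ s]; exact hyx _
  · have hij : ι (r s) ≠ ι (r t) := by
      intro h'
      rcases hrinj s t (ι.injective h') with h' | h'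
      · exact hts h'
      · exact htτ h'
    obtain ⟨h1, h2, h3, h4⟩ := h _ _ hij
    by_cases hs : s ∈ R
    · by_cases ht : t ∈ R
      · simp only [if_pos hs, if_pos ht]; exact h1
      · simp only [if_pos hs, if_neg ht]; exact h2
    · by_cases ht : t ∈ R
      · simp only [if_neg hs, if_pos ht]; exact h3
      · simp only [if_neg hs, if_neg ht]; exact h4

end Pool.Agent.Helper11.PW
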