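import Mathlib
import Pool.Agent.Helper11.PW.St.D11c

/-!
# PW-S2: the idempotents of a power

The proof of `nilInv_pow` (D11c) contains everything that is needed here: the classes
`e χ = Φs … (Δ)` are invariant, of the right codimension, have sum `Δ`, and `e χ ∘ u ∘ e χ = 0` for
every homologically trivial invariant class `u`.  Extract it.
-/

universe u v w

open CategoryTheory AlgebraicGeometry Limits

namespace Pool.Agent.Helper11.PW

open Pool.Agent.Helper10 Pool.Agent.Helper10.SmProjVar Pool.Agent.Helper47.Chow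
open Pool.Agent.Helper47.Desc

variable {k : Type u} [Field k] {K : Type v} [Field K] [CharZero K]
  {W : WeilCohomology.{u, v, w} k K} {C : ChowTheory W} {X : SmProjVar k} {T : Type}
  {𝒜 : ℕ → Submodule ℚ (CH X)}

/-- A finite family of invariant correspondences `e χ` with sum `Δ` such that `e χ ∘ u ∘ e χ = 0` for
all homologically trivial invariant correspondences `u`. -/
structure KillData (C : ChowTheory W) (P : SmProjVar k) (Γ : Subgroup (SemiAut P)) {κ : Type}
    [Fintype κ] (e : κ → CH (P.prod P)) : Prop where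
  mem : ∀ χ, e χ ∈ CHi (P.prod P) P.dim
  inv : ∀ χ, ∀ g ∈ Γ, (Helper47.Desc.sq g).chow (e χ) = e χ
  sum : ∑ χ, e χ = C.Δ P
  kill : ∀ χ, ∀ u, IsInvHom C P Γ u → C.comp (C.comp (e χ) u) (e χ) = 0

/-- **PW-S2.** -/
theorem exists_killData (hC : IsEquivariant C) (h𝒜 : IsAmb C 𝒜) (hd : 0 < X.dim) {n : ℕ}
    (hF : ∀ (N : Type) [Finite N], Nat.card N ≤ 2 * n → HasFrames C 𝒜 N)
    {σ : List (CH X × CH X)} (hσ : Complete C 𝒜 σ) (hσ' : Complete C 𝒜 (σ.map Prod.swap))
    [Fintype T] (hT : Nat.card T ≤ n) (A : Pow X T) (G : Subgroup (SemiAut X))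
    (hG : ∀ g ∈ G, ∀ i, ∀ a ∈ 𝒜 i, g.chow a = a)
    (hinv : ∀ γ ∈ CHi (A.prod A).var A.var.dim, (∀ g ∈ G, ((A.prod A).aut g).chow γ = γ) →
      γ ∈ Taut C 𝒜 (A.prod A) 0) :
    ∃ (κ : Type) (_ : Fintype κ) (e : κ → CH (A.var.prod A.var)),
      KillData C A.var (G.map A.autHom) e := by
  classical
  let l : List T := (Finset.univ : Finset T).toList
  have hl : l.Nodup := Finset.nodup_toList _
  have hl' : ∀ t, t ∈ l := fun t => Finset.mem_toList.2 (Finset.mem_univ t)
  let S : Subring (Corr C A.var) := d11cInv hC A.var (G.map A.autHom)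
  have hS : ∀ x : Corr C A.var, x ∈ S ↔ ∀ g ∈ G, ((A.prod A).aut g).chow x.val = x.val := by
    intro x
    constructor
    · intro h g hg
      have h1 := congrArg Corr.val (h (A.aut g) ⟨g, hg, rfl⟩)
      rw [← sq_aut A g]
      exact h1
    · rintro h _ ⟨g, hg, rfl⟩
      apply Corr.ext
      have h1 := h g hg
      rw [← sq_aut A g] at h1
      exact h1
  let e : (T → Option (Fin σ.length)) → Corr C A.var := fun χ =>
    ⟨Φs C (A.prod A) (d11cSym σ χ) (l.map Sum.inr) (C.Δ A.var), by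
      refine mem_CHiL.2 (Φs_mem C (A.prod A) (d11cSym σ χ) ?_ (l.map Sum.inr) (c := A.var.dim)
        (C.Δ A.var) (Δ_mem C A.var))
      intro t p hp
      obtain ⟨i, j, hij, h1, h2⟩ := d11c_mem_sym hσ χ t p hp
      exact ⟨i, j, hij, h𝒜.mem i _ h1, h𝒜.mem j _ h2⟩⟩
  have he1 : ∀ χ, (e χ).val = Φs C (A.prod A) (d11cSym σ χ) (l.map Sum.inr) (C.Δ A.var) :=
    fun χ => rfl
  have he2 : ∀ χ, (e χ).val = Φs C (A.prod A) (d11cSym σ χ) (l.map Sum.inl) (C.Δ A.var) :=
    fun χ => (he1 χ).trans (Φs_Δ C A (d11cSym σ χ) (fun t => rfl) hl)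
  have hmem : ∀ χ, e χ ∈ S := by
    intro χ
    rw [hS]
    intro g hg
    rw [he1]
    have h1 := Φs_chow hC (A.prod A) (d11cSym σ χ) g (fun t p hp => by
      obtain ⟨i, j, hij, h1, h2⟩ := d11c_mem_sym hσ χ t p hp
      exact ⟨hG g hg i _ h1, hG g hg j _ h2⟩) (l.map Sum.inr) (C.Δ A.var)
    have h2 : ((A.prod A).aut g).chow (C.Δ A.var) = C.Δ A.var :=
      (hS 1).1 S.one_mem g hg
    rw [h2] at h1
    exact h1
  refine ⟨T → Option (Fin σ.length), inferInstance, fun χ => (e χ).val, ?_, ?_, ?_, ?_⟩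
  · intro χ
    exact (e χ).2
  · intro χ g hg
    exact congrArg Corr.val (hmem χ g hg)
  · exact Φs_sum (C := C) (A.prod A) σ (ι := Sum.inr) Sum.inr_injective hl (C.Δ A.var)
      (fun χ => d11cSym σ χ) (fun χ t => rfl) hl'
  · rintro χ u ⟨hu1, hu2, hu3⟩
    obtain ⟨x, rfl⟩ : ∃ x : Corr C A.var, x.val = u := ⟨⟨u, hu1⟩, rfl⟩
    have hx : x ∈ S := by
      intro g hg
      apply Corr.ext
      exact hu3 g hg
    have h1 : C.comp x.val (e χ).val =
        Φs C (A.prod A) (d11cSym σ χ) (l.map Sum.inr) x.val := by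
      rw [he1 χ, comp_Φs_right, C.comp_Δ]
    have h2 : C.comp (e χ).val (C.comp x.val (e χ).val) =
        Φs C (A.prod A) (d11cSym σ χ) (l.map Sum.inl ++ l.map Sum.inr) x.val := by
      rw [Φs_append, h1, he2 χ, comp_Φs_left, C.Δ_comp]
    have h3 : C.comp (C.comp (e χ).val x.val) (e χ).val =
        C.comp (e χ).val (C.comp x.val (e χ).val) := C.comp_assoc _ _ _
    change C.comp (C.comp (e χ).val x.val) (e χ).val = 0
    rw [h3, h2]
    refine d11c_kill h𝒜 hd hF hσ hσ' hT (A.prod A) χ ?_ hu2 ?_ ?_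
    · exact hinv x.val x.2 ((hS x).1 hx)
    · refine List.Nodup.append (hl.map Sum.inl_injective) (hl.map Sum.inr_injective) ?_
      intro a ha hb
      obtain ⟨t, -, rfl⟩ := List.mem_map.1 ha
      obtain ⟨s, -, h⟩ := List.mem_map.1 hb
      cases h
    · rintro (t | t)
      · exact List.mem_append_left _ (List.mem_map.2 ⟨t, hl' t, rfl⟩)
      · exact List.mem_append_right _ (List.mem_map.2 ⟨t, hl' t, rfl⟩)

end Pool.Agent.Helper11.PW
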