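import Mathlib
import Pool.Agent.Helper11.PW.St.S2
import Pool.Agent.Helper11.PW.St.C3

/-!
# PW-S3: nilpotence for the direct summands of sums of twists of `h(P)`

Hints.  Let `R₀ = CH(P × P)` (all codimensions) with the product `γ * β = comp β γ`: a `ℚ`-algebra
with unit `Δ` (same proofs as for `Corr C X` in `Helper47/Chow/Corr.lean` and `Desc/Nil.lean`: make a
type synonym).  Let `R` be the subalgebra of `Matrix (Fin m) (Fin m) R₀` of the matrices `U` with
`U k l` of codimension `dim P + t l - t k` (zero if this is negative); it is closed under products by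
`comp_mem'` (`Chow/HomAct.lean`) and `push_eq_zero_of_lt` (C3a).  `Γ` acts on `R` entrywise by
`(sq g).chow` (as `corrRho`), the orbits of elements are finite (`finite_orbit` in `Desc/Act.lean`).
`I` = the ideal of the matrices with homologically trivial entries
(`cl_comp_of_left/right`).  The elements `E k k (e χ)` of the ring of invariants have sum `1`, and
`E k k (e χ) * U * E k k (e χ) = E k k (e χ * U k k * e χ) = 0` for `U ∈ I` invariant; so
`pigeonhole_nil` (D11) gives that the invariants of `I` are nilpotent, and `bergman_isaacs`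
(`Desc/InfiniteGroup.lean`) that the elements of `I` are nilpotent.
For a homologically trivial `γ ∈ CH^{dim Y}(Y × Y)` put `U k l = β_k ∘ γ ∘ α_l`
`= comp (comp (α l) γ) (β k)`.  Then `U ∈ I`, `U(γ) U(γ') = U(γ γ')`, as `∑ α_l ∘ β_l = Δ`, and
`γ = ∑ α_k ∘ U k l ∘ β_l`; so `γ` is nilpotent.
-/

universe u v w

open CategoryTheory AlgebraicGeometry Limits

namespace Pool.Agent.Helper11.PW

open Pool.Agent.Helper10 Pool.Agent.Helper10.SmProjVar Pool.Agent.Helper47.Chow
open Pool.Agent.Helper47.Desc

variable {k : Type u} [Field k] {K : Type v} [Field K] [CharZero K]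
  {W : WeilCohomology.{u, v, w} k K} {C : ChowTheory W} {P Y : SmProjVar k}

/-- All self-correspondences of `P`, of any degree. -/
def FC (_ : ChowTheory W) (P : SmProjVar k) : Type u := CH (P.prod P)

noncomputable instance fcAddCommGroup : AddCommGroup (FC C P) :=
  inferInstanceAs (AddCommGroup (CH (P.prod P)))

/-- The underlying element of the Chow group. -/
def FC.val (γ : FC C P) : CH (P.prod P) := γ

/-- The correspondence given by an element of the Chow group. -/
def FC.of (C : ChowTheory W) (γ : CH (P.prod P)) : FC C P := γ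

noncomputable instance fcRing : Ring (FC C P) :=
  { (inferInstance : AddCommGroup (FC C P)) with
    mul := fun γ β => FC.of C (C.comp β.val γ.val)
    one := FC.of C (C.Δ P)
    mul_assoc := fun a b c => (C.comp_assoc c.val b.val a.val).symm
    one_mul := fun a => C.comp_Δ a.val
    mul_one := fun a => C.Δ_comp a.val
    left_distrib := fun a b c => C.add_comp b.val c.val a.val
    right_distrib := fun a b c => C.comp_add c.val a.val b.val
    zero_mul := fun a => C.comp_zero a.val
    mul_zero := fun a => C.zero_comp a.val }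

lemma FC.mul_val (γ β : FC C P) : (γ * β).val = C.comp β.val γ.val := rfl

lemma FC.one_val : (1 : FC C P).val = C.Δ P := rfl

lemma FC.zero_val : (0 : FC C P).val = 0 := rfl

lemma FC.add_val (γ β : FC C P) : (γ + β).val = γ.val + β.val := rfl

lemma FC.sum_val {ι : Type*} (s : Finset ι) (f : ι → FC C P) :
    (∑ i ∈ s, f i).val = ∑ i ∈ s, (f i).val :=
  map_sum (⟨⟨FC.val, rfl⟩, fun _ _ => rfl⟩ : FC C P →+ CH (P.prod P)) f s

noncomputable instance fcModule : Module ℚ (FC C P) :=
  inferInstanceAs (Module ℚ (CH (P.prod P)))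

lemma FC.smul_val (q : ℚ) (γ : FC C P) : (q • γ).val = q • γ.val := rfl

noncomputable instance fcAlgebra : Algebra ℚ (FC C P) :=
  Algebra.ofModule
    (fun q γ β => by
      change C.comp β.val (q • γ.val) = q • C.comp β.val γ.val
      exact C.comp_smul q β.val γ.val)
    (fun q γ β => by
      change C.comp (q • β.val) γ.val = q • C.comp β.val γ.val
      exact C.smul_comp q β.val γ.val)

/-- The ring automorphism of all correspondences given by a semilinear automorphism. -/
noncomputable def fcAut (hC : IsEquivariant C) (g : SemiAut P) : FC C P ≃+* FC C P where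
  toFun γ := FC.of C ((Helper47.Desc.sq g).chow γ.val)
  invFun γ := FC.of C ((Helper47.Desc.sq g⁻¹).chow γ.val)
  left_inv γ := by
    change (Helper47.Desc.sq g⁻¹).chow ((Helper47.Desc.sq g).chow γ.val) = γ.val
    rw [← chow_mul, ← Helper47.Desc.sq_mul, inv_mul_cancel, Helper47.Desc.sq_one, chow_one]
  right_inv γ := by
    change (Helper47.Desc.sq g).chow ((Helper47.Desc.sq g⁻¹).chow γ.val) = γ.val
    rw [← chow_mul, ← Helper47.Desc.sq_mul, mul_inv_cancel, Helper47.Desc.sq_one, chow_one]
  map_mul' γ β := chow_comp hC g β.val γ.val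
  map_add' γ β := map_add (Helper47.Desc.sq g).chow γ.val β.val

/-- The piece of codimension `i`, an integer. -/
noncomputable def CHz (X : SmProjVar k) (i : ℤ) : Submodule ℚ (CH X) :=
  if 0 ≤ i then CHiL X i.toNat else ⊥

lemma mem_CHz_of {X : SmProjVar k} {n : ℕ} {i : ℤ} (h : (n : ℤ) = i) {a : CH X}
    (ha : a ∈ CHi X n) : a ∈ CHz X i := by
  subst h
  rw [CHz, if_pos (by omega), Int.toNat_natCast]
  exact ha

lemma CHi_of_mem_CHz {X : SmProjVar k} {n : ℕ} {i : ℤ} (h : (n : ℤ) = i) {a : CH X}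
    (ha : a ∈ CHz X i) : a ∈ CHi X n := by
  subst h
  rw [CHz, if_pos (by omega), Int.toNat_natCast] at ha
  exact ha

lemma comp_mem_CHz {X Y Z : SmProjVar k} {i j l : ℤ} (h : i + j = l + Y.dim)
    {β : CH (X.prod Y)} {γ : CH (Y.prod Z)} (hβ : β ∈ CHz (X.prod Y) i)
    (hγ : γ ∈ CHz (Y.prod Z) j) : C.comp β γ ∈ CHz (X.prod Z) l := by
  by_cases hi : 0 ≤ i
  · by_cases hj : 0 ≤ j
    · obtain ⟨m, rfl⟩ := Int.eq_ofNat_of_zero_le hi
      obtain ⟨n, rfl⟩ := Int.eq_ofNat_of_zero_le hj
      have hβ' := CHi_of_mem_CHz rfl hβ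
      have hγ' := CHi_of_mem_CHz rfl hγ
      by_cases hl : 0 ≤ l
      · obtain ⟨r, rfl⟩ := Int.eq_ofNat_of_zero_le hl
        exact mem_CHz_of rfl (comp_mem' C β γ hβ' hγ' (by omega))
      · have h0 : C.comp β γ = 0 := by
          rw [C.comp_apply]
          refine push_eq_zero_of_lt (p13 X Y Z) (i := m + n) ?_
            (C.mul_mem _ _ _ _ _ (C.pull_mem _ _ _ hβ') (C.pull_mem _ _ _ hγ'))
          change m + n + (Z.dim + X.dim) < Z.dim + Y.dim + X.dim
          omega
        rw [h0]
        exact Submodule.zero_mem _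
    · rw [CHz, if_neg hj, Submodule.mem_bot] at hγ
      rw [hγ, C.comp_zero]
      exact Submodule.zero_mem _
  · rw [CHz, if_neg hi, Submodule.mem_bot] at hβ
    rw [hβ, C.zero_comp]
    exact Submodule.zero_mem _

lemma chow_mem_CHz {X : SmProjVar k} (g : SemiAut X) {i : ℤ} {a : CH X} (ha : a ∈ CHz X i) :
    g.chow a ∈ CHz X i := by
  by_cases hi : 0 ≤ i
  · obtain ⟨m, rfl⟩ := Int.eq_ofNat_of_zero_le hi
    exact mem_CHz_of rfl (chow_mem g m a (CHi_of_mem_CHz rfl ha))
  · rw [CHz, if_neg hi, Submodule.mem_bot] at ha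
    rw [ha, map_zero]
    exact Submodule.zero_mem _

section Alg

variable {m : ℕ} (t : Fin m → ℕ)

/-- The algebra of the graded matrices. -/
noncomputable def grAlg (C : ChowTheory W) (P : SmProjVar k) (t : Fin m → ℕ) :
    Subalgebra ℚ (Matrix (Fin m) (Fin m) (FC C P)) where
  carrier := {U | ∀ a b, (U a b).val ∈ CHz (P.prod P) (P.dim + t b - t a)}
  mul_mem' := by
    intro U V hU hV a b
    rw [Matrix.mul_apply, FC.sum_val]
    refine Submodule.sum_mem _ fun j _ => ?_
    rw [FC.mul_val]
    exact comp_mem_CHz (by omega) (hV j b) (hU a j)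
  add_mem' := by
    intro U V hU hV a b
    rw [Matrix.add_apply, FC.add_val]
    exact Submodule.add_mem _ (hU a b) (hV a b)
  algebraMap_mem' := by
    intro q a b
    rw [Matrix.algebraMap_matrix_apply]
    split_ifs with h
    · subst h
      rw [Algebra.algebraMap_eq_smul_one, FC.smul_val, FC.one_val]
      exact Submodule.smul_mem _ _ (mem_CHz_of (by omega) (Δ_mem C P))
    · rw [FC.zero_val]
      exact Submodule.zero_mem _

/-- The action on the graded matrices. -/
noncomputable def grAut (hC : IsEquivariant C) (g : SemiAut P) : grAlg C P t ≃+* grAlg C P t where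
  toFun U := ⟨U.1.map (fcAut hC g), fun a b => chow_mem_CHz (Helper47.Desc.sq g) (U.2 a b)⟩
  invFun U := ⟨U.1.map (fcAut hC g).symm, fun a b => chow_mem_CHz (Helper47.Desc.sq g⁻¹) (U.2 a b)⟩
  left_inv U := by
    refine Subtype.ext (Matrix.ext fun a b => ?_)
    exact (fcAut hC g).symm_apply_apply _
  right_inv U := by
    refine Subtype.ext (Matrix.ext fun a b => ?_)
    exact (fcAut hC g).apply_symm_apply _
  map_mul' U V := by
    refine Subtype.ext ?_
    exact Matrix.map_mul (f := (fcAut hC g : FC C P →+* FC C P))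
  map_add' U V := by
    refine Subtype.ext (Matrix.ext fun a b => ?_)
    exact map_add (fcAut hC g) (U.1 a b) (V.1 a b)

lemma grAut_val (hC : IsEquivariant C) (g : SemiAut P) (U : grAlg C P t) (a b : Fin m) :
    ((grAut t hC g U).1 a b).val = (Helper47.Desc.sq g).chow (U.1 a b).val := rfl

/-- The action of the group of semilinear automorphisms. -/
noncomputable def grRho (hC : IsEquivariant C) :
    SemiAut P →* (grAlg C P t ≃+* grAlg C P t) where
  toFun := grAut t hC
  map_one' := by
    refine RingEquiv.ext fun U => Subtype.ext (Matrix.ext fun a b => ?_)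
    change (Helper47.Desc.sq (1 : SemiAut P)).chow (U.1 a b).val = (U.1 a b).val
    rw [Helper47.Desc.sq_one, chow_one]
  map_mul' g h := by
    refine RingEquiv.ext fun U => Subtype.ext (Matrix.ext fun a b => ?_)
    change (Helper47.Desc.sq (g * h)).chow (U.1 a b).val = (Helper47.Desc.sq g).chow ((Helper47.Desc.sq h).chow (U.1 a b).val)
    rw [Helper47.Desc.sq_mul, chow_mul]

/-- The homologically trivial matrices. -/
noncomputable def grHom (C : ChowTheory W) (P : SmProjVar k) (t : Fin m → ℕ) :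
    Ideal (grAlg C P t) where
  carrier := {U | ∀ a b, C.cl _ (U.1 a b).val = 0}
  add_mem' {U V} hU hV := fun a b => by
    change C.cl _ ((U.1 a b).val + (V.1 a b).val) = 0
    rw [map_add, hU a b, hV a b, add_zero]
  zero_mem' := fun a b => by
    change C.cl _ (0 : CH (P.prod P)) = 0
    exact map_zero _
  smul_mem' U V hV := fun a b => by
    have h1 : ((U • V : grAlg C P t).1 a b).val =
        ∑ j, C.comp (V.1 j b).val (U.1 a j).val := by
      change ((U.1 * V.1) a b).val = _
      rw [Matrix.mul_apply, FC.sum_val]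
      rfl
    rw [h1, map_sum]
    exact Finset.sum_eq_zero fun j _ => C.cl_comp_of_left _ _ (hV j b)

lemma grHom_right {U V : grAlg C P t} (hU : U ∈ grHom C P t) : U * V ∈ grHom C P t := by
  intro a b
  have h1 : ((U * V : grAlg C P t).1 a b).val =
      ∑ j, C.comp (V.1 j b).val (U.1 a j).val := by
    change ((U.1 * V.1) a b).val = _
    rw [Matrix.mul_apply, FC.sum_val]
    rfl
  rw [h1, map_sum]
  exact Finset.sum_eq_zero fun j _ => C.cl_comp_of_right _ _ (hU a j)

/-- The invariant diagonal idempotents. -/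
noncomputable def grE (C : ChowTheory W) (P : SmProjVar k) (t : Fin m → ℕ) (a : Fin m)
    (e : CH (P.prod P)) (he : e ∈ CHi (P.prod P) P.dim) : grAlg C P t :=
  ⟨Matrix.single a a (FC.of C e), fun i j => by
    rw [Matrix.single_apply]
    split_ifs with h
    · obtain ⟨rfl, rfl⟩ := h
      exact mem_CHz_of (by omega) he
    · exact Submodule.zero_mem _⟩

end Alg

/-- The motive of `Y` is a direct summand of a finite sum of Tate twists of the motive of `P`: there
are correspondences `β_i : Y → P` and `α_i : P → Y` of opposite degrees with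
`∑ α_i ∘ β_i = Δ`. -/
def IsSummand (C : ChowTheory W) (P Y : SmProjVar k) : Prop :=
  ∃ (m : ℕ) (s t : Fin m → ℕ) (β : Fin m → CH (Y.prod P)) (α : Fin m → CH (P.prod Y)),
    (∀ i, s i + t i = Y.dim + P.dim ∧ β i ∈ CHi (Y.prod P) (s i) ∧
      α i ∈ CHi (P.prod Y) (t i)) ∧ ∑ i, C.comp (β i) (α i) = C.Δ Y

/-- **PW-S3.** -/
theorem nilHom_of_killData (hC : IsEquivariant C) {Γ : Subgroup (SemiAut P)}
    (hfin : FiniteOrbits P Γ) {κ : Type} [Fintype κ] {e : κ → CH (P.prod P)}
    (he : KillData C P Γ e) (hY : IsSummand C P Y) : NilHom C Y := by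
  classical
  obtain ⟨m, s, t, β, α, hβα, hsum⟩ := hY
  intro γ₀ hγ₀ hγ0
  -- the matrix of a correspondence
  have hU : ∀ γ ∈ CHi (Y.prod Y) Y.dim, ∀ a b : Fin m,
      C.comp (C.comp (α b) γ) (β a) ∈ CHz (P.prod P) (P.dim + t b - t a) := by
    intro γ hγ a b
    have h1 := (hβα a).1
    have h2 : C.comp (α b) γ ∈ CHz (P.prod Y) (t b) :=
      comp_mem_CHz (by ring) (mem_CHz_of rfl (hβα b).2.2) (mem_CHz_of rfl hγ)
    refine comp_mem_CHz ?_ h2 (mem_CHz_of rfl (hβα a).2.1)
    omega
  let U : ∀ γ, γ ∈ CHi (Y.prod Y) Y.dim → grAlg C P t := fun γ hγ =>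
    ⟨fun a b => FC.of C (C.comp (C.comp (α b) γ) (β a)), hU γ hγ⟩
  have hUval : ∀ γ hγ a b, ((U γ hγ).1 a b).val = C.comp (C.comp (α b) γ) (β a) :=
    fun _ _ _ _ => rfl
  have hUmul : ∀ γ hγ γ' hγ', U γ hγ * U γ' hγ' =
      U (C.comp γ' γ) (C.comp_mem _ _ hγ' hγ) := by
    intro γ hγ γ' hγ'
    refine Subtype.ext (Matrix.ext fun a b => ?_)
    have h1 : ((U γ hγ * U γ' hγ' : grAlg C P t).1 a b).val =
        ∑ j, C.comp (C.comp (C.comp (α b) γ') (β j)) (C.comp (C.comp (α j) γ) (β a)) := by
      change (((U γ hγ).1 * (U γ' hγ').1) a b).val = _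
      rw [Matrix.mul_apply, FC.sum_val]
      rfl
    have h2 : ∀ j, C.comp (C.comp (C.comp (α b) γ') (β j)) (C.comp (C.comp (α j) γ) (β a)) =
        C.comp (C.comp (C.comp (C.comp (α b) γ') (C.comp (β j) (α j))) γ) (β a) := by
      intro j
      simp only [C.comp_assoc]
    have h3 : ∀ (x : Fin m → CH (Y.prod Y)), ∑ j, C.comp (C.comp (C.comp (C.comp (α b) γ') (x j)) γ) (β a) =
        C.comp (C.comp (C.comp (C.comp (α b) γ') (∑ j, x j)) γ) (β a) := by
      intro x
      have h4 := map_sum (⟨⟨fun z => C.comp (C.comp (C.comp (C.comp (α b) γ') z) γ) (β a), by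
        simp only [C.comp_zero, C.zero_comp]⟩, fun z z' => by
        simp only [C.comp_add, C.add_comp]⟩ : CH (Y.prod Y) →+ CH (P.prod P)) x Finset.univ
      exact h4.symm
    change ((U γ hγ * U γ' hγ' : grAlg C P t).1 a b).val =
      C.comp (C.comp (α b) (C.comp γ' γ)) (β a)
    rw [h1, Finset.sum_congr rfl fun j _ => h2 j, h3, hsum, C.comp_Δ]
    simp only [C.comp_assoc]
  have hUinj : ∀ γ hγ, U γ hγ = 0 → γ = 0 := by
    intro γ hγ h0
    have h1 : γ = ∑ j, ∑ i, C.comp (C.comp (C.comp (β i) (α i)) γ) (C.comp (β j) (α j)) := by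
      have h2 : ∀ (y : CH (Y.prod Y)) (x : Fin m → CH (Y.prod Y)),
          ∑ j, C.comp y (x j) = C.comp y (∑ j, x j) := by
        intro y x
        exact (map_sum (⟨⟨fun z => C.comp y z, C.comp_zero _⟩, fun z z' => C.comp_add _ _ _⟩ :
          CH (Y.prod Y) →+ CH (Y.prod Y)) x Finset.univ).symm
      have h3 : ∀ (y : CH (Y.prod Y)) (x : Fin m → CH (Y.prod Y)),
          ∑ i, C.comp (C.comp (x i) γ) y = C.comp (C.comp (∑ i, x i) γ) y := by
        intro y x
        exact (map_sum (⟨⟨fun z => C.comp (C.comp z γ) y, by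
          simp only [C.zero_comp]⟩, fun z z' => by simp only [C.add_comp]⟩ :
          CH (Y.prod Y) →+ CH (Y.prod Y)) x Finset.univ).symm
      simp only [h3, h2, hsum, C.Δ_comp, C.comp_Δ]
    rw [h1]
    refine Finset.sum_eq_zero fun j _ => Finset.sum_eq_zero fun i _ => ?_
    have h4 : C.comp (C.comp (α i) γ) (β j) = 0 := by
      have h5 : ((U γ hγ).1 j i).val = ((0 : grAlg C P t).1 j i).val := by rw [h0]
      exact h5
    have h6 : C.comp (C.comp (C.comp (β i) (α i)) γ) (C.comp (β j) (α j)) =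
        C.comp (C.comp (β i) (C.comp (C.comp (α i) γ) (β j))) (α j) := by
      simp only [C.comp_assoc]
    rw [h6, h4, C.comp_zero, C.zero_comp]
  -- the action
  let ρ : Γ →* (grAlg C P t ≃+* grAlg C P t) := (grRho t hC).comp Γ.subtype
  have hρ : ∀ (g : Γ) (V : grAlg C P t) a b,
      ((ρ g V).1 a b).val = (Helper47.Desc.sq g.1).chow (V.1 a b).val := fun g V a b => rfl
  let E : Fin m × κ → grAlg C P t := fun i => grE C P t i.1 (e i.2) (he.mem i.2)
  have hEinv : ∀ i (g : Γ), ρ g (E i) = E i := by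
    intro i g
    refine Subtype.ext (Matrix.ext fun a b => ?_)
    change (Helper47.Desc.sq g.1).chow ((Matrix.single i.1 i.1 (FC.of C (e i.2)) : Matrix _ _ (FC C P)) a b).val
      = (Matrix.single i.1 i.1 (FC.of C (e i.2)) : Matrix _ _ (FC C P)) a b
    rw [Matrix.single_apply]
    split_ifs with h
    · exact he.inv i.2 g.1 g.2
    · exact map_zero _
  have hEsum : ∑ i, E i = 1 := by
    refine Subtype.ext ?_
    have h1 : ((∑ i, E i : grAlg C P t) : Matrix _ _ (FC C P)) =
        ∑ i : Fin m × κ, Matrix.single i.1 i.1 (FC.of C (e i.2)) := by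
      exact map_sum (grAlg C P t).val E Finset.univ
    rw [h1, Fintype.sum_prod_type]
    have h2 : ∀ a : Fin m, ∑ χ : κ, (Matrix.single a a (FC.of C (e χ)) : Matrix _ _ (FC C P)) =
        Matrix.single a a 1 := by
      intro a
      have h3 := map_sum (Matrix.singleAddMonoidHom a a : FC C P →+ Matrix (Fin m) (Fin m) (FC C P))
        (fun χ => FC.of C (e χ)) Finset.univ
      have h4 : ∑ χ, FC.of C (e χ) = (1 : FC C P) := he.sum
      rw [h4] at h3
      exact h3.symm
    rw [Finset.sum_congr rfl fun a _ => h2 a]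
    ext a b
    rw [Matrix.sum_apply]
    change _ = (1 : Matrix (Fin m) (Fin m) (FC C P)) a b
    rw [Matrix.one_apply]
    simp only [Matrix.single_apply]
    split_ifs with h
    · subst h
      simp
    · refine Finset.sum_eq_zero fun c _ => if_neg ?_
      rintro ⟨rfl, rfl⟩
      exact h rfl
  let S : Subring (grAlg C P t) :=
    { carrier := {V | ∀ g, ρ g V = V}
      mul_mem' := fun {x y} hx hy g => by rw [map_mul, hx g, hy g]
      one_mem' := fun g => map_one (ρ g)
      add_mem' := fun {x y} hx hy g => by rw [map_add, hx g, hy g]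
      zero_mem' := fun g => map_zero (ρ g)
      neg_mem' := fun {x} hx g => by rw [map_neg, hx g] }
  let J : Set (grAlg C P t) := {V | V ∈ grHom C P t ∧ ∀ g, ρ g V = V}
  have hEkill : ∀ i, ∀ x ∈ J, E i * x * E i = 0 := by
    intro i x hx
    refine Subtype.ext ?_
    change (Matrix.single i.1 i.1 (FC.of C (e i.2)) : Matrix _ _ (FC C P)) * x.1 *
      Matrix.single i.1 i.1 (FC.of C (e i.2)) = 0
    have h1 : IsInvHom C P Γ (x.1 i.1 i.1).val := by
      refine ⟨CHi_of_mem_CHz (by omega) (x.2 i.1 i.1), hx.1 i.1 i.1, fun g hg => ?_⟩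
      have h2 : ((ρ ⟨g, hg⟩ x).1 i.1 i.1).val = (x.1 i.1 i.1).val := by rw [hx.2 ⟨g, hg⟩]
      exact h2
    have h2 := he.kill i.2 _ h1
    have h3 : FC.of C (e i.2) * x.1 i.1 i.1 * FC.of C (e i.2) = 0 := by
      change C.comp (e i.2) (C.comp (x.1 i.1 i.1).val (e i.2)) = 0
      rw [← C.comp_assoc]
      exact h2
    ext a b
    rw [Matrix.mul_apply]
    change _ = (0 : FC C P)
    refine Finset.sum_eq_zero fun c _ => ?_
    rw [Matrix.single_apply]
    split_ifs with h
    · obtain ⟨rfl, rfl⟩ := h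
      rw [Matrix.mul_apply]
      rw [Finset.sum_mul]
      refine Finset.sum_eq_zero fun d _ => ?_
      rw [Matrix.single_apply]
      split_ifs with h'
      · obtain ⟨rfl, rfl⟩ := h'
        exact h3
      · rw [zero_mul, zero_mul]
    · rw [mul_zero]
  have hN : NilInvariants ρ (grHom C P t) (Fintype.card (Fin m × κ)) := by
    intro l hl hx
    refine pigeonhole_nil S J (fun x hx => hx.2) ?_ ?_ E (fun i => hEinv i) hEsum hEkill l hl
      (fun x hxl => hx x hxl)
    · intro s hs x hx
      exact ⟨(grHom C P t).mul_mem_left s hx.1, fun g => by rw [map_mul, hs g, hx.2 g]⟩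
    · intro s hs x hx
      exact ⟨grHom_right t hx.1, fun g => by rw [map_mul, hs g, hx.2 g]⟩
  have key := bergman_isaacs ρ (grHom C P t)
    ⟨fun x hx b => grHom_right t hx, fun g x hx a b => hC.cl _ _ _ (hx a b)⟩ ?_ _ hN
    (U γ₀ hγ₀) ?_
  · obtain ⟨n, hn⟩ := key
    have hpow : ∀ n, C.pow γ₀ n ∈ CHi (Y.prod Y) Y.dim := by
      intro n
      induction n with
      | zero => exact Δ_mem C Y
      | succ n ih => exact C.comp_mem _ _ ih hγ₀
    have hUpow : ∀ n, U γ₀ hγ₀ ^ (n + 1) = U (C.pow γ₀ (n + 1)) (hpow (n + 1)) := by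
      intro n
      induction n with
      | zero =>
        rw [zero_add, pow_one]
        have h1 : C.pow γ₀ 1 = γ₀ := C.Δ_comp γ₀
        refine Subtype.ext (Matrix.ext fun a b => ?_)
        change C.comp (C.comp (α b) γ₀) (β a) = C.comp (C.comp (α b) (C.pow γ₀ 1)) (β a)
        rw [h1]
      | succ n ih =>
        rw [pow_succ', ih, hUmul _ hγ₀ _ (hpow (n + 1))]
        rfl
    refine ⟨n + 1, hUinj _ (hpow (n + 1)) ?_⟩
    rw [← hUpow, pow_succ, hn, zero_mul]
  · intro V _
    have h1 : ∀ a b, (Set.range fun g : Γ => (Helper47.Desc.sq g.1).chow (V.1 a b).val).Finite := fun a b =>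
      finite_orbit (fun g : Γ => Helper47.Desc.sq g.1) hfin _
    have h2 : (Set.pi Set.univ fun a : Fin m => Set.pi Set.univ fun b : Fin m =>
        (Set.range fun g : Γ => (Helper47.Desc.sq g.1).chow (V.1 a b).val)).Finite :=
      Set.Finite.pi fun a => Set.Finite.pi fun b => h1 a b
    refine Set.Finite.of_finite_image
      (f := fun V : grAlg C P t => fun a b => (V.1 a b).val) (h2.subset ?_)
      fun x _ y _ hxy => Subtype.ext (Matrix.ext fun a b => congrFun (congrFun hxy a) b)
    rintro _ ⟨_, ⟨g, rfl⟩, rfl⟩ a _ b _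
    exact ⟨g, rfl⟩
  · intro a b
    exact C.cl_comp_of_left _ _ (C.cl_comp_of_right _ _ hγ0)

end Pool.Agent.Helper11.PW
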