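import Mathlib

/-!
# PW-AC3: enlarging the base field

Hint: take `s ⊇ range a` a transcendence basis of `K` over `F` (`AlgebraicIndependent` families
extend to transcendence bases: `exists_isTranscendenceBasis'`-type lemmas), and
`F' := IntermediateField.adjoin F (s \ range a)`.  Then `a` is algebraically independent over `F'`
(`AlgebraicIndependent.…union / sumElim` lemmas), `K` is algebraic over `F'(a) = F(s)` and
algebraically closed, so it is normal.
-/

universe u

namespace Pool.Agent.Helper11.PW

/-- **PW-AC3.** -/
theorem exists_intermediate {F K : Type u} [Field F] [Field K] [Algebra F K] [IsAlgClosed K]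
    {I : Type} (a : I → K) (ha : AlgebraicIndependent F a) :
    ∃ F' : IntermediateField F K, AlgebraicIndependent F' a ∧
      Normal (IntermediateField.adjoin F' (Set.range a)) K := by
  have h0 : AlgebraicIndependent F (Subtype.val : Set.range a → K) :=
    (algebraicIndependent_subtype_range ha.injective).2 ha
  obtain ⟨s, hsub, hs⟩ := exists_isTranscendenceBasis_superset (R := F) (A := K)
    (s := Set.range a) h0
  let F' : IntermediateField F K := IntermediateField.adjoin F (s \ Set.range a)
  refine ⟨F', ?_, ?_⟩
  · refine IntermediateField.algebraicIndependent_adjoin_iff.2 ?_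
    let S1 : Set s := {i | i.1 ∉ Set.range a}
    let T1 : Set s := {i | i.1 ∈ Set.range a}
    have hd : Disjoint S1 T1 := by
      rw [Set.disjoint_left]
      intro i h1 h2
      exact h1 h2
    have h1 := hs.1.adjoin_of_disjoint hd
    have himg : (Subtype.val : s → K) '' S1 = s \ Set.range a := by
      ext x
      constructor
      · rintro ⟨i, hi, rfl⟩
        exact ⟨i.2, hi⟩
      · rintro ⟨hx, hx'⟩
        exact ⟨⟨x, hx⟩, hx', rfl⟩
    rw [himg] at h1
    let m : I → T1 := fun i => ⟨⟨a i, hsub ⟨i, rfl⟩⟩, ⟨i, rfl⟩⟩
    have hm : Function.Injective m := by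
      intro i j hij
      apply ha.injective
      exact congrArg (fun t : T1 => t.1.1) hij
    exact h1.comp m hm
  · have halg : Algebra.IsAlgebraic (IntermediateField.adjoin F' (Set.range a)) K := by
      have ht : IsScalarTower F (IntermediateField.adjoin F' (Set.range a)) K :=
        IsScalarTower.of_algebraMap_eq fun x => rfl
      rw [hs.isAlgebraic_iff]
      rintro ⟨x, hx⟩
      by_cases hxa : x ∈ Set.range a
      · exact isAlgebraic_algebraMap
          (⟨x, IntermediateField.subset_adjoin F' _ hxa⟩ :
            IntermediateField.adjoin F' (Set.range a))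
      · have hxF : x ∈ F' := IntermediateField.subset_adjoin F _ ⟨hx, hxa⟩
        exact isAlgebraic_algebraMap
          (⟨x, (IntermediateField.adjoin F' (Set.range a)).algebraMap_mem ⟨x, hxF⟩⟩ :
            IntermediateField.adjoin F' (Set.range a))
    have : IsAlgClosure (IntermediateField.adjoin F' (Set.range a)) K := ⟨inferInstance, halg⟩
    exact IsAlgClosure.normal _ _

end Pool.Agent.Helper11.PW
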