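import Mathlib
import Pool.Agent.Helper11.PW.St.B7

/-!
# PW-AC4: base change of sections and zero loci

Hints.  `isZeroLocus_bc`: the equations of `S.bc p` at `(q, s)` are those of `S` at `(q ≫ p, s)`
(`pb` is functorial; the lemmas `ap…` of `Spread/C5.lean`); for `exists_lift`: a pair `(q, s)` over
`F'` gives the pair `(q ≫ p, s)` over `F`, hence `h : Z ⟶ X`; `h ≫ π' = q` since `M₀'` is the fibre
product (`hp.hom_ext`).
`sepPts_bc`: for distinct points `x t : Spec E ⟶ M₀'` over `F'` the points `x t ≫ p` of `M₀` are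
distinct (`hp.hom_ext`).
`exists_pM`: `hp.lift`; the square is cartesian by `IsPullback.of_bot` / `of_right`-type lemmas
(`specMap F K = specMap F' K ≫ specMap F F'`).
-/

universe u v w

open CategoryTheory AlgebraicGeometry Limits

namespace Pool.Agent.Helper11.PW

open Pool.Agent.Helper10 Pool.Agent.Helper10.SmProjVar Pool.Agent.Helper47.Chow
open Pool.Agent.Helper47.Desc Pool.Agent.Helper47.Spread

noncomputable section

variable {F F' K : Type u} [Field F] [Field F'] [Field K] [Algebra F F'] [Algebra F K]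
  [Algebra F' K] [IsScalarTower F F' K] {M₀ : SmProjVar F} {M₀' : SmProjVar F'} {r : ℕ}
  {I : Type}

/-- The pull-back of the sections along an affine morphism. -/
def bcSections (S : Sections M₀ r I) (p : M₀'.toOver.left ⟶ M₀.toOver.left) [IsAffineHom p] :
    Sections M₀' r I where
  ι := S.ι
  U := fun i => p ⁻¹ᵁ S.U i
  affine := fun i => (S.affine i).preimage p
  cover := fun x => S.cover (p x)
  f := fun i q l => pb p (S.U i) (S.f i q l)
  glue := fun i i' => by
    obtain ⟨G, hG⟩ := S.glue i i'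
    refine ⟨Matrix.of fun q q' => pb p (S.U i ⊓ S.U i') (G q q'), fun q l => ?_⟩
    have h1 := congrArg (pb p (S.U i ⊓ S.U i')) (hG q l)
    rw [map_sum, res_pb] at h1
    refine h1.trans (Finset.sum_congr rfl fun q' _ => ?_)
    rw [map_mul, res_pb]
    rfl

lemma isAffineHom_bc (p : M₀'.toOver.left ⟶ M₀.toOver.left)
    (hp : IsPullback p M₀'.toOver.hom M₀.toOver.hom (specMap F F')) : IsAffineHom p := by
  have h1 : IsAffineHom (specMap F F') := isAffineHom_specMap
  exact MorphismProperty.of_isPullback (P := @IsAffineHom) hp.flip h1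

/-- Composition of the morphisms of spectra of fields. -/
lemma ac4_specMap_comp : specMap F' K ≫ specMap F F' = specMap F K := by
  unfold specMap
  rw [← Spec.map_comp, ← CommRingCat.ofHom_comp, ← IsScalarTower.algebraMap_eq]

/-- The pull-back of functions is functorial. -/
lemma ac4_pb_pb {Z Z' Z'' : Scheme.{u}} (q : Z ⟶ Z') (p : Z' ⟶ Z'') (W : Z''.Opens)
    (x : Γ(Z'', W)) : pb q (p ⁻¹ᵁ W) (pb p W x) = pb (q ≫ p) W x := by
  unfold pb
  rw [← CommRingCat.comp_apply, Scheme.Hom.comp_app]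
  rfl

omit [Algebra F F'] [Algebra F K] [Algebra F' K] [IsScalarTower F F' K] in
/-- The equations of the pulled back sections. -/
lemma ac4_eqn [Fintype I] (S : Sections M₀ r I) (a : I → K)
    (p : M₀'.toOver.left ⟶ M₀.toOver.left) [IsAffineHom p] {Z : Scheme.{u}}
    (q : Z ⟶ M₀'.toOver.left) (s : Z ⟶ Spec (CommRingCat.of K)) (i : S.ι) (c : Fin r) :
    eqn (bcSections S p) a q s i c = eqn S a (q ≫ p) s i c := by
  refine Finset.sum_congr rfl fun l _ => ?_
  refine congrArg₂ (· * ·) rfl ?_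
  exact ac4_pb_pb q p (S.U i) (S.f i c l)

/-- **PW-AC4a.** -/
theorem isZeroLocus_bc [Fintype I] {S : Sections M₀ r I} {a : I → K} {X : SmProjVar K}
    {π : X.toOver.left ⟶ M₀.toOver.left} (hX : IsZeroLocus S a X π)
    (p : M₀'.toOver.left ⟶ M₀.toOver.left) [IsAffineHom p]
    (hp : IsPullback p M₀'.toOver.hom M₀.toOver.hom (specMap F F'))
    (π' : X.toOver.left ⟶ M₀'.toOver.left) (hπ' : π' ≫ p = π)
    (w' : π' ≫ M₀'.toOver.hom = X.toOver.hom ≫ specMap F' K) :
    IsZeroLocus (bcSections S p) a X π' := by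
  subst hπ'
  refine ⟨w', fun i q => ?_, fun Z q s hqs hz => ?_, fun Z h h' e1 e2 => ?_⟩
  · exact (ac4_eqn S a p π' X.toOver.hom i q).trans (hX.zero i q)
  · have h1 : (q ≫ p) ≫ M₀.toOver.hom = s ≫ specMap F K := by
      rw [Category.assoc, hp.w, ← Category.assoc, hqs, Category.assoc, ac4_specMap_comp]
    obtain ⟨h, hh1, hh2⟩ := hX.exists_lift Z (q ≫ p) s h1 fun i c =>
      (ac4_eqn S a p q s i c).symm.trans (hz i c)
    refine ⟨h, hp.hom_ext ?_ ?_, hh2⟩
    · rw [Category.assoc, hh1]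
    · rw [Category.assoc, w', ← Category.assoc, hh2, hqs]
  · refine hX.unique Z h h' ?_ e2
    rw [← Category.assoc, e1, Category.assoc]

/-- **PW-AC4b.** -/
theorem sepPts_bc {S : Sections M₀ r I} {m : ℕ} (hS : SepPts S m)
    (p : M₀'.toOver.left ⟶ M₀.toOver.left) [IsAffineHom p]
    (hp : IsPullback p M₀'.toOver.hom M₀.toOver.hom (specMap F F')) :
    SepPts (bcSections S p) m := by
  intro T _ _ hT E _ x hx hinj z
  obtain ⟨i, J, h⟩ := hS T hT E (fun t => x t ≫ p)
    (fun s t => by
      rw [Category.assoc, Category.assoc, hp.w, ← Category.assoc, ← Category.assoc, hx s t])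
    (fun s t hst => hinj (hp.hom_ext hst (hx s t))) z
  refine ⟨i, J, ?_⟩
  have key : ∀ (c : T × Fin r) (l : I),
      coordT (bcSections S p) x i c l = coordT S (fun t => x t ≫ p) i c l := fun c l => by
    unfold coordT
    exact congrArg (res (iInf_le (fun t => (x t ≫ p) ⁻¹ᵁ S.U (i t)) c.1))
      (ac4_pb_pb (x c.1) p (S.U (i c.1)) (S.f (i c.1) c.2 l))
  have key2 : (Matrix.of fun c c' => coordT (bcSections S p) x i c (J c')) =
      Matrix.of fun c c' => coordT S (fun t => x t ≫ p) i c (J c') := by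
    ext c c'
    exact key c (J c')
  rw [key2]
  exact h

/-- **PW-AC4c.** -/
theorem exists_pM {M : SmProjVar K} (pM : M.toOver.left ⟶ M₀.toOver.left)
    (hM : IsPullback pM M.toOver.hom M₀.toOver.hom (specMap F K))
    (p : M₀'.toOver.left ⟶ M₀.toOver.left)
    (hp : IsPullback p M₀'.toOver.hom M₀.toOver.hom (specMap F F')) :
    ∃ pM' : M.toOver.left ⟶ M₀'.toOver.left, pM' ≫ p = pM ∧
      IsPullback pM' M.toOver.hom M₀'.toOver.hom (specMap F' K) := by
  have w : pM ≫ M₀.toOver.hom = (M.toOver.hom ≫ specMap F' K) ≫ specMap F F' := by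
    rw [hM.w, Category.assoc, ac4_specMap_comp]
  refine ⟨hp.lift pM (M.toOver.hom ≫ specMap F' K) w, hp.lift_fst _ _ _, ?_⟩
  refine IsPullback.of_right (h₁₂ := p) (h₂₂ := specMap F F') (v₁₃ := M₀.toOver.hom) ?_
    (hp.lift_snd _ _ _) hp
  rw [hp.lift_fst, ac4_specMap_comp]
  exact hM

end

end Pool.Agent.Helper11.PW
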