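import Mathlib

/-!
# PW-D14: orthogonal pairs (linear algebra)

Hints.  Induction on `n`.  Take `x ≠ 0`; symmetric case: if all `B x x = 0` then `B = 0`
(characteristic zero), so there is `x` with `B x x ≠ 0`; take `x₀ = y₀ = x`.  Alternating case: take
`x ≠ 0` and `y` with `B x y ≠ 0`.  The orthogonal complement `V'` of `span {x₀, y₀}` has dimension
`≥ dim V - 1` (resp. `dim V - 2`), the form is non-degenerate on it (`V = span ⊕ V'`).  (Mathlib:
`LinearMap.BilinForm.exists_orthogonal_basis` for the symmetric case.)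
-/

namespace Pool.Agent.Helper11.PW

/-- **PW-D14a.** Symmetric forms. -/
theorem exists_pairs_symm {L V : Type*} [Field L] [CharZero L] [AddCommGroup V] [Module L V]
    [Module.Finite L V] (B : V →ₗ[L] V →ₗ[L] L) (hB : ∀ x y, B y x = B x y)
    (hnd : ∀ x, (∀ y, B x y = 0) → x = 0) (n : ℕ) (hn : n ≤ Module.finrank L V) :
    ∃ x y : Fin n → V, (∀ i, B (x i) (y i) ≠ 0) ∧ ∀ i j, i ≠ j →
      B (x i) (x j) = 0 ∧ B (x i) (y j) = 0 ∧ B (y i) (x j) = 0 ∧ B (y i) (y j) = 0 := by
  let _ : Invertible (2 : L) := invertibleOfNonzero two_ne_zero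
  obtain ⟨v, hv⟩ := LinearMap.BilinForm.exists_orthogonal_basis (B := B) ⟨fun x y => (hB x y).symm⟩
  have ho : ∀ i j, i ≠ j → B (v i) (v j) = 0 := fun i j hij => hv hij
  have hd : ∀ i, B (v i) (v i) ≠ 0 := by
    intro i h0
    refine v.ne_zero i (hnd _ fun y => ?_)
    have hz : B (v i) = 0 := by
      refine v.ext fun j => ?_
      by_cases hij : i = j
      · subst hij; simpa using h0
      · simpa using ho i j hij
    rw [hz]; rfl
  have hinj : ∀ i j : Fin n, i ≠ j → Fin.castLE hn i ≠ Fin.castLE hn j := fun i j hij h =>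
    hij (Fin.castLE_injective hn h)
  exact ⟨fun i => v (Fin.castLE hn i), fun i => v (Fin.castLE hn i), fun i => hd _, fun i j hij =>
    ⟨ho _ _ (hinj i j hij), ho _ _ (hinj i j hij), ho _ _ (hinj i j hij), ho _ _ (hinj i j hij)⟩⟩

/-- **PW-D14b.** Alternating forms. -/
theorem exists_pairs_alt {L V : Type*} [Field L] [CharZero L] [AddCommGroup V] [Module L V]
    [Module.Finite L V] (B : V →ₗ[L] V →ₗ[L] L) (hB : ∀ x y, B y x = -B x y)
    (hnd : ∀ x, (∀ y, B x y = 0) → x = 0) (n : ℕ) (hn : 2 * n ≤ Module.finrank L V) :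
    ∃ x y : Fin n → V, (∀ i, B (x i) (y i) ≠ 0) ∧ ∀ i j, i ≠ j →
      B (x i) (x j) = 0 ∧ B (x i) (y j) = 0 ∧ B (y i) (x j) = 0 ∧ B (y i) (y j) = 0 := by
  induction n generalizing V with
  | zero => exact ⟨fun _ => 0, fun _ => 0, fun i => i.elim0, fun i => i.elim0⟩
  | succ n ih =>
    have hself : ∀ x, B x x = 0 := fun x => by
      have h := hB x x
      have h2 : (2 : L) * B x x = 0 := by linear_combination h
      rcases mul_eq_zero.1 h2 with h3 | h3
      · exact absurd h3 two_ne_zero
      · exact h3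
    have : Nontrivial V := Module.finrank_pos_iff (R := L) |>.1 (by omega)
    obtain ⟨x₀, hx₀⟩ := exists_ne (0 : V)
    obtain ⟨y₀, hy₀⟩ : ∃ y, B x₀ y ≠ 0 := by
      by_contra hcon
      push Not at hcon
      exact hx₀ (hnd x₀ hcon)
    let W : Submodule L V := LinearMap.ker (B x₀) ⊓ LinearMap.ker (B y₀)
    have hW : ∀ w : V, w ∈ W ↔ B x₀ w = 0 ∧ B y₀ w = 0 := fun w => by
      simp only [W, Submodule.mem_inf, LinearMap.mem_ker]
    let B' : W →ₗ[L] W →ₗ[L] L := B.domRestrict₁₂ W W
    have hB' : ∀ z w : W, B' z w = B (z : V) (w : V) := fun z w => rfl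
    have hdim : 2 * n ≤ Module.finrank L W := by
      have h1 := Submodule.finrank_sup_add_finrank_inf_eq (LinearMap.ker (B x₀)) (LinearMap.ker (B y₀))
      have h2 := LinearMap.finrank_range_add_finrank_ker (B x₀)
      have h3 := LinearMap.finrank_range_add_finrank_ker (B y₀)
      have h4 : Module.finrank L (LinearMap.range (B x₀)) ≤ 1 := by
        simpa using Submodule.finrank_le (LinearMap.range (B x₀))
      have h5 : Module.finrank L (LinearMap.range (B y₀)) ≤ 1 := by
        simpa using Submodule.finrank_le (LinearMap.range (B y₀))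
      have h6 := Submodule.finrank_le (LinearMap.ker (B x₀) ⊔ LinearMap.ker (B y₀))
      have h7 : Module.finrank L W =
        Module.finrank L (LinearMap.ker (B x₀) ⊓ LinearMap.ker (B y₀) : Submodule L V) := rfl
      omega
    have hnd' : ∀ z : W, (∀ w, B' z w = 0) → z = 0 := by
      intro z hz
      have hzm := (hW z).1 z.2
      refine Subtype.ext (hnd _ fun u => ?_)
      have hc : B x₀ y₀ ≠ 0 := hy₀
      have hyx : B y₀ x₀ = -B x₀ y₀ := hB x₀ y₀
      set c := B x₀ y₀ with hcdef
      have hwm : u + (B y₀ u / c) • x₀ - (B x₀ u / c) • y₀ ∈ W := by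
        rw [hW]
        constructor
        · rw [map_sub, map_add, map_smul, map_smul, hself x₀, ← hcdef, smul_eq_mul, smul_eq_mul]
          field_simp
          ring
        · rw [map_sub, map_add, map_smul, map_smul, hself y₀, hyx, smul_eq_mul, smul_eq_mul]
          field_simp
          ring
      have hzw : B (z : V) (u + (B y₀ u / c) • x₀ - (B x₀ u / c) • y₀) = 0 := hz ⟨_, hwm⟩
      have hzx : B (z : V) x₀ = 0 := by rw [hB x₀ z, hzm.1, neg_zero]
      have hzy : B (z : V) y₀ = 0 := by rw [hB y₀ z, hzm.2, neg_zero]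
      rw [map_sub, map_add, map_smul, map_smul, hzx, hzy, smul_zero, smul_zero, add_zero,
        sub_zero] at hzw
      exact hzw
    obtain ⟨x, y, hxy, hort⟩ := ih B' (fun z w => hB z w) hnd' hdim
    refine ⟨Fin.cons x₀ (fun i => (x i : V)), Fin.cons y₀ (fun i => (y i : V)), ?_, ?_⟩
    · intro i
      refine Fin.cases ?_ (fun i => ?_) i
      · simpa using hy₀
      · have h := hxy i
        rw [hB'] at h
        simpa using h
    · intro i j
      refine Fin.cases ?_ (fun i => ?_) i <;> refine Fin.cases ?_ (fun j => ?_) j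
      · intro h; exact absurd rfl h
      · intro _
        have hx := (hW (x j)).1 (x j).2
        have hy := (hW (y j)).1 (y j).2
        simpa using ⟨hx.1, hy.1, hx.2, hy.2⟩
      · intro _
        have hx := (hW (x i)).1 (x i).2
        have hy := (hW (y i)).1 (y i).2
        simp only [Fin.cons_succ, Fin.cons_zero]
        rw [hB x₀ (x i), hB y₀ (x i), hB x₀ (y i), hB y₀ (y i), hx.1, hx.2, hy.1, hy.2]
        simp
      · intro h
        have h' : i ≠ j := fun e => h (by rw [e])
        have h2 := hort i j h'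
        simp only [hB'] at h2
        simpa using h2

end Pool.Agent.Helper11.PW
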