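import Mathlib
import Pool.Agent.Helper11.PW.St.D12
import Pool.Agent.Helper11.PW.St.D12b
import Pool.Agent.Helper11.PW.St.D14

/-!
# PW-D13: the vanishing cohomology

Hints.
* `vanishing_nondeg`: for `h ∈ H^d(X)` put `h' = h - ∑_α tr (cl v_α · h) • cl u_α` (over the list `σ`).
  Then `h'` is orthogonal to all `cl a`, `a ∈ 𝒜 i`, by `Complete C 𝒜 (σ.map Prod.swap)` (only `2 i = d`
  matters, for the other `i` both sides vanish for reasons of degree; the classes have even degree and
  commute), and `h'` has degree `d` (the summands of the wrong degree vanish); so `h'` is vanishing and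
  `tr (x h) = tr (x h') = 0`.  As `x ∈ H^d`, it pairs to zero with all other degrees;
  `(W.trace X).nondegenerate`.
* `hasFrames_of_li`: apply D14 to the subspace of the vanishing classes (a submodule of `W.H X`), with
  the form `(x, y) ↦ tr (x y)`, which is `(-1)^d`-symmetric (`(W.graded X).comm`), and
  `hasFrames_of`.
* `dim_pos`: if `X.dim = 0` then `H(X) = H^0(X)` is one-dimensional (spanned by `1`: the trace
  `H^0 ≅ K` is injective, `(W.trace X).bijective`), and a vanishing class `c • 1` has
  `tr (1 * c • 1) = 0`, so `c = 0`.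
-/

universe u v w

open CategoryTheory AlgebraicGeometry Limits

namespace Pool.Agent.Helper11.PW

open Pool.Agent.Helper10 Pool.Agent.Helper10.SmProjVar Pool.Agent.Helper47.Chow
open Pool.Agent.Helper47.Desc

variable {k : Type u} [Field k] {K : Type v} [Field K] [CharZero K]
  {W : WeilCohomology.{u, v, w} k K} {C : ChowTheory W} {X : SmProjVar k}
  {𝒜 : ℕ → Submodule ℚ (CH X)}

lemma D13.tr_list (l : List (CH X × CH X)) (c : CH X × CH X → K) (x : W.H X)
    (f : CH X × CH X → W.H X) :
    trL W X (x * (l.map fun p => c p • f p).sum) = (l.map fun p => c p * trL W X (x * f p)).sum := by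
  induction l with
  | nil => simp
  | cons p l ih =>
    rw [List.map_cons, List.map_cons, List.sum_cons, List.sum_cons, mul_add, map_add, ih,
      mul_smul_comm, map_smul, smul_eq_mul]

/-- **PW-D13a.** -/
theorem vanishing_nondeg (h𝒜 : IsAmb C 𝒜) {σ : List (CH X × CH X)} (hσ : Complete C 𝒜 σ)
    (hσ' : Complete C 𝒜 (σ.map Prod.swap)) {x : W.H X} (hx : Vanishing C 𝒜 x)
    (h : ∀ y, Vanishing C 𝒜 y → W.tr X (x * y) = 0) : x = 0 := by
  have hz : ∀ i ≠ 2 * X.dim, ∀ y ∈ W.gr X i, trL W X y = 0 := fun i hi y hy =>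
    (W.trace X).eq_zero i y hi hy
  apply (W.trace X).nondegenerate
  intro y
  change trL W X (x * y) = 0
  have hy : y ∈ ⨆ j, W.gr X j := by rw [(W.graded X).iSup_eq_top]; trivial
  refine Submodule.iSup_induction (W.gr X) (motive := fun y => trL W X (x * y) = 0) hy ?_ ?_ ?_
  · intro j h0 hh0
    by_cases hj : j = X.dim
    · subst hj
      -- the corrected class
      set c : CH X × CH X → K := fun p => trL W X (C.cl X p.2 * h0) with hc
      have hdeg : ∀ p ∈ σ, c p • C.cl X p.1 ∈ W.gr X X.dim := by
        intro p hp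
        obtain ⟨i, j, hij, hi, hj⟩ := hσ.1 p hp
        by_cases h2 : 2 * j = X.dim
        · have h2i : 2 * i = X.dim := by omega
          refine Submodule.smul_mem _ _ ?_
          have := C.cl_mem X i p.1 (h𝒜.mem i _ hi)
          rwa [h2i] at this
        · have h3 : c p = 0 := by
            refine hz (2 * j + X.dim) (by omega) _ ?_
            exact (W.graded X).mul_mem _ _ _ _ (C.cl_mem X j p.2 (h𝒜.mem j _ hj)) hh0
          rw [h3, zero_smul]
          exact Submodule.zero_mem _
      set h' : W.H X := h0 - (σ.map fun p => c p • C.cl X p.1).sum with hh'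
      have hmem : h' ∈ W.gr X X.dim := by
        refine Submodule.sub_mem _ hh0 (list_sum_mem fun z hz => ?_)
        rw [List.mem_map] at hz
        obtain ⟨p, hp, rfl⟩ := hz
        exact hdeg p hp
      have hvan : Vanishing C 𝒜 h' := by
        refine ⟨hmem, fun i a ha => ?_⟩
        change trL W X (C.cl X a * h') = 0
        by_cases hi : 2 * i = X.dim
        · rw [hh', mul_sub, map_sub, D13.tr_list]
          have h2 := hσ'.2 i hi.le a ha
          have h3 : trL W X (C.cl X a * h0) =
              (σ.map fun p => c p * trL W X (C.cl X a * C.cl X p.1)).sum := by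
            have h4 : ∀ l : List (CH X × CH X),
                trL W X (C.cl X ((l.map Prod.swap).map
                  fun p => deg C X (C.mul X p.2 a) • p.1).sum * h0) =
                (l.map fun p => c p * trL W X (C.cl X a * C.cl X p.1)).sum := by
              intro l
              induction l with
              | nil => simp
              | cons p l ih =>
                rw [List.map_cons, List.map_cons, List.map_cons, List.sum_cons, List.sum_cons,
                  map_add, add_mul, map_add, ih, cl_smul, smul_mul_assoc, map_smul, smul_eq_mul,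
                  Prod.snd_swap, Prod.fst_swap, ← C.cl_mul, C.mul_comm X a p.1]
                congr 1
                rw [mul_comm]
                congr 1
                exact (tr_cl_deg C X _).symm
            rw [← h4 σ, h2]
          rw [h3, sub_self]
        · refine hz (2 * i + X.dim) (by omega) _ ?_
          exact (W.graded X).mul_mem _ _ _ _ (C.cl_mem X i a (h𝒜.mem i _ ha)) hmem
      have e : h0 = h' + (σ.map fun p => c p • C.cl X p.1).sum := by rw [hh']; abel
      rw [e, mul_add, map_add, D13.tr_list]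
      have h5 : trL W X (x * h') = 0 := h h' hvan
      rw [h5, zero_add]
      refine D12.sum_zero fun p hp => ?_
      obtain ⟨i, j, hij, hi, hj⟩ := hσ.1 p hp
      have h6 : trL W X (C.cl X p.1 * x) = 0 := hx.2 i _ hi
      rw [← even_comm W X i _ _ (C.cl_mem X i p.1 (h𝒜.mem i _ hi)), h6, mul_zero]
    · exact hz (X.dim + j) (by omega) _ ((W.graded X).mul_mem _ _ _ _ hx.1 hh0)
  · rw [mul_zero, map_zero]
  · intro a b ha hb
    rw [mul_add, map_add, ha, hb, add_zero]

/-- The space of the vanishing classes. -/
def D13.van (C : ChowTheory W) (𝒜 : ℕ → Submodule ℚ (CH X)) : Submodule K (W.H X) where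
  carrier := {x | Vanishing C 𝒜 x}
  zero_mem' := ⟨Submodule.zero_mem _, fun i a _ => by
    change trL W X (C.cl X a * 0) = 0
    rw [mul_zero, map_zero]⟩
  add_mem' := fun {x y} hx hy => ⟨Submodule.add_mem _ hx.1 hy.1, fun i a ha => by
    have h1 : trL W X (C.cl X a * x) = 0 := hx.2 i a ha
    have h2 : trL W X (C.cl X a * y) = 0 := hy.2 i a ha
    change trL W X (C.cl X a * (x + y)) = 0
    rw [mul_add, map_add, h1, h2, add_zero]⟩
  smul_mem' := fun c x hx => ⟨Submodule.smul_mem _ _ hx.1, fun i a ha => by
    have h1 : trL W X (C.cl X a * x) = 0 := hx.2 i a ha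
    change trL W X (C.cl X a * (c • x)) = 0
    rw [mul_smul_comm, map_smul, h1, smul_zero]⟩

/-- **PW-D13b.** -/
theorem hasFrames_of_li (h𝒜 : IsAmb C 𝒜) {σ : List (CH X × CH X)} (hσ : Complete C 𝒜 σ)
    (hσ' : Complete C 𝒜 (σ.map Prod.swap)) {b n : ℕ} (x : Fin b → W.H X)
    (hx : ∀ i, Vanishing C 𝒜 (x i)) (hli : LinearIndependent K x)
    (hb : if Even X.dim then n ≤ b else 2 * n ≤ b) (N : Type) [Finite N]
    (hN : Nat.card N ≤ 2 * n) : HasFrames C 𝒜 N := by
  have hfin : Module.Finite K (W.H X) := (W.graded X).finite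
  let V : Submodule K (W.H X) := D13.van C 𝒜
  let B : V →ₗ[K] V →ₗ[K] K := LinearMap.mk₂ K (fun x y => trL W X ((x : W.H X) * (y : W.H X)))
    (fun x x' y => by rw [Submodule.coe_add, add_mul, map_add])
    (fun c x y => by rw [Submodule.coe_smul, smul_mul_assoc, map_smul])
    (fun x y y' => by rw [Submodule.coe_add, mul_add, map_add])
    (fun c x y => by rw [Submodule.coe_smul, mul_smul_comm, map_smul])
  have hB : ∀ x y : V, B x y = W.tr X ((x : W.H X) * (y : W.H X)) := fun x y => rfl
  have hnd : ∀ x : V, (∀ y, B x y = 0) → x = 0 := by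
    intro x hx
    apply Subtype.ext
    exact vanishing_nondeg h𝒜 hσ hσ' x.2 fun y hy => hx ⟨y, hy⟩
  have hli' : LinearIndependent K (fun i => (⟨x i, hx i⟩ : V)) := by
    refine LinearIndependent.of_comp V.subtype ?_
    exact hli
  have hcard : b ≤ Module.finrank K V := by
    have := hli'.fintype_card_le_finrank
    rwa [Fintype.card_fin] at this
  have hsign : ∀ x y : V, B y x = (-1 : K) ^ (X.dim * X.dim) * B x y := by
    intro x y
    rw [hB, hB, (W.graded X).comm _ _ _ _ y.2.1 x.2.1]
    exact (W.trace X).map_smul _ _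
  have hex : ∃ x y : Fin n → V, (∀ i, B (x i) (y i) ≠ 0) ∧ ∀ i j, i ≠ j →
      B (x i) (x j) = 0 ∧ B (x i) (y j) = 0 ∧ B (y i) (x j) = 0 ∧ B (y i) (y j) = 0 := by
    by_cases he : Even X.dim
    · rw [if_pos he] at hb
      refine exists_pairs_symm B (fun x y => ?_) hnd n (hb.trans hcard)
      rw [hsign, (he.mul_left X.dim).neg_one_pow, one_mul]
    · rw [if_neg he] at hb
      refine exists_pairs_alt B (fun x y => ?_) hnd n (hb.trans hcard)
      rw [hsign, ((Nat.not_even_iff_odd.1 he).mul (Nat.not_even_iff_odd.1 he)).neg_one_pow,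
        neg_one_mul]
  obtain ⟨u, v, huv, hor⟩ := hex
  exact hasFrames_of (fun i => (u i : W.H X)) (fun i => (v i : W.H X)) (fun i => (u i).2)
    (fun i => (v i).2) huv hor N hN

/-- **PW-D13c.** -/
theorem dim_pos (h𝒜 : IsAmb C 𝒜) {x : W.H X} (hx : Vanishing C 𝒜 x) (h0 : x ≠ 0) :
    0 < X.dim := by
  rw [Nat.pos_iff_ne_zero]
  intro hd
  apply h0
  have h1 : W.tr X x = 0 := by
    have := hx.2 0 _ h𝒜.one_mem
    rwa [cl_one, one_mul] at this
  have h2 : x ∈ W.gr X (2 * X.dim) := by
    have := hx.1
    rwa [show X.dim = 2 * X.dim by omega] at this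
  have h3 : trL W X 0 = 0 := map_zero _
  exact ((W.trace X).bijective 0).unique ⟨h2, h1⟩ ⟨Submodule.zero_mem _, h3⟩

end Pool.Agent.Helper11.PW
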