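import Mathlib
import Pool.Agent.Helper11.PW.Defs
import Pool.Agent.Helper47.Zero.Conseq

/-!
# PW-K: Künneth components and algebraic classes on powers

`AlgIn C X l`: `H^l(X)` is spanned by algebraic classes (so it is zero if `l` is odd).

Hints.
* `algIn_prod`: `H(X) ⊗ H(Y) = H(X × Y)` (`span_kunneth` in `Chow/Corr.lean`), graded pieces.
* `algIn_of_surj`: pull-back of algebraic classes.
* `algIn_of_decomposable`: `x ∈ H^l(M)`: `tr (x y) = pairH x y (Δ M) = ∑ tr (x cl b) tr (cl a y)`.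
* `hasKunneth_prod`: for `X × Y` take `∑_{i + j = l} (c_i × c_j)` transported by the permutation of the
  factors `(X × Y) × (X × Y) ≅ (X × X) × (Y × Y)`.
* `hasKunneth_pow`: induction on `T` (`Finite.induction_empty_option`).
* `murreD_of_algIn`: for `j ≥ 2 i` let `j = 2 l` (`π j` is homologically trivial for odd `j` as
  `H^j = 0`); `exists_proj` gives `e ∈ algProj` with the same cohomological action, `h = π j - e` is
  homologically trivial, hence nilpotent; for `a` homologically trivial `act e a = 0`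
  (`act_algProj_hom`), so `act (π j) a = act h a`, which is again homologically trivial and fixed by
  `π j`; hence `act (π j) a = act (h^m) a = 0`.  So `a = ∑_{j < 2 i} act (π j) a`; `murreD_iff`.
-/

universe u v w

open CategoryTheory AlgebraicGeometry Limits

namespace Pool.Agent.Helper11.PW

open Pool.Agent.Helper10 Pool.Agent.Helper10.SmProjVar Pool.Agent.Helper47.Chow
open Pool.Agent.Helper47.Desc

variable {k : Type u} [Field k] {K : Type v} [Field K] [CharZero K]
  {W : WeilCohomology.{u, v, w} k K} {C : ChowTheory W} {X Y M : SmProjVar k} {T : Type}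

variable (C X) in
/-- `H^l(X)` is spanned by the classes of algebraic cycles. -/
def AlgIn (l : ℕ) : Prop :=
  ∀ x ∈ W.gr X l, x ∈ Submodule.span K {z | ∃ i, 2 * i = l ∧ ∃ a ∈ CHi X i, C.ops.cl X a = z}

/-! ### Auxiliary lemmas on the grading -/

section Aux

variable (W) in
lemma k1_eq_of_sum {Z : SmProjVar k} {l : ℕ} {x : W.H Z} (hx : x ∈ W.gr Z l) (s : Finset ℕ)
    (g : ℕ → W.H Z) (hg : ∀ n, g n ∈ W.gr Z n) (hs : l ∉ s → g l = 0)
    (h : ∑ n ∈ s, g n = x) : g l = x := by
  classical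
  have hd := (W.graded Z).indep l
  have e : x - g l = ∑ n ∈ s.erase l, g n := by
    by_cases hl : l ∈ s
    · rw [← h, ← Finset.add_sum_erase s g hl, add_sub_cancel_left]
    · rw [hs hl, sub_zero, Finset.erase_eq_of_notMem hl, h]
  have h1 : x - g l ∈ W.gr Z l := Submodule.sub_mem _ hx (hg l)
  have h2 : x - g l ∈ ⨆ (j : ℕ) (_ : j ≠ l), W.gr Z j := by
    rw [e]
    refine Submodule.sum_mem _ fun n hn => ?_
    exact Submodule.mem_iSup_of_mem n
      (Submodule.mem_iSup_of_mem (Finset.ne_of_mem_erase hn) (hg n))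
  have h3 : x - g l = 0 := Submodule.disjoint_def.1 hd _ h1 h2
  exact (sub_eq_zero.1 h3).symm

variable (W) in
lemma k1_mem_span {Z : SmProjVar k} {S : Set (W.H Z)} (hS : ∀ z ∈ S, ∃ n, z ∈ W.gr Z n)
    (hspan : Submodule.span K S = ⊤) {l : ℕ} {x : W.H Z} (hx : x ∈ W.gr Z l) :
    x ∈ Submodule.span K {z | z ∈ S ∧ z ∈ W.gr Z l} := by
  have h1 : x ∈ ⨆ n, Submodule.span K {z | z ∈ S ∧ z ∈ W.gr Z n} := by
    have h0 : Submodule.span K S ≤ ⨆ n, Submodule.span K {z | z ∈ S ∧ z ∈ W.gr Z n} := by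
      refine Submodule.span_le.2 fun z hz => ?_
      obtain ⟨n, hn⟩ := hS z hz
      exact Submodule.mem_iSup_of_mem n (Submodule.subset_span ⟨hz, hn⟩)
    exact h0 (hspan ▸ Submodule.mem_top)
  have hle : ∀ n, Submodule.span K {z | z ∈ S ∧ z ∈ W.gr Z n} ≤ W.gr Z n := fun n =>
    Submodule.span_le.2 fun z hz => hz.2
  obtain ⟨f, hf, hfx⟩ := (Submodule.mem_iSup_iff_exists_finsupp _ x).1 h1
  have h2 := k1_eq_of_sum W hx f.support f (fun n => hle n (hf n))
    (fun hl => Finsupp.notMem_support_iff.1 hl) hfx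
  rw [← h2]
  exact hf l

variable (W) in
lemma k1_lift {Z N : SmProjVar k} (j : Z.toOver ⟶ N.toOver) {l : ℕ} {x : W.H Z}
    (hx : x ∈ W.gr Z l) (h : x ∈ Set.range (W.pull j)) : ∃ x' ∈ W.gr N l, W.pull j x' = x := by
  obtain ⟨x', rfl⟩ := h
  have hx' : x' ∈ ⨆ n, W.gr N n := by rw [(W.graded N).iSup_eq_top]; trivial
  obtain ⟨f, hf, hfx⟩ := (Submodule.mem_iSup_iff_exists_finsupp (W.gr N) x').1 hx'
  refine ⟨f l, hf l, ?_⟩
  refine k1_eq_of_sum W hx f.support (fun n => W.pull j (f n))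
    (fun n => (W.pull_hom j).map_mem _ _ (hf n)) (fun hl => ?_) ?_
  · rw [Finsupp.notMem_support_iff.1 hl, ChowTheory.pull_zero]
  · rw [← hfx, Finsupp.sum]
    exact (map_sum (pullL W j) _ _).symm

variable (W) in
/-- The homogeneous products span the cohomology of a product. -/
lemma k1_span_prod (X Y : SmProjVar k) : Submodule.span K
    {z : W.H (X.prod Y) | ∃ a b, ∃ x ∈ W.gr X a, ∃ y ∈ W.gr Y b,
      z = W.pull (fst X Y) x * W.pull (snd X Y) y} = ⊤ := by
  rw [eq_top_iff, ← span_kunneth W X Y]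
  refine Submodule.span_le.2 ?_
  rintro _ ⟨x, y, rfl⟩
  have hx : x ∈ ⨆ n, W.gr X n := by rw [(W.graded X).iSup_eq_top]; trivial
  have hy : y ∈ ⨆ n, W.gr Y n := by rw [(W.graded Y).iSup_eq_top]; trivial
  change pullL W (fst X Y) x * pullL W (snd X Y) y ∈ Submodule.span K _
  refine Submodule.iSup_induction (W.gr X)
    (motive := fun x => pullL W (fst X Y) x * pullL W (snd X Y) y ∈ Submodule.span K _)
    hx ?_ ?_ ?_
  · intro a x hx
    refine Submodule.iSup_induction (W.gr Y)
      (motive := fun y => pullL W (fst X Y) x * pullL W (snd X Y) y ∈ Submodule.span K _)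
      hy ?_ ?_ ?_
    · intro b y hy
      exact Submodule.subset_span ⟨a, b, x, hx, y, hy, rfl⟩
    · rw [map_zero, mul_zero]
      exact Submodule.zero_mem _
    · intro y y' h h'
      rw [map_add, mul_add]
      exact Submodule.add_mem _ h h'
  · rw [map_zero, zero_mul]
    exact Submodule.zero_mem _
  · intro x x' h h'
    rw [map_add, add_mul]
    exact Submodule.add_mem _ h h'

variable (W) in
/-- `H^l(X × Y)` is spanned by the products of classes of degrees `a`, `b` with `a + b = l`. -/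
lemma k1_gr_prod (X Y : SmProjVar k) {l : ℕ} {P : Submodule K (W.H (X.prod Y))}
    (h : ∀ a b, a + b = l → ∀ x ∈ W.gr X a, ∀ y ∈ W.gr Y b,
      W.pull (fst X Y) x * W.pull (snd X Y) y ∈ P) : W.gr (X.prod Y) l ≤ P := by
  intro z hz
  have h1 := k1_mem_span W (S := {z : W.H (X.prod Y) | ∃ a b, ∃ x ∈ W.gr X a, ∃ y ∈ W.gr Y b,
      z = W.pull (fst X Y) x * W.pull (snd X Y) y}) ?_ (k1_span_prod W X Y) hz
  · refine (Submodule.span_le.2 ?_ : Submodule.span K _ ≤ P) h1
    rintro _ ⟨⟨a, b, x, hx, y, hy, rfl⟩, hl⟩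
    by_cases hab : a + b = l
    · exact h a b hab x hx y hy
    · have hm : W.pull (fst X Y) x * W.pull (snd X Y) y ∈ W.gr (X.prod Y) (a + b) :=
        (W.graded _).mul_mem _ _ _ _ ((W.pull_hom _).map_mem _ _ hx)
          ((W.pull_hom _).map_mem _ _ hy)
      have h0 : W.pull (fst X Y) x * W.pull (snd X Y) y = 0 :=
        Submodule.disjoint_def.1 ((W.graded (X.prod Y)).indep.pairwiseDisjoint hab) _ hm hl
      rw [h0]
      exact Submodule.zero_mem _
  · rintro _ ⟨a, b, x, hx, y, hy, rfl⟩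
    exact ⟨a + b, (W.graded _).mul_mem _ _ _ _ ((W.pull_hom _).map_mem _ _ hx)
      ((W.pull_hom _).map_mem _ _ hy)⟩

end Aux

/-- **PW-K1.** -/
theorem algIn_prod {l : ℕ} (h : ∀ a b, a + b = l → (AlgIn C X a ∧ AlgIn C Y b) ∨
    W.gr X a = ⊥ ∨ W.gr Y b = ⊥) : AlgIn C (X.prod Y) l := by
  intro z hz
  refine k1_gr_prod W X Y (P := Submodule.span K
    {z | ∃ i, 2 * i = l ∧ ∃ a ∈ CHi (X.prod Y) i, C.ops.cl (X.prod Y) a = z}) ?_ hz
  intro a b hab x hx y hy
  rcases h a b hab with ⟨h1, h2⟩ | h1 | h1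
  · change pullL W (fst X Y) x * pullL W (snd X Y) y ∈ _
    refine Submodule.span_induction
      (p := fun x _ => pullL W (fst X Y) x * pullL W (snd X Y) y ∈ _) ?_ ?_ ?_ ?_ (h1 x hx)
    · rintro _ ⟨i, hi, α, hα, rfl⟩
      refine Submodule.span_induction
        (p := fun y _ => pullL W (fst X Y) (C.ops.cl X α) * pullL W (snd X Y) y ∈ _)
        ?_ ?_ ?_ ?_ (h2 y hy)
      · rintro _ ⟨j, hj, β, hβ, rfl⟩
        refine Submodule.subset_span ⟨i + j, by omega, extProd C α β, extProd_mem hα hβ, ?_⟩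
        exact cl_extProd α β
      · rw [map_zero, mul_zero]
        exact Submodule.zero_mem _
      · intro y y' _ _ h h'
        rw [map_add, mul_add]
        exact Submodule.add_mem _ h h'
      · intro r y _ h
        rw [map_smul, mul_smul_comm]
        exact Submodule.smul_mem _ _ h
    · rw [map_zero, zero_mul]
      exact Submodule.zero_mem _
    · intro y y' _ _ h h'
      rw [map_add, add_mul]
      exact Submodule.add_mem _ h h'
    · intro r y _ h
      rw [map_smul, smul_mul_assoc]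
      exact Submodule.smul_mem _ _ h
  · rw [h1] at hx
    rw [(Submodule.mem_bot K).1 hx, ChowTheory.pull_zero, zero_mul]
    exact Submodule.zero_mem _
  · rw [h1] at hy
    rw [(Submodule.mem_bot K).1 hy, ChowTheory.pull_zero, mul_zero]
    exact Submodule.zero_mem _

/-- **PW-K2.** -/
theorem algIn_of_decomposable (hΔ : C.Δ M ∈ decomposable C M) (l : ℕ) : AlgIn C M l := by
  intro x hx
  have key : ∀ z ∈ decomposable C M, ∃ t ∈ Submodule.span K
      {z | ∃ i, 2 * i = l ∧ ∃ a ∈ CHi M i, C.ops.cl M a = z}, ∀ y,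
      pairH C x y z = W.tr M (t * y) := by
    intro z hz
    rw [decomposable_eq] at hz
    refine Submodule.span_induction (p := fun z _ => ∃ t ∈ Submodule.span K
      {z | ∃ i, 2 * i = l ∧ ∃ a ∈ CHi M i, C.ops.cl M a = z}, ∀ y,
      pairH C x y z = W.tr M (t * y)) ?_ ?_ ?_ ?_ hz
    · rintro _ ⟨i, j, hij, b, hb, a, ha, rfl⟩
      by_cases hl : 2 * i = l
      · refine ⟨W.tr M (x * C.cl M b) • C.ops.cl M a,
          Submodule.smul_mem _ _ (Submodule.subset_span ⟨i, hl, a, ha, rfl⟩), fun y => ?_⟩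
        rw [pairH_extProd, smul_mul_assoc, (W.trace M).map_smul]
        rfl
      · refine ⟨0, Submodule.zero_mem _, fun y => ?_⟩
        rw [pairH_extProd, (W.trace M).eq_zero (l + 2 * j) _ (by omega)
          ((W.graded M).mul_mem l (2 * j) _ _ hx (C.cl_mem _ _ _ hb)), zero_mul, zero_mul,
          ChowTheory.tr_zero]
    · refine ⟨0, Submodule.zero_mem _, fun y => ?_⟩
      rw [map_zero, zero_mul, ChowTheory.tr_zero]
    · rintro z z' _ _ ⟨t, ht, h⟩ ⟨t', ht', h'⟩
      refine ⟨t + t', Submodule.add_mem _ ht ht', fun y => ?_⟩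
      rw [map_add, h, h', add_mul, (W.trace M).map_add]
    · rintro q z _ ⟨t, ht, h⟩
      refine ⟨(q : K) • t, Submodule.smul_mem _ _ ht, fun y => ?_⟩
      rw [pairH_smul, h, smul_mul_assoc, (W.trace M).map_smul]
  obtain ⟨t, ht, h⟩ := key _ hΔ
  have e : x = t := by
    apply eq_of_tr W
    intro y
    rw [← h y, pairH_Δ]
  rw [e]
  exact ht

/-- **PW-K3.** -/
theorem algIn_of_surj (j : X.toOver ⟶ M.toOver) {l : ℕ} (hM : AlgIn C M l)
    (h : ∀ x ∈ W.gr X l, x ∈ Set.range (W.pull j)) : AlgIn C X l := by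
  intro x hx
  obtain ⟨x', hx', rfl⟩ := k1_lift W j hx (h x hx)
  change pullL W j x' ∈ _
  refine Submodule.span_induction (p := fun x' _ => pullL W j x' ∈ Submodule.span K
    {z | ∃ i, 2 * i = l ∧ ∃ a ∈ CHi X i, C.ops.cl X a = z}) ?_ ?_ ?_ ?_ (hM x' hx')
  · rintro _ ⟨i, hi, a, ha, rfl⟩
    exact Submodule.subset_span ⟨i, hi, C.pull j a, C.pull_mem _ _ _ ha, C.cl_pull j a⟩
  · rw [map_zero]
    exact Submodule.zero_mem _
  · intro y y' _ _ h h'
    rw [map_add]
    exact Submodule.add_mem _ h h'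
  · intro r y _ h
    rw [map_smul]
    exact Submodule.smul_mem _ _ h

/-! ### Powers -/

section Aux6

lemma k1_pull_bij {Z N : SmProjVar k} (j : Z.toOver ⟶ N.toOver) (i : N.toOver ⟶ Z.toOver)
    (h : j ≫ i = 𝟙 _) (x : W.H Z) : W.pull j (W.pull i x) = x := by
  rw [← W.pull_comp, h, W.pull_id]

lemma k1_algIn_iso {Z N : SmProjVar k} (j : Z.toOver ⟶ N.toOver) (i : N.toOver ⟶ Z.toOver)
    (h : j ≫ i = 𝟙 _) {l : ℕ} (hN : AlgIn C N l) : AlgIn C Z l :=
  algIn_of_surj j hN fun x _ => ⟨W.pull i x, k1_pull_bij j i h x⟩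

lemma k1_gr_iso {Z N : SmProjVar k} (j : Z.toOver ⟶ N.toOver) (i : N.toOver ⟶ Z.toOver)
    (h : j ≫ i = 𝟙 _) {l : ℕ} (hN : W.gr N l = ⊥) : W.gr Z l = ⊥ := by
  rw [eq_bot_iff]
  intro x hx
  have h1 : W.pull i x ∈ W.gr N l := (W.pull_hom i).map_mem _ _ hx
  rw [hN, Submodule.mem_bot] at h1
  rw [Submodule.mem_bot, ← k1_pull_bij j i h x, h1, ChowTheory.pull_zero]

/-- A power with no factors is a point. -/
lemma k1_point (A : Pow X PEmpty) : (∀ l, AlgIn C A.var l) ∧ ∀ l, 0 < l → W.gr A.var l = ⊥ := by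
  obtain ⟨P, hP, hiso⟩ := exists_point k
  let j : A.var.toOver ⟶ P.toOver := Over.homMk (A.var.toOver.hom ≫ inv P.toOver.hom) (by
    rw [Category.assoc, IsIso.inv_hom_id, Category.comp_id])
  let i : P.toOver ⟶ A.var.toOver := A.lift fun t => t.elim
  have hji : j ≫ i = 𝟙 _ := A.hom_ext fun t => t.elim
  have hgr : ∀ l, 0 < l → W.gr P l = ⊥ := fun l hl =>
    (W.graded P).eq_bot l (by rw [hP]; omega)
  refine ⟨fun l => k1_algIn_iso j i hji ?_, fun l hl => k1_gr_iso j i hji (hgr l hl)⟩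
  intro x hx
  by_cases hl : l = 0
  · subst hl
    obtain ⟨x0, -, hx0⟩ := (W.trace P).bijective (W.tr P x)
    have e1 : x = x0 := hx0 x ⟨by rw [hP]; exact hx, rfl⟩
    have h1 : (1 : W.H P) ∈ W.gr P 0 := (W.graded P).one_mem
    obtain ⟨y0, hy0, -⟩ := (W.trace P).bijective 1
    have hy0' : y0 ∈ W.gr P 0 := by
      have := hy0.1
      rwa [hP] at this
    have ht1 : W.tr P 1 ≠ 0 := by
      intro h0
      have h2 : (1 : W.H P) = 0 := by
        obtain ⟨z0, -, hz0⟩ := (W.trace P).bijective 0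
        rw [hz0 1 ⟨by rw [hP]; exact h1, h0⟩, hz0 0 ⟨Submodule.zero_mem _, ChowTheory.tr_zero P⟩]
      have h3 : y0 = 0 := by rw [← mul_one y0, h2, mul_zero]
      have h4 := hy0.2
      rw [h3, ChowTheory.tr_zero] at h4
      exact zero_ne_one h4
    have e2 : x = (W.tr P x / W.tr P 1) • (1 : W.H P) := by
      rw [e1]
      symm
      apply hx0
      refine ⟨by rw [hP]; exact Submodule.smul_mem _ _ h1, ?_⟩
      rw [(W.trace P).map_smul, ← e1, div_mul_cancel₀ _ ht1]
    rw [e2]
    refine Submodule.smul_mem _ _ (Submodule.subset_span ⟨0, rfl, one P, ?_, cl_one C P⟩)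
    exact ChowTheory.one_mem_iff (pointDim_genericPt W P)
  · rw [hgr l (by omega), Submodule.mem_bot] at hx
    rw [hx]
    exact Submodule.zero_mem _

/-- Two powers with the same index set are isomorphic. -/
lemma k1_iso (A B : Pow X T) : A.map B id ≫ B.map A id = 𝟙 _ := by
  rw [Pow.map_comp]
  exact Pow.map_id A

lemma k1_pow (hX : ∀ l, l ≠ X.dim → AlgIn C X l) (T : Type) [Finite T] : ∀ A : Pow X T,
    (∀ l, l < X.dim ∨ 2 * (Nat.card T * X.dim) < l + X.dim → AlgIn C A.var l) ∧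
      ∀ l, 2 * (Nat.card T * X.dim) < l → W.gr A.var l = ⊥ := by
  induction T using Finite.induction_empty_option with
  | of_equiv e ih =>
    intro A
    have := ih (A.relabel e)
    rwa [Nat.card_congr e] at this
  | h_empty =>
    intro A
    refine ⟨fun l _ => (k1_point A).1 l, fun l hl => (k1_point (C := C) A).2 l ?_⟩
    omega
  | @h_option S hS ih =>
    intro A
    have : Finite S := Finite.of_fintype S
    let B : Pow X S := pw X S
    let D : Pow X (Option S) := (B.prod (Pow.single X)).relabel (Equiv.optionEquivSumPUnit S)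
    have hDA : A.map D id ≫ D.map A id = 𝟙 _ := k1_iso A D
    have hcard : Nat.card (Option S) = Nat.card S + 1 := by
      rw [Finite.card_option]
    obtain ⟨ih1, ih2⟩ := ih B
    constructor
    · intro l hl
      refine k1_algIn_iso (A.map D id) (D.map A id) hDA ?_
      change AlgIn C (B.var.prod X) l
      refine algIn_prod fun a b hab => ?_
      rw [hcard, Nat.add_mul, Nat.one_mul] at hl
      rcases hl with hl | hl
      · exact Or.inl ⟨ih1 a (Or.inl (by omega)), hX b (by omega)⟩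
      · by_cases hb : 2 * X.dim < b
        · exact Or.inr (Or.inr ((W.graded X).eq_bot b hb))
        · by_cases ha : 2 * (Nat.card S * X.dim) < a
          · exact Or.inr (Or.inl (ih2 a ha))
          · exact Or.inl ⟨ih1 a (Or.inr (by omega)), hX b (by omega)⟩
    · intro l hl
      refine k1_gr_iso (A.map D id) (D.map A id) hDA ?_
      change W.gr (B.var.prod X) l = ⊥
      rw [hcard, Nat.add_mul, Nat.one_mul] at hl
      rw [eq_bot_iff]
      refine k1_gr_prod W B.var X fun a b hab x hx y hy => ?_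
      by_cases hb : 2 * X.dim < b
      · rw [(W.graded X).eq_bot b hb, Submodule.mem_bot] at hy
        rw [hy, ChowTheory.pull_zero, mul_zero]
        exact Submodule.zero_mem _
      · rw [ih2 a (by omega), Submodule.mem_bot] at hx
        rw [hx, ChowTheory.pull_zero, zero_mul]
        exact Submodule.zero_mem _

end Aux6

/-- **PW-K6.** -/
theorem algIn_pow (hX : ∀ l, l ≠ X.dim → AlgIn C X l) [Finite T] (A : Pow X T) {l : ℕ}
    (hl : l < X.dim ∨ 2 * (Nat.card T * X.dim) < l + X.dim) : AlgIn C A.var l :=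
  (k1_pow hX T A).1 l hl

end Pool.Agent.Helper11.PW
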