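import Mathlib
import Pool.Agent.Helper11.PW.St.K1

/-!
# PW-K: Künneth components and algebraic classes on powers

`AlgIn C X l`: `H^l(X)` is spanned by algebraic classes (so it is zero if `l` is odd).

Hints.
* `algIn_prod`: `H(X) ⊗ H(Y) = H(X × Y)` (`span_kunneth` in `Chow/Corr.lean`), graded pieces.
* `algIn_of_surj`: pull-back of algebraic classes.
* `algIn_of_decomposable`: `x ∈ H^l(M)`: `tr (x y) = pairH x y (Δ M) = ∑ tr (x cl b) tr (cl a y)`.
* `hasKunneth_prod`: for `X × Y` take `∑_{i + j = l} (c_i × c_j)` transported by the permutation of the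
  factors `(X × Y) × (X × Y) ≅ (X × X) × (Y × Y)`.
* `hasKunneth_pow`: induction on `T` (`Finite.induction_empty_option`).
* `murreD_of_algIn`: for `j ≥ 2 i` let `j = 2 l` (`π j` is homologically trivial for odd `j` as
  `H^j = 0`); `exists_proj` gives `e ∈ algProj` with the same cohomological action, `h = π j - e` is
  homologically trivial, hence nilpotent; for `a` homologically trivial `act e a = 0`
  (`act_algProj_hom`), so `act (π j) a = act h a`, which is again homologically trivial and fixed by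
  `π j`; hence `act (π j) a = act (h^m) a = 0`.  So `a = ∑_{j < 2 i} act (π j) a`; `murreD_iff`.
-/

universe u v w

open CategoryTheory AlgebraicGeometry Limits

namespace Pool.Agent.Helper11.PW

open Pool.Agent.Helper10 Pool.Agent.Helper10.SmProjVar Pool.Agent.Helper47.Chow
open Pool.Agent.Helper47.Desc

variable {k : Type u} [Field k] {K : Type v} [Field K] [CharZero K]
  {W : WeilCohomology.{u, v, w} k K} {C : ChowTheory W} {X Y M : SmProjVar k} {T : Type}

section K4Iso

variable {Y Z : SmProjVar k} (θ : Y.toOver ⟶ Z.toOver) (ψ : Z.toOver ⟶ Y.toOver)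

private lemma K4_push_eq_pull (C : ChowTheory W) (h1 : θ ≫ ψ = 𝟙 _) (h2 : ψ ≫ θ = 𝟙 _)
    (a : CH Z) : C.push ψ a = C.pull θ a := by
  have hiso : IsIso ψ := ⟨θ, h2, h1⟩
  have hl : IsIso ψ.left := inferInstanceAs (IsIso ((Over.forget _).map ψ))
  have hp : IsPullback (𝟙 Z.toOver) (𝟙 Z.toOver) ψ ψ := IsPullback.of_vert_isIso ⟨rfl⟩
  have hb := C.base_change ψ ψ (𝟙 _) (𝟙 _) hp inferInstance a
  rw [C.pull_id, C.push_id] at hb
  rw [← C.pull_id Y (C.push ψ a), ← h1, C.pull_comp, hb]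

/-- The trace is invariant under isomorphisms. -/
private lemma K4_tr_pull (C : ChowTheory W) (h1 : θ ≫ ψ = 𝟙 _) (h2 : ψ ≫ θ = 𝟙 _) (z : W.H Z) :
    W.tr Y (W.pull θ z) = W.tr Z z := by
  have h := C.cl_push θ (one Y) z
  have h3 : C.push θ (one Y) = one Z := by
    rw [← C.pull_one θ, ← K4_push_eq_pull θ ψ C h1 h2, ← C.push_comp, h2, C.push_id]
  rw [h3, cl_one, cl_one, _root_.one_mul, _root_.one_mul] at h
  exact h.symm

private lemma K4_dim_le (W : WeilCohomology.{u, v, w} k K) (h2 : ψ ≫ θ = 𝟙 _) :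
    Z.dim ≤ Y.dim := by
  by_contra hlt
  obtain ⟨x, ⟨hx, hx1⟩, _⟩ := (W.trace Z).bijective 1
  have h3 : W.pull θ x = 0 := by
    have := (W.pull_hom θ).map_mem _ _ hx
    rw [(W.graded Y).eq_bot (2 * Z.dim) (by omega)] at this
    simpa using this
  have h4 : x = W.pull ψ (W.pull θ x) := by rw [← W.pull_comp, h2, W.pull_id]
  have h5 : W.pull ψ 0 = 0 := by
    have := (W.pull_hom ψ).map_smul 0 0
    simpa using this
  have h6 : W.tr Z 0 = 0 := by
    have := (W.trace Z).map_smul 0 0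
    simpa using this
  rw [h4, h3, h5, h6] at hx1
  exact zero_ne_one hx1

/-- `HasKunneth` is invariant under isomorphisms. -/
private lemma K4_iso (h1 : θ ≫ ψ = 𝟙 _) (h2 : ψ ≫ θ = 𝟙 _)
    (hY : Helper47.Zero.HasKunneth C Y) : Helper47.Zero.HasKunneth C Z := by
  have hdim : Y.dim = Z.dim := le_antisymm (K4_dim_le ψ θ W h1) (K4_dim_le θ ψ W h2)
  intro l
  obtain ⟨p, hp, hid, hzero⟩ := hY l
  let g : (Z.prod Z).toOver ⟶ (Y.prod Y).toOver := lift (fst Z Z ≫ ψ) (snd Z Z ≫ ψ)
  let g' : (Y.prod Y).toOver ⟶ (Z.prod Z).toOver := lift (fst Y Y ≫ θ) (snd Y Y ≫ θ)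
  have hg1 : g ≫ fst Y Y = fst Z Z ≫ ψ := lift_fst _ _
  have hg2 : g ≫ snd Y Y = snd Z Z ≫ ψ := lift_snd _ _
  have hg1' : g' ≫ fst Z Z = fst Y Y ≫ θ := lift_fst _ _
  have hg2' : g' ≫ snd Z Z = snd Y Y ≫ θ := lift_snd _ _
  have e1 : g ≫ g' = 𝟙 _ := by
    apply hom_ext
    · rw [Category.assoc, hg1', ← Category.assoc, hg1, Category.assoc, h2, Category.comp_id,
        Category.id_comp]
    · rw [Category.assoc, hg2', ← Category.assoc, hg2, Category.assoc, h2, Category.comp_id,
        Category.id_comp]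
  have e2 : g' ≫ g = 𝟙 _ := by
    apply hom_ext
    · rw [Category.assoc, hg1, ← Category.assoc, hg1', Category.assoc, h1, Category.comp_id,
        Category.id_comp]
    · rw [Category.assoc, hg2, ← Category.assoc, hg2', Category.assoc, h1, Category.comp_id,
        Category.id_comp]
  have hact : ∀ x y : W.H Z, Helper47.Zero.dualAct C (C.pull g p) x y
      = Helper47.Zero.dualAct C p (W.pull θ x) (W.pull θ y) := by
    intro x y
    change W.tr (Z.prod Z) (W.pull (fst Z Z) x * C.cl _ (C.pull g p) * W.pull (snd Z Z) y)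
      = W.tr (Y.prod Y) (W.pull (fst Y Y) (W.pull θ x) * C.cl _ p *
        W.pull (snd Y Y) (W.pull θ y))
    rw [C.cl_pull, ← K4_tr_pull g g' C e1 e2, (W.pull_hom g).map_mul, (W.pull_hom g).map_mul,
      ← W.pull_comp g, ← W.pull_comp g, hg1, hg2, ← W.pull_comp, ← W.pull_comp, Category.assoc,
      Category.assoc, h2, Category.comp_id, Category.comp_id]
  refine ⟨C.pull g p, ?_, ?_, ?_⟩
  · rw [← hdim]
    exact C.pull_mem _ _ _ hp
  · intro x hx y
    rw [hact, hid _ ((W.pull_hom θ).map_mem _ _ hx)]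
    change W.tr Y (W.pull θ x * W.pull θ y) = W.tr Z (x * y)
    rw [← (W.pull_hom θ).map_mul, K4_tr_pull θ ψ C h1 h2]
  · intro m hm x hx y
    rw [hact, hzero m hm _ ((W.pull_hom θ).map_mem _ _ hx)]

end K4Iso

section K4Prod

variable (X Y)

/-- `((x, y), (x', y')) ↦ (x, x')`. -/
private noncomputable def K4a : ((X.prod Y).prod (X.prod Y)).toOver ⟶ (X.prod X).toOver :=
  lift (fst (X.prod Y) (X.prod Y) ≫ fst X Y) (snd (X.prod Y) (X.prod Y) ≫ fst X Y)

/-- `((x, y), (x', y')) ↦ (y, y')`. -/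
private noncomputable def K4b : ((X.prod Y).prod (X.prod Y)).toOver ⟶ (Y.prod Y).toOver :=
  lift (fst (X.prod Y) (X.prod Y) ≫ snd X Y) (snd (X.prod Y) (X.prod Y) ≫ snd X Y)

private lemma K4a_fst : K4a X Y ≫ fst X X = fst (X.prod Y) (X.prod Y) ≫ fst X Y := lift_fst _ _
private lemma K4a_snd : K4a X Y ≫ snd X X = snd (X.prod Y) (X.prod Y) ≫ fst X Y := lift_snd _ _
private lemma K4b_fst : K4b X Y ≫ fst Y Y = fst (X.prod Y) (X.prod Y) ≫ snd X Y := lift_fst _ _
private lemma K4b_snd : K4b X Y ≫ snd Y Y = snd (X.prod Y) (X.prod Y) ≫ snd X Y := lift_snd _ _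

private noncomputable def K4σ : ((X.prod Y).prod (X.prod Y)).toOver ⟶
    ((X.prod X).prod (Y.prod Y)).toOver := lift (K4a X Y) (K4b X Y)

private noncomputable def K4τ : ((X.prod X).prod (Y.prod Y)).toOver ⟶
    ((X.prod Y).prod (X.prod Y)).toOver :=
  lift (lift (fst (X.prod X) (Y.prod Y) ≫ fst X X) (snd (X.prod X) (Y.prod Y) ≫ fst Y Y))
    (lift (fst (X.prod X) (Y.prod Y) ≫ snd X X) (snd (X.prod X) (Y.prod Y) ≫ snd Y Y))

private lemma K4στ : K4σ X Y ≫ K4τ X Y = 𝟙 _ := by
  apply hom_ext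
  · apply hom_ext
    · simp only [K4σ, K4τ, K4a, K4b, Category.assoc, lift_fst, lift_snd, lift_fst_assoc,
        lift_snd_assoc, Category.id_comp]
    · simp only [K4σ, K4τ, K4a, K4b, Category.assoc, lift_fst, lift_snd, lift_fst_assoc,
        lift_snd_assoc, Category.id_comp]
  · apply hom_ext
    · simp only [K4σ, K4τ, K4a, K4b, Category.assoc, lift_fst, lift_snd, lift_fst_assoc,
        lift_snd_assoc, Category.id_comp]
    · simp only [K4σ, K4τ, K4a, K4b, Category.assoc, lift_fst, lift_snd, lift_fst_assoc,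
        lift_snd_assoc, Category.id_comp]

private lemma K4τσ : K4τ X Y ≫ K4σ X Y = 𝟙 _ := by
  apply hom_ext
  · apply hom_ext
    · simp only [K4σ, K4τ, K4a, K4b, Category.assoc, lift_fst, lift_snd, lift_fst_assoc,
        lift_snd_assoc, Category.id_comp]
    · simp only [K4σ, K4τ, K4a, K4b, Category.assoc, lift_fst, lift_snd, lift_fst_assoc,
        lift_snd_assoc, Category.id_comp]
  · apply hom_ext
    · simp only [K4σ, K4τ, K4a, K4b, Category.assoc, lift_fst, lift_snd, lift_fst_assoc,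
        lift_snd_assoc, Category.id_comp]
    · simp only [K4σ, K4τ, K4a, K4b, Category.assoc, lift_fst, lift_snd, lift_fst_assoc,
        lift_snd_assoc, Category.id_comp]

variable {X Y}

private lemma K4_tr (C : ChowTheory W) (u : W.H (X.prod X)) (v : W.H (Y.prod Y)) :
    W.tr _ (W.pull (K4a X Y) u * W.pull (K4b X Y) v) = W.tr _ u * W.tr _ v := by
  have e1 : K4σ X Y ≫ fst (X.prod X) (Y.prod Y) = K4a X Y := lift_fst _ _
  have e2 : K4σ X Y ≫ snd (X.prod X) (Y.prod Y) = K4b X Y := lift_snd _ _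
  rw [← e1, ← e2, W.pull_comp, W.pull_comp, ← (W.pull_hom _).map_mul,
    K4_tr_pull (K4σ X Y) (K4τ X Y) C (K4στ X Y) (K4τσ X Y), W.tr_prod]

/-- The class `x × y`. -/
private noncomputable def K4t (W : WeilCohomology.{u, v, w} k K) (x : W.H X) (y : W.H Y) :
    W.H (X.prod Y) := W.pull (fst X Y) x * W.pull (snd X Y) y

private lemma K4_dual {b c : ℕ} (x x' : W.H X) (y y' : W.H Y) (hy : y ∈ W.gr Y b)
    (hx' : x' ∈ W.gr X c) :
    Helper47.Zero.dual W (K4t W x y) (K4t W x' y') =
      (-1 : K) ^ (b * c) * (Helper47.Zero.dual W x x' * Helper47.Zero.dual W y y') := by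
  change W.tr _ (W.pull (fst X Y) x * W.pull (snd X Y) y *
    (W.pull (fst X Y) x' * W.pull (snd X Y) y')) = _ * (W.tr X (x * x') * W.tr Y (y * y'))
  have hc := (W.graded (X.prod Y)).comm b c _ _ ((W.pull_hom (snd X Y)).map_mem _ _ hy)
    ((W.pull_hom (fst X Y)).map_mem _ _ hx')
  have h1 : W.pull (fst X Y) x * W.pull (snd X Y) y * (W.pull (fst X Y) x' * W.pull (snd X Y) y')
      = (-1 : K) ^ (b * c) • (W.pull (fst X Y) (x * x') * W.pull (snd X Y) (y * y')) := by
    calc W.pull (fst X Y) x * W.pull (snd X Y) y * (W.pull (fst X Y) x' * W.pull (snd X Y) y')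
        = W.pull (fst X Y) x * (W.pull (snd X Y) y * W.pull (fst X Y) x') *
            W.pull (snd X Y) y' := by simp only [_root_.mul_assoc]
      _ = _ := by
          rw [hc, (W.pull_hom _).map_mul, (W.pull_hom _).map_mul, mul_smul_comm, smul_mul_assoc]
          simp only [_root_.mul_assoc]
  rw [h1, (W.trace _).map_smul, W.tr_prod]

private lemma K4_dualAct {b c : ℕ} {p : CH (X.prod X)} {q : CH (Y.prod Y)}
    (hp : p ∈ CHi (X.prod X) X.dim) (hq : q ∈ CHi (Y.prod Y) Y.dim)
    (x x' : W.H X) (y y' : W.H Y) (hy : y ∈ W.gr Y b) (hx' : x' ∈ W.gr X c) :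
    Helper47.Zero.dualAct C (C.mul _ (C.pull (K4a X Y) p) (C.pull (K4b X Y) q))
        (K4t W x y) (K4t W x' y') =
      (-1 : K) ^ (b * c) * (Helper47.Zero.dualAct C p x x' * Helper47.Zero.dualAct C q y y') := by
  change W.tr _ (W.pull (fst (X.prod Y) (X.prod Y)) (W.pull (fst X Y) x * W.pull (snd X Y) y) *
    C.cl _ (C.mul _ (C.pull (K4a X Y) p) (C.pull (K4b X Y) q)) *
      W.pull (snd (X.prod Y) (X.prod Y)) (W.pull (fst X Y) x' * W.pull (snd X Y) y')) =
    _ * (W.tr _ (W.pull (fst X X) x * C.cl _ p * W.pull (snd X X) x') *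
      W.tr _ (W.pull (fst Y Y) y * C.cl _ q * W.pull (snd Y Y) y'))
  rw [C.cl_mul, C.cl_pull, C.cl_pull, (W.pull_hom _).map_mul, (W.pull_hom _).map_mul,
    ← W.pull_comp, ← W.pull_comp, ← W.pull_comp, ← W.pull_comp, ← K4a_fst, ← K4a_snd, ← K4b_fst,
    ← K4b_snd, W.pull_comp, W.pull_comp, W.pull_comp, W.pull_comp, ← K4_tr C]
  generalize hu : W.pull (fst X X) x = u
  generalize hu' : W.pull (snd X X) x' = u'
  generalize hv : W.pull (fst Y Y) y = v
  generalize hv' : W.pull (snd Y Y) y' = v'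
  have hvm : W.pull (K4b X Y) v ∈ W.gr _ b := by
    rw [← hv]
    exact (W.pull_hom _).map_mem _ _ ((W.pull_hom _).map_mem _ _ hy)
  have hum : W.pull (K4a X Y) u' ∈ W.gr _ c := by
    rw [← hu']
    exact (W.pull_hom _).map_mem _ _ ((W.pull_hom _).map_mem _ _ hx')
  have hc := (W.graded ((X.prod Y).prod (X.prod Y))).comm b c _ _ hvm hum
  have hP : ∀ z, W.pull (K4a X Y) (C.cl _ p) * z = z * W.pull (K4a X Y) (C.cl _ p) := fun z =>
    even_comm W _ X.dim _ z ((W.pull_hom _).map_mem _ _ (C.cl_mem _ _ _ hp))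
  have hQ : ∀ z, W.pull (K4b X Y) (C.cl _ q) * z = z * W.pull (K4b X Y) (C.cl _ q) := fun z =>
    even_comm W _ Y.dim _ z ((W.pull_hom _).map_mem _ _ (C.cl_mem _ _ _ hq))
  simp only [(W.pull_hom (K4a X Y)).map_mul, (W.pull_hom (K4b X Y)).map_mul]
  generalize W.pull (K4a X Y) (C.cl _ p) = P at hP ⊢
  generalize W.pull (K4b X Y) (C.cl _ q) = Q at hQ ⊢
  generalize W.pull (K4a X Y) u = a1
  generalize W.pull (K4a X Y) u' = a2 at hc ⊢
  generalize W.pull (K4b X Y) v = b1 at hc ⊢
  generalize W.pull (K4b X Y) v' = b2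
  have h1 : a1 * b1 * (P * Q) * (a2 * b2) =
      (-1 : K) ^ (b * c) • (a1 * P * a2 * (b1 * Q * b2)) := by
    calc a1 * b1 * (P * Q) * (a2 * b2) = a1 * (b1 * P) * (Q * a2) * b2 := by
          simp only [_root_.mul_assoc]
      _ = a1 * (P * b1) * (a2 * Q) * b2 := by rw [← hP b1, hQ a2]
      _ = a1 * P * (b1 * a2) * Q * b2 := by simp only [_root_.mul_assoc]
      _ = (-1 : K) ^ (b * c) • (a1 * P * a2 * (b1 * Q * b2)) := by
          rw [hc]
          simp only [mul_smul_comm, smul_mul_assoc, _root_.mul_assoc]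
  rw [h1, (W.trace _).map_smul]

/-- The homogeneous decomposable classes of degree `n`. -/
private noncomputable def K4S (W : WeilCohomology.{u, v, w} k K) (X Y : SmProjVar k) (n : ℕ) :
    Submodule K (W.H (X.prod Y)) :=
  Submodule.span K {z | ∃ a b, a + b = n ∧ ∃ x ∈ W.gr X a, ∃ y ∈ W.gr Y b, z = K4t W x y}

private lemma K4S_le (n : ℕ) : K4S W X Y n ≤ W.gr (X.prod Y) n := by
  refine Submodule.span_le.2 ?_
  rintro _ ⟨a, b, rfl, x, hx, y, hy, rfl⟩
  exact (W.graded _).mul_mem _ _ _ _ ((W.pull_hom _).map_mem _ _ hx)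
    ((W.pull_hom _).map_mem _ _ hy)

private lemma K4t_add_left (x x' : W.H X) (y : W.H Y) :
    K4t W (x + x') y = K4t W x y + K4t W x' y := by
  unfold K4t
  rw [(W.pull_hom _).map_add, add_mul]

private lemma K4t_add_right (x : W.H X) (y y' : W.H Y) :
    K4t W x (y + y') = K4t W x y + K4t W x y' := by
  unfold K4t
  rw [(W.pull_hom _).map_add, mul_add]

private lemma K4S_top : ⨆ n, K4S W X Y n = ⊤ := by
  rw [eq_top_iff, ← span_kunneth W X Y, Submodule.span_le]
  rintro _ ⟨x, y, rfl⟩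
  change K4t W x y ∈ ⨆ n, K4S W X Y n
  have hx : x ∈ ⨆ j, W.gr X j := by rw [(W.graded X).iSup_eq_top]; trivial
  have hy : y ∈ ⨆ j, W.gr Y j := by rw [(W.graded Y).iSup_eq_top]; trivial
  have h0 : ∀ y : W.H Y, K4t W (0 : W.H X) y = 0 := fun y => by
    have h := K4t_add_left (0 : W.H X) 0 y
    rw [add_zero] at h
    exact left_eq_add.1 h
  have h0' : ∀ x : W.H X, K4t W x (0 : W.H Y) = 0 := fun x => by
    have h := K4t_add_right x (0 : W.H Y) 0
    rw [add_zero] at h
    exact left_eq_add.1 h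
  refine Submodule.iSup_induction (W.gr X)
    (motive := fun x => K4t W x y ∈ ⨆ n, K4S W X Y n) hx ?_ ?_ ?_
  · intro i x hx
    refine Submodule.iSup_induction (W.gr Y)
      (motive := fun y => K4t W x y ∈ ⨆ n, K4S W X Y n) hy ?_ ?_ ?_
    · intro j y hy
      exact Submodule.mem_iSup_of_mem (i + j)
        (Submodule.subset_span ⟨i, j, rfl, x, hx, y, hy, rfl⟩)
    · rw [h0']
      exact Submodule.zero_mem _
    · intro y y' h h'
      rw [K4t_add_right]
      exact Submodule.add_mem _ h h'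
  · rw [h0]
    exact Submodule.zero_mem _
  · intro x x' h h'
    rw [K4t_add_left]
    exact Submodule.add_mem _ h h'

private lemma K4_gr_le (n : ℕ) : W.gr (X.prod Y) n ≤ K4S W X Y n := by
  have h1 : ⨆ i, K4S W X Y i = K4S W X Y n ⊔ ⨆ (i) (_ : i ≠ n), K4S W X Y i :=
    iSup_split_single _ n
  have h2 : (K4S W X Y n ⊔ ⨆ (i) (_ : i ≠ n), K4S W X Y i) ⊓ W.gr (X.prod Y) n =
      K4S W X Y n ⊔ (⨆ (i) (_ : i ≠ n), K4S W X Y i) ⊓ W.gr (X.prod Y) n :=
    sup_inf_assoc_of_le _ (K4S_le n)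
  have h3 : (⨆ (i) (_ : i ≠ n), K4S W X Y i) ⊓ W.gr (X.prod Y) n = ⊥ := by
    rw [eq_bot_iff]
    have h := (W.graded (X.prod Y)).indep n
    rw [disjoint_iff, inf_comm] at h
    rw [← h]
    exact inf_le_inf_right _ (iSup₂_mono fun i _ => K4S_le i)
  rw [← h1, K4S_top, top_inf_eq, h3, sup_bot_eq] at h2
  rw [h2]

private lemma K4_dualAct_ext {p : CH ((X.prod Y).prod (X.prod Y))} {n : ℕ} (s : K)
    (h : ∀ a b c d, a + b = n → ∀ x ∈ W.gr X a, ∀ y ∈ W.gr Y b, ∀ x' ∈ W.gr X c,
      ∀ y' ∈ W.gr Y d, Helper47.Zero.dualAct C p (K4t W x y) (K4t W x' y') =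
        s * Helper47.Zero.dual W (K4t W x y) (K4t W x' y')) :
    ∀ z ∈ W.gr (X.prod Y) n, ∀ z' : W.H (X.prod Y),
      Helper47.Zero.dualAct C p z z' = s * Helper47.Zero.dual W z z' := by
  intro z hz z'
  change trL W _ (pullL W (fst _ _) z * C.cl _ p * pullL W (snd _ _) z') =
    s * trL W _ (z * z')
  have hz' : z' ∈ ⨆ j, K4S W X Y j := by rw [K4S_top]; trivial
  refine Submodule.span_induction (p := fun z _ =>
    trL W _ (pullL W (fst _ _) z * C.cl _ p * pullL W (snd _ _) z') = s * trL W _ (z * z'))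
    ?_ ?_ ?_ ?_ (K4_gr_le n hz)
  · rintro _ ⟨a, b, hab, x, hx, y, hy, rfl⟩
    refine Submodule.iSup_induction (K4S W X Y) (motive := fun z' =>
      trL W _ (pullL W (fst _ _) (K4t W x y) * C.cl _ p * pullL W (snd _ _) z') =
        s * trL W _ (K4t W x y * z')) hz' ?_ ?_ ?_
    · intro j z' hz'
      refine Submodule.span_induction (p := fun z' _ =>
        trL W _ (pullL W (fst _ _) (K4t W x y) * C.cl _ p * pullL W (snd _ _) z') =
          s * trL W _ (K4t W x y * z')) ?_ ?_ ?_ ?_ hz'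
      · rintro _ ⟨c, d, -, x', hx', y', hy', rfl⟩
        exact h a b c d hab x hx y hy x' hx' y' hy'
      · simp
      · intro u v _ _ hu hv
        simp only [map_add, mul_add, hu, hv]
      · intro r u _ hu
        simp only [map_smul, mul_smul_comm, smul_eq_mul, hu]
        ring
    · simp
    · intro u v hu hv
      simp only [map_add, mul_add, hu, hv]
  · simp
  · intro u v _ _ hu hv
    simp only [map_add, add_mul, mul_add, hu, hv]
  · intro r u _ hu
    simp only [map_smul, smul_mul_assoc, smul_eq_mul, hu]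
    ring

end K4Prod

/-- **PW-K4.** -/
theorem hasKunneth_prod (hX : Helper47.Zero.HasKunneth C X) (hY : Helper47.Zero.HasKunneth C Y) :
    Helper47.Zero.HasKunneth C (X.prod Y) := by
  intro l
  choose p hp hpid hp0 using hX
  choose q hq hqid hq0 using hY
  let r : CH ((X.prod Y).prod (X.prod Y)) := ∑ i ∈ Finset.range (l + 1),
    C.mul _ (C.pull (K4a X Y) (p i)) (C.pull (K4b X Y) (q (l - i)))
  have hr : ∀ a b c d, ∀ x ∈ W.gr X a, ∀ y ∈ W.gr Y b, ∀ x' ∈ W.gr X c, ∀ y' ∈ W.gr Y d,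
      Helper47.Zero.dualAct C r (K4t W x y) (K4t W x' y') =
        (if a + b = l then 1 else 0) * Helper47.Zero.dual W (K4t W x y) (K4t W x' y') := by
    intro a b c d x hx y hy x' hx' y' hy'
    have h1 : Helper47.Zero.dualAct C r (K4t W x y) (K4t W x' y') =
        ∑ i ∈ Finset.range (l + 1), Helper47.Zero.dualAct C
          (C.mul _ (C.pull (K4a X Y) (p i)) (C.pull (K4b X Y) (q (l - i))))
            (K4t W x y) (K4t W x' y') :=
      map_sum (pairH C (K4t W x y) (K4t W x' y')) _ _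
    rw [h1, K4_dual x x' y y' hy hx']
    have h2 : ∀ i ∈ Finset.range (l + 1), Helper47.Zero.dualAct C
          (C.mul _ (C.pull (K4a X Y) (p i)) (C.pull (K4b X Y) (q (l - i))))
            (K4t W x y) (K4t W x' y') =
        if i = a then (if a + b = l then (-1 : K) ^ (b * c) *
          (Helper47.Zero.dual W x x' * Helper47.Zero.dual W y y') else 0) else 0 := by
      intro i hi
      rw [Finset.mem_range] at hi
      rw [K4_dualAct (hp i) (hq (l - i)) x x' y y' hy hx']
      by_cases hia : i = a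
      · rw [if_pos hia, ← hia, hpid i x (by rw [hia]; exact hx) x']
        by_cases hab : a + b = l
        · have hb : l - i = b := by omega
          rw [hia, if_pos hab, ← hia, hb, hqid b y hy y']
        · have hb : b ≠ l - i := by omega
          rw [hia, if_neg hab, ← hia, hq0 (l - i) b hb y hy y', mul_zero, mul_zero]
      · rw [if_neg hia, hp0 i a (Ne.symm hia) x hx x', zero_mul, mul_zero]
    rw [Finset.sum_congr rfl h2]
    by_cases hab : a + b = l
    · simp only [if_pos hab]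
      rw [Finset.sum_ite_eq' (Finset.range (l + 1)) a, if_pos (Finset.mem_range.2 (by omega)),
        _root_.one_mul]
    · simp only [if_neg hab]
      rw [zero_mul]
      exact Finset.sum_eq_zero fun i _ => by split_ifs <;> rfl
  refine ⟨r, ?_, ?_, ?_⟩
  · refine Submodule.sum_mem (CHiL _ _) fun i _ => ?_
    have := C.mul_mem _ _ _ _ _ (C.pull_mem (K4b X Y) _ _ (hq (l - i)))
      (C.pull_mem (K4a X Y) _ _ (hp i))
    rw [C.mul_comm]
    exact this
  · intro z hz z'
    have := K4_dualAct_ext (n := l) 1 (fun a b c d hab x hx y hy x' hx' y' hy' => by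
      rw [hr a b c d x hx y hy x' hx' y' hy', if_pos hab]) z hz z'
    rw [this, _root_.one_mul]
  · intro m hm z hz z'
    have := K4_dualAct_ext (n := m) 0 (fun a b c d hab x hx y hy x' hx' y' hy' => by
      rw [hr a b c d x hx y hy x' hx' y' hy', if_neg (by omega)]) z hz z'
    rw [this, zero_mul]

private lemma K4_pow_iso [Finite T] {A B : Pow X T}
    (hB : Helper47.Zero.HasKunneth C B.var) : Helper47.Zero.HasKunneth C A.var := by
  refine K4_iso (B.map A id) (A.map B id) ?_ ?_ hB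
  · rw [Pow.map_comp]
    exact Pow.map_id B
  · rw [Pow.map_comp]
    exact Pow.map_id A

private lemma K4_of_dim_zero {P : SmProjVar k} (hP : P.dim = 0) :
    Helper47.Zero.HasKunneth C P := by
  have hbot : ∀ m, m ≠ 0 → ∀ x ∈ W.gr P m, x = 0 := by
    intro m hm x hx
    rw [(W.graded P).eq_bot m (by omega)] at hx
    simpa using hx
  intro l
  by_cases hl : l = 0
  · subst hl
    refine ⟨C.Δ P, Δ_mem C P, ?_, ?_⟩
    · intro x hx y
      exact pairH_Δ C P x y
    · intro m hm x hx y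
      rw [hbot m hm x hx]
      change W.tr _ (pullL W (fst P P) 0 * C.cl _ (C.Δ P) * W.pull (snd P P) y) = 0
      rw [map_zero, zero_mul, zero_mul, ChowTheory.tr_zero]
  · refine ⟨0, (CHiL _ _).zero_mem, ?_, ?_⟩
    · intro x hx y
      rw [hbot l hl x hx]
      change W.tr _ (pullL W (fst P P) 0 * C.cl _ 0 * W.pull (snd P P) y) = W.tr P (0 * y)
      rw [map_zero, zero_mul, zero_mul, zero_mul, ChowTheory.tr_zero, ChowTheory.tr_zero]
    · intro m hm x hx y
      change W.tr _ (W.pull (fst P P) x * C.cl _ 0 * W.pull (snd P P) y) = 0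
      rw [map_zero, mul_zero, zero_mul, ChowTheory.tr_zero]

/-- **PW-K5.** -/
theorem hasKunneth_pow (hX : Helper47.Zero.HasKunneth C X) [Finite T] (A : Pow X T) :
    Helper47.Zero.HasKunneth C A.var := by
  revert A
  induction T using Finite.induction_empty_option with
  | of_equiv e h =>
    intro A
    exact h (A.relabel e)
  | h_empty =>
    intro A
    obtain ⟨P, hP0, hP⟩ := exists_point k
    have hK : Helper47.Zero.HasKunneth C P := K4_of_dim_zero hP0
    let θ : P.toOver ⟶ A.var.toOver := A.lift fun t => t.elim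
    let ψ : A.var.toOver ⟶ P.toOver := Over.homMk (A.var.toOver.hom ≫ inv P.toOver.hom) (by simp)
    refine K4_iso θ ψ ?_ ?_ hK
    · ext1
      rw [← cancel_mono P.toOver.hom, Over.w, Over.w]
    · exact A.hom_ext fun t => t.elim
  | h_option h =>
    intro A
    exact K4_pow_iso (B := ((pw X _).prod (Pow.single X)).relabel (Equiv.optionEquivSumPUnit _))
      (hasKunneth_prod (h _) hX)

end Pool.Agent.Helper11.PW
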