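import Mathlib
import Pool.Agent.Helper11.PW.St.K1

/-!
# PW-K: Künneth components and algebraic classes on powers

`AlgIn C X l`: `H^l(X)` is spanned by algebraic classes (so it is zero if `l` is odd).

Hints.
* `algIn_prod`: `H(X) ⊗ H(Y) = H(X × Y)` (`span_kunneth` in `Chow/Corr.lean`), graded pieces.
* `algIn_of_surj`: pull-back of algebraic classes.
* `algIn_of_decomposable`: `x ∈ H^l(M)`: `tr (x y) = pairH x y (Δ M) = ∑ tr (x cl b) tr (cl a y)`.
* `hasKunneth_prod`: for `X × Y` take `∑_{i + j = l} (c_i × c_j)` transported by the permutation of the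
  factors `(X × Y) × (X × Y) ≅ (X × X) × (Y × Y)`.
* `hasKunneth_pow`: induction on `T` (`Finite.induction_empty_option`).
* `murreD_of_algIn`: for `j ≥ 2 i` let `j = 2 l` (`π j` is homologically trivial for odd `j` as
  `H^j = 0`); `exists_proj` gives `e ∈ algProj` with the same cohomological action, `h = π j - e` is
  homologically trivial, hence nilpotent; for `a` homologically trivial `act e a = 0`
  (`act_algProj_hom`), so `act (π j) a = act h a`, which is again homologically trivial and fixed by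
  `π j`; hence `act (π j) a = act (h^m) a = 0`.  So `a = ∑_{j < 2 i} act (π j) a`; `murreD_iff`.
-/

universe u v w

open CategoryTheory AlgebraicGeometry Limits

namespace Pool.Agent.Helper11.PW

open Pool.Agent.Helper10 Pool.Agent.Helper10.SmProjVar Pool.Agent.Helper47.Chow
open Pool.Agent.Helper47.Desc

variable {k : Type u} [Field k] {K : Type v} [Field K] [CharZero K]
  {W : WeilCohomology.{u, v, w} k K} {C : ChowTheory W} {X Y M : SmProjVar k} {T : Type}

section Aux7

lemma k7_spannedBy {l : ℕ} (h : AlgIn C X (2 * l)) : SpannedBy C X l := by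
  intro x hx
  refine Submodule.span_mono ?_ (h x hx)
  rintro _ ⟨m, hm, a, ha, rfl⟩
  have hml : m = l := by omega
  subst hml
  exact ⟨a, ha, rfl⟩

lemma k7_odd {l : ℕ} (h : AlgIn C X l) (hl : l % 2 = 1) (x : W.H X) (hx : x ∈ W.gr X l) :
    x = 0 := by
  have h1 := h x hx
  have h2 : {z | ∃ i, 2 * i = l ∧ ∃ a ∈ CHi X i, C.ops.cl X a = z} = (∅ : Set (W.H X)) := by
    ext z
    simp only [Set.mem_setOf_eq, Set.mem_empty_iff_false, iff_false]
    rintro ⟨i, hi, -⟩
    omega
  rw [h2, Submodule.span_empty] at h1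
  exact (Submodule.mem_bot K).1 h1

/-- A correspondence with the same pairings as `π j` is homologically equivalent to it. -/
lemma k7_cl {π : ℕ → CH (X.prod X)} (hπ : C.IsCK X π) {j : ℕ} {e : CH (X.prod X)}
    (he : e ∈ CHi (X.prod X) X.dim)
    (h1 : ∀ x ∈ W.gr X j, ∀ y, pairH C x y e = W.tr X (x * y))
    (h2 : ∀ l, l ≠ j → ∀ x ∈ W.gr X l, ∀ y, pairH C x y e = 0) :
    C.cl _ (π j - e) = 0 := by
  refine eq_zero_of_kunneth W X X X.dim _
    (C.cl_mem _ _ _ (Submodule.sub_mem (CHiL _ _) (hπ.mem j) he)) ?_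
  intro l x hx y
  change pairH C x y (π j - e) = 0
  rw [map_sub]
  by_cases hjl : j = l
  · subst hjl
    rw [h1 x hx, pairH_apply, IsCK.act_same' hπ j x hx, sub_self]
  · rw [h2 l (Ne.symm hjl) x hx, pairH_apply, IsCK.act_other' hπ j l hjl x hx, sub_self]

/-- The algebraic part of `π j`. -/
lemma k7_exists {i : ℕ} (hi : ∀ l, 2 * i ≤ l → AlgIn C X l)
    (hi' : ∀ l, l + 2 * i ≤ 2 * X.dim → AlgIn C X l) {π : ℕ → CH (X.prod X)}
    (hπ : C.IsCK X π) {j : ℕ} (hj : 2 * i ≤ j) (hj' : j ≤ 2 * X.dim) :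
    ∃ e ∈ CHi (X.prod X) X.dim, C.cl _ (π j - e) = 0 ∧
      ∀ b ∈ CHi X i, C.cl X b = 0 → C.act e b = 0 := by
  by_cases hp : j % 2 = 1
  · refine ⟨0, (CHiL (X.prod X) X.dim).zero_mem, ?_, fun b _ _ => C.act_zero' b⟩
    refine k7_cl hπ (CHiL (X.prod X) X.dim).zero_mem ?_ ?_
    · intro x hx y
      rw [map_zero, k7_odd (hi j hj) hp x hx, zero_mul, ChowTheory.tr_zero]
    · intro l _ x _ y
      exact map_zero _
  · obtain ⟨l, rfl⟩ : ∃ l, j = 2 * l := ⟨j / 2, by omega⟩
    have hd : l + (X.dim - l) = X.dim := by omega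
    obtain ⟨e, he, -, hpair⟩ := exists_proj C X hd (k7_spannedBy (hi _ hj))
      (k7_spannedBy (hi' _ (by omega)))
    refine ⟨e, algProj_mem C hd he, ?_, ?_⟩
    · refine k7_cl hπ (algProj_mem C hd he) hpair ?_
      intro m hm x hx y
      exact pairH_algProj_ne hd he hm x hx y
    · intro b hb h0
      exact act_algProj_hom hd he b hb h0

end Aux7

/-- **PW-K7.** -/
theorem murreD_of_algIn (h : NilHom C X) {i : ℕ} (hi : ∀ l, 2 * i ≤ l → AlgIn C X l)
    (hi' : ∀ l, l + 2 * i ≤ 2 * X.dim → AlgIn C X l) {π : ℕ → CH (X.prod X)}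
    (hπ : C.IsCK X π) : C.MurreD X π i := by
  rw [murreD_iff hπ]
  intro a ha h0 j hj
  by_cases hj' : j ≤ 2 * X.dim
  swap
  · rw [hπ.zero j (by omega)]
    exact C.act_zero' a
  obtain ⟨e, he, hcl, hact⟩ := k7_exists hi hi' hπ hj hj'
  obtain ⟨n, hn⟩ := h (π j - e) (Submodule.sub_mem (CHiL _ _) (hπ.mem j) he) hcl
  have hb : C.act (π j) a ∈ CHi X i := C.act_mem _ (hπ.mem j) i a ha
  have hb0 : C.cl X (C.act (π j) a) = 0 := C.cl_act_of_left _ _ h0
  have hbb : C.act (π j) (C.act (π j) a) = C.act (π j) a := by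
    rw [← C.act_comp, hπ.idem j]
  have hfix : C.act (π j - e) (C.act (π j) a) = C.act (π j) a := by
    have h1 : C.act ((π j - e) + e) (C.act (π j) a) =
        C.act (π j - e) (C.act (π j) a) + C.act e (C.act (π j) a) := C.act_add _ _ _
    rw [sub_add_cancel, hbb, hact _ hb hb0, add_zero] at h1
    exact h1.symm
  have hpow : ∀ m, C.act (C.pow (π j - e) m) (C.act (π j) a) = C.act (π j) a := by
    intro m
    induction m with
    | zero => exact C.act_Δ _
    | succ m ih =>
      change C.act (C.comp (C.pow (π j - e) m) (π j - e)) _ = _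
      rw [C.act_comp, ih, hfix]
  rw [← hpow n, hn]
  exact C.act_zero' _

end Pool.Agent.Helper11.PW
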