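import Mathlib
import Pool.Agent.Helper11.PW.St.S3
import Pool.Agent.Helper47.Zero.Conseq

/-!
# PW-S4: Künneth components of direct summands

Hints.  Let `c_l`, `l ∈ ℕ`, be the Künneth components of `P`.  The correspondence `β_i : Y → P` of
codimension `s i` maps `H^l(Y)` to `H^{l + 2 (s i) - 2 dim Y}(P)`.  Put
`c'_l = ∑ i, α_i ∘ c_{l + 2 (s i) - 2 dim Y} ∘ β_i` (zero if `l + 2 s i < 2 dim Y`).  It acts as the
identity on `H^l(Y)` since `∑ α_i ∘ β_i = Δ`, and as zero on `H^{l'}(Y)`, `l' ≠ l`.  Use `hAct`,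
`hAct_comp`, `hAct_mem` (`Helper47/Chow/HomAct.lean`), `eq_of_tr`.
-/

universe u v w

open CategoryTheory AlgebraicGeometry Limits

namespace Pool.Agent.Helper11.PW

open Pool.Agent.Helper10 Pool.Agent.Helper10.SmProjVar Pool.Agent.Helper47.Chow
open Pool.Agent.Helper47.Desc

variable {k : Type u} [Field k] {K : Type v} [Field K] [CharZero K]
  {W : WeilCohomology.{u, v, w} k K} {C : ChowTheory W} {P Y : SmProjVar k}

/-- The cohomology vanishes in degrees above twice the dimension. -/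
lemma eq_zero_of_gt (Z : SmProjVar k) {n : ℕ} (hn : 2 * Z.dim < n) {x : W.H Z}
    (hx : x ∈ W.gr Z n) : x = 0 := by
  apply tr_eq_zero_of_homog W
  intro m y hy
  exact (W.trace Z).eq_zero (n + m) _ (by omega) ((W.graded Z).mul_mem _ _ _ _ hx hy)

/-- A correspondence kills the classes whose image would have negative degree. -/
lemma hAct_eq_zero_of_lt {X Z : SmProjVar k} {s l : ℕ} (γ : CH (X.prod Z))
    (hγ : γ ∈ CHi (X.prod Z) s) (x : W.H X) (hx : x ∈ W.gr X l) (h : l + 2 * s < 2 * X.dim) :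
    hAct C γ x = 0 := by
  apply tr_eq_zero_of_homog W
  intro n y hy
  by_cases hn : 2 * Z.dim < n
  · rw [eq_zero_of_gt Z hn hy, mul_zero, ChowTheory.tr_zero]
  · rw [tr_hAct, pairH_apply]
    refine (W.trace _).eq_zero (l + 2 * s + n) _ ?_
      ((W.graded _).mul_mem _ _ _ _ ((W.graded _).mul_mem _ _ _ _
        ((W.pull_hom _).map_mem _ _ hx) (C.cl_mem _ _ _ hγ)) ((W.pull_hom _).map_mem _ _ hy))
    change l + 2 * s + n ≠ 2 * (Z.dim + X.dim)
    omega

/-- **PW-S4.** -/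
theorem hasKunneth_of_isSummand (hP : Helper47.Zero.HasKunneth C P) (hY : IsSummand C P Y) :
    Helper47.Zero.HasKunneth C Y := by
  classical
  obtain ⟨m, s, t, β, α, hβα, hsum⟩ := hY
  choose c hc hc1 hc2 using hP
  have h1 : ∀ l, ∀ x ∈ W.gr P l, hAct C (c l) x = x := by
    intro l x hx
    apply eq_of_tr
    intro y
    rw [tr_hAct, pairH_apply]
    exact hc1 l x hx y
  have h2 : ∀ l n, n ≠ l → ∀ x ∈ W.gr P n, hAct C (c l) x = 0 := by
    intro l n hn x hx
    apply eq_of_tr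
    intro y
    rw [tr_hAct, pairH_apply, zero_mul, ChowTheory.tr_zero]
    exact hc2 l n hn x hx y
  have hβc : ∀ i j, C.comp (β i) (c j) ∈ CHi (Y.prod P) (s i) := fun i j =>
    comp_mem' C _ _ (hβα i).2.1 (hc j) rfl
  have hq : ∀ i j, C.comp (C.comp (β i) (c j)) (α i) ∈ CHi (Y.prod Y) Y.dim := fun i j =>
    comp_mem' C _ _ (hβc i j) (hβα i).2.2 (hβα i).1
  have hqa : ∀ i j x, hAct C (C.comp (C.comp (β i) (c j)) (α i)) x =
      hAct C (α i) (hAct C (c j) (hAct C (β i) x)) := by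
    intro i j x
    rw [hAct_comp C _ _ (hβc i j) (hβα i).2.2 (hβα i).1,
      hAct_comp C _ _ (hβα i).2.1 (hc j) rfl]
  intro l
  let q : Fin m → CH (Y.prod Y) := fun i => if 2 * Y.dim ≤ l + 2 * s i then
    C.comp (C.comp (β i) (c (l + 2 * s i - 2 * Y.dim))) (α i) else 0
  have hid : ∀ x ∈ W.gr Y l, hAct C (∑ i, q i) x = x := by
    intro x hx
    have h3 : ∀ i, hAct C (q i) x = hAct C (C.comp (β i) (α i)) x := by
      intro i
      rw [hAct_comp C _ _ (hβα i).2.1 (hβα i).2.2 (hβα i).1]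
      by_cases hi : 2 * Y.dim ≤ l + 2 * s i
      · have h4 : q i = C.comp (C.comp (β i) (c (l + 2 * s i - 2 * Y.dim))) (α i) := if_pos hi
        rw [h4, hqa, h1 _ _ (hAct_mem C (β i) (hβα i).2.1 x hx (by omega))]
      · have h4 : q i = 0 := if_neg hi
        rw [h4, hAct_zero_left, hAct_eq_zero_of_lt (β i) (hβα i).2.1 x hx (by omega), hAct_zero]
    rw [hAct_sum_left, Finset.sum_congr rfl fun i _ => h3 i, ← hAct_sum_left, hsum, hAct_Δ]
  have hze : ∀ n, n ≠ l → ∀ x ∈ W.gr Y n, hAct C (∑ i, q i) x = 0 := by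
    intro n hn x hx
    rw [hAct_sum_left]
    refine Finset.sum_eq_zero fun i _ => ?_
    by_cases hi : 2 * Y.dim ≤ l + 2 * s i
    · have h4 : q i = C.comp (C.comp (β i) (c (l + 2 * s i - 2 * Y.dim))) (α i) := if_pos hi
      rw [h4, hqa]
      by_cases hi' : 2 * Y.dim ≤ n + 2 * s i
      · rw [h2 _ (n + 2 * s i - 2 * Y.dim) (by omega) _
          (hAct_mem C (β i) (hβα i).2.1 x hx (by omega)), hAct_zero]
      · rw [hAct_eq_zero_of_lt (β i) (hβα i).2.1 x hx (by omega), hAct_zero, hAct_zero]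
    · have h4 : q i = 0 := if_neg hi
      rw [h4, hAct_zero_left]
  refine ⟨∑ i, q i, ?_, fun x hx y => ?_, fun n hn x hx y => ?_⟩
  · refine Submodule.sum_mem (CHiL (Y.prod Y) Y.dim) fun i _ => ?_
    by_cases hi : 2 * Y.dim ≤ l + 2 * s i
    · have h4 : q i = C.comp (C.comp (β i) (c (l + 2 * s i - 2 * Y.dim))) (α i) := if_pos hi
      rw [h4]
      exact hq i _
    · have h4 : q i = 0 := if_neg hi
      rw [h4]
      exact Submodule.zero_mem _
  · have h5 := tr_hAct C (∑ i, q i) x y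
    rw [hid x hx, pairH_apply] at h5
    exact h5.symm
  · have h5 := tr_hAct C (∑ i, q i) x y
    rw [hze n hn x hx, zero_mul, ChowTheory.tr_zero, pairH_apply] at h5
    exact h5.symm

end Pool.Agent.Helper11.PW
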